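import Mathlib
import Pool.Agent.H197.PD.Stm2
set_option autoImplicit false

/-!
# Project GS (helper197), very famous pages on the restriction conjecture: statements of the lemmas, with proofs

GOAL. `γ : ℝ^d → ℝ` smooth, `U ⊆ ℝ^d` bounded and open, `(E h)(x, t) = ∫ h(y) e^{-i(x·y + t γ(y))} dy`. If the Hessian of `γ` is
invertible almost everywhere in `U`, then every measurable density on `U` agrees outside a set of small measure with an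
`h ∈ C_c(U)` with `|E h(ξ)| ≤ C √log(2+|ξ|) (1+|ξ|)^(-d/2)`; and conversely.

Every `S_...` below is a `Prop` to be proved in a file of its own (`theorem t_... : S_...` in the namespace `Pool.Agent.H197.GS`).
-/

namespace Pool.Agent.H197.GS

open MeasureTheory Set Metric Complex Filter Topology
open Pool.Agent.H197.PD (E kap chi vec zet dec S_KAP S_RAND S_MEMLP)
open scoped ENNReal NNReal RealInnerProductSpace BigOperators ContDiff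

/-- the kernel `e^{-i(⟨x,y⟩ + t γ(y))}` -/
noncomputable def ek {d : ℕ} (γ : E d → ℝ) (x : E d) (t : ℝ) (y : E d) : ℂ :=
  Complex.exp (-((⟪x, y⟫ + t * γ y : ℝ) : ℂ) * I)

/-- the first `d` coordinates of a frequency -/
noncomputable def fx {d : ℕ} (ξ : E (d + 1)) : E d := WithLp.toLp 2 (fun i => ξ i.castSucc)

/-- the last coordinate of a frequency -/
noncomputable def fl {d : ℕ} (ξ : E (d + 1)) : ℝ := ξ (Fin.last d)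

/-- the extension operator of the graph of `γ` (the densities used vanish outside a bounded set) -/
noncomputable def ex {d : ℕ} (γ : E d → ℝ) (h : E d → ℂ) (ξ : E (d + 1)) : ℂ :=
  ∫ y, h y * ek γ (fx ξ) (fl ξ) y

/-- the gradient of `γ` expands distances in `U` at least by the factor `c` -/
def Expands {d : ℕ} (γ : E d → ℝ) (U : Set (E d)) (c : ℝ) : Prop :=
  ∀ y ∈ U, ∀ y' ∈ U, c * ‖y - y'‖ ≤ ‖gradient γ y - gradient γ y'‖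

/-- GS-IBP: Fourier decay of a smooth family of amplitudes, uniformly on compact sets of parameters. Proof by induction on `K` of the statement with
`(1+‖q‖^2)^(-K)` on the right (then `(1+‖q‖)^2 ≤ 2(1+‖q‖^2)`), for ALL `b`. `K = 0`: `b` is bounded on the compact `S × closedBall 0 R`. Step: for `b` as in the hypothesis let
`∂_i b (p,u) = fderiv ℝ b (p,u) (0, e_i)`; it is again smooth (`ContDiff.fderiv_right`, `clm_apply`) and vanishes for `‖u‖ > R` (there `b` is zero on the open set `{‖u‖ > R}`; use `R' = R + 1` in the induction or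
`R < ‖u‖` in the hypothesis). Integration by parts (`integral_mul_fderiv_eq_neg_fderiv_mul_of_integrable` or the `HasLineDerivAt` version; all functions are continuous with compact support in `u`):
`∫ ∂_i b (p,u) e^{-i⟨q,u⟩} du = i q_i ∫ b(p,u) e^{-i⟨q,u⟩} du`. So `(1 + ‖q‖²) ∫ b e^{-i⟨q,u⟩} = ∫ (b - ∑_i ∂_i ∂_i b) e^{-i⟨q,u⟩}` (`EuclideanSpace.norm_sq_eq`) and the induction hypothesis applies to
`b - ∑_i ∂_i ∂_i b`. -/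
def S_IBP : Prop :=
  ∀ (d : ℕ) (W : Type) [NormedAddCommGroup W] [NormedSpace ℝ W] (b : W × E d → ℂ) (R : ℝ),
    ContDiff ℝ ∞ b → (∀ p u, R ≤ ‖u‖ → b (p, u) = 0) → ∀ S : Set W, IsCompact S → ∀ K : ℕ,
    ∃ C : ℝ, 0 < C ∧ ∀ p ∈ S, ∀ q : E d,
      ‖∫ u, b (p, u) * Complex.exp (-((⟪q, u⟫ : ℝ) : ℂ) * I)‖ ≤ C * (1 + ‖q‖) ^ (-(K : ℝ))

/-- GS-PARI: smoothness of a parametric integral. Proof. Either by induction (`contDiff_succ_iff_hasFDerivAt` / `hasFDerivAt_integral_of_dominated...` for all target spaces), or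
shorter: `contDiff_of...convolution_right_with_param` (`HasCompactSupport.contDiff_convolution_right_with_param` and relatives in `Mathlib.Analysis.Calculus.ContDiff.Convolution` /
`Mathlib.Analysis.Convolution`): with `f = 1_{[-1,0]}` and `g(p, τ) = F(p, τ) β(τ)`, `β` a smooth bump equal to one on `[0,1]`, `(f ⋆ g p)(0) = ∫ f(s) g(p, -s) ds = ∫_0^1 F(p,τ) dτ`. -/
def S_PARI : Prop :=
  ∀ (W : Type) [NormedAddCommGroup W] [NormedSpace ℝ W] [FiniteDimensional ℝ W] (F : W × ℝ → ℝ),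
    ContDiff ℝ ∞ F → ContDiff ℝ ∞ (fun p : W => ∫ τ in (0 : ℝ)..1, F (p, τ))

/-- GS-TAY (uses `S_PARI`): scaled Taylor remainder of order two. Proof. `G ((y,r),u) = ∫_0^1 (1-τ) D²γ(y + τ r u)(u,u) dτ` where `D²γ(z)(u,u) = fderiv ℝ (fun z => fderiv ℝ γ z) z u u`
(or, with less coercions: `D²γ(z)(u,u) = iteratedFDeriv ℝ 2 γ z ![u,u]`); the integrand is jointly smooth in `(y,r,u,τ)`, so `S_PARI` applies (with `W = (E d × ℝ) × E d`). For the formula apply to `f(τ) = γ(y + τ r u)`: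
`f' = r Dγ(y+τru)u`, `f'' = r² D²γ(y+τru)(u,u)` and integrate by parts: `f 1 - f 0 - f' 0 = ∫_0^1 (1-τ) f''(τ) dτ` (`intervalIntegral.integral_mul_deriv_eq_deriv_mul`, or the derivative of `(1-τ) f'(τ) + f(τ)` is `(1-τ) f''(τ)`,
`intervalIntegral.integral_eq_sub_of_hasDerivAt`). `fderiv ℝ γ y u = ⟪gradient γ y, u⟫` (`inner_gradient_left`/`toDual_symm_apply`). -/
def S_TAY : Prop :=
  S_PARI → ∀ (d : ℕ) (γ : E d → ℝ), ContDiff ℝ ∞ γ → ∃ G : (E d × ℝ) × E d → ℝ, ContDiff ℝ ∞ G ∧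
    ∀ (y : E d) (r : ℝ) (u : E d), γ (y + r • u) = γ y + r * ⟪gradient γ y, u⟫ + r ^ 2 * G ((y, r), u)

/-- GS-CAP (uses `S_IBP`, `S_TAY`): a cap of radius `r ≤ |t|^(-1/2)`. Proof. Substitute `y = y₀ + r u` (`integral_comp_smul...`/`Measure.integral_comp_smul`, translation invariance; factor `r^d`). With `G` from `S_TAY`
the phase is `⟪x, y⟫ + t γ(y) = (⟪x,y₀⟫ + t γ(y₀)) + ⟪r (x + t ∇γ(y₀)), u⟫ + (t r²) G((y₀,r),u)`; so the integral is a unimodular number times `r^d ∫ b(p,u) e^{-i⟨q,u⟩} du`, `q = r (x + t ∇γ(y₀))`,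
`p = (y₀, r, s, lm, w)`, `s = t r² ∈ [-1,1]`, `b(p,u) = chi u * chi (lm u + w) * exp (-i s G((y₀,r),u))`, jointly smooth (`chi` is a finite product of the smooth functions `kap (u i)`), and zero for `‖u‖ ≥ 4 d`
(`chi u ≠ 0` implies `0 < u i < 2` for all `i`, `‖u‖ ≤ 2 √d < 4 d`). `S_IBP` with the compact set of the `p` with `‖y₀‖ ≤ R`, `r ∈ [0,1]`, `s ∈ [-1,1]`, `lm ∈ [0,1]`, `‖w‖ ≤ 8 d`. If `‖w‖ > 8 d` the integrand is zero: for `u` in the support, `‖lm u‖ ≤ 4 d`,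
so `‖lm u + w‖ > 4 d` and `chi (lm u + w) = 0`. -/
def S_CAP : Prop :=
  ∀ (d : ℕ) (γ : E d → ℝ), 1 ≤ d → ContDiff ℝ ∞ γ → ∀ (R : ℝ) (K : ℕ), ∃ C : ℝ, 0 < C ∧
    ∀ y₀ : E d, ‖y₀‖ ≤ R → ∀ r : ℝ, 0 < r → r ≤ 1 → ∀ (x : E d) (t : ℝ), |t| * r ^ 2 ≤ 1 →
    ∀ lm : ℝ, 0 ≤ lm → lm ≤ 1 → ∀ w : E d,
      ‖∫ y, ((chi d (r⁻¹ • (y - y₀)) * chi d (lm • r⁻¹ • (y - y₀) + w) : ℝ) : ℂ) * ek γ x t y‖ ≤
        C * r ^ d * (1 + r * ‖x + t • gradient γ y₀‖) ^ (-(K : ℝ))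

/-- GS-SEP: sums over separated points. Proof. The balls `B(w j, s/2)` are disjoint; for `z` in `B(w j, s/2)` one has `1 + ‖z‖ ≤ (3/2)(1 + ‖w j‖)`, so
`vol(B(0,s/2)) (1+‖w j‖)^(-K) ≤ (3/2)^K ∫_{B(w j, s/2)} (1+‖z‖)^(-K) dz`; sum over `j`: `∑ ≤ (3/2)^K (∫ (1+‖z‖)^(-K) dz) / vol(B(0,s/2))`, and `vol B(0,s/2) = (s/2)^d vol B(0,1)` (`Measure.addHaar_ball`),
the integral is finite since `K > d` (`integrable_one_add_norm`). -/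
def S_SEP : Prop :=
  ∀ (d K : ℕ), 1 ≤ d → d < K → ∃ C : ℝ, 0 < C ∧ ∀ (J : Type) (A : Finset J) (w : J → E d) (s : ℝ),
    0 < s → s ≤ 1 → (∀ j ∈ A, ∀ j' ∈ A, j ≠ j' → s ≤ ‖w j - w j'‖) →
    ∑ j ∈ A, (1 + ‖w j‖) ^ (-(K : ℝ)) ≤ C * s ^ (-(d : ℝ))

/-- the Fourier integrals of the cells at scale `N` -/
noncomputable def ca {d : ℕ} (γ : E d → ℝ) (R N : ℕ) (j : Fin d → Fin (2 * (N * R) + 4)) (x : E d) (t : ℝ) : ℂ :=
  ∫ y, ((chi d ((N : ℝ) • y - vec d (N * R) j) : ℝ) : ℂ) * ek γ x t y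

/-- the cells of the finite set `J` are well inside `U` -/
def Inside {d : ℕ} (U : Set (E d)) (R N : ℕ) (J : Finset (Fin d → Fin (2 * (N * R) + 4))) : Prop :=
  ∀ j ∈ J, closedBall ((N : ℝ)⁻¹ • vec d (N * R) j) (4 * (d : ℝ) / N) ⊆ U

/-- GS-SQA (uses `S_CAP`, `S_SEP`; also `S_KAP` for `kap`): the square function for `|t| ≤ N²`.
Proof. `K = d + 1`. Write `v_j = vec d (N R) j`, `y_j = v_j / N ∈ U`, `g_j = ∇γ(y_j)`, `L ≥ 1` a bound of `‖∇γ‖` on `closedBall 0 R` (continuous, compact). `S_CAP` with `r = 1/N`, `y₀ = y_j`, `lm = 0`, `w = (1,…,1)`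
(`chi (1,…,1) = kap 1 ^ d = 1`, `kap 1 = 1`, `r⁻¹ (y - y₀) = N y - v_j`) gives `‖ca j‖ ≤ C N^(-d) (1 + ‖x + t g_j‖/N)^(-K)`. Three cases.
(i) `‖x‖ ≥ 2 L |t|`: `‖x + t g_j‖ ≥ ‖x‖/2`, at most `(2 N R + 4)^d ≤ (6 N (R+1))^d` cells, so the sum is `≤ C N^d N^(-2d) (1 + ‖x‖/(2N))^(-2K) ≤ C N^(-d) (1+‖x‖/(2N))^(-d) = C (N + ‖x‖/2)^(-d)`, and `|t| ≤ ‖x‖`.
(ii) `‖x‖ < 2 L |t|`, `|t| ≤ N`: trivial bound `C N^d N^(-2d)` and `N + ‖x‖ + |t| ≤ (2 + 2L) N`.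
(iii) `‖x‖ < 2 L |t|`, `N < |t| ≤ N²`: with `w_j = (x + t g_j)/N`, for `j ≠ j'` (then `‖v_j - v_j'‖ ≥ 1`, different integer vectors) `‖w_j - w_j'‖ = |t| ‖g_j - g_j'‖/N ≥ c |t|/N² · ‖v_j - v_j'‖ ≥ s := min c 1 · |t|/N² ≤ 1`;
`(1+‖w‖)^(-2K) ≤ (1+‖w‖)^(-K)`, and `S_SEP` gives `∑ ≤ C N^(-2d) s^(-d) = C' |t|^(-d)`; `N + ‖x‖ + |t| ≤ (2 + 2L)|t|`. -/
def S_SQA : Prop :=
  ∀ (d : ℕ) (γ : E d → ℝ), 1 ≤ d → ContDiff ℝ ∞ γ → ∀ (R : ℕ) (c : ℝ), 0 < c → ∃ C : ℝ, 0 < C ∧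
    ∀ U : Set (E d), U ⊆ closedBall 0 R → Expands γ U c → ∀ N : ℕ, 1 ≤ N →
    ∀ J : Finset (Fin d → Fin (2 * (N * R) + 4)), Inside U R N J → ∀ (x : E d) (t : ℝ),
      |t| ≤ (N : ℝ) ^ 2 → ∑ j ∈ J, ‖ca γ R N j x t‖ ^ 2 ≤ C * ((N : ℝ) + ‖x‖ + |t|) ^ (-(d : ℝ))

/-- the Fourier integral of the product of the sub-cell `k` (radius `r`) and the cell `j` -/
noncomputable def cjk {d : ℕ} (γ : E d → ℝ) (R N N' : ℕ) (r : ℝ) (j : Fin d → Fin (2 * (N * R) + 4))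
    (k : Fin d → Fin (2 * N' + 4)) (x : E d) (t : ℝ) : ℂ :=
  ∫ y, ((chi d (r⁻¹ • y - vec d N' k) * chi d ((N : ℝ) • y - vec d (N * R) j) : ℝ) : ℂ) * ek γ x t y

/-- GS-SUB (uses `S_KAP`): subdivision of the cells. Proof. (a) `S_KAP` (partition at scale `N'` at the point `(r N')⁻¹ • y`, of norm `≤ 1` for `‖y‖ ≤ R + 1`) gives `∑_k chi (r⁻¹ y - u_k) = 1`, `u_k = vec d N' k`; the support of
`chi (N y - v_j)` is in `closedBall y_j (2d/N) ⊆ closedBall 0 R`; sum and integral interchange (finite sum of continuous functions with compact support).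
If `cjk ≠ 0` there is `y` with `0 < y i/r - u_k i < 2` and `0 < N y i - v_j i < 2` for all `i` (`chi ≠ 0` is a product of `kap ≠ 0`), hence with `λ = N r ≤ 1`: `|λ u_k i - v_j i| < 2`. So (b) `‖r u_k - y_j‖ ≤ 2 √d/N ≤ 4 d/N` and (c) every integer `v_j i` is in an
open interval of length `4`, at most `4^d` such `j`. -/
def S_SUB : Prop :=
  ∀ (d R N N' : ℕ) (r : ℝ), 1 ≤ d → 1 ≤ N → 0 < r → r * N ≤ 1 → ((R : ℝ) + 1) / r ≤ N' →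
    ∀ (γ : E d → ℝ), Continuous γ → ∀ (x : E d) (t : ℝ),
    (∀ j, closedBall ((N : ℝ)⁻¹ • vec d (N * R) j) (4 * (d : ℝ) / N) ⊆ closedBall 0 R →
      ca γ R N j x t = ∑ k, cjk γ R N N' r j k x t) ∧
    (∀ j k, cjk γ R N N' r j k x t ≠ 0 →
      r • vec d N' k ∈ closedBall ((N : ℝ)⁻¹ • vec d (N * R) j) (4 * (d : ℝ) / N)) ∧
    ∀ k, {j | cjk γ R N N' r j k x t ≠ 0}.ncard ≤ 4 ^ d

/-- GS-SQB (uses `S_CAP`, `S_SEP`, `S_SUB`): the square function for `|t| > N²`.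
Proof. `K = 2 d + 2`, `r = |t|^(-1/2) < 1/N ≤ 1`, so `r² |t| = 1`. Let `N' = ⌈(R+1)/r⌉₊`; `S_KAP` (partition at scale `N'` at the point `(r N')⁻¹ y`) gives `∑_k chi (r⁻¹ y - u_k) = 1` for `‖y‖ ≤ R + 1`, `u_k = vec d N' k`,
`k : Fin d → Fin (2N'+4)`. For `j ∈ J` the support of `chi (N y - v_j)` is in `closedBall y_j (2d/N) ⊆ U ⊆ closedBall 0 R`, so `ca j = ∑_k c_jk`, `c_jk = ∫ chi (r⁻¹ y - u_k) chi (N y - v_j) ek dy`.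
If `c_jk ≠ 0` the supports meet: with `λ = N r ≤ 1`, for each coordinate `|λ u_k i - v_j i| < 2`, so (1) `y₀ = r u_k ∈ closedBall y_j (2d/N) ⊆ U`, (2) for every `k` at most `4^d` such `j` (each integer `v_j i` is in an
open interval of length `4`). By `S_CAP` with `y₀ = r u_k`, `lm = λ`, `w = λ u_k - v_j` (`λ r⁻¹ (y - y₀) + w = N y - v_j`): `‖c_jk‖ ≤ β_k := C r^d (1 + ‖w_k‖)^(-K)`, `w_k = r (x + t ∇γ(r u_k))`. Let `T` be the set of the `k` with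
`c_jk ≠ 0` for some `j ∈ J` and `Σ = ∑_{k ∈ T} β_k`. Then `‖ca j‖ ≤ ∑_k ‖c_jk‖ ≤ Σ`, so `∑_j ‖ca j‖² ≤ Σ ∑_j ∑_k ‖c_jk‖ ≤ Σ · 4^d Σ`. It remains to bound `Σ`; `L ≥ 1` a bound of `‖∇γ‖` on `closedBall 0 R`.
(i) `‖x‖ < 2 L |t|`: for `k ≠ k'` in `T`, `‖w_k - w_k'‖ = r |t| ‖∇γ(r u_k) - ∇γ(r u_k')‖ ≥ r |t| c r ‖u_k - u_k'‖ ≥ c ≥ min c 1`, so `S_SEP` gives `Σ ≤ C r^d`, `Σ² ≤ C |t|^(-d)`, and `N + ‖x‖ + |t| ≤ (2+2L)|t|` (`N ≤ N² < |t|`).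
(ii) `‖x‖ ≥ 2 L |t|`: `‖w_k‖ ≥ r ‖x‖/2`, at most `(2N'+4)^d ≤ C r^(-d)` indices, so `Σ ≤ C (1 + r‖x‖/2)^(-K)`, and `r ‖x‖ = ‖x‖ |t|^(-1/2) ≥ ‖x‖^(1/2)` (`|t| ≤ ‖x‖`), `‖x‖ ≥ |t| ≥ 1`: `Σ² ≤ C ‖x‖^(-K) ≤ C ‖x‖^(-d)`, `N + ‖x‖ + |t| ≤ 3 ‖x‖`. -/
def S_SQB : Prop :=
  ∀ (d : ℕ) (γ : E d → ℝ), 1 ≤ d → ContDiff ℝ ∞ γ → ∀ (R : ℕ) (c : ℝ), 0 < c → ∃ C : ℝ, 0 < C ∧
    ∀ U : Set (E d), U ⊆ closedBall 0 R → Expands γ U c → ∀ N : ℕ, 1 ≤ N →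
    ∀ J : Finset (Fin d → Fin (2 * (N * R) + 4)), Inside U R N J → ∀ (x : E d) (t : ℝ),
      (N : ℝ) ^ 2 < |t| → ∑ j ∈ J, ‖ca γ R N j x t‖ ^ 2 ≤ C * ((N : ℝ) + ‖x‖ + |t|) ^ (-(d : ℝ))

/-- GS-APX: approximation by `C_c(U)`. Proof. We may assume `ρ ≤ M`. Inner regularity: compact `K₀ ⊆ U` with `vol(U \ K₀) < ε/2`. `φ 1_{K₀}` is integrable; take a continuous compactly supported `g` with
`∫ ‖φ 1_{K₀} - g‖ ≤ ρ ε/4` (`MemLp.exists_hasCompactSupport_eLpNorm_sub_le` with `p = 1`), so `vol {ρ < ‖φ 1_{K₀} - g‖} ≤ ε/4` (Markov, `mul_meas_ge_le_lintegral₀`). Let `θ` be continuous with values in `[0,1]`,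
`θ = 1` on `K₀` and compact support in `U` (`exists_continuous_one_of_compact_subset_open` or `exists_contMDiff...`/`exists_tsupport_one_of_isOpen_isClosed`), and `clip z = (min 1 (2M/‖z‖)) z` written as `(2M / max (2M) ‖z‖) • z` (continuous).
`F = θ · clip(g)`: on `K₀`, outside the bad set, `‖g‖ ≤ ‖φ‖ + ρ ≤ 2M`, so `F = g` and `‖φ - F‖ ≤ ρ`. -/
def S_APX : Prop :=
  ∀ (d : ℕ) (U : Set (E d)), IsOpen U → Bornology.IsBounded U → ∀ (M : ℝ), 0 < M → ∀ φ : E d → ℂ, Measurable φ →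
    (∀ y, ‖φ y‖ ≤ M) → ∀ ρ : ℝ, 0 < ρ → ∀ ε : ℝ, 0 < ε →
    ∃ F : E d → ℂ, Continuous F ∧ HasCompactSupport F ∧ tsupport F ⊆ U ∧ (∀ y, ‖F y‖ ≤ 2 * M) ∧
      volume {y | y ∈ U ∧ ρ < ‖φ y - F y‖} ≤ ENNReal.ofReal ε

/-- GS-DISC (uses `S_KAP`): discretisation on the lattice. Proof. `F` is uniformly continuous (`HasCompactSupport.uniformContinuous...`, `Continuous.uniformContinuous_of_hasCompactSupport`?), and `tsupport F` is compact in the open set `U`, so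
there is `δ₀ > 0` with `closedBall y δ₀ ⊆ U` for `y ∈ tsupport F` (`IsCompact.exists_cthickening_subset_open`) and `‖F y - F y'‖ ≤ δ` for `‖y - y'‖ ≤ δ₀`. Take `N₀ ≥ 4 d/δ₀`. The sum minus `F y` is
`∑_j (F(y_j) - F y) chi (N y - v_j)` since the `chi` sum to one (`S_KAP` at scale `N R` at the point `R⁻¹ y`, of norm at most one; `R ≥ 1`), and `chi (N y - v_j) ≠ 0` implies `0 < N y i - v_j i < 2`, `‖y - y_j‖ ≤ 2 √d/N ≤ δ₀`. -/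
def S_DISC : Prop :=
  ∀ (d R : ℕ), 1 ≤ d → 1 ≤ R → ∀ U : Set (E d), IsOpen U → U ⊆ closedBall 0 R →
    ∀ F : E d → ℂ, Continuous F → HasCompactSupport F → tsupport F ⊆ U → ∀ δ : ℝ, 0 < δ →
    ∃ N₀ : ℕ, 1 ≤ N₀ ∧ ∀ N : ℕ, N₀ ≤ N →
      (∀ j : Fin d → Fin (2 * (N * R) + 4), F ((N : ℝ)⁻¹ • vec d (N * R) j) ≠ 0 →
        closedBall ((N : ℝ)⁻¹ • vec d (N * R) j) (4 * (d : ℝ) / N) ⊆ U) ∧
      ∀ y ∈ closedBall (0 : E d) R,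
        ‖∑ j, F ((N : ℝ)⁻¹ • vec d (N * R) j) * ((chi d ((N : ℝ) • y - vec d (N * R) j) : ℝ) : ℂ) - F y‖ ≤ δ

/-- GS-EXB: elementary bounds. Proof. `‖ek‖ = 1`; `‖ek(ξ) - ek(ξ')‖ ≤ |⟪fx ξ - fx ξ', y⟫ + (fl ξ - fl ξ') γ y| ≤ (‖y‖ + |γ y|) ‖ξ - ξ'‖` (`‖fx ξ‖ ≤ ‖ξ‖`, `|fl ξ| ≤ ‖ξ‖`,
`‖exp(ia) - exp(ib)‖ ≤ |a - b|`: `Real.norm_exp_I_mul_ofReal_sub_one_le` or `Complex.norm_exp_I_mul_ofReal_sub_one_le`), with `‖y‖ + |γ y| ≤ L` on `closedBall 0 R`. Measurability and integrability: `ek` is continuous in `y`. -/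
def S_EXB : Prop :=
  ∀ (d : ℕ) (γ : E d → ℝ), Continuous γ → ∀ R : ℝ, ∃ L : ℝ, 0 < L ∧ ∀ h : E d → ℂ, Integrable h →
    (∀ y, R < ‖y‖ → h y = 0) → (∀ ξ, ‖ex γ h ξ‖ ≤ ∫ y, ‖h y‖) ∧
    (∀ ξ ξ', ‖ex γ h ξ - ex γ h ξ'‖ ≤ L * (∫ y, ‖h y‖) * ‖ξ - ξ'‖) ∧ Continuous (ex γ h)

/-- The one-step theorem for graphs. -/
def S_STG : Prop :=
  ∀ (d : ℕ) (γ : E d → ℝ), 1 ≤ d → ContDiff ℝ ∞ γ → ∀ (R : ℕ) (c : ℝ), 1 ≤ R → 0 < c → ∃ C : ℝ, 0 < C ∧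
    ∀ U : Set (E d), IsOpen U → U ⊆ closedBall 0 R → Expands γ U c →
    ∀ M : ℝ, 0 < M → ∀ φ : E d → ℂ, Measurable φ → (∀ y, ‖φ y‖ ≤ M) →
    ∀ ε : ℝ, 0 < ε → ε ≤ 1 → ∀ ρ : ℝ, 0 < ρ → ∀ η : ℝ, 0 < η →
    ∃ h : E d → ℂ, Continuous h ∧ (∀ y, y ∉ U → h y = 0) ∧ (∀ y, ‖h y‖ ≤ C * M / ε) ∧
      volume {y | y ∈ U ∧ ρ < ‖φ y - h y‖} ≤ ENNReal.ofReal ε ∧
      (∀ ξ, ‖ex γ h ξ‖ ≤ C * M / ε * dec (d + 1) ξ) ∧ ∀ ξ, ‖ex γ h ξ‖ ≤ η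

/-- The correction theorem for graphs with expanding gradient, first form. -/
def S_COG : Prop :=
  ∀ (d : ℕ) (γ : E d → ℝ), 1 ≤ d → ContDiff ℝ ∞ γ → ∀ (R : ℕ) (c : ℝ), 1 ≤ R → 0 < c → ∃ C : ℝ, 0 < C ∧
    ∀ U : Set (E d), IsOpen U → U ⊆ closedBall 0 R → Expands γ U c →
    ∀ g : E d → ℂ, Measurable g → ∀ M : ℝ, 0 < M → ∀ ε : ℝ, 0 < ε → ε ≤ 1 → ∀ η : ℝ, 0 < η →
    ∃ h : E d → ℂ, Continuous h ∧ (∀ y, y ∉ U → h y = 0) ∧ (∀ y, ‖h y‖ ≤ C * M / ε) ∧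
      volume {y | y ∈ U ∧ h y ≠ g y} ≤ ENNReal.ofReal ε + volume {y | y ∈ U ∧ M < ‖g y‖} ∧
      (∀ ξ, ‖ex γ h ξ‖ ≤ C * M / ε * dec (d + 1) ξ) ∧ ∀ ξ, ‖ex γ h ξ‖ ≤ η

/-- GS-FING: the iteration: `theorem t_FING : S_STG → S_COG`. Word-for-word adaptation of `Pool/Agent/H197/PD/FIN.lean` (there the measure is `sigma n` on the sphere, here volume restricted to `U`; every `h_k` vanishes outside `U`, so it is
integrable and `ex γ h = ∑ ex γ h_k` by `hasSum_integral_of_summable_integral_norm`). -/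
def S_FING : Prop := S_STG → S_COG

/-- GS-UNI (uses `S_COG`, `S_MEMLP`, `Pool.Agent.H197.PD.NORMS.small_norms`): compact support in `U` and the norms. Task `theorem t_UNI (hC : S_COG) (hM : S_MEMLP) : S_UNI`. Proof. `U ⊆ closedBall 0 R` for a natural `R ≥ 1`; `C₀` from `S_COG`. Given `ε`, take a compact
`K₀ ⊆ U` with `vol(U \ K₀) ≤ ε/2` and an open `U'` with `K₀ ⊆ U'`, `closure U'` compact, `closure U' ⊆ U` (`exists_open_between_and_isCompact_closure`); apply `S_COG` to `U'` (`Expands` is inherited), `ε/2`, and `η' = min η δ`, `δ` from `small_norms`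
(`n = d + 1`, `A = 2 C₀ M/ε`, note `2(d+1)/((d+1)-1)` with casts). `C = 2 C₀`. `h` is zero outside `U'`, so `tsupport h ⊆ closure U' ⊆ U`. `MemLp`: `S_MEMLP` with `f = ex γ h`, continuous by `S_EXB` (hypothesis `hE`). -/
def S_UNI : Prop :=
  ∀ (d : ℕ) (γ : E d → ℝ), 1 ≤ d → ContDiff ℝ ∞ γ → ∀ U : Set (E d), IsOpen U → Bornology.IsBounded U →
    ∀ c : ℝ, 0 < c → Expands γ U c → ∃ C : ℝ, 0 < C ∧
    ∀ g : E d → ℂ, Measurable g → ∀ M : ℝ, 0 < M → ∀ ε : ℝ, 0 < ε → ε ≤ 1 →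
    ∀ p₀ : ℝ, 2 * ((d : ℝ) + 1) / d < p₀ → ∀ η : ℝ, 0 < η →
    ∃ h : E d → ℂ, Continuous h ∧ HasCompactSupport h ∧ tsupport h ⊆ U ∧ (∀ y, ‖h y‖ ≤ C * M / ε) ∧
      volume {y | y ∈ U ∧ h y ≠ g y} ≤ ENNReal.ofReal ε + volume {y | y ∈ U ∧ M < ‖g y‖} ∧
      (∀ ξ, ‖ex γ h ξ‖ ≤ C * M / ε * dec (d + 1) ξ) ∧
      (∀ p : ℝ, 2 * ((d : ℝ) + 1) / d < p → MemLp (ex γ h) (ENNReal.ofReal p) volume) ∧
      ∀ r : ℝ≥0∞, ENNReal.ofReal p₀ ≤ r → eLpNorm (ex γ h) r volume ≤ ENNReal.ofReal η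

/-- the Hessian of `γ` at `y` (derivative of the gradient) is singular -/
def Flat {d : ℕ} (γ : E d → ℝ) (y : E d) : Prop := ∃ e : E d, e ≠ 0 ∧ fderiv ℝ (gradient γ) y e = 0

/-- GS-LOC: near a point where the Hessian is regular the gradient expands. Proof. `gradient γ` is smooth (`(InnerProductSpace.toDual ℝ _).symm` of `fderiv ℝ γ`), its derivative `A` at `y₀` is injective, hence a linear isomorphism, `‖A e‖ ≥ 2c ‖e‖`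
(`LinearMap.injective_iff_antilipschitz`/compactness of the unit sphere); the strict derivative (`ContDiffAt.hasStrictFDerivAt`) gives `‖∇γ y - ∇γ y' - A (y - y')‖ ≤ c ‖y - y'‖` near `y₀`. -/
def S_LOC : Prop :=
  ∀ (d : ℕ) (γ : E d → ℝ), ContDiff ℝ ∞ γ → ∀ y₀ : E d, ¬ Flat γ y₀ →
    ∃ c δ : ℝ, 0 < c ∧ 0 < δ ∧ Expands γ (ball y₀ δ) c

/-- GS-PIE (uses `S_LOC`): finitely many disjoint good pieces. Proof. `Z = {y ∈ U | Flat γ y}`; `P V` means `∃ c > 0, Expands γ V c`; `P` passes to subsets. The set `G` of the points of `U` that have a ball `B ⊆ U` around them with `P B` is open and contains `U \ Z`, so `vol(U \ G) = 0`.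
Take a compact `K₀ ⊆ G` with `vol(U \ K₀) ≤ ε` (`vol U < ∞`), a finite subcover by good balls `B_1, …, B_n`, and `V_i = B_i \ ⋃_{l<i} closure B_l`; these are open, disjoint, good, and cover `K₀` up to the spheres (`Measure.addHaar_sphere`). -/
def S_PIE : Prop :=
  ∀ (d : ℕ) (γ : E d → ℝ), 1 ≤ d → ContDiff ℝ ∞ γ → ∀ U : Set (E d), IsOpen U → Bornology.IsBounded U →
    volume {y | y ∈ U ∧ Flat γ y} = 0 → ∀ ε : ℝ, 0 < ε →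
    ∃ (n : ℕ) (V : Fin n → Set (E d)) (c : ℝ), 0 < c ∧ (∀ i, IsOpen (V i)) ∧ (∀ i, V i ⊆ U) ∧
      (∀ i, Expands γ (V i) c) ∧ (∀ i i', i ≠ i' → Disjoint (V i) (V i')) ∧
      volume (U \ ⋃ i, V i) ≤ ENNReal.ofReal ε

/-- The correction theorem for all graphs whose Hessian is regular almost everywhere. (GS-GEN: from `S_UNI`, `S_PIE`.) Task `theorem t_GEN (hU : S_UNI) (hP : S_PIE) (hE : S_EXB) : S_GEN`. Proof. `S_PIE` with `ε/2` gives `n` pieces; let `m = n + 1`. `C_i` from `S_UNI` for `V i`;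
for `g, M` apply it with `ε/(2m)`, `η/m` to get `h_i ∈ C_c(V i)`, and `h = ∑ h_i`: the supports are disjoint, `h = h_i` on `V i`; `C = ∑_i C_i · 2m/ε + 1`. `ex γ h = ∑ ex γ h_i` (integrability of continuous functions with compact support), triangle inequality for `dec`, `memLp_finsetSum`,
`eLpNorm_sum_le` (`1 ≤ r` since `2 < 2(d+1)/d`). -/
def S_GEN : Prop :=
  ∀ (d : ℕ) (γ : E d → ℝ), 1 ≤ d → ContDiff ℝ ∞ γ → ∀ U : Set (E d), IsOpen U → Bornology.IsBounded U →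
    volume {y | y ∈ U ∧ Flat γ y} = 0 → ∀ ε : ℝ, 0 < ε → ε ≤ 1 → ∃ C : ℝ, 0 < C ∧
    ∀ g : E d → ℂ, Measurable g → ∀ M : ℝ, 0 < M →
    ∀ p₀ : ℝ, 2 * ((d : ℝ) + 1) / d < p₀ → ∀ η : ℝ, 0 < η →
    ∃ h : E d → ℂ, Continuous h ∧ HasCompactSupport h ∧ tsupport h ⊆ U ∧ (∀ y, ‖h y‖ ≤ C * M) ∧
      volume {y | y ∈ U ∧ h y ≠ g y} ≤ ENNReal.ofReal ε + volume {y | y ∈ U ∧ M < ‖g y‖} ∧
      (∀ ξ, ‖ex γ h ξ‖ ≤ C * M * dec (d + 1) ξ) ∧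
      (∀ p : ℝ, 2 * ((d : ℝ) + 1) / d < p → MemLp (ex γ h) (ENNReal.ofReal p) volume) ∧
      ∀ r : ℝ≥0∞, ENNReal.ofReal p₀ ≤ r → eLpNorm (ex γ h) r volume ≤ ENNReal.ofReal η

/-- the dilation by `r²` in the direction of `e` and by `r³` orthogonally to `e` -/
noncomputable def dil {d : ℕ} (e : E d) (r : ℝ) (u : E d) : E d := r ^ 3 • u + ((r ^ 2 - r ^ 3) * ⟪e, u⟫) • e

/-- GS-ANI (uses `S_PARI`): anisotropic Taylor expansion at a flat point. Proof. `z = dil e r u = r² B`, `B = r u + (1-r)⟪e,u⟫ e`. Taylor of order three along `τ ↦ γ(y₀ + τ z)`: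
`γ(y₀+z) = γ(y₀) + ⟪∇γ(y₀),z⟫ + ½ D²γ(y₀)(z,z) + ∫_0^1 (1-τ)²/2 D³γ(y₀+τz)(z,z,z) dτ`. Since `D²γ(y₀)(e,·) = ⟪fderiv (gradient γ) y₀ e, ·⟫ = 0` and `D²γ` is symmetric, `D²γ(y₀)(z,z) = r⁶ D²γ(y₀)(u,u)`; and `D³γ(·)(z,z,z) = r⁶ D³γ(·)(B,B,B)`. So
`P(r,u) = ½ D²γ(y₀)(u,u) + ∫_0^1 (1-τ)²/2 D³γ(y₀ + τ r² B)(B,B,B) dτ`, jointly smooth by `S_PARI`. (Instead of `D²γ, D³γ` one can use `G` of `S_TAY` at `y₀`: `γ(y₀ + z) = γ(y₀) + ⟪∇γ(y₀), z⟫ + G₀(z)`, `G₀` smooth with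
`G₀(0) = 0`, `DG₀(0) = 0`, and the one-variable Taylor formula for `s ↦ G₀(s B)` of order three, `iteratedDeriv`.) -/
def S_ANI : Prop :=
  S_PARI → ∀ (d : ℕ) (γ : E d → ℝ), ContDiff ℝ ∞ γ → ∀ y₀ e : E d, ‖e‖ = 1 → fderiv ℝ (gradient γ) y₀ e = 0 →
    ∃ P : ℝ × E d → ℝ, ContDiff ℝ ∞ P ∧ ∀ (r : ℝ) (u : E d),
      γ (y₀ + dil e r u) = γ y₀ + ⟪gradient γ y₀, dil e r u⟫ + r ^ 6 * P (r, u)

/-- GS-DIL: the linear change of variables `dil`. Proof. `dil e r` is linear, `⟪q, dil e r u⟫ = ⟪dil e r q, u⟫`, with determinant `r² (r³)^(d-1) = r^(3d-1)` (in an orthonormal basis that contains `e`; or `dil e r = r³ (1 + (1/r - 1) e e^T)` and `det (1 + a e e^T) = 1 + a`,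
`Matrix.det_one_add_mul_comm`/`det_one_add_replicateCol_mul_replicateRow`; for `r > 0`); `Measure.integral_comp_linearMap`-type lemma: `MeasureTheory.Measure.addHaar_image_linearMap`, `integral_comp_det...`, `LinearMap.det`. -/
def S_DIL : Prop :=
  ∀ (d : ℕ) (e : E d), 1 ≤ d → ‖e‖ = 1 → ∀ r : ℝ, 0 < r → r ≤ 1 →
    (∀ f : E d → ℂ, ∫ y, f y = (r ^ (3 * d - 1) : ℝ) * ∫ u, f (dil e r u)) ∧
    (∀ q u : E d, ⟪q, dil e r u⟫ = ⟪dil e r q, u⟫) ∧ (∀ u, ‖dil e r u‖ ≤ ‖u‖ * r ^ 2) ∧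
    ∃ inv : E d → E d, (∀ u, inv (dil e r u) = u) ∧ (∀ u, dil e r (inv u) = u) ∧ ContDiff ℝ ∞ inv

/-- GS-DUA: duality at a fixed time. Proof. `b(y) = a(y) e^{i T γ(y)}` is smooth with compact support, `B(x) = ∫ a(y) e^{i(⟨x,y⟩ + Tγ(y))} dy = ∫ a conj(ek) = ∫ b(y) e^{i⟨x,y⟩} dy` is its Fourier transform up to scaling, a Schwartz function, and by Fourier inversion
`b(y) = (2π)^(-d) ∫ B(x) e^{-i⟨x,y⟩} dx` (Mathlib: `𝓕 b (ξ) = ∫ e^{-2πi⟨y,ξ⟩} b`, so `B(x) = 𝓕 b (-x/(2π))`; substitute `x = -2π ξ`). So `∫ h a = ∫ h(y) e^{-iTγ(y)} b(y) dy = (2π)^(-d) ∫ B(x) (∫ h(y) ek γ x T y dy) dx` by Fubini (`h`, `B` integrable), and `(2π)^(-d) ≤ 1`. -/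
def S_DUA : Prop :=
  ∀ (d : ℕ) (γ : E d → ℝ), ContDiff ℝ ∞ γ → ∀ (h a : E d → ℂ) (T S : ℝ), Integrable h → ContDiff ℝ ∞ a →
    HasCompactSupport a → (∀ x, ‖∫ y, h y * ek γ x T y‖ ≤ S) →
    ‖∫ y, h y * a y‖ ≤ (∫ x, ‖∫ y, a y * (starRingEnd ℂ) (ek γ x T y)‖) * S

/-- GS-L1B (uses `S_IBP`, `S_ANI`, `S_PARI`, `S_DIL`): uniform `L¹` bound of the Fourier transform of the anisotropic packets at a flat point. Proof. `A = dil e r`, `P` from `S_ANI`. Substitution `y = y₀ + A u` (translation and `S_DIL`): since `T r⁶ = 1`,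
`⟨x, y⟩ + T γ(y) = const + ⟨A (x + T ∇γ(y₀)), u⟩ + P(r,u)`, so `‖∫ a conj(ek)‖ = r^(3d-1) ‖b̂_r(A (x + T ∇γ(y₀)))‖` with `b̂_r(q) = ∫ β(u) e^{iP(r,u)} e^{i⟨q,u⟩} du`, `‖b̂_r(q)‖ ≤ C (1+‖q‖)^(-(d+1))` for all `r ∈ [0,1]` by `S_IBP`
(`W = ℝ`, `b(r,u) = β(u) e^{iP(r,u)}`, frequency `-q`). Integrate in `x`: translation and again `S_DIL` give `∫ ‖…‖ dx = ∫ ‖b̂_r(q)‖ dq ≤ C ∫ (1+‖q‖)^(-(d+1)) dq` (`integrable_one_add_norm`; apply `S_DIL` to `f(q) = ‖b̂_r(q)‖` as a complex valued function). -/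
def S_L1B : Prop :=
  ∀ (d : ℕ) (γ : E d → ℝ), 1 ≤ d → ContDiff ℝ ∞ γ → ∀ y₀ e : E d, ‖e‖ = 1 → fderiv ℝ (gradient γ) y₀ e = 0 →
    ∀ β : E d → ℂ, ContDiff ℝ ∞ β → (∀ u, 1 ≤ ‖u‖ → β u = 0) → ∃ C : ℝ, 0 < C ∧
    ∀ r : ℝ, 0 < r → r ≤ 1 → ∀ T : ℝ, T * r ^ 6 = 1 → ∀ a : E d → ℂ, (∀ u, a (y₀ + dil e r u) = β u) →
      ∫ x, ‖∫ y, a y * (starRingEnd ℂ) (ek γ x T y)‖ ≤ C

/-- GS-NEC (uses `S_L1B`, `S_DUA`, `S_DIL`): a continuous density with the optimal decay vanishes at the flat points.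
Proof. Normalise `‖e‖ = 1` with `D²γ(y₀)e = 0`. Let `β ≥ 0` be a smooth bump function on `ℝ^d` with support in the open unit ball, `∫ β = I₀ > 0` (`ContDiffBump`). For `0 < r ≤ 1` let `T = r^(-6) ≥ 1` and `a(y) = β(inv (y - y₀))`, `inv` the inverse of `dil e r` from `S_DIL`: smooth,
compact support (it vanishes outside the image of the closed unit ball under `y₀ + dil e r`). `S_DUA`, `S_L1B`: `‖∫ h a‖ ≤ C S`, where `S = A₁ √log(2+T) T^(-d/2)` bounds `‖∫ h ek γ x T‖` for all `x` (hypothesis with `s = max ‖x‖ |T| ≥ T`;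
`√log(2+s) (1+s)^(-d/2) ≤ √log(2+s) s^(-d/2) ≤ √log(2+T) T^(-d/2)` by `Pool.Agent.H197.PD.STEP.mono`, which you may copy from `Pool/Agent/H197/PD/STEP.lean`). By `S_DIL` `∫ h a = r^(3d-1) ∫ h(y₀ + dil e r u) β(u) du`, where the last integral tends to `h(y₀) I₀` as `r → 0`
(dominated convergence or uniform continuity at `y₀`, `‖dil e r u‖ ≤ r²`). `T^(-d/2) = r^(3d)`. So `‖h(y₀)‖ I₀ ≤ lim C A₁ r √log(2 + r^(-6)) = 0` (`log(2 + r^(-6)) ≤ 2 + r^(-1) …`: e.g. `log z ≤ 12 z^(1/12)`, `Real.log_le_rpow_div`). -/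
def S_NEC : Prop :=
  ∀ (d : ℕ) (γ : E d → ℝ), 1 ≤ d → ContDiff ℝ ∞ γ → ∀ (h : E d → ℂ) (A₀ : ℝ), Continuous h → Integrable h →
    (∀ (x : E d) (t : ℝ), ‖∫ y, h y * ek γ x t y‖ ≤
      A₀ * (√(Real.log (2 + max ‖x‖ |t|)) * (1 + max ‖x‖ |t|) ^ (-((d : ℝ) / 2)))) →
    ∀ y₀ : E d, Flat γ y₀ → h y₀ = 0

end Pool.Agent.H197.GS
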