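import Mathlib
import Pool.Agent.H197.GS.Stm
set_option autoImplicit false

namespace Pool.Agent.H197.GS

open MeasureTheory Set Metric Filter Topology
open Pool.Agent.H197.PD (E)
open scoped ENNReal NNReal RealInnerProductSpace BigOperators ContDiff

namespace ANI

variable {d : ℕ}

/-- the second derivative -/
noncomputable def D2 (γ : E d → ℝ) (y : E d) : E d →L[ℝ] E d →L[ℝ] ℝ := fderiv ℝ (fderiv ℝ γ) y

/-- the derivative in the direction of the second variable -/
noncomputable def dd (g : E d × E d → ℝ) (p : E d × E d) : ℝ := fderiv ℝ g p (p.2, 0)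

lemma smooth_dd {g : E d × E d → ℝ} (hg : ContDiff ℝ ∞ g) : ContDiff ℝ ∞ (dd g) := by
  have h1 : ContDiff ℝ ∞ (fderiv ℝ g) := hg.fderiv_right (by simp)
  exact h1.clm_apply (contDiff_snd.prodMk contDiff_const)

lemma line {g : E d × E d → ℝ} (hg : ContDiff ℝ ∞ g) (y z : E d) (s : ℝ) :
    HasDerivAt (fun s : ℝ => g (y + s • z, z)) (dd g (y + s • z, z)) s := by
  have h1 : HasFDerivAt g (fderiv ℝ g (y + s • z, z)) (y + s • z, z) :=
    (hg.differentiable (by simp)).differentiableAt.hasFDerivAt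
  have h2 : HasDerivAt (fun s : ℝ => y + s • z) z s := by
    simpa using ((hasDerivAt_id s).smul_const z).const_add y
  exact h1.comp_hasDerivAt s (h2.prodMk (hasDerivAt_const s z))

lemma homog {g : E d × E d → ℝ} (hg : ContDiff ℝ ∞ g) (k : ℕ) (c : ℝ)
    (h : ∀ y v, g (y, c • v) = c ^ k * g (y, v)) (y v : E d) :
    dd g (y, c • v) = c ^ (k + 1) * dd g (y, v) := by
  have h1 := line hg y (c • v) 0
  have h2 : HasDerivAt (fun s : ℝ => g (y + s • (c • v), c • v)) (c ^ (k + 1) * dd g (y, v)) 0 := by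
    have e : (fun s : ℝ => g (y + s • (c • v), c • v)) =
        fun s : ℝ => c ^ k * (fun t : ℝ => g (y + t • v, v)) (s * c) := by
      funext s
      rw [h]
      simp only [smul_smul]
    rw [e]
    have h3 : HasDerivAt (fun t : ℝ => g (y + t • v, v)) (dd g (y + ((0 : ℝ) * c) • v, v)) (0 * c) :=
      line hg y v (0 * c)
    have h4 : HasDerivAt (fun s : ℝ => s * c) c 0 := by
      simpa using (hasDerivAt_id (0 : ℝ)).mul_const c
    have h5 := (h3.comp (0 : ℝ) h4).const_mul (c ^ k)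
    have e5 : c ^ k * (dd g (y + ((0 : ℝ) * c) • v, v) * c) = c ^ (k + 1) * dd g (y, v) := by
      rw [zero_mul, zero_smul, add_zero]
      ring
    rw [e5] at h5
    exact h5
  have := h1.unique h2
  simpa using this

/-- Taylor of order three along a segment. -/
lemma taylor {g : E d × E d → ℝ} (hg : ContDiff ℝ ∞ g) (y z : E d) :
    g (y + z, z) = g (y, z) + dd g (y, z) + 1 / 2 * dd (dd g) (y, z) +
      ∫ τ in (0 : ℝ)..1, (1 - τ) ^ 2 / 2 * dd (dd (dd g)) (y + τ • z, z) := by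
  have c1 := smooth_dd hg
  have c2 := smooth_dd c1
  have c3 := smooth_dd c2
  have key : ∀ s : ℝ, HasDerivAt (fun s : ℝ => g (y + s • z, z) + (1 - s) * dd g (y + s • z, z) +
      (1 - s) ^ 2 / 2 * dd (dd g) (y + s • z, z)) ((1 - s) ^ 2 / 2 * dd (dd (dd g)) (y + s • z, z)) s := by
    intro s
    have a1 : HasDerivAt (fun s : ℝ => 1 - s) (-1) s := by
      simpa using (hasDerivAt_id s).const_sub 1
    have a2 : HasDerivAt (fun s : ℝ => (1 - s) ^ 2 / 2) (-(1 - s)) s := by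
      have h := (a1.pow 2).div_const 2
      have e : ((2 : ℕ) : ℝ) * (1 - s) ^ (2 - 1) * -1 / 2 = -(1 - s) := by
        norm_num
        ring
      rw [e] at h
      exact h
    have h := ((line hg y z s).add (a1.mul (line c1 y z s))).add (a2.mul (line c2 y z s))
    have e : dd g (y + s • z, z) + (-1 * dd g (y + s • z, z) + (1 - s) * dd (dd g) (y + s • z, z)) +
        (-(1 - s) * dd (dd g) (y + s • z, z) + (1 - s) ^ 2 / 2 * dd (dd (dd g)) (y + s • z, z)) =
        (1 - s) ^ 2 / 2 * dd (dd (dd g)) (y + s • z, z) := by ring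
    rw [e] at h
    exact h
  have hcont : Continuous (fun s : ℝ => (1 - s) ^ 2 / 2 * dd (dd (dd g)) (y + s • z, z)) := by
    have : Continuous (fun s : ℝ => dd (dd (dd g)) (y + s • z, z)) :=
      c3.continuous.comp (by fun_prop)
    exact (by fun_prop : Continuous (fun s : ℝ => (1 - s) ^ 2 / 2)).mul this
  have := intervalIntegral.integral_eq_sub_of_hasDerivAt (fun s _ => key s)
    (hcont.intervalIntegrable 0 1)
  rw [this]
  simp only [one_smul, zero_smul, add_zero, sub_self, sub_zero, one_pow, one_mul]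
  ring

lemma flat_D2 {γ : E d → ℝ} {y e : E d} (h : fderiv ℝ (gradient γ) y e = 0) : D2 γ y e = 0 := by
  have h1 : gradient γ = fun x => (InnerProductSpace.toDual ℝ (E d)).symm.toContinuousLinearEquiv
      (fderiv ℝ γ x) := rfl
  have h2 : fderiv ℝ (gradient γ) y e =
      (InnerProductSpace.toDual ℝ (E d)).symm (fderiv ℝ (fderiv ℝ γ) y e) := by
    rw [h1]
    have := ContinuousLinearEquiv.comp_fderiv
      ((InnerProductSpace.toDual ℝ (E d)).symm.toContinuousLinearEquiv) (f := fderiv ℝ γ) (x := y)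
    have h3 := congrArg (fun L : E d →L[ℝ] E d => L e) this
    exact h3
  rw [h] at h2
  exact (InnerProductSpace.toDual ℝ (E d)).symm.map_eq_zero_iff.1 h2.symm

lemma symm_D2 {γ : E d → ℝ} (hγ : ContDiff ℝ ∞ γ) (y v w : E d) : D2 γ y v w = D2 γ y w v := by
  have : ContDiffAt ℝ ∞ γ y := hγ.contDiffAt
  have h2 : minSmoothness ℝ 2 ≤ (∞ : WithTop ℕ∞) := by
    rw [minSmoothness_of_isRCLikeNormedField]
    exact ENat.LEInfty.out
  exact (this.isSymmSndFDerivAt h2) v w

/-- the function on pairs -/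
noncomputable def g0 (γ : E d → ℝ) (p : E d × E d) : ℝ := γ p.1

lemma smooth_g0 {γ : E d → ℝ} (hγ : ContDiff ℝ ∞ γ) : ContDiff ℝ ∞ (g0 γ) :=
  hγ.comp contDiff_fst

lemma dd_g0 {γ : E d → ℝ} (hγ : ContDiff ℝ ∞ γ) (y v : E d) : dd (g0 γ) (y, v) = fderiv ℝ γ y v := by
  have h1 := line (smooth_g0 hγ) y v 0
  have h2 : HasDerivAt (fun s : ℝ => γ (y + s • v)) (fderiv ℝ γ (y + (0 : ℝ) • v) v) 0 := by
    have h3 : HasDerivAt (fun s : ℝ => y + s • v) v 0 := by
      simpa using ((hasDerivAt_id (0 : ℝ)).smul_const v).const_add y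
    exact (hγ.differentiable (by simp)).differentiableAt.hasFDerivAt.comp_hasDerivAt 0 h3
  simpa using h1.unique h2

lemma dd_dd_g0 {γ : E d → ℝ} (hγ : ContDiff ℝ ∞ γ) (y v : E d) :
    dd (dd (g0 γ)) (y, v) = D2 γ y v v := by
  have h1 := line (smooth_dd (smooth_g0 hγ)) y v 0
  have hc : ContDiff ℝ ∞ (fderiv ℝ γ) := hγ.fderiv_right (by simp)
  have h2 : HasDerivAt (fun s : ℝ => dd (g0 γ) (y + s • v, v)) (D2 γ (y + (0 : ℝ) • v) v v) 0 := by
    have h3 : HasDerivAt (fun s : ℝ => y + s • v) v 0 := by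
      simpa using ((hasDerivAt_id (0 : ℝ)).smul_const v).const_add y
    have h4 : HasDerivAt (fun s : ℝ => fderiv ℝ γ (y + s • v)) (D2 γ (y + (0 : ℝ) • v) v) 0 :=
      (hc.differentiable (by simp)).differentiableAt.hasFDerivAt.comp_hasDerivAt 0 h3
    have h5 := h4.clm_apply (hasDerivAt_const (0 : ℝ) v)
    rw [map_zero, add_zero] at h5
    have e : (fun s : ℝ => dd (g0 γ) (y + s • v, v)) = fun s : ℝ => fderiv ℝ γ (y + s • v) v := by
      funext s
      exact dd_g0 hγ _ _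
    rw [e]
    exact h5
  simpa using h1.unique h2

/-- the rescaled increment -/
noncomputable def B (e : E d) (r : ℝ) (u : E d) : E d := r • u + ((1 - r) * ⟪e, u⟫) • e

lemma dil_eq (e : E d) (r : ℝ) (u : E d) : dil e r u = r ^ 2 • B e r u := by
  simp only [dil, B, smul_add, smul_smul]
  congr 1
  congr 1
  ring

end ANI

open ANI in
theorem t_ANI : S_ANI := by
  intro hP d γ hγ y₀ e he hflat
  have c0 := smooth_g0 hγ
  have c1 := smooth_dd c0
  have c2 := smooth_dd c1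
  have c3 := smooth_dd c2
  set F : (ℝ × E d) × ℝ → ℝ := fun q =>
    (1 - q.2) ^ 2 / 2 * dd (dd (dd (g0 γ))) (y₀ + q.2 • (q.1.1 ^ 2 • B e q.1.1 q.1.2),
      B e q.1.1 q.1.2) with hF
  have h1 : ContDiff ℝ ∞ (fun q : (ℝ × E d) × ℝ => q.1.1) := contDiff_fst.fst
  have h2 : ContDiff ℝ ∞ (fun q : (ℝ × E d) × ℝ => q.1.2) := contDiff_fst.snd
  have h3 : ContDiff ℝ ∞ (fun q : (ℝ × E d) × ℝ => q.2) := contDiff_snd
  have hB : ContDiff ℝ ∞ (fun q : (ℝ × E d) × ℝ => B e q.1.1 q.1.2) := by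
    unfold B
    exact (h1.smul h2).add (((contDiff_const.sub h1).mul (contDiff_const.inner ℝ h2)).smul
      contDiff_const)
  have hFs : ContDiff ℝ ∞ F := by
    have h4 : ContDiff ℝ ∞ (fun q : (ℝ × E d) × ℝ =>
        (y₀ + q.2 • (q.1.1 ^ 2 • B e q.1.1 q.1.2), B e q.1.1 q.1.2)) :=
      (contDiff_const.add (h3.smul ((h1.pow 2).smul hB))).prodMk hB
    exact (((contDiff_const.sub h3).pow 2).div_const 2).mul (c3.comp h4)
  have hI := hP (ℝ × E d) F hFs
  refine ⟨fun p => 1 / 2 * D2 γ y₀ p.2 p.2 + ∫ τ in (0 : ℝ)..1, F (p, τ), ?_, ?_⟩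
  · refine ContDiff.add ?_ hI
    refine contDiff_const.mul ?_
    exact ((contDiff_const (c := D2 γ y₀)).clm_apply contDiff_snd).clm_apply contDiff_snd
  · intro r u
    have hT := taylor c0 y₀ (dil e r u)
    rw [dd_g0 hγ, dd_dd_g0 hγ] at hT
    have hg0 : g0 γ (y₀ + dil e r u, dil e r u) = γ (y₀ + dil e r u) := rfl
    have hg0' : g0 γ (y₀, dil e r u) = γ y₀ := rfl
    rw [hg0, hg0'] at hT
    have hgrad : fderiv ℝ γ y₀ (dil e r u) = ⟪gradient γ y₀, dil e r u⟫ := by
      rw [gradient, InnerProductSpace.toDual_symm_apply]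
    have hD2 : D2 γ y₀ (dil e r u) (dil e r u) = r ^ 6 * D2 γ y₀ u u := by
      have q1 : D2 γ y₀ e = 0 := flat_D2 hflat
      have q2 : ∀ v, D2 γ y₀ v e = 0 := fun v => by rw [symm_D2 hγ, q1]; rfl
      have q3 : D2 γ y₀ (dil e r u) = r ^ 3 • D2 γ y₀ u := by
        rw [dil, map_add, map_smul, map_smul, q1, smul_zero, add_zero]
      have q4 : D2 γ y₀ u (dil e r u) = r ^ 3 * D2 γ y₀ u u := by
        rw [dil, map_add, map_smul, map_smul, q2, smul_zero, add_zero, smul_eq_mul]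
      have q5 : D2 γ y₀ (dil e r u) (dil e r u) = r ^ 3 * D2 γ y₀ u (dil e r u) := by
        rw [q3]; rfl
      rw [q5, q4]
      ring
    have k0 : ∀ c : ℝ, ∀ y v : E d, g0 γ (y, c • v) = c ^ 0 * g0 γ (y, v) := by
      intro c y v; simp [g0]
    have k1 : ∀ c : ℝ, ∀ y v : E d, dd (g0 γ) (y, c • v) = c ^ 1 * dd (g0 γ) (y, v) :=
      fun c => homog c0 0 c (k0 c)
    have k2 : ∀ c : ℝ, ∀ y v : E d, dd (dd (g0 γ)) (y, c • v) = c ^ 2 * dd (dd (g0 γ)) (y, v) :=
      fun c => homog c1 1 c (k1 c)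
    have k3 : ∀ c : ℝ, ∀ y v : E d,
        dd (dd (dd (g0 γ))) (y, c • v) = c ^ 3 * dd (dd (dd (g0 γ))) (y, v) :=
      fun c => homog c2 2 c (k2 c)
    have hD3 : ∀ τ : ℝ, (1 - τ) ^ 2 / 2 * dd (dd (dd (g0 γ))) (y₀ + τ • dil e r u, dil e r u)
        = r ^ 6 * F ((r, u), τ) := by
      intro τ
      simp only [hF]
      rw [dil_eq, k3]
      ring
    rw [hT, hgrad, hD2]
    simp only [hD3]
    rw [intervalIntegral.integral_const_mul]
    ring

end Pool.Agent.H197.GS
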