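import Mathlib
import Pool.Agent.H197.GS.Stm

/-!
# Project GS (helper197), lemma APX: approximation in measure by continuous functions with compact
support in an open set

Proof plan by helper197.
-/

set_option autoImplicit false

namespace Pool.Agent.H197.GS

open MeasureTheory Set Metric Complex Filter Topology
open Pool.Agent.H197.PD (E kap chi vec zet dec S_KAP S_RAND S_MEMLP)
open scoped ENNReal NNReal RealInnerProductSpace BigOperators ContDiff

namespace APX

/-- the radial cut-off at `L` -/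
noncomputable def clip (L : ℝ) (z : ℂ) : ℂ := (L / max L ‖z‖) • z

theorem clip_cont {L : ℝ} (hL : 0 < L) : Continuous (clip L) := by
  unfold clip
  refine Continuous.smul (continuous_const.div (continuous_const.max continuous_norm) fun z => ?_)
    continuous_id
  exact (lt_of_lt_of_le hL (le_max_left _ _)).ne'

theorem clip_norm {L : ℝ} (hL : 0 < L) (z : ℂ) : ‖clip L z‖ ≤ L := by
  have h : 0 < max L ‖z‖ := lt_of_lt_of_le hL (le_max_left _ _)
  unfold clip
  rw [norm_smul, Real.norm_of_nonneg (by positivity), div_mul_eq_mul_div, div_le_iff₀ h]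
  exact mul_le_mul_of_nonneg_left (le_max_right _ _) hL.le

theorem clip_eq {L : ℝ} (hL : 0 < L) {z : ℂ} (hz : ‖z‖ ≤ L) : clip L z = z := by
  unfold clip
  rw [max_eq_left hz, div_self hL.ne', one_smul]

end APX

open APX in
theorem t_APX : S_APX := by
  intro d U hU hUb M hM φ hφ hφM ρ hρ ε hε
  set ρ' : ℝ := min ρ M with hρ'
  have hρ'0 : 0 < ρ' := lt_min hρ hM
  have hε2 : ENNReal.ofReal (ε / 2) ≠ 0 := by
    rw [ENNReal.ofReal_ne_zero_iff]
    positivity
  -- the compact set
  obtain ⟨K₀, hK₀U, hK₀, hK₀m⟩ := hU.measurableSet.exists_isCompact_sdiff_lt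
    (μ := (volume : Measure (E d))) hUb.measure_lt_top.ne hε2
  -- the function on the compact set
  have hfm : MemLp (K₀.indicator φ) 1 (volume : Measure (E d)) := by
    rw [memLp_indicator_iff_restrict hK₀.measurableSet]
    have : IsFiniteMeasure ((volume : Measure (E d)).restrict K₀) :=
      ⟨by rw [Measure.restrict_apply_univ]; exact hK₀.measure_lt_top⟩
    exact MemLp.of_bound hφ.aestronglyMeasurable M (Filter.Eventually.of_forall hφM)
  have hε3 : ENNReal.ofReal (ρ' * (ε / 2)) ≠ 0 := by
    rw [ENNReal.ofReal_ne_zero_iff]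
    positivity
  obtain ⟨g, -, hg, hgc, hgm⟩ := hfm.exists_hasCompactSupport_eLpNorm_sub_le ENNReal.one_ne_top hε3
  -- the cut-off
  obtain ⟨V, hV, hKV, hVU, hVc⟩ := exists_open_between_and_isCompact_closure hK₀ hU hK₀U
  obtain ⟨θ, hθ1, hθ0, -, hθ⟩ := exists_continuous_one_zero_of_isCompact hK₀ hV.isClosed_compl
    (Set.disjoint_left.2 fun x hx hx' => hx' (hKV hx))
  have hθs : tsupport (θ : E d → ℝ) ⊆ closure V := by
    refine closure_mono ?_
    intro x hx
    by_contra hxV
    exact hx (hθ0 hxV)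
  have hθc : HasCompactSupport (θ : E d → ℝ) :=
    hVc.of_isClosed_subset (isClosed_tsupport _) hθs
  have hM2 : 0 < 2 * M := by positivity
  refine ⟨fun y => θ y • clip (2 * M) (g y), θ.continuous.smul ((clip_cont hM2).comp hgc),
    hθc.smul_right, ((tsupport_smul_subset_left _ _).trans hθs).trans hVU, fun y => ?_, ?_⟩
  · rw [norm_smul, Real.norm_of_nonneg (hθ y).1]
    calc θ y * ‖clip (2 * M) (g y)‖ ≤ 1 * (2 * M) :=
          mul_le_mul (hθ y).2 (clip_norm hM2 _) (norm_nonneg _) zero_le_one
      _ = 2 * M := one_mul _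
  · have hsub : {y | y ∈ U ∧ ρ < ‖φ y - θ y • clip (2 * M) (g y)‖} ⊆
        (U \ K₀) ∪ {y | ENNReal.ofReal ρ' ≤ ‖(K₀.indicator φ - g) y‖ₑ} := by
      rintro y ⟨hyU, hy⟩
      by_cases hyK : y ∈ K₀
      · right
        by_contra hcon
        rw [mem_ofPred_eq, not_le, Pi.sub_apply, indicator_of_mem hyK, ← ofReal_norm,
          ENNReal.ofReal_lt_ofReal_iff hρ'0] at hcon
        have h1 : ‖g y‖ ≤ 2 * M := by
          have h2 : ‖g y‖ ≤ ‖φ y‖ + ‖φ y - g y‖ := by
            have h3 : g y = φ y - (φ y - g y) := by ring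
            calc ‖g y‖ = ‖φ y - (φ y - g y)‖ := by rw [← h3]
              _ ≤ _ := norm_sub_le _ _
          have h4 := hφM y
          have h5 : ρ' ≤ M := min_le_right _ _
          linarith
        have h6 : θ y = 1 := hθ1 hyK
        rw [clip_eq hM2 h1, h6, one_smul] at hy
        have h7 : ρ' ≤ ρ := min_le_left _ _
        linarith
      · exact Or.inl ⟨hyU, hyK⟩
    refine (measure_mono hsub).trans ((measure_union_le _ _).trans ?_)
    have hm : volume {y | ENNReal.ofReal ρ' ≤ ‖(K₀.indicator φ - g) y‖ₑ} ≤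
        ENNReal.ofReal (ε / 2) := by
      have h1 := meas_ge_le_mul_pow_eLpNorm_enorm (volume : Measure (E d)) one_ne_zero
        ENNReal.one_ne_top (f := K₀.indicator φ - g)
        (hfm.aestronglyMeasurable.sub hgm.aestronglyMeasurable) (ε := ENNReal.ofReal ρ')
        (by rw [ENNReal.ofReal_ne_zero_iff]; exact hρ'0) (fun h => absurd h ENNReal.ofReal_ne_top)
      rw [ENNReal.toReal_one, ENNReal.rpow_one, ENNReal.rpow_one] at h1
      refine h1.trans ?_
      calc (ENNReal.ofReal ρ')⁻¹ * eLpNorm (K₀.indicator φ - g) 1 volume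
          ≤ (ENNReal.ofReal ρ')⁻¹ * ENNReal.ofReal (ρ' * (ε / 2)) := by gcongr
        _ = ENNReal.ofReal (ε / 2) := by
            rw [ENNReal.ofReal_mul hρ'0.le, ← mul_assoc, ENNReal.inv_mul_cancel, one_mul]
            · rw [ENNReal.ofReal_ne_zero_iff]
              exact hρ'0
            · exact ENNReal.ofReal_ne_top
    calc volume (U \ K₀) + volume {y | ENNReal.ofReal ρ' ≤ ‖(K₀.indicator φ - g) y‖ₑ}
        ≤ ENNReal.ofReal (ε / 2) + ENNReal.ofReal (ε / 2) := add_le_add hK₀m.le hm
      _ = ENNReal.ofReal ε := by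
          rw [← ENNReal.ofReal_add (by positivity) (by positivity), add_halves]

end Pool.Agent.H197.GS
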