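import Mathlib
import Pool.Agent.H197.PD.Stm2
set_option autoImplicit false

/-!
# Project GS (helper197), third part: the sphere. One exceptional set for totally bounded families, and the threshold

(`sigma`, `ft`, `dec`, `E` are those of `Pool/Agent/H197/PD/Stm.lean`, `Stm2.lean`.)
-/

namespace Pool.Agent.H197.SP

open MeasureTheory Set Metric Complex Filter Topology
open Pool.Agent.H197.PD (E sigma ft dec)
open scoped ENNReal NNReal RealInnerProductSpace BigOperators ContDiff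

/-- the family is totally bounded in the sup norm -/
def TBs {n : ℕ} {ι : Type} (g : ι → sphere (0 : E n) 1 → ℂ) : Prop :=
  ∀ δ : ℝ, 0 < δ → ∃ s : Finset ι, ∀ i, ∃ j ∈ s, ∀ x, ‖g i x - g j x‖ ≤ δ

/-- The one-step theorem for finite families on the sphere (done by helper197). -/
def S_STPQ : Prop :=
  ∀ n : ℕ, 2 ≤ n → ∃ C : ℝ, 0 < C ∧
    ∀ (M : ℝ), 0 < M → ∀ (Q : ℕ) (φ : Fin Q → sphere (0 : E n) 1 → ℂ), (∀ q, Measurable (φ q)) → (∀ q x, ‖φ q x‖ ≤ M) →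
    ∀ ε : ℝ, 0 < ε → ε ≤ 1 → ∀ ρ : ℝ, 0 < ρ → ∀ η : ℝ, 0 < η →
    ∃ h : Fin Q → sphere (0 : E n) 1 → ℂ, (∀ q, Continuous (h q)) ∧ (∀ q x, ‖h q x‖ ≤ C * M / ε) ∧
      sigma n {x | ∃ q, ρ < ‖φ q x - h q x‖} ≤ ENNReal.ofReal ε ∧
      (∀ q ξ, ‖ft (h q) ξ‖ ≤ C * M / ε * dec n ξ) ∧ ∀ q ξ, ‖ft (h q) ξ‖ ≤ η

/-- The correction theorem for totally bounded families on the sphere. -/
def S_COS : Prop :=
  ∀ n : ℕ, 2 ≤ n → ∃ C : ℝ, 0 < C ∧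
    ∀ (ι : Type) (g : ι → sphere (0 : E n) 1 → ℂ), (∀ i, Measurable (g i)) → ∀ M : ℝ, 0 < M → (∀ i x, ‖g i x‖ ≤ M) → TBs g →
    ∀ ε : ℝ, 0 < ε → ε ≤ 1 → ∀ η : ℝ, 0 < η →
    ∃ Z : Set (sphere (0 : E n) 1), MeasurableSet Z ∧ sigma n Z ≤ ENNReal.ofReal ε ∧ ∀ i,
    ∃ h : sphere (0 : E n) 1 → ℂ, Continuous h ∧ (∀ x, ‖h x‖ ≤ C * M / ε) ∧ (∀ x, x ∉ Z → h x = g i x) ∧
      (∀ ξ, ‖ft h ξ‖ ≤ C * M / ε * dec n ξ) ∧ ∀ ξ, ‖ft h ξ‖ ≤ η

/-- SP-FNS: the iteration: `theorem t_FNS : S_FNS`. Adapt `Pool/Agent/H197/GS/FNQ.lean` (families, domain `U ⊆ ℝ^d`) with the sphere parts of `Pool/Agent/H197/PD/FIN.lean` (single density on the sphere, measure `sigma n`, `ft` instead of `ex`); no set `U` here. -/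
def S_FNS : Prop := S_STPQ → S_COS

/-- SP-AVG: a rotation which brings at most the average mass of `G` into `Z`. Proof. Let `μ` be the Haar probability measure of the compact group `O(n)` (e.g. `Matrix.orthogonalGroup (Fin n) ℝ`; closed and bounded in the matrices, hence compact), acting on the sphere by
linear isometries, continuously. For `x` on the sphere let `I(x) = ∫ G(ρ x) dμ(ρ)`. Since `O(n)` acts transitively (reflections) and `μ` is right invariant (a compact group is unimodular, or use the measure `ρ ↦ ρ⁻¹` of the left Haar measure), `I(x)` does not depend on `x`. As `σ` is rotation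
invariant (`MeasurePreserving` of linear isometries for `volume`, hence for `toSphere`), Fubini gives `I σ(S) = ∫_S I(x) dσ(x) = ∫ (∫ G(ρ x) dσ(x)) dμ(ρ) = ∫ G dσ`. So the mean over `ρ` of `∫_Z G(ρ x) dσ(x)` is `σ(Z) I = (σ(Z)/σ(S)) ∫ G dσ`, and some `ρ` has at most this value
(`exists_le_integral` / `MeasureTheory.exists_le_average`). -/
def S_AVG : Prop :=
  ∀ n : ℕ, 2 ≤ n → ∀ G : E n → ℝ, Continuous G → (∀ x, 0 ≤ G x) → ∀ Z : Set (sphere (0 : E n) 1), MeasurableSet Z →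
    ∃ ρ : E n ≃ₗᵢ[ℝ] E n, ∫ x in Z, G (ρ (x : E n)) ∂(sigma n) ≤
      ((sigma n).real Z / (sigma n).real univ) * ∫ x, G (x : E n) ∂(sigma n)

/-- SP-THR (uses `S_AVG`): the threshold. Proof. Let `f : ℝ^n → ℂ` be bounded, measurable, with compact support, `p' = p/(p-1)`, `F(y) = ∫ f(ξ) e^{-2πi⟨y,ξ⟩} dξ` (continuous), so `∫ ft h · f = ∫ h F dσ` for bounded measurable `h` (Fubini). For `g = conj F/|F|` (`0` where `F = 0`) on the sphere and `h` from the hypothesis: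
`∫_{Zᶜ} |F| = ∫_{Zᶜ} g F = ∫ h F - ∫_Z h F ≤ |∫ ft h · f| + κ ∫_Z |F| ≤ A ‖f‖_{p'} + κ ∫_Z |F|` (Hölder), i.e. `∫ |F| dσ ≤ (1+κ) ∫_Z |F| dσ + A ‖f‖_{p'}`. Apply this to `f ∘ ρ⁻¹`... i.e. to `f_ρ(ξ) = f(ρ ξ)`, whose transform is `F(ρ y)`, with the same norms, `ρ` from `S_AVG` for `G = |F|`:
`∫ |F| ≤ (1+κ)(σ(Z)/σ(S)) ∫ |F| + A ‖f‖_{p'}`, so with `θ = 1 - (1+κ)σ(Z)/σ(S) > 0` (this is the hypothesis, `σ(Zᶜ) = σ(S) - σ(Z)`): `∫ |F| dσ ≤ (A/θ) ‖f‖_{p'}`. For `|g| ≤ 1`: `|∫ ft g · f| = |∫ g F dσ| ≤ (A/θ) ‖f‖_{p'}`. Take `f = conj (ft g) |ft g|^(p-2) 1_{B(0,R)}` (zero where `ft g = 0`):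
`∫_{B_R} |ft g|^p ≤ (A/θ) (∫_{B_R} |ft g|^p)^{1/p'}`, finite quantities, so `(∫_{B_R} |ft g|^p)^{1/p} ≤ A/θ`; let `R → ∞` (monotone convergence). `ft g` is continuous and bounded (lemmas on `ft`: `Pool/Agent/H197/PD/Base.lean`, `FIN.lean`). -/
def S_THR : Prop :=
  ∀ n : ℕ, 2 ≤ n → ∀ p : ℝ, 1 < p → ∀ Z : Set (sphere (0 : E n) 1), MeasurableSet Z → ∀ κ A : ℝ, 0 ≤ κ → 0 ≤ A →
    κ * (sigma n).real Z < (sigma n).real Zᶜ →
    (∀ g : sphere (0 : E n) 1 → ℂ, Measurable g → (∀ x, ‖g x‖ ≤ 1) → ∃ h : sphere (0 : E n) 1 → ℂ, Measurable h ∧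
      (∀ x, x ∉ Z → h x = g x) ∧ (∀ x, x ∈ Z → ‖h x‖ ≤ κ) ∧ eLpNorm (ft h) (ENNReal.ofReal p) volume ≤ ENNReal.ofReal A) →
    ∀ g : sphere (0 : E n) 1 → ℂ, Measurable g → (∀ x, ‖g x‖ ≤ 1) →
      eLpNorm (ft g) (ENNReal.ofReal p) volume ≤
        ENNReal.ofReal (A / (1 - (1 + κ) * ((sigma n).real Z / (sigma n).real univ)))

end Pool.Agent.H197.SP
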