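import Mathlib
import Pool.Agent.H197.GS.Stm3
set_option autoImplicit false

/-!
# Project GS (helper197), third part: a rotation with at most the average mass
-/

namespace Pool.Agent.H197.SP

open MeasureTheory Set Metric Complex Filter Topology
open Pool.Agent.H197.PD (E sigma ft dec)
open scoped ENNReal NNReal RealInnerProductSpace BigOperators ContDiff Pointwise

namespace AVG

/-- the orthogonal group -/
noncomputable abbrev OG (n : ℕ) : Type := ↥(unitary (E n →L[ℝ] E n))

instance instCS (n : ℕ) : ContinuousStar (E n →L[ℝ] E n) :=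
  ⟨(ContinuousLinearMap.adjoint (𝕜 := ℝ) (E := E n) (F := E n)).continuous⟩

instance instCompact (n : ℕ) : CompactSpace (OG n) := by
  have key : IsCompact ((unitary (E n →L[ℝ] E n) : Set (E n →L[ℝ] E n))) := by
    refine Metric.isCompact_of_isClosed_isBounded isClosed_unitary ?_
    refine (Metric.isBounded_iff_subset_closedBall (0 : E n →L[ℝ] E n)).2 ⟨1, fun u hu => ?_⟩
    rw [mem_closedBall_zero_iff]
    refine ContinuousLinearMap.opNorm_le_bound _ zero_le_one fun x => ?_
    rw [one_mul]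
    exact (Unitary.norm_map ⟨u, hu⟩ x).le
  exact isCompact_iff_compactSpace.1 key

/-- the action on the sphere -/
def act {n : ℕ} (u : OG n) (x : sphere (0 : E n) 1) : sphere (0 : E n) 1 :=
  ⟨(u : E n →L[ℝ] E n) x, by
    rw [mem_sphere_zero_iff_norm, Unitary.norm_map]; exact mem_sphere_zero_iff_norm.1 x.2⟩

theorem act_cont {n : ℕ} : Continuous fun z : OG n × sphere (0 : E n) 1 => act z.1 z.2 := by
  refine Continuous.subtype_mk ?_ _
  have h : Continuous fun z : (E n →L[ℝ] E n) × E n => z.1 z.2 :=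
    isBoundedBilinearMap_apply.continuous
  exact h.comp ((continuous_subtype_val.comp continuous_fst).prodMk
    (continuous_subtype_val.comp continuous_snd))

theorem act_mul {n : ℕ} (u v : OG n) (x : sphere (0 : E n) 1) :
    act (u * v) x = act u (act v x) := Subtype.ext rfl

theorem act_one {n : ℕ} (x : sphere (0 : E n) 1) : act (1 : OG n) x = x := Subtype.ext rfl

theorem act_inv_act {n : ℕ} (u : OG n) (x : sphere (0 : E n) 1) : act u⁻¹ (act u x) = x := by
  rw [← act_mul, inv_mul_cancel, act_one]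

theorem act_act_inv {n : ℕ} (u : OG n) (x : sphere (0 : E n) 1) : act u (act u⁻¹ x) = x := by
  rw [← act_mul, mul_inv_cancel, act_one]

theorem act_cont' {n : ℕ} (u : OG n) : Continuous (act u) :=
  act_cont.comp (continuous_const.prodMk continuous_id)

/-- the surface measure is rotation invariant -/
theorem act_mp {n : ℕ} (u : OG n) : MeasurePreserving (act u) (sigma n) (sigma n) := by
  have hm : Measurable (act u) := (act_cont' u).measurable
  refine ⟨hm, ?_⟩
  ext s hs
  rw [Measure.map_apply hm hs, sigma, Measure.toSphere_apply' _ (hm hs),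
    Measure.toSphere_apply' _ hs]
  congr 1
  have e : Ioo (0 : ℝ) 1 • (Subtype.val '' (act u ⁻¹' s) : Set (E n))
      = (Unitary.linearIsometryEquiv u) ⁻¹' (Ioo (0 : ℝ) 1 • (Subtype.val '' s : Set (E n))) := by
    ext y
    constructor
    · rintro ⟨r, hr, z, ⟨x, hxs, rfl⟩, rfl⟩
      exact ⟨r, hr, _, ⟨act u x, hxs, rfl⟩, ((u : E n →L[ℝ] E n).map_smul r (x : E n)).symm⟩
    · rintro ⟨r, hr, z, ⟨x, hxs, rfl⟩, hy⟩
      refine ⟨r, hr, _, ⟨act u⁻¹ x, ?_, rfl⟩, ?_⟩
      · change act u (act u⁻¹ x) ∈ s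
        rw [act_act_inv]; exact hxs
      · have h3 : ((u⁻¹ : OG n) : E n →L[ℝ] E n) ((u : E n →L[ℝ] E n) y) = y := by
          have : ((u⁻¹ * u : OG n) : E n →L[ℝ] E n) y = y := by rw [inv_mul_cancel]; rfl
          exact this
        have h4 : (u : E n →L[ℝ] E n) y = r • (x : E n) := hy.symm
        rw [← h3, h4]
        exact (((u⁻¹ : OG n) : E n →L[ℝ] E n).map_smul r (x : E n)).symm
  rw [e]
  exact (LinearIsometryEquiv.measurePreserving _).measure_preimage_equiv
    (f := (Unitary.linearIsometryEquiv u).toMeasurableEquiv) _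

/-- transitivity -/
theorem trans {n : ℕ} (x y : sphere (0 : E n) 1) : ∃ v : OG n, act v x = y := by
  have hn : ‖(x : E n)‖ = ‖(y : E n)‖ := by
    rw [mem_sphere_zero_iff_norm.1 x.2, mem_sphere_zero_iff_norm.1 y.2]
  refine ⟨Unitary.linearIsometryEquiv.symm
    (Submodule.reflection (ℝ ∙ ((x : E n) - (y : E n)))ᗮ), Subtype.ext ?_⟩
  exact Submodule.reflection_sub hn

theorem main (n : ℕ) (hn : 1 ≤ n) (G : E n → ℝ) (hG : Continuous G)
    (Z : Set (sphere (0 : E n) 1)) (_hZ : MeasurableSet Z) :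
    ∃ u : OG n, ∫ x in Z, G (act u x) ∂(sigma n) ≤
      ((sigma n).real Z / (sigma n).real univ) * ∫ x, G (x : E n) ∂(sigma n) := by
  have : Nonempty (Fin n) := ⟨⟨0, hn⟩⟩
  have : Nontrivial (E n) := inferInstance
  have hfs : IsFiniteMeasure (sigma n) := by unfold sigma; infer_instance
  have hσ : 0 < (sigma n).real univ := by
    rw [measureReal_def]
    refine ENNReal.toReal_pos ?_ (measure_ne_top _ _)
    rw [Ne, Measure.measure_univ_eq_zero]
    exact Measure.toSphere_ne_zero _
  let μ : Measure (OG n) := Measure.haar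
  have hμ0 : μ ≠ 0 := NeZero.ne μ
  have hμ : 0 < μ.real univ := by
    rw [measureReal_def]
    refine ENNReal.toReal_pos ?_ (measure_ne_top _ _)
    rwa [Ne, Measure.measure_univ_eq_zero]
  -- the kernel
  have hc : Continuous fun z : OG n × sphere (0 : E n) 1 => G (act z.1⁻¹ z.2) :=
    hG.comp (continuous_subtype_val.comp
      (act_cont.comp (continuous_fst.inv.prodMk continuous_snd)))
  obtain ⟨B, hB⟩ : ∃ B : ℝ, ∀ z : OG n × sphere (0 : E n) 1, ‖G (act z.1⁻¹ z.2)‖ ≤ B := by
    obtain ⟨B, hB⟩ := (isCompact_range hc).isBounded.exists_norm_le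
    exact ⟨B, fun z => hB _ ⟨z, rfl⟩⟩
  have hint : ∀ τ : Measure (sphere (0 : E n) 1), IsFiniteMeasure τ →
      Integrable (fun z : OG n × sphere (0 : E n) 1 => G (act z.1⁻¹ z.2)) (μ.prod τ) := by
    intro τ hτ
    exact Integrable.of_bound hc.aestronglyMeasurable B (ae_of_all _ hB)
  -- the mean over the group
  have hI1 : ∀ (v : OG n) (x : sphere (0 : E n) 1),
      ∫ u, G (act u⁻¹ (act v x)) ∂μ = ∫ u, G (act u⁻¹ x) ∂μ := by
    intro v x
    have h1 := integral_mul_left_eq_self (μ := μ) (fun u : OG n => G (act u⁻¹ x)) v⁻¹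
    rw [← h1]
    refine integral_congr_ae (ae_of_all _ fun u => ?_)
    simp only [mul_inv_rev, inv_inv, act_mul]
  obtain ⟨x0⟩ : Nonempty (sphere (0 : E n) 1) := by
    obtain ⟨x, hx⟩ := (NormedSpace.sphere_nonempty (x := (0 : E n)) (r := 1)).2 zero_le_one
    exact ⟨⟨x, hx⟩⟩
  set c : ℝ := ∫ u, G (act u⁻¹ x0) ∂μ with hcdef
  have hI : ∀ x : sphere (0 : E n) 1, ∫ u, G (act u⁻¹ x) ∂μ = c := by
    intro x
    obtain ⟨v, rfl⟩ := trans x0 x
    exact hI1 v x0
  -- Fubini
  have hF : ∀ τ : Measure (sphere (0 : E n) 1), IsFiniteMeasure τ →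
      ∫ u, ∫ x, G (act u⁻¹ x) ∂τ ∂μ = τ.real univ * c := by
    intro τ hτ
    rw [integral_integral_swap (hint τ hτ)]
    simp only [hI]
    rw [integral_const, smul_eq_mul]
  have h1 := hF ((sigma n).restrict Z) inferInstance
  have h2 := hF (sigma n) inferInstance
  have h3 : ∀ u : OG n, ∫ x, G (act u⁻¹ x) ∂(sigma n) = ∫ x, G (x : E n) ∂(sigma n) := by
    intro u
    have hmp := act_mp u⁻¹
    have h4 := integral_map (μ := sigma n) (φ := act u⁻¹) hmp.measurable.aemeasurable
      (f := fun x : sphere (0 : E n) 1 => G (x : E n))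
      (hG.comp continuous_subtype_val).aestronglyMeasurable
    rw [hmp.map_eq] at h4
    exact h4.symm
  simp only [h3, integral_const, smul_eq_mul] at h2
  obtain ⟨u, hu⟩ := exists_le_average hμ0 (hint ((sigma n).restrict Z) inferInstance).integral_prod_left
  refine ⟨u⁻¹, hu.trans (le_of_eq ?_)⟩
  rw [average_eq, smul_eq_mul]
  rw [h1]
  rw [measureReal_restrict_apply_univ]
  field_simp
  linear_combination ((sigma n).real Z) * (- h2)

end AVG

/-- SP-AVG -/
theorem t_AVG : S_AVG := by
  intro n hn G hG _ Z hZ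
  obtain ⟨u, hu⟩ := AVG.main n (by omega) G hG Z hZ
  exact ⟨Unitary.linearIsometryEquiv u, hu⟩

end Pool.Agent.H197.SP
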