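import Mathlib
import Pool.Agent.H197.GS.Stm

/-!
# GS-CAP: decay of the Fourier integral of a cap
-/

set_option autoImplicit false

namespace Pool.Agent.H197.GS

open MeasureTheory Set Metric Complex Filter Topology
open Pool.Agent.H197.PD (E kap chi vec zet dec S_KAP S_RAND S_MEMLP)
open scoped ENNReal NNReal RealInnerProductSpace BigOperators ContDiff

namespace CAP

theorem chi_contDiff (hK : ContDiff ℝ ∞ kap) (d : ℕ) : ContDiff ℝ ∞ (chi d) := by
  have h1 : chi d = fun x : E d => ∏ i, kap (x i) := rfl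
  rw [h1]
  refine contDiff_prod fun i _ => hK.comp ?_
  exact (EuclideanSpace.proj i : E d →L[ℝ] ℝ).contDiff

theorem chi_supp (hK : ∀ t, kap t ≠ 0 → 0 < t ∧ t < 2) (d : ℕ) (hd : 1 ≤ d) (u : E d)
    (h : chi d u ≠ 0) : ‖u‖ < 4 * d := by
  have h1 : ∀ i, 0 < u i ∧ u i < 2 := fun i =>
    hK _ (fun h0 => h (Finset.prod_eq_zero (Finset.mem_univ i) h0))
  have h2 : ‖u‖ ^ 2 ≤ 4 * d := by
    rw [EuclideanSpace.norm_sq_eq]
    calc ∑ i, ‖u i‖ ^ 2 ≤ ∑ _i : Fin d, (4 : ℝ) := Finset.sum_le_sum fun i _ => by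
          rw [Real.norm_eq_abs, sq_abs]
          nlinarith [(h1 i).1, (h1 i).2]
      _ = 4 * d := by
          rw [Finset.sum_const, Finset.card_univ, Fintype.card_fin, nsmul_eq_mul, mul_comm]
  have hd' : (1 : ℝ) ≤ d := by exact_mod_cast hd
  by_contra hcon
  push Not at hcon
  nlinarith [norm_nonneg u]

/-- the parameters: center, radius, scaled time, ratio, translation -/
abbrev WW (d : ℕ) : Type := E d × ℝ × ℝ × ℝ × E d

/-- the amplitude -/
noncomputable def bb (d : ℕ) (G : (E d × ℝ) × E d → ℝ) (z : WW d × E d) : ℂ :=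
  ((chi d z.2 * chi d (z.1.2.2.2.1 • z.2 + z.1.2.2.2.2) : ℝ) : ℂ) *
    Complex.exp (-((z.1.2.2.1 * G ((z.1.1, z.1.2.1), z.2) : ℝ) : ℂ) * I)

theorem bb_contDiff {d : ℕ} {G : (E d × ℝ) × E d → ℝ} (hchi : ContDiff ℝ ∞ (chi d))
    (hG : ContDiff ℝ ∞ G) : ContDiff ℝ ∞ (bb d G) := by
  have h1 : ContDiff ℝ ∞ fun z : WW d × E d => chi d z.2 := hchi.comp contDiff_snd
  have h2 : ContDiff ℝ ∞ fun z : WW d × E d => chi d (z.1.2.2.2.1 • z.2 + z.1.2.2.2.2) :=
    hchi.comp (by fun_prop)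
  have h3 : ContDiff ℝ ∞ fun z : WW d × E d => G ((z.1.1, z.1.2.1), z.2) :=
    hG.comp (by fun_prop)
  have h4 : ContDiff ℝ ∞ fun z : WW d × E d => z.1.2.2.1 * G ((z.1.1, z.1.2.1), z.2) :=
    (by fun_prop : ContDiff ℝ ∞ fun z : WW d × E d => z.1.2.2.1).mul h3
  exact (Complex.ofRealCLM.contDiff.comp (h1.mul h2)).mul
    (((Complex.ofRealCLM.contDiff.comp h4).neg.mul contDiff_const).cexp)

theorem subst (d : ℕ) (f : E d → ℂ) (y₀ : E d) (r : ℝ) (hr : 0 < r) :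
    ∫ y, f y = ((r ^ d : ℝ) : ℂ) * ∫ u, f (y₀ + r • u) := by
  have h1 : ∫ u, f (y₀ + r • u) = |(r ^ Module.finrank ℝ (E d))⁻¹| • ∫ y, f (y₀ + y) :=
    Measure.integral_comp_smul volume (fun y => f (y₀ + y)) r
  have h2 : ∫ y, f (y₀ + y) = ∫ y, f y := integral_add_left_eq_self f y₀
  rw [h1, h2, finrank_euclideanSpace_fin, abs_of_nonneg (by positivity), Complex.real_smul,
    ← mul_assoc, ← Complex.ofReal_mul, mul_inv_cancel₀ (by positivity), Complex.ofReal_one,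
    one_mul]

end CAP

open CAP

theorem t_CAP (hK : S_KAP) (hP : S_PARI) (hI : S_IBP) (hT : S_TAY) : S_CAP := by
  intro d γ hd hγ R K
  obtain ⟨G, hG, hTay⟩ := hT hP d γ hγ
  obtain ⟨⟨hK1, -, -, hK2⟩, -, -⟩ := hK
  have hchi := chi_contDiff hK1 d
  have hsupp : ∀ u : E d, 4 * (d : ℝ) ≤ ‖u‖ → chi d u = 0 := by
    intro u hu
    by_contra h
    exact absurd (chi_supp hK2 d hd u h) (not_lt.2 hu)
  obtain ⟨C, hC, hmain⟩ := hI d (WW d) (bb d G) (4 * d) (bb_contDiff hchi hG)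
    (fun p u hu => by
      unfold bb
      rw [hsupp u hu, zero_mul, Complex.ofReal_zero, zero_mul])
    (closedBall 0 R ×ˢ (Icc 0 1 ×ˢ (Icc (-1) 1 ×ˢ (Icc 0 1 ×ˢ closedBall 0 (8 * d)))))
    ((isCompact_closedBall _ _).prod (isCompact_Icc.prod (isCompact_Icc.prod
      (isCompact_Icc.prod (isCompact_closedBall _ _))))) K
  refine ⟨C, hC, ?_⟩
  intro y₀ hy₀ r hr hr1 x t ht lm hlm0 hlm1 w
  have hrhs : 0 ≤ C * r ^ d * (1 + r * ‖x + t • gradient γ y₀‖) ^ (-(K : ℝ)) := by positivity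
  by_cases hw : ‖w‖ ≤ 8 * d
  · have hp : ((y₀, r, t * r ^ 2, lm, w) : WW d) ∈
        (closedBall 0 R ×ˢ (Icc 0 1 ×ˢ (Icc (-1) 1 ×ˢ (Icc 0 1 ×ˢ closedBall 0 (8 * d)))) :
          Set (WW d)) := by
      refine ⟨?_, ⟨hr.le, hr1⟩, ?_, ⟨hlm0, hlm1⟩, ?_⟩
      · rw [mem_closedBall_zero_iff]
        exact hy₀
      · have h1 : |t * r ^ 2| ≤ 1 := by
          rw [abs_mul, abs_of_nonneg (by positivity : 0 ≤ r ^ 2)]
          exact ht
        exact abs_le.1 h1
      · rw [mem_closedBall_zero_iff]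
        exact hw
    have h1 := hmain _ hp (r • (x + t • gradient γ y₀))
    have h2 : ∀ u : E d, ((chi d (r⁻¹ • ((y₀ + r • u) - y₀)) *
        chi d (lm • r⁻¹ • ((y₀ + r • u) - y₀) + w) : ℝ) : ℂ) * ek γ x t (y₀ + r • u) =
        Complex.exp (-((⟪x, y₀⟫ + t * γ y₀ : ℝ) : ℂ) * I) *
          (bb d G ((y₀, r, t * r ^ 2, lm, w), u) *
            Complex.exp (-((⟪r • (x + t • gradient γ y₀), u⟫ : ℝ) : ℂ) * I)) := by
      intro u
      have e1 : r⁻¹ • ((y₀ + r • u) - y₀) = u := by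
        rw [add_sub_cancel_left, smul_smul, inv_mul_cancel₀ hr.ne', one_smul]
      have e2 : ⟪x, y₀ + r • u⟫ + t * γ (y₀ + r • u) =
          (⟪x, y₀⟫ + t * γ y₀) + t * r ^ 2 * G ((y₀, r), u) +
            ⟪r • (x + t • gradient γ y₀), u⟫ := by
        rw [hTay, inner_add_right, inner_smul_right, inner_smul_left, inner_add_left,
          inner_smul_left]
        simp only [conj_trivial]
        ring
      rw [e1]
      unfold ek bb
      rw [e2]
      have e3 : -((((⟪x, y₀⟫ + t * γ y₀) + t * r ^ 2 * G ((y₀, r), u) +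
            ⟪r • (x + t • gradient γ y₀), u⟫ : ℝ)) : ℂ) * I =
          -((⟪x, y₀⟫ + t * γ y₀ : ℝ) : ℂ) * I +
            (-((t * r ^ 2 * G ((y₀, r), u) : ℝ) : ℂ) * I +
              -((⟪r • (x + t • gradient γ y₀), u⟫ : ℝ) : ℂ) * I) := by
        push_cast
        ring
      rw [e3, Complex.exp_add, Complex.exp_add]
      ring
    rw [subst d _ y₀ r hr, integral_congr_ae (Eventually.of_forall h2), integral_const_mul,
      norm_mul, norm_mul, Complex.norm_real, Real.norm_of_nonneg (by positivity)]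
    have e4 : ‖Complex.exp (-((⟪x, y₀⟫ + t * γ y₀ : ℝ) : ℂ) * I)‖ = 1 := by
      rw [← Complex.ofReal_neg]
      exact Complex.norm_exp_ofReal_mul_I _
    rw [e4, one_mul]
    rw [norm_smul, Real.norm_of_nonneg hr.le] at h1
    calc r ^ d * ‖∫ u, bb d G ((y₀, r, t * r ^ 2, lm, w), u) *
            Complex.exp (-((⟪r • (x + t • gradient γ y₀), u⟫ : ℝ) : ℂ) * I)‖ ≤
          r ^ d * (C * (1 + r * ‖x + t • gradient γ y₀‖) ^ (-(K : ℝ))) :=
        mul_le_mul_of_nonneg_left h1 (by positivity)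
      _ = C * r ^ d * (1 + r * ‖x + t • gradient γ y₀‖) ^ (-(K : ℝ)) := by ring
  · push Not at hw
    have h0 : ∀ y : E d, ((chi d (r⁻¹ • (y - y₀)) * chi d (lm • r⁻¹ • (y - y₀) + w) : ℝ) : ℂ) *
        ek γ x t y = 0 := by
      intro y
      by_cases h : 4 * (d : ℝ) ≤ ‖r⁻¹ • (y - y₀)‖
      · rw [hsupp _ h, zero_mul, Complex.ofReal_zero, zero_mul]
      · push Not at h
        have h3 : 4 * (d : ℝ) ≤ ‖lm • r⁻¹ • (y - y₀) + w‖ := by
          have h4 : ‖lm • r⁻¹ • (y - y₀)‖ ≤ 4 * d := by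
            rw [norm_smul, Real.norm_of_nonneg hlm0]
            nlinarith [norm_nonneg (r⁻¹ • (y - y₀))]
          have h5 : ‖w‖ ≤ ‖lm • r⁻¹ • (y - y₀) + w‖ + ‖lm • r⁻¹ • (y - y₀)‖ := by
            have h6 : w = (lm • r⁻¹ • (y - y₀) + w) - lm • r⁻¹ • (y - y₀) := by abel
            conv_lhs => rw [h6]
            exact norm_sub_le _ _
          linarith
        rw [hsupp _ h3, mul_zero, Complex.ofReal_zero, zero_mul]
    rw [integral_congr_ae (Eventually.of_forall h0), integral_zero, norm_zero]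
    exact hrhs

end Pool.Agent.H197.GS
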