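import Mathlib
import Pool.Agent.H197.GS.Stm3
set_option autoImplicit false

/-! Project GS, task SP-THR: the threshold. -/

namespace Pool.Agent.H197.SP

open MeasureTheory Set Metric Complex Filter Topology
open Pool.Agent.H197.PD (E sigma ft dec)
open scoped ENNReal NNReal RealInnerProductSpace BigOperators Pointwise

namespace THR

theorem sig_fin (n : ℕ) : IsFiniteMeasure (sigma n) := by
  unfold sigma; infer_instance

attribute [local instance] sig_fin

theorem ker_norm {n : ℕ} (x ξ : E n) :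
    ‖Complex.exp (-(2 * Real.pi * ⟪x, ξ⟫ : ℝ) * I)‖ = 1 := by
  have h : (-(2 * Real.pi * ⟪x, ξ⟫ : ℝ) * I : ℂ) = ((-(2 * Real.pi * ⟪x, ξ⟫) : ℝ) : ℂ) * I := by
    push_cast; ring
  rw [h, Complex.norm_exp_ofReal_mul_I]

theorem ker_int {n : ℕ} {g : sphere (0 : E n) 1 → ℂ} (hg : Integrable g (sigma n)) (ξ : E n) :
    Integrable (fun x : sphere (0 : E n) 1 =>
      Complex.exp (-(2 * Real.pi * ⟪(x : E n), ξ⟫ : ℝ) * I) * g x) (sigma n) := by
  refine hg.bdd_mul (c := 1) ?_ ?_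
  · have : Continuous fun x : sphere (0 : E n) 1 =>
      Complex.exp (-(2 * Real.pi * ⟪(x : E n), ξ⟫ : ℝ) * I) := by fun_prop
    exact this.aestronglyMeasurable
  · exact Filter.Eventually.of_forall fun x => (ker_norm _ _).le

theorem ft_norm_le {n : ℕ} (g : sphere (0 : E n) 1 → ℂ) (ξ : E n) :
    ‖ft g ξ‖ ≤ ∫ x, ‖g x‖ ∂(sigma n) := by
  unfold ft
  refine (norm_integral_le_integral_norm _).trans (le_of_eq ?_)
  refine integral_congr_ae (Filter.Eventually.of_forall fun x => ?_)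
  simp only [norm_mul]
  rw [ker_norm, one_mul]

theorem ft_cont {n : ℕ} {g : sphere (0 : E n) 1 → ℂ} (hg : Integrable g (sigma n)) :
    Continuous (ft g) := by
  unfold ft
  refine continuous_of_dominated (bound := fun x => ‖g x‖) ?_ ?_ hg.norm ?_
  · exact fun ξ => (ker_int hg ξ).aestronglyMeasurable
  · intro ξ
    refine Filter.Eventually.of_forall fun x => ?_
    rw [norm_mul, ker_norm, one_mul]
  · refine Filter.Eventually.of_forall fun x => ?_
    fun_prop

theorem int_of_bdd {n : ℕ} {g : sphere (0 : E n) 1 → ℂ} (hg : Measurable g) {M : ℝ}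
    (hM : ∀ x, ‖g x‖ ≤ M) : Integrable g (sigma n) :=
  Integrable.of_bound hg.aestronglyMeasurable M (Filter.Eventually.of_forall hM)

/-- the transform of a function on the space -/
noncomputable def FT {n : ℕ} (f : E n → ℂ) (y : E n) : ℂ :=
  ∫ ξ, Complex.exp (-(2 * Real.pi * ⟪y, ξ⟫ : ℝ) * I) * f ξ

theorem kerF_int {n : ℕ} {f : E n → ℂ} (hf : Integrable f) (y : E n) :
    Integrable (fun ξ : E n => Complex.exp (-(2 * Real.pi * ⟪y, ξ⟫ : ℝ) * I) * f ξ) := by
  refine hf.bdd_mul (c := 1) ?_ ?_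
  · have : Continuous fun ξ : E n => Complex.exp (-(2 * Real.pi * ⟪y, ξ⟫ : ℝ) * I) := by fun_prop
    exact this.aestronglyMeasurable
  · exact Filter.Eventually.of_forall fun x => (ker_norm _ _).le

theorem FT_cont {n : ℕ} {f : E n → ℂ} (hf : Integrable f) : Continuous (FT f) := by
  unfold FT
  refine continuous_of_dominated (bound := fun x => ‖f x‖) ?_ ?_ hf.norm ?_
  · exact fun y => (kerF_int hf y).aestronglyMeasurable
  · intro y
    refine Filter.Eventually.of_forall fun x => ?_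
    rw [norm_mul, ker_norm, one_mul]
  · refine Filter.Eventually.of_forall fun x => ?_
    fun_prop

theorem FT_norm_le {n : ℕ} (f : E n → ℂ) (y : E n) : ‖FT f y‖ ≤ ∫ x, ‖f x‖ := by
  unfold FT
  refine (norm_integral_le_integral_norm _).trans (le_of_eq ?_)
  refine integral_congr_ae (Filter.Eventually.of_forall fun x => ?_)
  simp only [norm_mul]
  rw [ker_norm, one_mul]

theorem FT_rot {n : ℕ} (f : E n → ℂ) (ρ : E n ≃ₗᵢ[ℝ] E n) (y : E n) :
    FT (fun ξ => f (ρ ξ)) y = FT f (ρ y) := by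
  unfold FT
  rw [← ρ.measurePreserving.integral_comp ρ.toHomeomorph.measurableEmbedding
    (fun ξ => Complex.exp (-(2 * Real.pi * ⟪ρ y, ξ⟫ : ℝ) * I) * f ξ)]
  refine integral_congr_ae (Filter.Eventually.of_forall fun x => ?_)
  simp only [LinearIsometryEquiv.inner_map_map]

theorem dual {n : ℕ} {h : sphere (0 : E n) 1 → ℂ} (hh : Integrable h (sigma n)) {f : E n → ℂ}
    (hf : Integrable f) : ∫ ξ, ft h ξ * f ξ = ∫ x, h x * FT f (x : E n) ∂(sigma n) := by
  have hint : Integrable (fun z : sphere (0 : E n) 1 × E n =>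
      Complex.exp (-(2 * Real.pi * ⟪(z.1 : E n), z.2⟫ : ℝ) * I) * (h z.1 * f z.2))
      ((sigma n).prod volume) := by
    refine (Integrable.mul_prod hh hf).bdd_mul (c := 1) ?_ ?_
    · have : Continuous fun z : sphere (0 : E n) 1 × E n =>
        Complex.exp (-(2 * Real.pi * ⟪(z.1 : E n), z.2⟫ : ℝ) * I) := by fun_prop
      exact this.aestronglyMeasurable
    · exact Filter.Eventually.of_forall fun x => (ker_norm _ _).le
  have hsw := integral_integral_swap (f := fun (x : sphere (0 : E n) 1) (ξ : E n) =>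
    Complex.exp (-(2 * Real.pi * ⟪(x : E n), ξ⟫ : ℝ) * I) * (h x * f ξ)) hint
  calc ∫ ξ, ft h ξ * f ξ
      = ∫ ξ, ∫ x : sphere (0 : E n) 1, Complex.exp (-(2 * Real.pi * ⟪(x : E n), ξ⟫ : ℝ) * I) *
          (h x * f ξ) ∂(sigma n) := by
        refine integral_congr_ae (Filter.Eventually.of_forall fun ξ => ?_)
        simp only [ft]
        rw [← integral_mul_const]
        refine integral_congr_ae (Filter.Eventually.of_forall fun x => ?_)
        simp only
        ring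
    _ = ∫ x : sphere (0 : E n) 1, (∫ ξ : E n,
          Complex.exp (-(2 * Real.pi * ⟪(x : E n), ξ⟫ : ℝ) * I) * (h x * f ξ)) ∂(sigma n) :=
        hsw.symm
    _ = ∫ x, h x * FT f (x : E n) ∂(sigma n) := by
        refine integral_congr_ae (Filter.Eventually.of_forall fun x => ?_)
        simp only [FT]
        rw [← integral_const_mul]
        refine integral_congr_ae (Filter.Eventually.of_forall fun ξ => ?_)
        simp only
        ring

/-- a rotation of the sphere -/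
noncomputable def rot {n : ℕ} (ρ : E n ≃ₗᵢ[ℝ] E n) (x : sphere (0 : E n) 1) : sphere (0 : E n) 1 :=
  ⟨ρ x, by rw [mem_sphere_zero_iff_norm, ρ.norm_map]; exact norm_eq_of_mem_sphere x⟩

theorem rot_cont {n : ℕ} (ρ : E n ≃ₗᵢ[ℝ] E n) : Continuous (rot ρ) :=
  (ρ.continuous.comp continuous_subtype_val).subtype_mk _

theorem rot_mp {n : ℕ} (ρ : E n ≃ₗᵢ[ℝ] E n) : MeasurePreserving (rot ρ) (sigma n) (sigma n) := by
  refine ⟨(rot_cont ρ).measurable, ?_⟩
  ext s hs
  rw [Measure.map_apply (rot_cont ρ).measurable hs]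
  unfold sigma
  rw [Measure.toSphere_apply' _ ((rot_cont ρ).measurable hs), Measure.toSphere_apply' _ hs]
  congr 1
  rw [← ρ.measurePreserving.measure_preimage_emb ρ.toHomeomorph.measurableEmbedding
    (Ioo (0 : ℝ) 1 • ((fun x : sphere (0 : E n) 1 => (x : E n)) '' s))]
  congr 1
  ext z
  simp only [mem_preimage, Set.mem_smul, mem_image]
  constructor
  · rintro ⟨t, ht, y, ⟨x, hx, rfl⟩, rfl⟩
    exact ⟨t, ht, ρ x, ⟨rot ρ x, hx, rfl⟩, by rw [map_smul]⟩
  · rintro ⟨t, ht, y, ⟨x, hx, rfl⟩, hz⟩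
    refine ⟨t, ht, ρ.symm x, ⟨rot ρ.symm x, ?_, rfl⟩, ?_⟩
    · have : rot ρ (rot ρ.symm x) = x := Subtype.ext (ρ.apply_symm_apply _)
      rw [this]
      exact hx
    · apply ρ.injective
      rw [← hz, map_smul, ρ.apply_symm_apply]

theorem rot_int {n : ℕ} (ρ : E n ≃ₗᵢ[ℝ] E n) {G : E n → ℝ} (hG : Continuous G) :
    ∫ x, G (ρ (x : E n)) ∂(sigma n) = ∫ x, G (x : E n) ∂(sigma n) := by
  have h1 : ∫ x, G (x : E n) ∂((sigma n).map (rot ρ)) = ∫ x, G ((rot ρ x : sphere (0 : E n) 1) : E n) ∂(sigma n) :=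
    integral_map (rot_cont ρ).measurable.aemeasurable
      (hG.comp continuous_subtype_val).aestronglyMeasurable
  rw [(rot_mp ρ).map_eq] at h1
  rw [h1]
  rfl

theorem memLp_bdd {n : ℕ} {v : E n → ℂ} (hv : Measurable v) {B R : ℝ} (hB : ∀ ξ, ‖v ξ‖ ≤ B)
    (hR : ∀ ξ, ξ ∉ closedBall (0 : E n) R → v ξ = 0) (r : ℝ≥0∞) : MemLp v r volume := by
  have h1 : v = (closedBall (0 : E n) R).indicator v := by
    ext ξ
    by_cases h : ξ ∈ closedBall (0 : E n) R
    · rw [indicator_of_mem h]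
    · rw [indicator_of_notMem h, hR ξ h]
  rw [h1, memLp_indicator_iff_restrict measurableSet_closedBall]
  have : IsFiniteMeasure (volume.restrict (closedBall (0 : E n) R)) :=
    ⟨by rw [Measure.restrict_apply_univ]; exact measure_closedBall_lt_top⟩
  exact MemLp.of_bound hv.aestronglyMeasurable B (Filter.Eventually.of_forall hB)

theorem lp_le {n : ℕ} {u : E n → ℂ} (hu : Continuous u) {p A : ℝ} (hp : 1 < p) (hA : 0 ≤ A)
    (h : eLpNorm u (ENNReal.ofReal p) volume ≤ ENNReal.ofReal A) :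
    MemLp u (ENNReal.ofReal p) volume ∧ (∫ ξ, ‖u ξ‖ ^ p) ^ (1 / p) ≤ A := by
  have hm : MemLp u (ENNReal.ofReal p) volume :=
    ⟨hu.aestronglyMeasurable, h.trans_lt ENNReal.ofReal_lt_top⟩
  refine ⟨hm, ?_⟩
  have h1 := hm.eLpNorm_eq_integral_rpow_norm
    (by simpa using (by linarith : 0 < p)) ENNReal.ofReal_ne_top
  rw [ENNReal.toReal_ofReal (by linarith)] at h1
  rw [h1, ENNReal.ofReal_le_ofReal_iff hA] at h
  rwa [one_div]

section main

variable {n : ℕ} {p q κ A : ℝ} {Z : Set (sphere (0 : E n) 1)}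

theorem key (hp : 1 < p) (hpq : p.HolderConjugate q) (hZ : MeasurableSet Z) (hA : 0 ≤ A)
    (H : ∀ g : sphere (0 : E n) 1 → ℂ, Measurable g → (∀ x, ‖g x‖ ≤ 1) →
      ∃ h : sphere (0 : E n) 1 → ℂ, Measurable h ∧ (∀ x, x ∉ Z → h x = g x) ∧
      (∀ x, x ∈ Z → ‖h x‖ ≤ κ) ∧ eLpNorm (ft h) (ENNReal.ofReal p) volume ≤ ENNReal.ofReal A)
    {f : E n → ℂ} (hfi : Integrable f) (hfq : MemLp f (ENNReal.ofReal q) volume) :
    ∫ x, ‖FT f (x : E n)‖ ∂(sigma n) ≤ (1 + κ) * ∫ x in Z, ‖FT f (x : E n)‖ ∂(sigma n) +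
      A * (∫ ξ, ‖f ξ‖ ^ q) ^ (1 / q) := by
  have hFc : Continuous fun x : sphere (0 : E n) 1 => FT f (x : E n) :=
    (FT_cont hfi).comp continuous_subtype_val
  have hFi : Integrable (fun x : sphere (0 : E n) 1 => FT f (x : E n)) (sigma n) :=
    int_of_bdd hFc.measurable fun x => FT_norm_le f x
  obtain ⟨h, hhm, hhZ, hhκ, hhL⟩ := H
    (fun x => (starRingEnd ℂ) (FT f (x : E n)) / ((‖FT f (x : E n)‖ : ℝ) : ℂ))
    (by
      refine Measurable.div ?_ ?_
      · exact (Complex.continuous_conj.comp hFc).measurable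
      · exact (Complex.continuous_ofReal.comp hFc.norm).measurable)
    (fun x => by
      rw [norm_div, Complex.norm_conj, Complex.norm_real, norm_norm]
      exact div_self_le_one _)
  have hhb : ∀ x, ‖h x‖ ≤ max κ 1 := by
    intro x
    by_cases hx : x ∈ Z
    · exact (hhκ x hx).trans (le_max_left _ _)
    · rw [hhZ x hx, norm_div, Complex.norm_conj, Complex.norm_real, norm_norm]
      exact (div_self_le_one _).trans (le_max_right _ _)
  have hhi : Integrable h (sigma n) := int_of_bdd hhm hhb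
  have hprod : Integrable (fun x : sphere (0 : E n) 1 => h x * FT f (x : E n)) (sigma n) :=
    hFi.bdd_mul hhm.aestronglyMeasurable (Filter.Eventually.of_forall hhb)
  have h1 : ∫ x in Z, h x * FT f (x : E n) ∂(sigma n) +
      ∫ x in Zᶜ, h x * FT f (x : E n) ∂(sigma n) = ∫ x, h x * FT f (x : E n) ∂(sigma n) :=
    integral_add_compl hZ hprod
  have h2 : ∫ x in Zᶜ, h x * FT f (x : E n) ∂(sigma n) =
      ((∫ x in Zᶜ, ‖FT f (x : E n)‖ ∂(sigma n) : ℝ) : ℂ) := by
    rw [← integral_complex_ofReal]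
    refine setIntegral_congr_fun hZ.compl fun x hx => ?_
    rw [hhZ x hx]
    by_cases h0 : FT f (x : E n) = 0
    · simp [h0]
    · have h3 : ((‖FT f (x : E n)‖ : ℝ) : ℂ) ≠ 0 := by
        simpa using h0
      rw [div_mul_eq_mul_div, div_eq_iff h3, ← Complex.normSq_eq_conj_mul_self,
        Complex.normSq_eq_norm_sq]
      push_cast
      ring
  have h4 : ‖∫ x in Z, h x * FT f (x : E n) ∂(sigma n)‖ ≤
      κ * ∫ x in Z, ‖FT f (x : E n)‖ ∂(sigma n) := by
    refine (norm_integral_le_integral_norm _).trans ?_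
    rw [← integral_const_mul]
    refine setIntegral_mono_on hprod.norm.integrableOn (hFi.norm.const_mul κ).integrableOn hZ ?_
    intro x hx
    rw [norm_mul]
    exact mul_le_mul_of_nonneg_right (hhκ x hx) (norm_nonneg _)
  obtain ⟨hm, hle⟩ := lp_le (ft_cont hhi) hp hA hhL
  have h5 : ‖∫ x, h x * FT f (x : E n) ∂(sigma n)‖ ≤ A * (∫ ξ, ‖f ξ‖ ^ q) ^ (1 / q) := by
    rw [← dual hhi hfi]
    refine (norm_integral_le_integral_norm _).trans ?_
    simp only [norm_mul]
    refine (integral_mul_norm_le_Lp_mul_Lq hpq hm hfq).trans ?_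
    exact mul_le_mul_of_nonneg_right hle (Real.rpow_nonneg
      (integral_nonneg fun _ => Real.rpow_nonneg (norm_nonneg _) _) _)
  have h6 : 0 ≤ ∫ x in Zᶜ, ‖FT f (x : E n)‖ ∂(sigma n) :=
    integral_nonneg fun _ => norm_nonneg _
  have h7 : ∫ x in Zᶜ, ‖FT f (x : E n)‖ ∂(sigma n) ≤
      A * (∫ ξ, ‖f ξ‖ ^ q) ^ (1 / q) + κ * ∫ x in Z, ‖FT f (x : E n)‖ ∂(sigma n) := by
    have h8 : ‖((∫ x in Zᶜ, ‖FT f (x : E n)‖ ∂(sigma n) : ℝ) : ℂ)‖ =
        ∫ x in Zᶜ, ‖FT f (x : E n)‖ ∂(sigma n) := by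
      rw [Complex.norm_real, Real.norm_eq_abs, abs_of_nonneg h6]
    rw [← h8, ← h2, ← sub_eq_of_eq_add' h1.symm]
    exact (norm_sub_le _ _).trans (add_le_add h5 h4)
  have h9 : ∫ x in Z, ‖FT f (x : E n)‖ ∂(sigma n) + ∫ x in Zᶜ, ‖FT f (x : E n)‖ ∂(sigma n) =
      ∫ x, ‖FT f (x : E n)‖ ∂(sigma n) := integral_add_compl hZ hFi.norm
  linarith

theorem bound (hAVG : S_AVG) (hn : 2 ≤ n) (hp : 1 < p) (hpq : p.HolderConjugate q)
    (hZ : MeasurableSet Z) (hκ : 0 ≤ κ) (hA : 0 ≤ A)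
    (hθ : 0 < 1 - (1 + κ) * ((sigma n).real Z / (sigma n).real univ))
    (H : ∀ g : sphere (0 : E n) 1 → ℂ, Measurable g → (∀ x, ‖g x‖ ≤ 1) →
      ∃ h : sphere (0 : E n) 1 → ℂ, Measurable h ∧ (∀ x, x ∉ Z → h x = g x) ∧
      (∀ x, x ∈ Z → ‖h x‖ ≤ κ) ∧ eLpNorm (ft h) (ENNReal.ofReal p) volume ≤ ENNReal.ofReal A)
    {f : E n → ℂ} (hfi : Integrable f) (hfq : MemLp f (ENNReal.ofReal q) volume) :
    ∫ x, ‖FT f (x : E n)‖ ∂(sigma n) ≤
      A / (1 - (1 + κ) * ((sigma n).real Z / (sigma n).real univ)) *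
        (∫ ξ, ‖f ξ‖ ^ q) ^ (1 / q) := by
  obtain ⟨ρ, hρ⟩ := hAVG n hn (fun y => ‖FT f y‖) (FT_cont hfi).norm (fun _ => norm_nonneg _) Z hZ
  have hmp := ρ.measurePreserving
  have hemb := ρ.toHomeomorph.measurableEmbedding
  have hfi' : Integrable (fun ξ => f (ρ ξ)) := (hmp.integrable_comp_emb hemb).2 hfi
  have hfq' : MemLp (fun ξ => f (ρ ξ)) (ENNReal.ofReal q) volume :=
    hfq.comp_measurePreserving hmp
  have h1 := key hp hpq hZ hA H hfi' hfq'
  simp only [FT_rot] at h1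
  have h2 : ∫ ξ, ‖f (ρ ξ)‖ ^ q = ∫ ξ, ‖f ξ‖ ^ q :=
    hmp.integral_comp hemb fun ξ => ‖f ξ‖ ^ q
  rw [h2, rot_int ρ (FT_cont hfi).norm] at h1
  rw [div_mul_eq_mul_div, le_div_iff₀ hθ]
  have h3 := mul_le_mul_of_nonneg_left hρ (by linarith : 0 ≤ 1 + κ)
  nlinarith

theorem trunc (hAVG : S_AVG) (hn : 2 ≤ n) (hp : 1 < p)
    (hZ : MeasurableSet Z) (hκ : 0 ≤ κ) (hA : 0 ≤ A)
    (hθ : 0 < 1 - (1 + κ) * ((sigma n).real Z / (sigma n).real univ))
    (H : ∀ g : sphere (0 : E n) 1 → ℂ, Measurable g → (∀ x, ‖g x‖ ≤ 1) →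
      ∃ h : sphere (0 : E n) 1 → ℂ, Measurable h ∧ (∀ x, x ∉ Z → h x = g x) ∧
      (∀ x, x ∈ Z → ‖h x‖ ≤ κ) ∧ eLpNorm (ft h) (ENNReal.ofReal p) volume ≤ ENNReal.ofReal A)
    {g : sphere (0 : E n) 1 → ℂ} (hg : Measurable g) (hg1 : ∀ x, ‖g x‖ ≤ 1) (R : ℝ) :
    eLpNorm ((closedBall (0 : E n) R).indicator (ft g)) (ENNReal.ofReal p) volume ≤
      ENNReal.ofReal (A / (1 - (1 + κ) * ((sigma n).real Z / (sigma n).real univ))) := by
  have hgi : Integrable g (sigma n) := int_of_bdd hg hg1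
  set θ := 1 - (1 + κ) * ((sigma n).real Z / (sigma n).real univ) with hθdef
  set q := Real.conjExponent p with hq
  have hpq : p.HolderConjugate q := Real.HolderConjugate.conjExponent hp
  set M := ∫ x, ‖g x‖ ∂(sigma n) with hM
  have hM0 : 0 ≤ M := integral_nonneg fun _ => norm_nonneg _
  set w : E n → ℂ := (closedBall (0 : E n) R).indicator (ft g) with hw
  have hwm : Measurable w := (ft_cont hgi).measurable.indicator measurableSet_closedBall
  have hw0 : ∀ ξ, ξ ∉ closedBall (0 : E n) R → w ξ = 0 := fun ξ h => indicator_of_notMem h _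
  have hwb : ∀ ξ, ‖w ξ‖ ≤ M := by
    intro ξ
    by_cases h : ξ ∈ closedBall (0 : E n) R
    · rw [hw, indicator_of_mem h]
      exact ft_norm_le g ξ
    · rw [hw0 ξ h, norm_zero]
      exact hM0
  set f : E n → ℂ := fun ξ => (starRingEnd ℂ) (w ξ) * ((‖w ξ‖ ^ (p - 2) : ℝ) : ℂ) with hf
  have hfm : Measurable f := by
    refine Measurable.mul ?_ ?_
    · exact Complex.continuous_conj.measurable.comp hwm
    · exact Complex.measurable_ofReal.comp (hwm.norm.pow_const _)
  have hfn : ∀ ξ, ‖f ξ‖ = ‖w ξ‖ ^ (p - 1) := by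
    intro ξ
    rw [hf]
    simp only
    rw [norm_mul, Complex.norm_conj, Complex.norm_real, Real.norm_eq_abs,
      abs_of_nonneg (Real.rpow_nonneg (norm_nonneg _) _)]
    by_cases h : w ξ = 0
    · rw [h, norm_zero, zero_mul, Real.zero_rpow (by linarith)]
    · have h1 : 0 < ‖w ξ‖ := norm_pos_iff.2 h
      conv_lhs => rw [← Real.rpow_one ‖w ξ‖]
      rw [Real.rpow_one, ← Real.rpow_one_add' h1.le (by linarith)]
      congr 1
      ring
  have hfb : ∀ ξ, ‖f ξ‖ ≤ M ^ (p - 1) := by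
    intro ξ
    rw [hfn]
    exact Real.rpow_le_rpow (norm_nonneg _) (hwb ξ) (by linarith)
  have hf0 : ∀ ξ, ξ ∉ closedBall (0 : E n) R → f ξ = 0 := by
    intro ξ h
    rw [hf]
    simp only
    rw [hw0 ξ h, map_zero, zero_mul]
  have hfi : Integrable f := by
    have := memLp_bdd hfm hfb hf0 1
    exact memLp_one_iff_integrable.1 this
  have hfq : MemLp f (ENNReal.ofReal q) volume := memLp_bdd hfm hfb hf0 _
  have hwp : MemLp w (ENNReal.ofReal p) volume := memLp_bdd hwm hwb hw0 _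
  have h1 := bound hAVG hn hp hpq hZ hκ hA hθ H hfi hfq
  have h2 : ∀ ξ, ‖f ξ‖ ^ q = ‖w ξ‖ ^ p := by
    intro ξ
    rw [hfn, ← Real.rpow_mul (norm_nonneg _)]
    congr 1
    rw [hq, Real.conjExponent]
    field_simp [(by linarith : p - 1 ≠ 0)]
  simp only [h2] at h1
  have h3 : ∀ ξ, ft g ξ * f ξ = ((‖w ξ‖ ^ p : ℝ) : ℂ) := by
    intro ξ
    by_cases h : ξ ∈ closedBall (0 : E n) R
    · have hwξ : w ξ = ft g ξ := indicator_of_mem h _
      rw [← hwξ, hf]
      simp only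
      rw [← mul_assoc, Complex.mul_conj, Complex.normSq_eq_norm_sq, ← Complex.ofReal_mul]
      congr 1
      by_cases h0 : w ξ = 0
      · rw [h0, norm_zero, Real.zero_rpow (show p ≠ 0 by linarith), zero_pow two_ne_zero, zero_mul]
      · have h4 : 0 < ‖w ξ‖ := norm_pos_iff.2 h0
        rw [← Real.rpow_natCast, ← Real.rpow_add h4]
        congr 1
        push_cast
        ring
    · rw [hf0 ξ h, hw0 ξ h, mul_zero, norm_zero, Real.zero_rpow (by linarith)]
      rfl
  set T := ∫ ξ, ‖w ξ‖ ^ p with hT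
  have hT0 : 0 ≤ T := integral_nonneg fun _ => Real.rpow_nonneg (norm_nonneg _) _
  have h5 : T ≤ A / θ * T ^ (1 / q) := by
    have h6 : ∫ ξ, ft g ξ * f ξ = (T : ℂ) := by
      simp only [h3]
      rw [integral_complex_ofReal]
    have h7 : T = ‖∫ x, g x * FT f (x : E n) ∂(sigma n)‖ := by
      rw [← dual hgi hfi, h6, Complex.norm_real, Real.norm_eq_abs, abs_of_nonneg hT0]
    refine le_trans ?_ h1
    conv_lhs => rw [h7]
    refine (norm_integral_le_integral_norm _).trans ?_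
    have hFi : Integrable (fun x : sphere (0 : E n) 1 => FT f (x : E n)) (sigma n) :=
      int_of_bdd ((FT_cont hfi).comp continuous_subtype_val).measurable fun x => FT_norm_le f x
    refine integral_mono_of_nonneg (Filter.Eventually.of_forall fun _ => norm_nonneg _)
      hFi.norm (Filter.Eventually.of_forall fun x => ?_)
    simp only
    rw [norm_mul]
    exact mul_le_of_le_one_left (norm_nonneg _) (hg1 x)
  have h8 : T ^ (1 / p) ≤ A / θ := by
    rcases hT0.eq_or_lt with h0 | h0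
    · rw [← h0, Real.zero_rpow (by positivity)]
      positivity
    · have h9 : T ^ (1 / p) * T ^ (1 / q) = T := by
        rw [← Real.rpow_add h0, one_div, one_div, hpq.inv_add_inv_eq_one, Real.rpow_one]
      have h10 : 0 < T ^ (1 / q) := Real.rpow_pos_of_pos h0 _
      have h11 : T ^ (1 / p) * T ^ (1 / q) ≤ A / θ * T ^ (1 / q) := by
        rw [h9]
        exact h5
      exact le_of_mul_le_mul_right h11 h10
  rw [hwp.eLpNorm_eq_integral_rpow_norm (by simpa using (by linarith : 0 < p))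
    ENNReal.ofReal_ne_top, ENNReal.toReal_ofReal (by linarith)]
  refine ENNReal.ofReal_le_ofReal ?_
  rw [← one_div]
  exact h8

end main

end THR

theorem t_THR (hAVG : S_AVG) : S_THR := by
  intro n hn p hp Z hZ κ A hκ hA hlt H g hg hg1
  have := THR.sig_fin n
  have hsum : (sigma n).real Z + (sigma n).real Zᶜ = (sigma n).real univ :=
    measureReal_add_measureReal_compl hZ
  have hs : 0 < (sigma n).real univ := by
    have h1 : 0 ≤ (sigma n).real Z := measureReal_nonneg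
    have h2 : 0 ≤ κ * (sigma n).real Z := mul_nonneg hκ h1
    linarith
  have hθ : 0 < 1 - (1 + κ) * ((sigma n).real Z / (sigma n).real univ) := by
    rw [sub_pos, ← mul_div_assoc, div_lt_one hs]
    linarith
  have hgi : Integrable g (sigma n) := THR.int_of_bdd hg hg1
  have hlim : ∀ᵐ ξ ∂(volume : Measure (E n)), Tendsto (fun k : ℕ =>
      (closedBall (0 : E n) (k : ℝ)).indicator (ft g) ξ) atTop (𝓝 (ft g ξ)) := by
    refine Filter.Eventually.of_forall fun ξ => ?_
    refine tendsto_const_nhds.congr' ?_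
    obtain ⟨k0, hk0⟩ := exists_nat_ge ‖ξ‖
    filter_upwards [eventually_ge_atTop k0] with k hk
    rw [indicator_of_mem]
    rw [mem_closedBall_zero_iff]
    exact hk0.trans (by exact_mod_cast hk)
  refine (Lp.eLpNorm_lim_le_liminf_eLpNorm (fun k : ℕ =>
    ((THR.ft_cont hgi).measurable.indicator measurableSet_closedBall).aestronglyMeasurable)
    (ft g) hlim).trans ?_
  refine (Filter.liminf_le_liminf (Filter.Eventually.of_forall fun k : ℕ =>
    THR.trunc hAVG hn hp hZ hκ hA hθ H hg hg1 (k : ℝ))).trans ?_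
  rw [Filter.liminf_const]

end Pool.Agent.H197.SP
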