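import Mathlib
import Pool.Agent.H197.GS.THR
import Pool.Agent.H197.GS.AVG
set_option autoImplicit false

/-!
# Project GS (helper197), fourth part: exceptional sets which may depend on the density

If every density `|g| ≤ 1` on the sphere can be corrected on a set `Z_g` with `σ(Z_g) ≤ ε σ(S)` by values of size at most `K`, `(1+K)^p ε ≤ c(p)`,
with a uniform bound in `L^p` for the corrected densities, then Stein's estimate holds for `p`. (Doubling argument: two almost disjoint rotated copies of an extremal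
function; the case of a rotation invariant operator `L^∞ → L^q` of the theorem of Maurey, Nikishin and Pisier.)
-/

namespace Pool.Agent.H197.SP

open MeasureTheory Set Metric Complex Filter Topology
open Pool.Agent.H197.PD (E sigma ft dec)
open scoped ENNReal NNReal RealInnerProductSpace BigOperators ContDiff

/-- the norm of the transform in `L^q` of the ball of radius `R` -/
noncomputable def nb {n : ℕ} (q R : ℝ) (g : sphere (0 : E n) 1 → ℂ) : ℝ :=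
  (eLpNorm (ft g) (ENNReal.ofReal q) (volume.restrict (closedBall (0 : E n) R))).toReal

/-- bounded and measurable -/
def BM {n : ℕ} (g : sphere (0 : E n) 1 → ℂ) : Prop := Measurable g ∧ ∃ M : ℝ, ∀ x, ‖g x‖ ≤ M

/-- the largest norm `nb q R g` for densities `|g| ≤ 1` supported on a set of normalised measure at most `t` -/
noncomputable def av (n : ℕ) (q R t : ℝ) : ℝ :=
  sSup {y : ℝ | ∃ (g : sphere (0 : E n) 1 → ℂ) (Z : Set (sphere (0 : E n) 1)), Measurable g ∧ MeasurableSet Z ∧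
    (∀ x, ‖g x‖ ≤ 1) ∧ (∀ x, x ∉ Z → g x = 0) ∧ (sigma n).real Z ≤ t * (sigma n).real univ ∧ y = nb q R g}

/-- SP-NBA: `nb` is a seminorm on the bounded measurable densities, invariant under rotations, bounded by the `L¹` norm. Proof: `ft` is linear on integrable densities (`THR.int_of_bdd`, `THR.ker_int`), `ft u` is continuous (`THR.ft_cont`) with
`|ft u| ≤ ∫ |u| dσ` (`THR.ft_norm_le`), so it is in `L^q` of the ball (finite measure); `eLpNorm_add_le`, `ENNReal.toReal_add_le`/`toReal_mono`; `eLpNorm_const_smul` (for every `u`, `integral_const_mul`). Rotations: `ft (u ∘ ρ) ξ = ft u (ρ ξ)` (`THR.rot_mp`, `THR.rot ρ` is a measurable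
embedding/equivalence with inverse `THR.rot ρ.symm`; `⟪x, ξ⟫ = ⟪ρ x, ρ ξ⟫`) and `ρ` maps the ball to itself and preserves `volume` (`eLpNorm_comp_measurePreserving` after writing the restriction as an indicator, or
`MeasurePreserving.restrict_preimage_emb`). `D = vol(B_R)^(1/q)`: `eLpNorm_le_of_ae_bound`. -/
def S_NBA : Prop :=
  ∀ n : ℕ, 2 ≤ n → ∀ q : ℝ, 1 ≤ q → ∀ R : ℝ,
    (∀ u v : sphere (0 : E n) 1 → ℂ, BM u → BM v → nb q R (fun x => u x + v x) ≤ nb q R u + nb q R v) ∧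
    (∀ (c : ℂ) (u : sphere (0 : E n) 1 → ℂ), nb q R (fun x => c * u x) = ‖c‖ * nb q R u) ∧
    (∀ (u : sphere (0 : E n) 1 → ℂ) (ρ : E n ≃ₗᵢ[ℝ] E n), nb q R (fun x => u (THR.rot ρ x)) = nb q R u) ∧
    ∃ D : ℝ, 0 ≤ D ∧ ∀ u : sphere (0 : E n) 1 → ℂ, BM u → nb q R u ≤ D * ∫ x, ‖u x‖ ∂(sigma n)

/-- SP-NBC: Clarkson's inequality. Proof. For `q ≥ 2` and complex `a, b`: `|a|^q + |b|^q ≤ (|a|² + |b|²)^(q/2) = ((|a+b|² + |a-b|²)/2)^(q/2) ≤ (|a+b|^q + |a-b|^q)/2`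
(`Real.add_rpow_le_rpow_add`-type superadditivity for the exponent `q/2 ≥ 1`, parallelogram law, convexity of `t^(q/2)` / `Real.rpow_arith_mean_le_arith_mean2_rpow`). Integrate over the ball with `a = ft u ξ`, `b = ft v ξ`;
`nb q R u ^ q = ∫ ξ in closedBall 0 R, ‖ft u ξ‖^q` (`MemLp.eLpNorm_eq_integral_rpow_norm`, `THR.ft_cont`, bounded on a set of finite measure), `ft (u ± v) = ft u ± ft v`. -/
def S_NBC : Prop :=
  ∀ n : ℕ, 2 ≤ n → ∀ q : ℝ, 2 ≤ q → ∀ R : ℝ, ∀ u v : sphere (0 : E n) 1 → ℂ, BM u → BM v →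
    nb q R u ^ q + nb q R v ^ q ≤ (nb q R (fun x => u x + v x) ^ q + nb q R (fun x => u x - v x) ^ q) / 2

/-- SP-ROTZ: a rotation which moves most of a small set off itself. Proof (uses `S_AVG`). Let `σ(Z) ≤ t σ(S)`, `t > 0`; we may assume `σ(Z) > 0` and `n ≥ 2` so `σ(S) > 0` (`Pool.Agent.H197.PD.STEP.sig_pos`; or: if `σ(S) = 0` everything is `0`). `K ⊆ Z` compact with `σ(Z \ K) ≤ t² σ(S)/2` (inner regularity,
`MeasurableSet.exists_isCompact_lt_add` / `exists_isCompact_diff_lt`); `K' ⊆ E n` the image of `K` (compact), `G_m(y) = max 0 (1 - m * infDist y K')` (continuous, `≥ 0`, `= 1` on `K'`, `≤ 1`; if `K` is empty take any rotation), `∫ G_m dσ → σ(K)` (dominated convergence), so `∫ G_m dσ ≤ σ(Z) + t σ(S)/2` for some `m`. By `S_AVG` some `ρ` has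
`∫_Z G_m(ρ x) dσ ≤ (σ(Z)/σ(S)) ∫ G_m dσ ≤ t (t σ(S) + t σ(S)/2)`, and `σ(Z ∩ ρ⁻¹ Z) ≤ σ(Z ∩ ρ⁻¹ K) + σ(ρ⁻¹(Z \ K)) ≤ ∫_Z G_m(ρ x) dσ + σ(Z \ K) ≤ 3 t² σ(S)/2 + t² σ(S)/2`
(`THR.rot_mp`). -/
def S_ROTZ : Prop :=
  ∀ n : ℕ, 2 ≤ n → ∀ Z : Set (sphere (0 : E n) 1), MeasurableSet Z → ∀ t : ℝ, 0 < t →
    (sigma n).real Z ≤ t * (sigma n).real univ →
    ∃ ρ : E n ≃ₗᵢ[ℝ] E n, (sigma n).real (Z ∩ THR.rot ρ ⁻¹' Z) ≤ 2 * t ^ 2 * (sigma n).real univ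

/-- properties of `av`, with the doubling inequality -/
def AV (n : ℕ) (q R : ℝ) : Prop :=
  (∀ t, 0 ≤ t → 0 ≤ av n q R t) ∧ (∀ s t, 0 ≤ s → s ≤ t → av n q R s ≤ av n q R t) ∧
  (∃ D : ℝ, 0 ≤ D ∧ ∀ t, 0 ≤ t → av n q R t ≤ D * t) ∧
  (∀ t, 0 ≤ t → ∀ (g : sphere (0 : E n) 1 → ℂ) (Z : Set (sphere (0 : E n) 1)), Measurable g → MeasurableSet Z →
    (∀ x, ‖g x‖ ≤ 1) → (∀ x, x ∉ Z → g x = 0) → (sigma n).real Z ≤ t * (sigma n).real univ → nb q R g ≤ av n q R t) ∧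
  ∀ t, 0 < t → t ≤ 1 / 2 → av n q R t ^ q + (av n q R t - av n q R (2 * t ^ 2)) ^ q ≤ av n q R (2 * t) ^ q

/-- SP-DBL (uses `S_NBA`, `S_NBC`, `S_ROTZ`): the doubling inequality. Proof. The set in the definition of `av` contains `0` (`g = 0`, `Z = ∅`, for `t ≥ 0`) and is bounded above by `D t σ(S)` (last clause of `S_NBA`; `∫ |g| dσ ≤ σ(Z)`), so the first four clauses are `le_csSup`, `csSup_le_csSup`, `csSup_le`.
Let `0 < t ≤ 1/2`, `b = av (2t²)` (`≤ av t` as `2t² ≤ t`), `(g, Z)` admissible for `t`, `y = nb g`. Let `ρ` be given by `S_ROTZ`, `Z₂ = ρ⁻¹ Z`, `g₂ = g ∘ ρ` (`nb g₂ = y`, zero off `Z₂`, `σ(Z₂) = σ(Z)` by `THR.rot_mp`), `w = g₂ 1_{Z ∩ Z₂}`, `u = g₂ 1_{Z₂ \ Z}`. Then `nb w ≤ b`, `nb u ≥ y - b` (triangle inequality, `g₂ = u + w`), `|g ± u| ≤ 1`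
(disjoint supports), both zero off `Z ∪ Z₂`, of measure `≤ 2 t σ(S)`. By `S_NBC`: `y^q + (max (y - b) 0)^q ≤ nb g ^ q + nb u ^ q ≤ av (2t) ^ q`. The set of the `y` with this inequality is closed (continuity of `rpow` for `q > 0`), so it contains the supremum `av t` (`csSup_mem_closure`), and `av t - b ≥ 0`. -/
def S_DBL : Prop := S_NBA → S_NBC → S_ROTZ → ∀ n : ℕ, 2 ≤ n → ∀ q : ℝ, 2 ≤ q → ∀ R : ℝ, AV n q R

/-- SP-SQ: the sequence lemma. Proof. Let `q ≥ 2`; if `a 0 = 0` all `a k = 0` (antitone). Step 1: `s = 3/(4q) < 1`. Since `a k 2^{sk} ≤ D 2^{-(1-s)k} → 0`, the supremum `B` of `a k 2^{sk}` is attained at some `k*` (or use: there is `k*` with `a k* 2^{sk*} ≥ a k 2^{sk}` for all `k`; e.g. `Filter.Tendsto` to `0` + `Finset.exists_max_image`, note `a 0 > 0`).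
If `k* ≥ 1`: `a (2k*-1) ≤ B 2^{-s(2k*-1)} = a k* 2^{-s(k*-1)}` and `a (k*-1) ≤ B 2^{-s(k*-1)} = a k* 2^s`, so the recursion divided by `a k*^q > 0` is `1 + (1 - 2^{-s(k*-1)})^q ≤ 2^{sq} = 2^{3/4}`, hence `k* ≤ m₀` where `m₀` depends only on `q` (`(1-2^{-s m})^q → 1 > 2^{3/4} - 1`).
So `a k ≤ 2^{s m₀} a 0 2^{-sk} =: C₁ a 0 2^{-sk}` for all `k`. Step 2: `b k = a k 2^{k/q} / a 0`. If `b k ≥ 1` then `θ = a (2k-1)/a k ≤ C₁ 2^{-s(2k-1)} 2^{k/q} = C₁ 2^s 2^{-k/(2q)} =: θ_k`; if also `k ≥ k₁(q)`, where `q θ_k ≤ 1`, then by Bernoulli `(1-θ)^q ≥ 1 - q θ_k`, so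
`a (k-1)^q ≥ a k^q (2 - q θ_k)`, i.e. `b (k-1)^q ≥ b k^q (1 - q θ_k/2)`, and `1/(1-x) ≤ e^{2x}` for `0 ≤ x ≤ 1/2` gives `b k^q ≤ b (k-1)^q exp(q θ_k)`. So `max (b k^q) 1 ≤ max (b (k-1)^q) 1 * exp(q θ_k)` for `k > k₁`; `∑ θ_k` converges (geometric) and `b k^q ≤ 2^k ≤ 2^{k₁}` for `k ≤ k₁` (antitone). -/
def S_SQ : Prop :=
  ∀ q : ℝ, 2 ≤ q → ∃ C : ℝ, 0 < C ∧ ∀ a : ℕ → ℝ, (∀ k, 0 ≤ a k) → Antitone a → (∃ D : ℝ, ∀ k : ℕ, a k ≤ D * (2 : ℝ) ^ (-(k : ℝ))) →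
    (∀ k : ℕ, 1 ≤ k → a k ^ q + (a k - a (2 * k - 1)) ^ q ≤ a (k - 1) ^ q) → ∀ k : ℕ, a k ≤ C * (2 : ℝ) ^ (-(k : ℝ) / q) * a 0

/-- SP-SQ1: step 1 of the docstring of `S_SQ`. -/
def S_SQ1 : Prop :=
  ∀ q : ℝ, 2 ≤ q → ∃ C : ℝ, 0 < C ∧ ∀ a : ℕ → ℝ, (∀ k, 0 ≤ a k) → Antitone a → (∃ D : ℝ, ∀ k : ℕ, a k ≤ D * (2 : ℝ) ^ (-(k : ℝ))) →
    (∀ k : ℕ, 1 ≤ k → a k ^ q + (a k - a (2 * k - 1)) ^ q ≤ a (k - 1) ^ q) →
    ∀ k : ℕ, a k ≤ C * (2 : ℝ) ^ (-(3 / (4 * q)) * (k : ℝ)) * a 0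

/-- SP-SQ2: step 2 of the docstring of `S_SQ`. -/
def S_SQ2 : Prop := S_SQ1 → S_SQ

/-- SP-REST (done by helper197) -/
def S_REST : Prop :=
  ∀ q : ℝ, 2 ≤ q → ∃ C : ℝ, 0 < C ∧ ∀ n : ℕ, 2 ≤ n → ∀ R : ℝ, ∀ t : ℝ, 0 < t → t ≤ 1 →
    av n q R t ≤ C * t ^ (1 / q) * av n q R 1

/-- SP-EACH (done by helper197) -/
def S_EACH : Prop :=
  ∀ p : ℝ, 2 ≤ p → ∃ c : ℝ, 0 < c ∧ ∀ n : ℕ, 2 ≤ n → ∀ K ε A : ℝ, 0 ≤ K → 0 < ε → 0 ≤ A → (1 + K) ^ p * ε ≤ c →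
    (∀ g : sphere (0 : E n) 1 → ℂ, Measurable g → (∀ x, ‖g x‖ ≤ 1) →
      ∃ Z : Set (sphere (0 : E n) 1), MeasurableSet Z ∧ (sigma n).real Z ≤ ε * (sigma n).real univ ∧
      ∃ h : sphere (0 : E n) 1 → ℂ, Measurable h ∧ (∀ x, x ∉ Z → h x = g x) ∧ (∀ x, x ∈ Z → ‖h x‖ ≤ K) ∧
        eLpNorm (ft h) (ENNReal.ofReal p) volume ≤ ENNReal.ofReal A) →
    ∀ g : sphere (0 : E n) 1 → ℂ, Measurable g → (∀ x, ‖g x‖ ≤ 1) →
      eLpNorm (ft g) (ENNReal.ofReal p) volume ≤ ENNReal.ofReal (2 * A)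

end Pool.Agent.H197.SP
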