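import Mathlib
import Pool.Agent.H197.GS.Stm4
set_option autoImplicit false

/-! Project GS, SP-DBL (helper138): the doubling inequality. -/

namespace Pool.Agent.H197.SP

open MeasureTheory Set Metric Complex Filter Topology
open Pool.Agent.H197.PD (E sigma ft dec)
open scoped ENNReal NNReal RealInnerProductSpace BigOperators ContDiff

namespace DBL

/-- `y` belongs to the set in the definition of `av` -/
def Adm (n : ℕ) (q R t y : ℝ) : Prop :=
  ∃ (g : sphere (0 : E n) 1 → ℂ) (Z : Set (sphere (0 : E n) 1)), Measurable g ∧ MeasurableSet Z ∧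
    (∀ x, ‖g x‖ ≤ 1) ∧ (∀ x, x ∉ Z → g x = 0) ∧ (sigma n).real Z ≤ t * (sigma n).real univ ∧ y = nb q R g

theorem av_eq (n : ℕ) (q R t : ℝ) : av n q R t = sSup {y | Adm n q R t y} := rfl

theorem nb_nonneg {n : ℕ} (q R : ℝ) (g : sphere (0 : E n) 1 → ℂ) : 0 ≤ nb q R g := ENNReal.toReal_nonneg

theorem int_le {n : ℕ} {g : sphere (0 : E n) 1 → ℂ} {Z : Set (sphere (0 : E n) 1)} (hZ : MeasurableSet Z)
    (h1 : ∀ x, ‖g x‖ ≤ 1) (h0 : ∀ x, x ∉ Z → g x = 0) : ∫ x, ‖g x‖ ∂(sigma n) ≤ (sigma n).real Z := by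
  have := THR.sig_fin n
  rw [← integral_indicator_one hZ]
  refine integral_mono_of_nonneg (Eventually.of_forall fun _ => norm_nonneg _)
    ((integrable_const (1 : ℝ)).indicator hZ) (Eventually.of_forall fun x => ?_)
  by_cases hx : x ∈ Z
  · simp only [indicator_of_mem hx]
    exact h1 x
  · simp only [indicator_of_notMem hx]
    rw [h0 x hx, norm_zero]

theorem adm_le (hA : S_NBA) {n : ℕ} (hn : 2 ≤ n) {q : ℝ} (hq : 2 ≤ q) (R : ℝ) :
    ∃ D : ℝ, 0 ≤ D ∧ ∀ t y, 0 ≤ t → Adm n q R t y → y ≤ D * t := by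
  obtain ⟨-, -, -, D, hD, h⟩ := hA n hn q (by linarith) R
  refine ⟨D * (sigma n).real univ, mul_nonneg hD measureReal_nonneg, ?_⟩
  rintro t y ht ⟨g, Z, hg, hZ, h1, h0, hσ, rfl⟩
  have h2 := h g ⟨hg, 1, h1⟩
  have h3 := (int_le hZ h1 h0).trans hσ
  calc nb q R g ≤ D * ∫ x, ‖g x‖ ∂(sigma n) := h2
    _ ≤ D * (t * (sigma n).real univ) := mul_le_mul_of_nonneg_left h3 hD
    _ = D * (sigma n).real univ * t := by ring

theorem adm_zero (hA : S_NBA) {n : ℕ} (hn : 2 ≤ n) {q : ℝ} (hq : 2 ≤ q) (R : ℝ) {t : ℝ} (ht : 0 ≤ t) :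
    Adm n q R t 0 := by
  obtain ⟨-, h, -⟩ := hA n hn q (by linarith) R
  have h1 : nb q R (fun _ : sphere (0 : E n) 1 => (0 : ℂ)) = 0 := by
    have h2 := h 0 (fun _ => 0)
    rw [norm_zero, zero_mul, zero_mul] at h2
    exact h2
  refine ⟨fun _ => 0, ∅, measurable_const, MeasurableSet.empty, fun x => by simp, fun x _ => rfl, ?_, h1.symm⟩
  rw [measureReal_empty]
  exact mul_nonneg ht measureReal_nonneg

theorem bdd (hA : S_NBA) {n : ℕ} (hn : 2 ≤ n) {q : ℝ} (hq : 2 ≤ q) (R : ℝ) {t : ℝ} (ht : 0 ≤ t) :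
    BddAbove {y | Adm n q R t y} := by
  obtain ⟨D, -, h⟩ := adm_le hA hn hq R
  exact ⟨D * t, fun y hy => h t y ht hy⟩

theorem le_av (hA : S_NBA) {n : ℕ} (hn : 2 ≤ n) {q : ℝ} (hq : 2 ≤ q) (R : ℝ) {t : ℝ} (ht : 0 ≤ t)
    {g : sphere (0 : E n) 1 → ℂ} {Z : Set (sphere (0 : E n) 1)} (hg : Measurable g) (hZ : MeasurableSet Z)
    (h1 : ∀ x, ‖g x‖ ≤ 1) (h0 : ∀ x, x ∉ Z → g x = 0) (hσ : (sigma n).real Z ≤ t * (sigma n).real univ) :
    nb q R g ≤ av n q R t :=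
  le_csSup (bdd hA hn hq R ht) ⟨g, Z, hg, hZ, h1, h0, hσ, rfl⟩

theorem av_mono (hA : S_NBA) {n : ℕ} (hn : 2 ≤ n) {q : ℝ} (hq : 2 ≤ q) (R : ℝ) {s t : ℝ} (hs : 0 ≤ s)
    (hst : s ≤ t) : av n q R s ≤ av n q R t := by
  refine csSup_le_csSup (bdd hA hn hq R (hs.trans hst)) ⟨0, adm_zero hA hn hq R hs⟩ ?_
  rintro y ⟨g, Z, hg, hZ, h1, h0, hσ, hy⟩
  exact ⟨g, Z, hg, hZ, h1, h0, hσ.trans (mul_le_mul_of_nonneg_right hst measureReal_nonneg), hy⟩

/-- the inequality for one density -/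
theorem one (hA : S_NBA) (hC : S_NBC) (hR : S_ROTZ) {n : ℕ} (hn : 2 ≤ n) {q : ℝ} (hq : 2 ≤ q) (R : ℝ) {t : ℝ}
    (ht : 0 < t) {y : ℝ} (hy : Adm n q R t y) :
    y ^ q + (max (y - av n q R (2 * t ^ 2)) 0) ^ q ≤ av n q R (2 * t) ^ q := by
  obtain ⟨g, Z, hg, hZ, h1, h0, hσ, rfl⟩ := hy
  have := THR.sig_fin n
  obtain ⟨ρ, hρ⟩ := hR n hn Z hZ t ht hσ
  obtain ⟨hadd, hmul, hrot, -⟩ := hA n hn q (by linarith) R
  have hrm : Measurable (THR.rot ρ) := (THR.rot_cont ρ).measurable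
  have hZ2 : MeasurableSet (THR.rot ρ ⁻¹' Z) := hrm hZ
  have hσ2 : (sigma n).real (THR.rot ρ ⁻¹' Z) = (sigma n).real Z := by
    unfold Measure.real
    rw [(THR.rot_mp ρ).measure_preimage hZ.nullMeasurableSet]
  obtain ⟨g2, hg2⟩ : ∃ g2 : sphere (0 : E n) 1 → ℂ, g2 = fun x => g (THR.rot ρ x) := ⟨_, rfl⟩
  have hg2m : Measurable g2 := by rw [hg2]; exact hg.comp hrm
  have hg21 : ∀ x, ‖g2 x‖ ≤ 1 := fun x => by rw [hg2]; exact h1 _
  have hg20 : ∀ x, x ∉ THR.rot ρ ⁻¹' Z → g2 x = 0 := fun x hx => by rw [hg2]; exact h0 _ hx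
  have hnb2 : nb q R g2 = nb q R g := by rw [hg2]; exact hrot g ρ
  -- the two parts
  obtain ⟨w, hw⟩ : ∃ w : sphere (0 : E n) 1 → ℂ, w = Z.indicator g2 := ⟨_, rfl⟩
  obtain ⟨u, hu⟩ : ∃ u : sphere (0 : E n) 1 → ℂ, u = Zᶜ.indicator g2 := ⟨_, rfl⟩
  have hwm : Measurable w := by rw [hw]; exact hg2m.indicator hZ
  have hum : Measurable u := by rw [hu]; exact hg2m.indicator hZ.compl
  have hwZ : ∀ x, x ∈ Z → w x = g2 x := fun x hx => by rw [hw, indicator_of_mem hx]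
  have hwZ' : ∀ x, x ∉ Z → w x = 0 := fun x hx => by rw [hw, indicator_of_notMem hx]
  have huZ : ∀ x, x ∈ Z → u x = 0 := fun x hx => by
    have h : x ∉ Zᶜ := fun h => h hx
    rw [hu, indicator_of_notMem h]
  have huZ' : ∀ x, x ∉ Z → u x = g2 x := fun x hx => by rw [hu, indicator_of_mem hx]
  have hw1 : ∀ x, ‖w x‖ ≤ 1 := by
    intro x
    by_cases hx : x ∈ Z
    · rw [hwZ x hx]; exact hg21 x
    · rw [hwZ' x hx, norm_zero]; exact zero_le_one
  have hu1 : ∀ x, ‖u x‖ ≤ 1 := by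
    intro x
    by_cases hx : x ∈ Z
    · rw [huZ x hx, norm_zero]; exact zero_le_one
    · rw [huZ' x hx]; exact hg21 x
  have hwb : nb q R w ≤ av n q R (2 * t ^ 2) := by
    refine le_av hA hn hq R (by positivity) hwm (hZ.inter hZ2) hw1 (fun x hx => ?_) hρ
    by_cases hxZ : x ∈ Z
    · rw [hwZ x hxZ]
      exact hg20 x (fun h => hx ⟨hxZ, h⟩)
    · exact hwZ' x hxZ
  have hyu : nb q R g ≤ nb q R u + av n q R (2 * t ^ 2) := by
    have h2 : g2 = fun x => u x + w x := by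
      funext x
      by_cases hx : x ∈ Z
      · rw [huZ x hx, hwZ x hx, zero_add]
      · rw [huZ' x hx, hwZ' x hx, add_zero]
    have h3 := hadd u w ⟨hum, 1, hu1⟩ ⟨hwm, 1, hw1⟩
    rw [← h2, hnb2] at h3
    linarith
  -- the sum and the difference
  have hσu : (sigma n).real (Z ∪ THR.rot ρ ⁻¹' Z) ≤ 2 * t * (sigma n).real univ := by
    refine (measureReal_union_le _ _).trans ?_
    rw [hσ2]
    linarith
  have hp : nb q R (fun x => g x + u x) ≤ av n q R (2 * t) := by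
    refine le_av hA hn hq R (by positivity) (hg.add hum) (hZ.union hZ2) (fun x => ?_) (fun x hx => ?_) hσu
    · by_cases hx : x ∈ Z
      · rw [huZ x hx, add_zero]; exact h1 x
      · rw [h0 x hx, zero_add]; exact hu1 x
    · rw [h0 x (fun h => hx (Or.inl h)), huZ' x (fun h => hx (Or.inl h)), hg20 x (fun h => hx (Or.inr h)), add_zero]
  have hm : nb q R (fun x => g x - u x) ≤ av n q R (2 * t) := by
    refine le_av hA hn hq R (by positivity) (hg.sub hum) (hZ.union hZ2) (fun x => ?_) (fun x hx => ?_) hσu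
    · by_cases hx : x ∈ Z
      · rw [huZ x hx, sub_zero]; exact h1 x
      · rw [h0 x hx, zero_sub, norm_neg]; exact hu1 x
    · rw [h0 x (fun h => hx (Or.inl h)), huZ' x (fun h => hx (Or.inl h)), hg20 x (fun h => hx (Or.inr h)), sub_zero]
  have hcl := hC n hn q hq R g u ⟨hg, 1, h1⟩ ⟨hum, 1, hu1⟩
  have hq0 : 0 ≤ q := by linarith
  have hp2 : nb q R (fun x => g x + u x) ^ q ≤ av n q R (2 * t) ^ q :=
    Real.rpow_le_rpow (nb_nonneg _ _ _) hp hq0
  have hm2 : nb q R (fun x => g x - u x) ^ q ≤ av n q R (2 * t) ^ q :=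
    Real.rpow_le_rpow (nb_nonneg _ _ _) hm hq0
  have hmax : (max (nb q R g - av n q R (2 * t ^ 2)) 0) ^ q ≤ nb q R u ^ q :=
    Real.rpow_le_rpow (le_max_right _ _) (max_le (by linarith) (nb_nonneg _ _ _)) hq0
  linarith

end DBL

theorem t_DBL : S_DBL := by
  intro hA hC hR n hn q hq R
  refine ⟨fun t ht => ?_, fun s t hs hst => DBL.av_mono hA hn hq R hs hst, ?_, ?_, ?_⟩
  · exact le_csSup (DBL.bdd hA hn hq R ht) (DBL.adm_zero hA hn hq R ht)
  · obtain ⟨D, hD, h⟩ := DBL.adm_le hA hn hq R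
    exact ⟨D, hD, fun t ht => csSup_le ⟨0, DBL.adm_zero hA hn hq R ht⟩ (fun y hy => h t y ht hy)⟩
  · intro t ht g Z hg hZ h1 h0 hσ
    exact DBL.le_av hA hn hq R ht hg hZ h1 h0 hσ
  · intro t ht ht2
    have hcl : IsClosed {y : ℝ | y ^ q + (max (y - av n q R (2 * t ^ 2)) 0) ^ q ≤ av n q R (2 * t) ^ q} := by
      refine isClosed_le ?_ continuous_const
      have hq0 : 0 ≤ q := by linarith
      exact (Real.continuous_rpow_const hq0).add
        ((Real.continuous_rpow_const hq0).comp ((continuous_id.sub continuous_const).max continuous_const))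
    have hmem := csSup_mem_closure (s := {y | DBL.Adm n q R t y}) ⟨0, DBL.adm_zero hA hn hq R ht.le⟩
      (DBL.bdd hA hn hq R ht.le)
    have h2 : av n q R t ∈ {y : ℝ | y ^ q + (max (y - av n q R (2 * t ^ 2)) 0) ^ q ≤ av n q R (2 * t) ^ q} :=
      closure_minimal (fun y hy => DBL.one hA hC hR hn hq R ht hy) hcl hmem
    have h3 : av n q R (2 * t ^ 2) ≤ av n q R t :=
      DBL.av_mono hA hn hq R (by positivity) (by nlinarith)
    have h4 : max (av n q R t - av n q R (2 * t ^ 2)) 0 = av n q R t - av n q R (2 * t ^ 2) :=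
      max_eq_left (by linarith)
    have h5 : av n q R t ^ q + (max (av n q R t - av n q R (2 * t ^ 2)) 0) ^ q ≤ av n q R (2 * t) ^ q := h2
    rwa [h4] at h5

end Pool.Agent.H197.SP

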