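import Mathlib
import Pool.Agent.H197.GS.Stm

/-! # GS-DIL: the linear change of variables -/

set_option autoImplicit false

namespace Pool.Agent.H197.GS

open MeasureTheory Set Metric Complex Filter Topology
open Pool.Agent.H197.PD (E)
open scoped ENNReal NNReal RealInnerProductSpace BigOperators ContDiff

namespace DIL

variable {d : ℕ} (e : E d) (r : ℝ)

/-- `dil` as a linear map -/
noncomputable def lin : E d →ₗ[ℝ] E d :=
  r ^ 3 • LinearMap.transvection ((r⁻¹ - 1) • (innerₛₗ ℝ e : E d →ₗ[ℝ] ℝ)) e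

theorem lin_apply (hr : 0 < r) (u : E d) : lin e r u = dil e r u := by
  have h : r ^ 3 * (r⁻¹ - 1) = r ^ 2 - r ^ 3 := by
    field_simp
  unfold lin dil
  rw [LinearMap.smul_apply, LinearMap.transvection.apply, LinearMap.smul_apply, innerₛₗ_apply_apply,
    smul_add, smul_smul, smul_eq_mul, ← mul_assoc, h]

theorem det_lin (hd : 1 ≤ d) (he : ‖e‖ = 1) (hr : 0 < r) : LinearMap.det (lin e r) = r ^ (3 * d - 1) := by
  unfold lin
  rw [LinearMap.det_smul, LinearMap.transvection.det, LinearMap.smul_apply, innerₛₗ_apply_apply,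
    real_inner_self_eq_norm_sq, he, finrank_euclideanSpace_fin]
  have h1 : 3 * d = (3 * d - 1) + 1 := by omega
  have h2 : (1 : ℝ) + (r⁻¹ - 1) • (1 : ℝ) ^ 2 = r⁻¹ := by
    rw [smul_eq_mul]
    ring
  rw [h2, ← pow_mul, h1, pow_succ, Nat.add_sub_cancel, mul_inv_cancel_right₀ hr.ne']

end DIL

theorem t_DIL : S_DIL := by
  intro d e hd he r hr hr1
  have hee : ⟪e, e⟫ = 1 := by
    rw [real_inner_self_eq_norm_sq, he, one_pow]
  have hsq : r ^ 3 ≤ r ^ 2 := pow_le_pow_of_le_one hr.le hr1 (by norm_num)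
  have hr2 : 0 < r ^ 2 := by positivity
  have hr3 : 0 < r ^ 3 := by positivity
  -- the inverse
  set inv : E d → E d := fun u => (r ^ 3)⁻¹ • u + (((r ^ 2)⁻¹ - (r ^ 3)⁻¹) * ⟪e, u⟫) • e with hinv
  have hi1 : ∀ u, inv (dil e r u) = u := by
    intro u
    rw [hinv]
    unfold dil
    simp only [inner_add_right, inner_smul_right, hee]
    rw [smul_add, smul_smul, smul_smul, inv_mul_cancel₀ hr3.ne', one_smul, add_assoc, ← add_smul]
    have h : (r ^ 3)⁻¹ * ((r ^ 2 - r ^ 3) * ⟪e, u⟫) +
        ((r ^ 2)⁻¹ - (r ^ 3)⁻¹) * (r ^ 3 * ⟪e, u⟫ + (r ^ 2 - r ^ 3) * ⟪e, u⟫ * 1) = 0 := by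
      field_simp
      ring
    rw [h, zero_smul, add_zero]
  have hi2 : ∀ u, dil e r (inv u) = u := by
    intro u
    rw [hinv]
    unfold dil
    simp only [inner_add_right, inner_smul_right, hee]
    rw [smul_add, smul_smul, smul_smul, mul_inv_cancel₀ hr3.ne', one_smul, add_assoc, ← add_smul]
    have h : r ^ 3 * (((r ^ 2)⁻¹ - (r ^ 3)⁻¹) * ⟪e, u⟫) +
        (r ^ 2 - r ^ 3) * ((r ^ 3)⁻¹ * ⟪e, u⟫ + ((r ^ 2)⁻¹ - (r ^ 3)⁻¹) * ⟪e, u⟫ * 1) = 0 := by
      field_simp
      ring
    rw [h, zero_smul, add_zero]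
  refine ⟨?_, ?_, ?_, inv, hi1, hi2, ?_⟩
  · -- the integral
    intro f
    have hinj : Function.Injective (dil e r) := Function.LeftInverse.injective hi1
    have hsurj : Function.Surjective (dil e r) := Function.RightInverse.surjective hi2
    have hfun : (fun u => DIL.lin e r u) = dil e r := funext fun u => DIL.lin_apply e r hr u
    set A : E d →L[ℝ] E d := LinearMap.toContinuousLinearMap (DIL.lin e r) with hA
    have hAd : ∀ u, A u = dil e r u := fun u => DIL.lin_apply e r hr u
    have hdet : |A.det| = r ^ (3 * d - 1) := by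
      have h1 : A.det = LinearMap.det (DIL.lin e r) := rfl
      rw [h1, DIL.det_lin e r hd he hr, abs_of_pos (by positivity)]
    have hder : ∀ x ∈ (univ : Set (E d)), HasFDerivWithinAt (dil e r) A univ x := by
      intro x _
      have h1 : HasFDerivAt A A x := A.hasFDerivAt
      have h2 : (A : E d → E d) = dil e r := funext hAd
      rw [h2] at h1
      exact h1.hasFDerivWithinAt
    have key := integral_image_eq_integral_abs_det_fderiv_smul volume MeasurableSet.univ hder
      hinj.injOn f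
    rw [image_univ, hsurj.range_eq, setIntegral_univ, setIntegral_univ] at key
    rw [key, hdet, integral_smul]
    rw [Complex.real_smul]
  · -- self-adjoint
    intro q u
    unfold dil
    rw [inner_add_right, inner_smul_right, inner_smul_right, inner_add_left, inner_smul_left,
      inner_smul_left]
    simp only [conj_trivial]
    rw [real_inner_comm e q]
    ring
  · -- the norm
    intro u
    unfold dil
    calc ‖r ^ 3 • u + ((r ^ 2 - r ^ 3) * ⟪e, u⟫) • e‖
        ≤ ‖r ^ 3 • u‖ + ‖((r ^ 2 - r ^ 3) * ⟪e, u⟫) • e‖ := norm_add_le _ _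
      _ = r ^ 3 * ‖u‖ + (r ^ 2 - r ^ 3) * |⟪e, u⟫| := by
          rw [norm_smul, norm_smul, he, mul_one, Real.norm_eq_abs, Real.norm_eq_abs, abs_mul,
            abs_of_pos hr3, abs_of_nonneg (sub_nonneg.2 hsq)]
      _ ≤ r ^ 3 * ‖u‖ + (r ^ 2 - r ^ 3) * ‖u‖ := by
          have h := abs_real_inner_le_norm e u
          rw [he, one_mul] at h
          have h0 := sub_nonneg.2 hsq
          gcongr
      _ = ‖u‖ * r ^ 2 := by ring
  · -- smoothness
    rw [hinv]
    exact (contDiff_id.const_smul _).add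
      ((contDiff_const.mul (contDiff_const.inner ℝ contDiff_id)).smul contDiff_const)

end Pool.Agent.H197.GS
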