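import Mathlib
import Pool.Agent.H197.GS.Stm

set_option autoImplicit false

/-!
# Project GS (helper197): discretisation on the lattice (helper924)
-/

namespace Pool.Agent.H197.GS

open MeasureTheory Set Metric Complex Filter Topology
open Pool.Agent.H197.PD (E kap chi vec zet dec S_KAP S_RAND S_MEMLP)
open scoped ENNReal NNReal RealInnerProductSpace BigOperators ContDiff

namespace DISC

theorem norm_le_of_coord {d : ℕ} (z : E d) (r : ℝ) (hr : 0 ≤ r) (h : ∀ i, |z i| ≤ r) :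
    ‖z‖ ≤ d * r := by
  have h1 : ‖z‖ ^ 2 ≤ (d * r) ^ 2 := by
    rw [EuclideanSpace.norm_sq_eq]
    calc ∑ i, ‖z i‖ ^ 2 ≤ ∑ _i : Fin d, r ^ 2 := by
          refine Finset.sum_le_sum fun i _ => ?_
          rw [Real.norm_eq_abs]
          exact pow_le_pow_left₀ (abs_nonneg _) (h i) 2
      _ = d * r ^ 2 := by
          rw [Finset.sum_const, Finset.card_univ, Fintype.card_fin, nsmul_eq_mul]
      _ ≤ (d : ℝ) * d * r ^ 2 := by
          rcases Nat.eq_zero_or_pos d with h0 | h0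
          · subst h0; simp
          · have h2 : (1 : ℝ) ≤ d := by exact_mod_cast h0
            have h3 : (d : ℝ) * 1 ≤ d * d := mul_le_mul_of_nonneg_left h2 (by linarith)
            have h4 : 0 ≤ r ^ 2 := by positivity
            nlinarith
      _ = (d * r) ^ 2 := by ring
  exact (pow_le_pow_iff_left₀ (norm_nonneg _) (by positivity) (by norm_num)).1 h1

theorem chi_nonneg (hK : S_KAP) (d : ℕ) (x : E d) : 0 ≤ chi d x :=
  Finset.prod_nonneg fun _ _ => hK.1.2.1 _

theorem chi_coord (hK : S_KAP) {d : ℕ} {x : E d} (h : chi d x ≠ 0) (i : Fin d) :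
    0 < x i ∧ x i < 2 := by
  refine hK.1.2.2.2 (x i) fun h0 => h ?_
  exact Finset.prod_eq_zero (Finset.mem_univ i) h0

theorem near (hK : S_KAP) {d : ℕ} {N : ℕ} (hN : 1 ≤ N) {y v : E d}
    (h : chi d ((N : ℝ) • y - v) ≠ 0) : ‖(N : ℝ)⁻¹ • v - y‖ ≤ d * (2 / N) := by
  have hN0 : (0 : ℝ) < N := by exact_mod_cast hN
  refine norm_le_of_coord _ _ (by positivity) fun i => ?_
  obtain ⟨h1, h2⟩ := chi_coord hK h i
  have e1 : ((N : ℝ) • y - v) i = N * y i - v i := by simp
  have e2 : ((N : ℝ)⁻¹ • v - y) i = (N : ℝ)⁻¹ * v i - y i := by simp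
  rw [e1] at h1 h2
  rw [e2]
  have e3 : (N : ℝ)⁻¹ * v i - y i = -((N * y i - v i) / N) := by
    field_simp
    ring
  rw [e3, abs_neg, abs_div, abs_of_pos h1, abs_of_pos hN0]
  exact div_le_div_of_nonneg_right h2.le hN0.le

theorem part (hK : S_KAP) {d N R : ℕ} (hR : 1 ≤ R) {y : E d} (hy : y ∈ closedBall (0 : E d) R) :
    ∑ j, chi d ((N : ℝ) • y - vec d (N * R) j) = 1 := by
  have hR0 : (0 : ℝ) < R := by exact_mod_cast hR
  have hn : ‖(R : ℝ)⁻¹ • y‖ ≤ 1 := by
    rw [norm_smul, norm_inv, Real.norm_eq_abs, abs_of_pos hR0, inv_mul_le_iff₀ hR0, mul_one]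
    exact mem_closedBall_zero_iff.1 hy
  have h1 := hK.2.1 d (N * R) ((R : ℝ)⁻¹ • y) hn
  have e : ((N * R : ℕ) : ℝ) • ((R : ℝ)⁻¹ • y) = (N : ℝ) • y := by
    rw [smul_smul]
    congr 1
    push_cast
    field_simp
  rw [e] at h1
  exact h1

end DISC

theorem t_DISC (hK : S_KAP) : S_DISC := by
  intro d R hd hR U hU hUR F hF hFc hFU δ hδ
  have huc : UniformContinuous F := HasCompactSupport.uniformContinuous_of_continuous hFc hF
  obtain ⟨δ₁, hδ₁, h1⟩ := Metric.uniformContinuous_iff.1 huc δ hδ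
  obtain ⟨δ₂, hδ₂, h2⟩ := IsCompact.exists_cthickening_subset_open hFc hU hFU
  have hm : 0 < min δ₁ δ₂ := lt_min hδ₁ hδ₂
  have hd0 : (1 : ℝ) ≤ d := by exact_mod_cast hd
  refine ⟨⌈4 * (d : ℝ) / min δ₁ δ₂⌉₊ + 1, by omega, fun N hN => ?_⟩
  have hN1 : 1 ≤ N := by omega
  have hN0 : (0 : ℝ) < N := by exact_mod_cast hN1
  have hNd : 4 * (d : ℝ) / min δ₁ δ₂ ≤ N := by
    have h3 : ⌈4 * (d : ℝ) / min δ₁ δ₂⌉₊ ≤ N := by omega
    exact (Nat.le_ceil _).trans (by exact_mod_cast h3)
  have hNs : 4 * (d : ℝ) / N ≤ min δ₁ δ₂ := by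
    rw [div_le_iff₀ hm] at hNd
    rw [div_le_iff₀ hN0]
    linarith
  constructor
  · intro j hj
    have hmem : (N : ℝ)⁻¹ • vec d (N * R) j ∈ tsupport F := subset_tsupport F hj
    exact (closedBall_subset_closedBall (hNs.trans (min_le_right _ _))).trans
      ((closedBall_subset_cthickening hmem δ₂).trans h2)
  · intro y hy
    have hp := DISC.part hK (N := N) hR hy
    have e1 : ∑ j, F ((N : ℝ)⁻¹ • vec d (N * R) j) *
          ((chi d ((N : ℝ) • y - vec d (N * R) j) : ℝ) : ℂ) - F y =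
        ∑ j, (F ((N : ℝ)⁻¹ • vec d (N * R) j) - F y) *
          ((chi d ((N : ℝ) • y - vec d (N * R) j) : ℝ) : ℂ) := by
      have e2 : F y = ∑ j, F y * ((chi d ((N : ℝ) • y - vec d (N * R) j) : ℝ) : ℂ) := by
        rw [← Finset.mul_sum, ← Complex.ofReal_sum, hp, Complex.ofReal_one, mul_one]
      have e3 : ∀ z : ℂ, z - F y =
          z - ∑ j, F y * ((chi d ((N : ℝ) • y - vec d (N * R) j) : ℝ) : ℂ) := fun z => by
        rw [← e2]
      rw [e3, ← Finset.sum_sub_distrib]
      exact Finset.sum_congr rfl fun j _ => (sub_mul _ _ _).symm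
    rw [e1]
    calc ‖∑ j, (F ((N : ℝ)⁻¹ • vec d (N * R) j) - F y) *
          ((chi d ((N : ℝ) • y - vec d (N * R) j) : ℝ) : ℂ)‖
        ≤ ∑ j, ‖(F ((N : ℝ)⁻¹ • vec d (N * R) j) - F y) *
          ((chi d ((N : ℝ) • y - vec d (N * R) j) : ℝ) : ℂ)‖ := norm_sum_le _ _
      _ ≤ ∑ j, δ * chi d ((N : ℝ) • y - vec d (N * R) j) := by
          refine Finset.sum_le_sum fun j _ => ?_
          have hc := DISC.chi_nonneg hK d ((N : ℝ) • y - vec d (N * R) j)
          rw [norm_mul, Complex.norm_real, Real.norm_eq_abs, abs_of_nonneg hc]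
          by_cases h0 : chi d ((N : ℝ) • y - vec d (N * R) j) = 0
          · rw [h0, mul_zero, mul_zero]
          · refine mul_le_mul_of_nonneg_right ?_ hc
            have h4 := DISC.near hK hN1 h0
            have h5 : (d : ℝ) * (2 / N) < δ₁ := by
              have h6 : 4 * (d : ℝ) / N = 2 * (d * (2 / N)) := by ring
              have h7 : 0 < (d : ℝ) * (2 / N) := by positivity
              have h8 := hNs.trans (min_le_left _ _)
              linarith
            have h9 : dist ((N : ℝ)⁻¹ • vec d (N * R) j) y < δ₁ := by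
              rw [dist_eq_norm]
              exact h4.trans_lt h5
            have h10 := h1 h9
            rw [dist_eq_norm] at h10
            exact h10.le
      _ = δ := by rw [← Finset.mul_sum, hp, mul_one]

end Pool.Agent.H197.GS
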