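import Mathlib
import Pool.Agent.H197.GS.Stm
set_option autoImplicit false

/-! GS-DUA: duality at a fixed time by Fourier inversion. -/

namespace Pool.Agent.H197.GS

open MeasureTheory Set Metric Complex Filter Topology
open Pool.Agent.H197.PD (E)
open scoped ENNReal NNReal RealInnerProductSpace BigOperators ContDiff FourierTransform SchwartzMap

namespace DUA

variable {d : ℕ}

/-- the phase `e^{i T γ(y)}` -/
noncomputable def ph (γ : E d → ℝ) (T : ℝ) (y : E d) : ℂ := Complex.exp (((T * γ y : ℝ) : ℂ) * I)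

theorem ph_contDiff (γ : E d → ℝ) (hγ : ContDiff ℝ ∞ γ) (T : ℝ) : ContDiff ℝ ∞ (ph γ T) := by
  unfold ph
  refine ContDiff.cexp ?_
  refine ContDiff.mul ?_ contDiff_const
  exact Complex.ofRealCLM.contDiff.comp (contDiff_const.mul hγ)

theorem ph_neg (γ : E d → ℝ) (T : ℝ) (y : E d) : ph γ (-T) y * ph γ T y = 1 := by
  unfold ph
  rw [← Complex.exp_add]
  have : (((-T * γ y : ℝ) : ℂ) * I) + (((T * γ y : ℝ) : ℂ) * I) = 0 := by push_cast; ring
  rw [this, Complex.exp_zero]

theorem ek_eq (γ : E d → ℝ) (x : E d) (T : ℝ) (y : E d) :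
    ek γ ((-(2 * Real.pi)) • x) T y
      = Complex.exp (((2 * Real.pi * ⟪x, y⟫ : ℝ) : ℂ) * I) * ph γ (-T) y := by
  unfold ek ph
  rw [← Complex.exp_add]
  congr 1
  rw [real_inner_smul_left]
  push_cast
  ring

theorem conj_ek (γ : E d → ℝ) (x : E d) (T : ℝ) (y : E d) :
    (starRingEnd ℂ) (ek γ ((-(2 * Real.pi)) • x) T y)
      = Complex.exp (((-2 * Real.pi * ⟪y, x⟫ : ℝ) : ℂ) * I) * ph γ T y := by
  unfold ek ph
  rw [← Complex.exp_add, ← Complex.exp_conj]
  congr 1
  rw [real_inner_smul_left, real_inner_comm]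
  rw [map_mul, map_neg, Complex.conj_ofReal, Complex.conj_I]
  push_cast
  ring

end DUA

open DUA

theorem t_DUA : S_DUA := by
  intro d γ hγ h a T S hh ha hac hS
  -- the Schwartz function `b = a e^{iTγ}`
  have hbc : HasCompactSupport (fun y => a y * ph γ T y) := hac.mul_right
  have hbs : ContDiff ℝ ∞ (fun y => a y * ph γ T y) := ha.mul (ph_contDiff γ hγ T)
  let b : 𝓢(E d, ℂ) := hbc.toSchwartzMap hbs
  have hb : ∀ y, b y = a y * ph γ T y := fun y => rfl
  let B : 𝓢(E d, ℂ) := 𝓕 b
  have hB : ∀ ξ, B ξ = ∫ y, a y * (starRingEnd ℂ) (ek γ ((-(2 * Real.pi)) • ξ) T y) := by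
    intro ξ
    have h1 : B ξ = 𝓕 (b : E d → ℂ) ξ := by
      change (𝓕 b) ξ = _
      rw [SchwartzMap.fourier_coe]
    rw [h1, Real.fourier_eq']
    refine integral_congr_ae (Eventually.of_forall fun y => ?_)
    simp only [smul_eq_mul]
    rw [conj_ek, hb]
    push_cast
    ring
  have hinv : ∀ y, a y * ph γ T y = ∫ ξ, Complex.exp (((2 * Real.pi * ⟪ξ, y⟫ : ℝ) : ℂ) * I) * B ξ := by
    intro y
    have h1 : 𝓕⁻ (𝓕 (b : E d → ℂ)) = (b : E d → ℂ) :=
      b.continuous.fourierInv_fourier_eq b.integrable (by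
        rw [← SchwartzMap.fourier_coe]; exact (𝓕 b).integrable)
    have h2 := congrFun h1 y
    rw [Real.fourierInv_eq', ← SchwartzMap.fourier_coe] at h2
    rw [← hb, ← h2]
    rfl
  have hBi : Integrable (B : E d → ℂ) := B.integrable
  have hS0 : 0 ≤ S := (norm_nonneg _).trans (hS 0)
  -- Fubini
  have hfub : ∫ y, h y * a y = ∫ ξ, B ξ * ∫ y, h y * ek γ ((-(2 * Real.pi)) • ξ) T y := by
    have e1 : ∀ y, h y * a y = ∫ ξ, h y * ek γ ((-(2 * Real.pi)) • ξ) T y * B ξ := by
      intro y
      have h1 : a y = ph γ (-T) y * ∫ ξ, Complex.exp (((2 * Real.pi * ⟪ξ, y⟫ : ℝ) : ℂ) * I) * B ξ := by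
        rw [← hinv y]
        calc a y = a y * (ph γ (-T) y * ph γ T y) := by rw [ph_neg, mul_one]
          _ = _ := by ring
      rw [h1, ← integral_const_mul, ← integral_const_mul]
      refine integral_congr_ae (Eventually.of_forall fun ξ => ?_)
      simp only
      rw [ek_eq]
      ring
    have hI : Integrable (fun p : E d × E d => h p.1 * ek γ ((-(2 * Real.pi)) • p.2) T p.1 * B p.2)
        (volume.prod volume) := by
      have h1 : Integrable (fun p : E d × E d => h p.1 * B p.2) (volume.prod volume) :=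
        hh.mul_prod hBi
      have hc : Continuous (fun p : E d × E d => ek γ ((-(2 * Real.pi)) • p.2) T p.1) := by
        unfold ek
        have := hγ.continuous
        fun_prop
      refine h1.mono ?_ ?_
      · have h2 := h1.aestronglyMeasurable.mul hc.aestronglyMeasurable
        refine h2.congr (Eventually.of_forall fun p => ?_)
        simp only [Pi.mul_apply]
        ring
      · refine Eventually.of_forall fun p => ?_
        rw [norm_mul, norm_mul, norm_mul]
        have : ‖ek γ ((-(2 * Real.pi)) • p.2) T p.1‖ = 1 := by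
          unfold ek
          rw [← Complex.ofReal_neg]
          exact Complex.norm_exp_ofReal_mul_I _
        rw [this, mul_one]
    calc ∫ y, h y * a y = ∫ y, ∫ ξ, h y * ek γ ((-(2 * Real.pi)) • ξ) T y * B ξ :=
          integral_congr_ae (Eventually.of_forall e1)
      _ = ∫ ξ, ∫ y, h y * ek γ ((-(2 * Real.pi)) • ξ) T y * B ξ := integral_integral_swap hI
      _ = _ := by
          refine integral_congr_ae (Eventually.of_forall fun ξ => ?_)
          simp only
          rw [integral_mul_const, mul_comm]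
  -- the bound
  have hbound : ‖∫ y, h y * a y‖ ≤ (∫ ξ, ‖B ξ‖) * S := by
    rw [hfub, ← integral_mul_const]
    refine norm_integral_le_of_norm_le (hBi.norm.mul_const S) (Eventually.of_forall fun ξ => ?_)
    rw [norm_mul]
    exact mul_le_mul_of_nonneg_left (hS _) (norm_nonneg _)
  refine hbound.trans (mul_le_mul_of_nonneg_right ?_ hS0)
  have h3 : ∫ ξ, ‖B ξ‖ = |((-(2 * Real.pi)) ^ (Module.finrank ℝ (E d)))⁻¹| •
      ∫ x, ‖∫ y, a y * (starRingEnd ℂ) (ek γ x T y)‖ := by
    rw [← Measure.integral_comp_smul volume (fun x : E d => ‖∫ y, a y * (starRingEnd ℂ) (ek γ x T y)‖)]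
    refine integral_congr_ae (Eventually.of_forall fun ξ => ?_)
    simp only
    rw [hB]
  rw [h3, smul_eq_mul]
  have h4 : |((-(2 * Real.pi)) ^ (Module.finrank ℝ (E d)))⁻¹| ≤ 1 := by
    rw [abs_inv, abs_pow, abs_neg, abs_of_pos (by positivity)]
    refine inv_le_one_of_one_le₀ (one_le_pow₀ ?_)
    have := Real.pi_gt_three
    linarith
  exact mul_le_of_le_one_left (integral_nonneg fun _ => norm_nonneg _) h4

end Pool.Agent.H197.GS
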