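import Mathlib
import Pool.Agent.H197.GS.Stm4
set_option autoImplicit false

/-! Project GS, SP-REST and SP-EACH: exceptional sets which depend on the density. -/

namespace Pool.Agent.H197.SP

open MeasureTheory Set Metric Complex Filter Topology
open Pool.Agent.H197.PD (E sigma ft dec)
open scoped ENNReal NNReal RealInnerProductSpace BigOperators

theorem t_REST (hSQ : S_SQ) (hAV : ∀ n : ℕ, 2 ≤ n → ∀ q : ℝ, 2 ≤ q → ∀ R : ℝ, AV n q R) : S_REST := by
  intro q hq
  have hq0 : 0 < q := by linarith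
  obtain ⟨C, hC, H⟩ := hSQ q hq
  refine ⟨C * (2 : ℝ) ^ (1 / q), by positivity, ?_⟩
  intro n hn R t ht ht1
  obtain ⟨h1, h2, ⟨D, hD, h3⟩, _, h5⟩ := hAV n hn q hq R
  have h2k : ∀ k : ℕ, (2 : ℝ) ^ (-(k : ℝ)) = (1 / 2 : ℝ) ^ k := by
    intro k
    rw [Real.rpow_neg (by norm_num), Real.rpow_natCast, one_div, inv_pow]
  have key := H (fun k => av n q R ((1 / 2 : ℝ) ^ k)) (fun k => h1 _ (by positivity)) ?_ ⟨D, ?_⟩ ?_
  · obtain ⟨k, hk1, hk2⟩ := exists_nat_pow_near_of_lt_one ht ht1 (by norm_num : (0 : ℝ) < 1 / 2)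
      (by norm_num : (1 / 2 : ℝ) < 1)
    have h6 := key k
    simp only [pow_zero] at h6
    have h7 : av n q R t ≤ av n q R ((1 / 2 : ℝ) ^ k) := h2 _ _ ht.le hk2
    have h8 : (2 : ℝ) ^ (-(k : ℝ) / q) ≤ (2 : ℝ) ^ (1 / q) * t ^ (1 / q) := by
      have h9 : (2 : ℝ) ^ (-(k : ℝ) / q) = ((1 / 2 : ℝ) ^ k) ^ (1 / q) := by
        rw [← h2k, ← Real.rpow_mul (by norm_num)]
        congr 1
        ring
      rw [h9, ← Real.mul_rpow (by norm_num) ht.le]
      refine Real.rpow_le_rpow (by positivity) ?_ (by positivity)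
      rw [pow_succ] at hk1
      linarith
    have h10 : 0 ≤ av n q R 1 := h1 1 zero_le_one
    calc av n q R t ≤ C * (2 : ℝ) ^ (-(k : ℝ) / q) * av n q R 1 := h7.trans h6
      _ ≤ C * ((2 : ℝ) ^ (1 / q) * t ^ (1 / q)) * av n q R 1 := by gcongr
      _ = C * (2 : ℝ) ^ (1 / q) * t ^ (1 / q) * av n q R 1 := by ring
  · intro i j hij
    exact h2 _ _ (by positivity) (pow_le_pow_of_le_one (by norm_num) (by norm_num) hij)
  · intro k
    rw [h2k]
    exact h3 _ (by positivity)
  · intro k hk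
    have h11 := h5 ((1 / 2 : ℝ) ^ k) (by positivity) (by
      calc (1 / 2 : ℝ) ^ k ≤ (1 / 2 : ℝ) ^ 1 := pow_le_pow_of_le_one (by norm_num) (by norm_num) hk
        _ = 1 / 2 := pow_one _)
    have h12 : 2 * ((1 / 2 : ℝ) ^ k) ^ 2 = (1 / 2 : ℝ) ^ (2 * k - 1) := by
      obtain ⟨m, rfl⟩ : ∃ m, k = m + 1 := ⟨k - 1, by omega⟩
      have : 2 * (m + 1) - 1 = 2 * m + 1 := by omega
      rw [this]
      ring
    have h13 : 2 * (1 / 2 : ℝ) ^ k = (1 / 2 : ℝ) ^ (k - 1) := by
      obtain ⟨m, rfl⟩ : ∃ m, k = m + 1 := ⟨k - 1, by omega⟩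
      have : m + 1 - 1 = m := by omega
      rw [this]
      ring
    rw [h12, h13] at h11
    exact h11

namespace EACH

/-- the restricted norm is at most the full norm -/
theorem nb_le {n : ℕ} {p R A : ℝ} {h : sphere (0 : E n) 1 → ℂ} (hA : 0 ≤ A)
    (H : eLpNorm (ft h) (ENNReal.ofReal p) volume ≤ ENNReal.ofReal A) : nb p R h ≤ A := by
  unfold nb
  refine ENNReal.toReal_le_of_le_ofReal hA (le_trans ?_ H)
  exact eLpNorm_mono_measure _ Measure.restrict_le_self

theorem nb_fin {n : ℕ} {p R : ℝ} {g : sphere (0 : E n) 1 → ℂ} (hg : Measurable g) (hg1 : ∀ x, ‖g x‖ ≤ 1) :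
    eLpNorm (ft g) (ENNReal.ofReal p) (volume.restrict (closedBall (0 : E n) R)) ≠ ∞ := by
  have := THR.sig_fin n
  have : IsFiniteMeasure (volume.restrict (closedBall (0 : E n) R)) :=
    ⟨by rw [Measure.restrict_apply_univ]; exact measure_closedBall_lt_top⟩
  have hgi := THR.int_of_bdd hg hg1
  exact (MemLp.of_bound (THR.ft_cont hgi).aestronglyMeasurable _
    (Filter.Eventually.of_forall (THR.ft_norm_le g))).eLpNorm_ne_top

theorem lim {n : ℕ} {p B : ℝ} (hB : 0 ≤ B) {g : sphere (0 : E n) 1 → ℂ} (hg : Measurable g) (hg1 : ∀ x, ‖g x‖ ≤ 1)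
    (H : ∀ R, nb p R g ≤ B) : eLpNorm (ft g) (ENNReal.ofReal p) volume ≤ ENNReal.ofReal B := by
  have := THR.sig_fin n
  have hgi := THR.int_of_bdd hg hg1
  have hlim : ∀ᵐ ξ ∂(volume : Measure (E n)), Tendsto (fun k : ℕ =>
      (closedBall (0 : E n) (k : ℝ)).indicator (ft g) ξ) atTop (𝓝 (ft g ξ)) := by
    refine Filter.Eventually.of_forall fun ξ => ?_
    refine tendsto_const_nhds.congr' ?_
    obtain ⟨k0, hk0⟩ := exists_nat_ge ‖ξ‖
    filter_upwards [eventually_ge_atTop k0] with k hk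
    rw [indicator_of_mem]
    rw [mem_closedBall_zero_iff]
    exact hk0.trans (by exact_mod_cast hk)
  refine (Lp.eLpNorm_lim_le_liminf_eLpNorm (fun k : ℕ =>
    ((THR.ft_cont hgi).measurable.indicator measurableSet_closedBall).aestronglyMeasurable)
    (ft g) hlim).trans ?_
  refine (Filter.liminf_le_liminf (v := fun _ : ℕ => ENNReal.ofReal B)
    (Filter.Eventually.of_forall fun k : ℕ => ?_)).trans ?_
  · rw [eLpNorm_indicator_eq_eLpNorm_restrict measurableSet_closedBall]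
    rw [ENNReal.le_ofReal_iff_toReal_le (nb_fin hg hg1) hB]
    exact H k
  · rw [Filter.liminf_const]

end EACH

theorem t_EACH (hN : S_NBA) (hR : S_REST) (hAV : ∀ n : ℕ, 2 ≤ n → ∀ q : ℝ, 2 ≤ q → ∀ R : ℝ, AV n q R) : S_EACH := by
  intro p hp
  have hp0 : 0 < p := by linarith
  obtain ⟨C, hC, hres⟩ := hR p hp
  refine ⟨min 1 ((1 / (2 * C)) ^ p), by positivity, ?_⟩
  intro n hn K ε A hK hε hA hc H
  have hK1 : 1 ≤ (1 + K) ^ p := Real.one_le_rpow (by linarith) hp0.le
  have hε1 : ε ≤ 1 := by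
    have h1 : ε ≤ (1 + K) ^ p * ε := le_mul_of_one_le_left hε.le hK1
    exact h1.trans (hc.trans (min_le_left _ _))
  have hKε : (1 + K) * (C * ε ^ (1 / p)) ≤ 1 / 2 := by
    have h1 : ((1 + K) ^ p * ε) ^ (1 / p) ≤ ((1 / (2 * C)) ^ p) ^ (1 / p) :=
      Real.rpow_le_rpow (by positivity) (hc.trans (min_le_right _ _)) (by positivity)
    rw [Real.mul_rpow (by positivity) hε.le, ← Real.rpow_mul (by positivity), ← Real.rpow_mul (by positivity),
      mul_one_div_cancel hp0.ne', Real.rpow_one, Real.rpow_one] at h1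
    have h2 : C * ((1 + K) * ε ^ (1 / p)) ≤ C * (1 / (2 * C)) := by gcongr
    have h3 : C * (1 / (2 * C)) = 1 / 2 := by field_simp
    rw [h3] at h2
    calc (1 + K) * (C * ε ^ (1 / p)) = C * ((1 + K) * ε ^ (1 / p)) := by ring
      _ ≤ 1 / 2 := h2
  have main : ∀ R : ℝ, av n p R 1 ≤ 2 * A := by
    intro R
    obtain ⟨h1, h2, -, h4, -⟩ := hAV n hn p hp R
    obtain ⟨n1, n2, -, -⟩ := hN n hn p (by linarith) R
    have hN0 : 0 ≤ av n p R 1 := h1 1 zero_le_one
    have hstep : ∀ g : sphere (0 : E n) 1 → ℂ, Measurable g → (∀ x, ‖g x‖ ≤ 1) →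
        nb p R g ≤ A + 1 / 2 * av n p R 1 := by
      intro g hg hg1
      obtain ⟨Z, hZ, hZε, h, hh, hhZ, hhK, hhA⟩ := H g hg hg1
      have hKpos : 0 < 1 + K := by linarith
      have hhb : ∀ x, ‖h x‖ ≤ 1 + K := by
        intro x
        by_cases hx : x ∈ Z
        · exact (hhK x hx).trans (by linarith)
        · rw [hhZ x hx]
          exact (hg1 x).trans (by linarith)
      set u : sphere (0 : E n) 1 → ℂ := fun x => ((1 + K : ℝ) : ℂ)⁻¹ * (g x - h x) with hu
      have hum : Measurable u := (hg.sub hh).const_mul _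
      have hnn : ‖((1 + K : ℝ) : ℂ)⁻¹‖ = (1 + K)⁻¹ := by
        rw [norm_inv, Complex.norm_real, Real.norm_eq_abs, abs_of_pos hKpos]
      have hu1 : ∀ x, ‖u x‖ ≤ 1 := by
        intro x
        by_cases hx : x ∈ Z
        · simp only [hu]
          rw [norm_mul, hnn, inv_mul_le_iff₀ hKpos, mul_one]
          exact (norm_sub_le _ _).trans (add_le_add (hg1 x) (hhK x hx))
        · simp only [hu]
          rw [hhZ x hx, sub_self, mul_zero, norm_zero]
          exact zero_le_one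
      have hu0 : ∀ x, x ∉ Z → u x = 0 := by
        intro x hx
        simp only [hu]
        rw [hhZ x hx, sub_self, mul_zero]
      have h5 : nb p R u ≤ av n p R ε := h4 ε hε.le u Z hum hZ hu1 hu0 hZε
      have h6 : nb p R (fun x => g x - h x) ≤ (1 + K) * av n p R ε := by
        have h7 : nb p R u = (1 + K)⁻¹ * nb p R (fun x => g x - h x) := by
          simp only [hu]
          rw [n2, hnn]
        rw [h7, inv_mul_le_iff₀ hKpos] at h5
        exact h5
      have h8 := hres n hn R ε hε hε1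
      have h9 : nb p R g ≤ nb p R h + nb p R (fun x => g x - h x) := by
        have h10 := n1 h (fun x => g x - h x) ⟨hh, 1 + K, hhb⟩
          ⟨hg.sub hh, 1 + (1 + K), fun x => (norm_sub_le _ _).trans (add_le_add (hg1 x) (hhb x))⟩
        have h11 : (fun x => h x + (g x - h x)) = g := by
          funext x
          ring
        rw [h11] at h10
        exact h10
      have h12 : nb p R h ≤ A := EACH.nb_le hA hhA
      have h13 : (1 + K) * av n p R ε ≤ 1 / 2 * av n p R 1 := by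
        calc (1 + K) * av n p R ε ≤ (1 + K) * (C * ε ^ (1 / p) * av n p R 1) := by gcongr
          _ = (1 + K) * (C * ε ^ (1 / p)) * av n p R 1 := by ring
          _ ≤ 1 / 2 * av n p R 1 := by gcongr
      linarith
    have h14 : av n p R 1 ≤ A + 1 / 2 * av n p R 1 := by
      conv_lhs => unfold av
      refine csSup_le ⟨_, fun _ => 0, ∅, measurable_const, MeasurableSet.empty, fun _ => by simp,
        fun _ _ => rfl, by simp, rfl⟩ ?_
      rintro y ⟨g, Z, hg, -, hg1, -, -, rfl⟩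
      exact hstep g hg hg1
    linarith
  intro g hg hg1
  refine EACH.lim (by linarith) hg hg1 fun R => ?_
  obtain ⟨-, -, -, h4, -⟩ := hAV n hn p hp R
  have h1 := h4 1 zero_le_one g univ hg MeasurableSet.univ hg1 (fun x hx => absurd (mem_univ x) hx)
    (by rw [one_mul])
  exact h1.trans (main R)

end Pool.Agent.H197.SP
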