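import Mathlib
import Pool.Agent.H197.GS.Stm

/-!
# GS-EXB: elementary bounds of the extension operator (helper895 for helper197)
-/

set_option autoImplicit false

namespace Pool.Agent.H197.GS

open MeasureTheory Set Metric Complex Filter Topology
open Pool.Agent.H197.PD (E)
open scoped ENNReal NNReal RealInnerProductSpace BigOperators ContDiff

namespace EXB

theorem ek_eq {d : ℕ} (γ : E d → ℝ) (x : E d) (t : ℝ) (y : E d) :
    ek γ x t y = Complex.exp (I * ((-(⟪x, y⟫ + t * γ y) : ℝ) : ℂ)) := by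
  unfold ek
  rw [mul_comm I]
  push_cast
  rfl

theorem norm_ek {d : ℕ} (γ : E d → ℝ) (x : E d) (t : ℝ) (y : E d) : ‖ek γ x t y‖ = 1 := by
  rw [ek_eq, mul_comm I]
  exact Complex.norm_exp_ofReal_mul_I _

theorem continuous_ek {d : ℕ} {γ : E d → ℝ} (hγ : Continuous γ) (x : E d) (t : ℝ) :
    Continuous (ek γ x t) := by
  have h : (ek γ x t) = fun y => Complex.exp (-((⟪x, y⟫ + t * γ y : ℝ) : ℂ) * I) := rfl
  rw [h]
  have h1 : Continuous fun y : E d => (⟪x, y⟫ + t * γ y : ℝ) :=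
    (continuous_const.inner continuous_id).add (continuous_const.mul hγ)
  exact Complex.continuous_exp.comp (((Complex.continuous_ofReal.comp h1).neg).mul continuous_const)

theorem norm_exp_sub (a b : ℝ) :
    ‖Complex.exp (I * (a : ℂ)) - Complex.exp (I * (b : ℂ))‖ ≤ |a - b| := by
  have e : Complex.exp (I * (a : ℂ)) - Complex.exp (I * (b : ℂ)) =
      Complex.exp (I * (b : ℂ)) * (Complex.exp (I * ((a - b : ℝ) : ℂ)) - 1) := by
    rw [mul_sub, ← Complex.exp_add, mul_one]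
    congr 2
    push_cast
    ring
  rw [e, norm_mul, mul_comm I (b : ℂ), Complex.norm_exp_ofReal_mul_I, one_mul]
  exact Real.norm_exp_I_mul_ofReal_sub_one_le

theorem norm_fx_le {d : ℕ} (ξ : E (d + 1)) : ‖fx ξ‖ ≤ ‖ξ‖ := by
  rw [EuclideanSpace.norm_eq, EuclideanSpace.norm_eq]
  apply Real.sqrt_le_sqrt
  rw [Fin.sum_univ_castSucc (fun i => ‖ξ i‖ ^ 2)]
  have h : ∑ i, ‖(fx ξ) i‖ ^ 2 = ∑ i : Fin d, ‖ξ i.castSucc‖ ^ 2 := rfl
  rw [h]
  have := sq_nonneg ‖ξ (Fin.last d)‖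
  linarith

theorem abs_fl_le {d : ℕ} (ξ : E (d + 1)) : |fl ξ| ≤ ‖ξ‖ := by
  have h := PiLp.norm_apply_le ξ (Fin.last d)
  rwa [Real.norm_eq_abs] at h

theorem fx_sub {d : ℕ} (ξ ξ' : E (d + 1)) : fx (ξ - ξ') = fx ξ - fx ξ' := rfl

theorem fl_sub {d : ℕ} (ξ ξ' : E (d + 1)) : fl (ξ - ξ') = fl ξ - fl ξ' := rfl

theorem ek_sub_le {d : ℕ} (γ : E d → ℝ) (ξ ξ' : E (d + 1)) (y : E d) :
    ‖ek γ (fx ξ) (fl ξ) y - ek γ (fx ξ') (fl ξ') y‖ ≤ (‖y‖ + |γ y|) * ‖ξ - ξ'‖ := by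
  rw [ek_eq, ek_eq]
  refine (norm_exp_sub _ _).trans ?_
  have e : -(⟪fx ξ, y⟫ + fl ξ * γ y) - -(⟪fx ξ', y⟫ + fl ξ' * γ y) =
      -(⟪fx (ξ - ξ'), y⟫ + fl (ξ - ξ') * γ y) := by
    rw [fx_sub, fl_sub, inner_sub_left]
    ring
  rw [e, abs_neg]
  refine (abs_add_le _ _).trans ?_
  have h1 : |⟪fx (ξ - ξ'), y⟫| ≤ ‖ξ - ξ'‖ * ‖y‖ :=
    (abs_real_inner_le_norm _ _).trans (mul_le_mul_of_nonneg_right (norm_fx_le _) (norm_nonneg _))
  have h2 : |fl (ξ - ξ') * γ y| ≤ ‖ξ - ξ'‖ * |γ y| := by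
    rw [abs_mul]
    exact mul_le_mul_of_nonneg_right (abs_fl_le _) (abs_nonneg _)
  linarith

theorem integrable_ek {d : ℕ} {γ : E d → ℝ} (hγ : Continuous γ) {h : E d → ℂ} (hh : Integrable h)
    (x : E d) (t : ℝ) : Integrable fun y => h y * ek γ x t y := by
  refine hh.norm.mono' (hh.aestronglyMeasurable.mul (continuous_ek hγ x t).aestronglyMeasurable)
    (Eventually.of_forall fun y => ?_)
  rw [norm_mul, norm_ek, mul_one]

end EXB

open EXB in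
theorem t_EXB : S_EXB := by
  intro d γ hγ R
  obtain ⟨B, hB⟩ : ∃ B : ℝ, ∀ y ∈ closedBall (0 : E d) R, ‖y‖ + |γ y| ≤ B := by
    have h1 : Continuous fun y : E d => ‖y‖ + |γ y| := continuous_norm.add hγ.abs
    obtain ⟨B, hB⟩ := (isCompact_closedBall (0 : E d) R).bddAbove_image h1.continuousOn
    exact ⟨B, fun y hy => hB ⟨y, hy, rfl⟩⟩
  obtain ⟨L, hL⟩ : ∃ L : ℝ, L = max B 1 := ⟨_, rfl⟩
  have hL0 : 0 < L := by
    rw [hL]
    exact lt_max_of_lt_right one_pos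
  refine ⟨L, hL0, fun h hh hR => ?_⟩
  have hnn : 0 ≤ ∫ y, ‖h y‖ := integral_nonneg fun _ => norm_nonneg _
  have hlip : ∀ ξ ξ', ‖ex γ h ξ - ex γ h ξ'‖ ≤ L * (∫ y, ‖h y‖) * ‖ξ - ξ'‖ := by
    intro ξ ξ'
    unfold ex
    rw [← integral_sub (integrable_ek hγ hh _ _) (integrable_ek hγ hh _ _)]
    have h1 : ∀ y, ‖h y * ek γ (fx ξ) (fl ξ) y - h y * ek γ (fx ξ') (fl ξ') y‖ ≤
        L * ‖ξ - ξ'‖ * ‖h y‖ := by
      intro y
      rw [← mul_sub, norm_mul]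
      by_cases hy : R < ‖y‖
      · rw [hR y hy, norm_zero, zero_mul, mul_zero]
      · have h2 := hB y (by rw [mem_closedBall_zero_iff]; exact not_lt.1 hy)
        have h3 : ‖y‖ + |γ y| ≤ L := by
          rw [hL]
          exact h2.trans (le_max_left _ _)
        have h4 := (ek_sub_le γ ξ ξ' y).trans (mul_le_mul_of_nonneg_right h3 (norm_nonneg _))
        calc ‖h y‖ * ‖ek γ (fx ξ) (fl ξ) y - ek γ (fx ξ') (fl ξ') y‖ ≤ ‖h y‖ * (L * ‖ξ - ξ'‖) :=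
              mul_le_mul_of_nonneg_left h4 (norm_nonneg _)
          _ = L * ‖ξ - ξ'‖ * ‖h y‖ := by ring
    refine (norm_integral_le_of_norm_le (hh.norm.const_mul _) (Eventually.of_forall h1)).trans ?_
    rw [integral_const_mul]
    apply le_of_eq
    ring
  refine ⟨fun ξ => ?_, hlip, ?_⟩
  · unfold ex
    refine norm_integral_le_of_norm_le hh.norm (Eventually.of_forall fun y => ?_)
    rw [norm_mul, norm_ek, mul_one]
  · have hK : 0 ≤ L * ∫ y, ‖h y‖ := mul_nonneg hL0.le hnn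
    have h5 : LipschitzWith ⟨L * ∫ y, ‖h y‖, hK⟩ (ex γ h) := by
      refine LipschitzWith.of_dist_le_mul fun ξ ξ' => ?_
      rw [dist_eq_norm, dist_eq_norm]
      exact hlip ξ ξ'
    exact h5.continuous

end Pool.Agent.H197.GS
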