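import Mathlib
import Pool.Agent.H197.GS.Stm
set_option autoImplicit false

/-! # GS-FING: the iteration of the one-step theorem, for graphs -/

namespace Pool.Agent.H197.GS

open MeasureTheory Set Metric Complex Filter Topology
open Pool.Agent.H197.PD (E kap chi vec zet dec S_KAP S_RAND S_MEMLP)
open scoped ENNReal NNReal RealInnerProductSpace

namespace FING

theorem ek_norm {d : ℕ} (γ : E d → ℝ) (x : E d) (t : ℝ) (y : E d) : ‖ek γ x t y‖ = 1 := by
  unfold ek
  rw [← Complex.ofReal_neg, Complex.norm_exp_ofReal_mul_I]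

theorem ek_cont {d : ℕ} {γ : E d → ℝ} (hγ : Continuous γ) (x : E d) (t : ℝ) :
    Continuous (ek γ x t) := by
  unfold ek
  have : Continuous fun y : E d => ⟪x, y⟫ + t * γ y := by fun_prop
  fun_prop

theorem ker_int {d : ℕ} {γ : E d → ℝ} (hγ : Continuous γ) {g : E d → ℂ} (hg : Integrable g)
    (x : E d) (t : ℝ) : Integrable (fun y => g y * ek γ x t y) := by
  refine hg.mul_bdd (c := 1) (ek_cont hγ x t).aestronglyMeasurable ?_
  exact Filter.Eventually.of_forall fun y => (ek_norm γ x t y).le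

theorem int_norm_le {d : ℕ} {g : E d → ℂ} {R B : ℝ} (hgi : Integrable g)
    (h0 : ∀ y, y ∉ closedBall (0 : E d) R → g y = 0) (hB : ∀ y, ‖g y‖ ≤ B) :
    ∫ y, ‖g y‖ ≤ B * volume.real (closedBall (0 : E d) R) := by
  have hfin : volume (closedBall (0 : E d) R) ≠ ∞ := measure_closedBall_lt_top.ne
  have hms : MeasurableSet (closedBall (0 : E d) R) := isClosed_closedBall.measurableSet
  calc ∫ y, ‖g y‖ ≤ ∫ y, (closedBall (0 : E d) R).indicator (fun _ => B) y := by
        refine integral_mono hgi.norm ?_ fun y => ?_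
        · rw [integrable_indicator_iff hms]
          exact integrableOn_const hfin
        · by_cases hy : y ∈ closedBall (0 : E d) R
          · rw [indicator_of_mem hy]
            exact hB y
          · rw [indicator_of_notMem hy]
            show ‖g y‖ ≤ 0
            rw [h0 y hy, norm_zero]
    _ = B * volume.real (closedBall (0 : E d) R) := by
        rw [integral_indicator hms, setIntegral_const, smul_eq_mul, mul_comm]

/-- the residual -/
noncomputable def resid {d : ℕ} (H : ℕ → (E d → ℂ) → (E d → ℂ)) (M : ℝ) (φ : E d → ℂ) :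
    ℕ → (E d → ℂ)
  | 0 => φ
  | k + 1 => fun x => if ‖resid H M φ k x - H k (resid H M φ k) x‖ ≤ M / 4 ^ (k + 1) then
      resid H M φ k x - H k (resid H M φ k) x else 0

end FING

open FING in
theorem t_FING (_hE : S_EXB) : S_FING := by
  intro hS d γ hd hγ R c hR hc
  obtain ⟨C, hC, hstep⟩ := hS d γ hd hγ R c hR hc
  refine ⟨4 * C, by positivity, ?_⟩
  intro U hU hUR hUc g hg M hM ε hε hε1 η hη
  have hγc : Continuous γ := hγ.continuous
  -- the steps
  have hex : ∀ (k : ℕ) (ψ : E d → ℂ), ∃ h : E d → ℂ,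
      Measurable ψ → (∀ x, ‖ψ x‖ ≤ M / 4 ^ k) →
      Continuous h ∧ (∀ y, y ∉ U → h y = 0) ∧
      (∀ x, ‖h x‖ ≤ C * (M / 4 ^ k) / (ε / 2 ^ (k + 1))) ∧
      volume {x | x ∈ U ∧ M / 4 ^ (k + 1) < ‖ψ x - h x‖} ≤ ENNReal.ofReal (ε / 2 ^ (k + 1)) ∧
      (∀ ξ, ‖ex γ h ξ‖ ≤ C * (M / 4 ^ k) / (ε / 2 ^ (k + 1)) * dec (d + 1) ξ) ∧
      ∀ ξ, ‖ex γ h ξ‖ ≤ η / 2 ^ (k + 1) := by
    intro k ψ
    by_cases hψ : Measurable ψ ∧ ∀ x, ‖ψ x‖ ≤ M / 4 ^ k
    · obtain ⟨h, hh⟩ := hstep U hU hUR hUc (M / 4 ^ k)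
        (by positivity) ψ hψ.1 hψ.2 (ε / 2 ^ (k + 1)) (by positivity)
        ((div_le_self hε.le (one_le_pow₀ (by norm_num))).trans hε1) (M / 4 ^ (k + 1))
        (by positivity) (η / 2 ^ (k + 1)) (by positivity)
      exact ⟨h, fun _ _ => hh⟩
    · exact ⟨0, fun h1 h2 => absurd ⟨h1, h2⟩ hψ⟩
  choose H hH using hex
  set φ : E d → ℂ := fun x => if ‖g x‖ ≤ M then g x else 0 with hφ
  have hφm : Measurable φ := Measurable.ite (measurableSet_le hg.norm measurable_const) hg
    measurable_const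
  have hφb : ∀ x, ‖φ x‖ ≤ M := by
    intro x
    simp only [hφ]
    split_ifs with h
    · exact h
    · rw [norm_zero]; exact hM.le
  set ψ : ℕ → (E d → ℂ) := resid H M φ with hψ
  have hinv : ∀ k, Measurable (ψ k) ∧ ∀ x, ‖ψ k x‖ ≤ M / 4 ^ k := by
    intro k
    induction k with
    | zero =>
      refine ⟨hφm, fun x => ?_⟩
      rw [pow_zero, div_one]
      exact hφb x
    | succ k ih =>
      have h1 := (hH k (ψ k) ih.1 ih.2).1.measurable
      refine ⟨?_, fun x => ?_⟩
      · exact Measurable.ite (measurableSet_le (ih.1.sub h1).norm measurable_const)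
          (ih.1.sub h1) measurable_const
      · change ‖if ‖ψ k x - H k (ψ k) x‖ ≤ M / 4 ^ (k + 1) then
          ψ k x - H k (ψ k) x else 0‖ ≤ _
        split_ifs with h
        · exact h
        · rw [norm_zero]; positivity
  set hk : ℕ → (E d → ℂ) := fun k => H k (ψ k) with hhk
  have hkp := fun k => hH k (ψ k) (hinv k).1 (hinv k).2
  have hkc : ∀ k, Continuous (hk k) := fun k => (hkp k).1
  have hkz : ∀ k y, y ∉ U → hk k y = 0 := fun k => (hkp k).2.1
  have hkzR : ∀ k y, y ∉ closedBall (0 : E d) R → hk k y = 0 := fun k y hy =>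
    hkz k y fun h => hy (hUR h)
  have hcoef : ∀ k : ℕ, C * (M / 4 ^ k) / (ε / 2 ^ (k + 1)) = (4 * C * M / ε) / 2 / 2 ^ k := by
    intro k
    have h4 : (4 : ℝ) ^ k = 2 ^ k * 2 ^ k := by rw [← mul_pow]; norm_num
    rw [h4, pow_succ]
    field_simp
    norm_num
  have hkb : ∀ k x, ‖hk k x‖ ≤ (4 * C * M / ε) / 2 / 2 ^ k := by
    intro k x
    exact ((hkp k).2.2.1 x).trans (le_of_eq (hcoef k))
  have hgeo : HasSum (fun k : ℕ => (4 * C * M / ε) / 2 / 2 ^ k) (4 * C * M / ε) :=
    hasSum_geometric_two' _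
  have hsum : ∀ x, Summable fun k => hk k x := fun x =>
    Summable.of_norm_bounded hgeo.summable fun k => hkb k x
  set h : E d → ℂ := fun x => ∑' k, hk k x with hh
  have hhc : Continuous h := continuous_tsum hkc hgeo.summable hkb
  have hhb : ∀ x, ‖h x‖ ≤ 4 * C * M / ε := by
    intro x
    exact tsum_of_norm_bounded hgeo fun k => hkb k x
  have hhz : ∀ y, y ∉ U → h y = 0 := by
    intro y hy
    simp only [hh]
    rw [tsum_congr fun k => hkz k y hy, tsum_zero]
  have hki : ∀ k, Integrable (hk k) := fun k =>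
    (hkc k).integrable_of_hasCompactSupport
      (HasCompactSupport.intro (isCompact_closedBall (0 : E d) (R : ℝ)) fun y hy => hkzR k y hy)
  -- the transform
  have hsumft : ∀ ξ, HasSum (fun k => ex γ (hk k) ξ) (ex γ h ξ) := by
    intro ξ
    unfold ex
    have h2 := hasSum_integral_of_summable_integral_norm
      (μ := volume) (F := fun k y => hk k y * ek γ (fx ξ) (fl ξ) y)
      (fun k => ker_int hγc (hki k) _ _) ?_
    · have h3 : (fun y : E d => h y * ek γ (fx ξ) (fl ξ) y) =
          fun y : E d => ∑' k, hk k y * ek γ (fx ξ) (fl ξ) y := by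
        funext y
        simp only [hh]
        rw [tsum_mul_right]
      rw [h3]
      exact h2
    · refine Summable.of_nonneg_of_le (fun k => integral_nonneg fun x => norm_nonneg _)
        (fun k => ?_) (hgeo.summable.mul_right (volume.real (closedBall (0 : E d) R)))
      calc ∫ y, ‖hk k y * ek γ (fx ξ) (fl ξ) y‖
          = ∫ y, ‖hk k y‖ := by
            refine integral_congr_ae (Eventually.of_forall fun y => ?_)
            simp only [norm_mul]
            rw [ek_norm, mul_one]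
        _ ≤ _ := int_norm_le (hki k) (hkzR k) (hkb k)
  refine ⟨h, hhc, hhz, hhb, ?_, ?_, ?_⟩
  · -- the exceptional set
    have hsub : {x | x ∈ U ∧ h x ≠ g x} ⊆
        (⋃ k, {x | x ∈ U ∧ M / 4 ^ (k + 1) < ‖ψ k x - hk k x‖}) ∪
        {x | x ∈ U ∧ M < ‖g x‖} := by
      rintro x ⟨hxU, hx⟩
      by_contra hcc
      rw [mem_union, not_or, mem_iUnion, not_exists] at hcc
      obtain ⟨h1', h2'⟩ := hcc
      have h1 : ∀ k, ‖ψ k x - hk k x‖ ≤ M / 4 ^ (k + 1) := fun k =>
        not_lt.1 fun h => h1' k ⟨hxU, h⟩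
      have h2 : ‖g x‖ ≤ M := not_lt.1 fun h => h2' ⟨hxU, h⟩
      apply hx
      have h3 : ∀ k, ψ (k + 1) x = ψ k x - hk k x := by
        intro k
        change (if ‖ψ k x - H k (ψ k) x‖ ≤ M / 4 ^ (k + 1) then
          ψ k x - H k (ψ k) x else 0) = _
        rw [if_pos (h1 k)]
      have h4 : ∀ K, ∑ k ∈ Finset.range K, hk k x = φ x - ψ K x := by
        intro K
        induction K with
        | zero => simp [hψ, resid]
        | succ K ih => rw [Finset.sum_range_succ, ih, h3 K]; ring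
      have h5 : Tendsto (fun K => ψ K x) atTop (𝓝 0) := by
        rw [tendsto_zero_iff_norm_tendsto_zero]
        refine squeeze_zero (fun K => norm_nonneg _) (fun K => (hinv K).2 x) ?_
        have h6 : Tendsto (fun K : ℕ => M * (1 / 4 : ℝ) ^ K) atTop (𝓝 (M * 0)) :=
          (tendsto_pow_atTop_nhds_zero_of_lt_one (by norm_num) (by norm_num)).const_mul M
        rw [mul_zero] at h6
        refine h6.congr fun K => ?_
        rw [one_div, inv_pow]; rfl
      have h7 : Tendsto (fun K => ∑ k ∈ Finset.range K, hk k x) atTop (𝓝 (φ x - 0)) := by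
        simp_rw [h4]
        exact tendsto_const_nhds.sub h5
      have h8 : h x = φ x - 0 := tendsto_nhds_unique (hsum x).hasSum.tendsto_sum_nat h7
      rw [h8, sub_zero, hφ]
      simp only
      rw [if_pos h2]
    refine (measure_mono hsub).trans ((measure_union_le _ _).trans ?_)
    gcongr
    refine (measure_iUnion_le _).trans ?_
    have h1 : ∀ k : ℕ, ε / 2 ^ (k + 1) = ε / 2 / 2 ^ k := by
      intro k; rw [pow_succ]; field_simp
    calc ∑' k, volume {x | x ∈ U ∧ M / 4 ^ (k + 1) < ‖ψ k x - hk k x‖}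
        ≤ ∑' k : ℕ, ENNReal.ofReal (ε / 2 / 2 ^ k) :=
          ENNReal.tsum_le_tsum fun k => by
            rw [← h1 k]; exact (hkp k).2.2.2.1
      _ = ENNReal.ofReal ε := by
          rw [← ENNReal.ofReal_tsum_of_nonneg (fun k => by positivity)
            (hasSum_geometric_two' ε).summable, (hasSum_geometric_two' ε).tsum_eq]
  · intro ξ
    rw [← (hsumft ξ).tsum_eq]
    refine tsum_of_norm_bounded (hgeo.mul_right (dec (d + 1) ξ)) fun k => ?_
    rw [← hcoef k]
    exact (hkp k).2.2.2.2.1 ξ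
  · intro ξ
    rw [← (hsumft ξ).tsum_eq]
    refine tsum_of_norm_bounded (hasSum_geometric_two' η) fun k => ?_
    have h1 : η / 2 ^ (k + 1) = η / 2 / 2 ^ k := by
      rw [pow_succ]; field_simp
    rw [← h1]
    exact (hkp k).2.2.2.2.2 ξ

end Pool.Agent.H197.GS
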