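import Mathlib
import Pool.Agent.H197.GS.Stm
set_option autoImplicit false

/-!
# Project GS (helper197), second wave: ONE exceptional set for totally bounded families of densities

Same objects as in `Pool/Agent/H197/GS/Stm.lean`. The first wave corrects a single density; here all densities of a totally bounded
family (in the sup norm), in particular all members of a sequence up to constants, are corrected on the SAME small set.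
-/

namespace Pool.Agent.H197.GS

open MeasureTheory Set Metric Complex Filter Topology
open Pool.Agent.H197.PD (E kap chi vec zet dec S_KAP S_RAND S_MEMLP S_MGF S_PT)
open scoped ENNReal NNReal RealInnerProductSpace BigOperators ContDiff

/-- the family is totally bounded in the sup norm on `U` -/
def TBd {d : ℕ} {ι : Type} (g : ι → E d → ℂ) (U : Set (E d)) : Prop :=
  ∀ δ : ℝ, 0 < δ → ∃ s : Finset ι, ∀ i, ∃ j ∈ s, ∀ y ∈ U, ‖g i y - g j y‖ ≤ δ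

/-- GS-RNQ: `S_RAND` for `Q ≤ N` systems of coefficients at once, with one choice of signs: adapt `Pool/Agent/H197/PD/RAND.lean` (on main).
Proof. As for `S_RAND`: with `Y(z) = ∑_q ∫ (cosh (lam Re S_{q,z}) + cosh (lam Im S_{q,z})) (2+N+‖ξ‖)^(-(n+2)) dξ` the mean over `z` is at most
`Q ∫ 2 (2+N+‖ξ‖)^(1/2) (2+N+‖ξ‖)^(-(n+2)) dξ ≤ Q N⁻¹ K₀ ≤ K₀`, `K₀ := 2 ∫ (2+‖ξ‖)^(-(n+1/2)) dξ < ∞`, since `(2+N+‖ξ‖)^(-(n+3/2)) ≤ N⁻¹ (2+‖ξ‖)^(-(n+1/2))`. So some `z` has `X(z) ≤ 2S/m` and `Y(z) ≤ 2K₀`, in particular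
each summand of `Y(z)` is at most `2K₀` (they are nonnegative), and `S_PT` with `K = 2K₀` applies to the real and imaginary parts for each `q`. (`Q = 0`: only the first part, choose `z` with `X(z) ≤` mean.) -/
def S_RNQ : Prop :=
  ∀ (n : ℕ) (al : ℝ), 1 ≤ n → 0 ≤ al → ∃ C : ℝ, 0 < C ∧
    ∀ (J : Type) [Fintype J] [DecidableEq J] (m : ℕ), 1 ≤ m → ∀ (N V : ℝ), 1 ≤ N → 0 < V →
    ∀ Q : ℕ, (Q : ℝ) ≤ N →
    ∀ (a : Fin Q → J → E n → ℂ) (s : J → ℝ), (∀ j, 0 ≤ s j) → (∀ q j, Continuous (a q j)) →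
    (∀ q ξ, ∑ j, ‖a q j ξ‖ ^ 2 ≤ V ^ 2 * (N + ‖ξ‖) ^ (-(2 * al))) →
    (∀ q (z : J → Fin m) ξ, ‖∑ j, ((zet m (z j) : ℝ) : ℂ) * a q j ξ‖ ≤ m * V) →
    (∀ q (z : J → Fin m) ξ ξ', ‖∑ j, ((zet m (z j) : ℝ) : ℂ) * a q j ξ -
      ∑ j, ((zet m (z j) : ℝ) : ℂ) * a q j ξ'‖ ≤ m * V * ‖ξ - ξ'‖) →
    ∃ z : J → Fin m, (∑ j, if ((z j : Fin m) : ℕ) = 0 then s j else 0) ≤ 2 * (∑ j, s j) / m ∧
      ∀ q ξ, ‖∑ j, ((zet m (z j) : ℝ) : ℂ) * a q j ξ‖ ≤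
        C * (m * V) * √(Real.log (2 + N + ‖ξ‖)) * (N + ‖ξ‖) ^ (-al)

/-- The one-step theorem for finite families (done by helper197). -/
def S_STQ : Prop :=
  ∀ (d : ℕ) (γ : E d → ℝ), 1 ≤ d → ContDiff ℝ ∞ γ → ∀ (R : ℕ) (c : ℝ), 1 ≤ R → 0 < c → ∃ C : ℝ, 0 < C ∧
    ∀ U : Set (E d), IsOpen U → U ⊆ closedBall 0 R → Expands γ U c →
    ∀ M : ℝ, 0 < M → ∀ (Q : ℕ) (φ : Fin Q → E d → ℂ), (∀ q, Measurable (φ q)) → (∀ q y, ‖φ q y‖ ≤ M) →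
    ∀ ε : ℝ, 0 < ε → ε ≤ 1 → ∀ ρ : ℝ, 0 < ρ → ∀ η : ℝ, 0 < η →
    ∃ h : Fin Q → E d → ℂ, (∀ q, Continuous (h q)) ∧ (∀ q y, y ∉ U → h q y = 0) ∧
      (∀ q y, ‖h q y‖ ≤ C * M / ε) ∧
      volume {y | y ∈ U ∧ ∃ q, ρ < ‖φ q y - h q y‖} ≤ ENNReal.ofReal ε ∧
      (∀ q ξ, ‖ex γ (h q) ξ‖ ≤ C * M / ε * dec (d + 1) ξ) ∧ ∀ q ξ, ‖ex γ (h q) ξ‖ ≤ η

/-- The correction theorem for totally bounded families, expanding gradient, first form. -/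
def S_COQ : Prop :=
  ∀ (d : ℕ) (γ : E d → ℝ), 1 ≤ d → ContDiff ℝ ∞ γ → ∀ (R : ℕ) (c : ℝ), 1 ≤ R → 0 < c → ∃ C : ℝ, 0 < C ∧
    ∀ U : Set (E d), IsOpen U → U ⊆ closedBall 0 R → Expands γ U c →
    ∀ (ι : Type) (g : ι → E d → ℂ), (∀ i, Measurable (g i)) → ∀ M : ℝ, 0 < M → (∀ i, ∀ y ∈ U, ‖g i y‖ ≤ M) → TBd g U →
    ∀ ε : ℝ, 0 < ε → ε ≤ 1 → ∀ η : ℝ, 0 < η →
    ∃ Z : Set (E d), MeasurableSet Z ∧ volume Z ≤ ENNReal.ofReal ε ∧ ∀ i,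
    ∃ h : E d → ℂ, Continuous h ∧ (∀ y, y ∉ U → h y = 0) ∧ (∀ y, ‖h y‖ ≤ C * M / ε) ∧
      (∀ y ∈ U, y ∉ Z → h y = g i y) ∧
      (∀ ξ, ‖ex γ h ξ‖ ≤ C * M / ε * dec (d + 1) ξ) ∧ ∀ ξ, ‖ex γ h ξ‖ ≤ η

/-- GS-FNQ: the iteration for families. Adapt `Pool/Agent/H197/GS/FING.lean` (on main; single density).
Proof. Residuals `ψ_k : ι → E d → ℂ` with: measurable, `‖ψ_k i y‖ ≤ M/4^k` everywhere, zero outside `U`, `TBd (ψ_k) univ` (or `U`). `ψ_0 i = g i` on `U`, `0` outside. Step `k`: let `s` be a finite net of `ψ_k` with error `M/(2·4^(k+1))`, `q(i) ∈ s` the chosen element; apply `S_STQ` to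
the finite family `ψ_k j`, `j ∈ s` (`Fin Q` through `Finset.equivFin`), with `M/4^k`, `ε/2^(k+1)`, `ρ = M/(2·4^(k+1))`, `η/2^(k+1)`; it gives `h_k j` for `j ∈ s`; let `Z_k = {y ∈ U | ∃ j, ρ < ‖ψ_k j y - h_k j y‖}` (measurable), `vol Z_k ≤ ε/2^(k+1)`,
`H_k(i) = h_k(q(i))`, `ψ_{k+1} i = 1_{U \ Z_k} (ψ_k i - H_k(i))`, which is bounded by `M/4^(k+1)`. Total boundedness of `ψ_{k+1}`: for `δ > 0` the map `i ↦ (element of a δ/2-net of ψ_k near ψ_k i, q(i))` takes finitely many values; choose one `i` for each value.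
`Z = ⋃ Z_k`, `h_i = ∑_k H_k(i)`: on `U \ Z` the partial sums are `ψ_0 i - ψ_K i → g i`; the bounds are as in `FING` (`|H_k| ≤ C (M/4^k)/(ε/2^(k+1)) = (2CM/ε) 2^(-k)`), constant `4 C`. -/
def S_FNQ : Prop := S_STQ → S_COQ

/-- GS-UNQ: adapt `Pool/Agent/H197/GS/UNI.lean` (on main; single density). `C₀` from `S_COQ` for the fixed `γ, R, c`; `K₀ ⊆ U` compact with `vol(U \ K₀) ≤ ε/2`, open `U'` between with compact closure in `U`; `S_COQ` on `U'` with `ε/2` gives `Z'`;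
`Z = Z' ∪ (U \ U')`. -/
def S_UNQ : Prop :=
  ∀ (d : ℕ) (γ : E d → ℝ), 1 ≤ d → ContDiff ℝ ∞ γ → ∀ U : Set (E d), IsOpen U → Bornology.IsBounded U →
    ∀ c : ℝ, 0 < c → Expands γ U c → ∃ C : ℝ, 0 < C ∧
    ∀ (ι : Type) (g : ι → E d → ℂ), (∀ i, Measurable (g i)) → ∀ M : ℝ, 0 < M → (∀ i, ∀ y ∈ U, ‖g i y‖ ≤ M) → TBd g U →
    ∀ ε : ℝ, 0 < ε → ε ≤ 1 →
    ∀ p₀ : ℝ, 2 * ((d : ℝ) + 1) / d < p₀ → ∀ η : ℝ, 0 < η →
    ∃ Z : Set (E d), MeasurableSet Z ∧ volume Z ≤ ENNReal.ofReal ε ∧ ∀ i,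
    ∃ h : E d → ℂ, Continuous h ∧ HasCompactSupport h ∧ tsupport h ⊆ U ∧ (∀ y, ‖h y‖ ≤ C * M / ε) ∧
      (∀ y ∈ U, y ∉ Z → h y = g i y) ∧
      (∀ ξ, ‖ex γ h ξ‖ ≤ C * M / ε * dec (d + 1) ξ) ∧
      (∀ p : ℝ, 2 * ((d : ℝ) + 1) / d < p → MemLp (ex γ h) (ENNReal.ofReal p) volume) ∧
      ∀ r : ℝ≥0∞, ENNReal.ofReal p₀ ≤ r → eLpNorm (ex γ h) r volume ≤ ENNReal.ofReal η

/-- GS-GNQ: adapt `Pool/Agent/H197/GS/GEN.lean` (on main; single density). Pieces `V_1, …, V_n` from `S_PIE` with `ε/2`; `Z = (U \ ⋃ V_i) ∪ ⋃ Z_i`, `Z_i` from `S_UNQ` on `V_i` with `ε/(2(n+1))`, `η/(n+1)`. -/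
def S_GNQ : Prop :=
  ∀ (d : ℕ) (γ : E d → ℝ), 1 ≤ d → ContDiff ℝ ∞ γ → ∀ U : Set (E d), IsOpen U → Bornology.IsBounded U →
    volume {y | y ∈ U ∧ Flat γ y} = 0 → ∀ ε : ℝ, 0 < ε → ε ≤ 1 → ∃ C : ℝ, 0 < C ∧
    ∀ (ι : Type) (g : ι → E d → ℂ), (∀ i, Measurable (g i)) → ∀ M : ℝ, 0 < M → (∀ i, ∀ y ∈ U, ‖g i y‖ ≤ M) → TBd g U →
    ∀ p₀ : ℝ, 2 * ((d : ℝ) + 1) / d < p₀ → ∀ η : ℝ, 0 < η →
    ∃ Z : Set (E d), MeasurableSet Z ∧ volume Z ≤ ENNReal.ofReal ε ∧ ∀ i,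
    ∃ h : E d → ℂ, Continuous h ∧ HasCompactSupport h ∧ tsupport h ⊆ U ∧ (∀ y, ‖h y‖ ≤ C * M) ∧
      (∀ y ∈ U, y ∉ Z → h y = g i y) ∧
      (∀ ξ, ‖ex γ h ξ‖ ≤ C * M * dec (d + 1) ξ) ∧
      (∀ p : ℝ, 2 * ((d : ℝ) + 1) / d < p → MemLp (ex γ h) (ENNReal.ofReal p) volume) ∧
      ∀ r : ℝ≥0∞, ENNReal.ofReal p₀ ≤ r → eLpNorm (ex γ h) r volume ≤ ENNReal.ofReal η

/-- the density `f` on `U` agrees off `Z` with an `h ∈ C_c(U)` whose extension decays like `√log(2+|ξ|) (1+|ξ|)^(-d/2)` -/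
def Corr {d : ℕ} (γ : E d → ℝ) (U Z : Set (E d)) (f : E d → ℂ) : Prop :=
  ∃ h : E d → ℂ, Continuous h ∧ HasCompactSupport h ∧ tsupport h ⊆ U ∧ (∀ y ∈ U, y ∉ Z → h y = f y) ∧
    (∃ A : ℝ, ∀ ξ, ‖ex γ h ξ‖ ≤ A * dec (d + 1) ξ) ∧
    ∀ p : ℝ, 2 * ((d : ℝ) + 1) / d < p → MemLp (ex γ h) (ENNReal.ofReal p) volume

/-- GS-SEQ (uses `S_GNQ`, `S_EXB`): one exceptional set for a sequence of measurable densities and its linear span.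
Proof. `vol U < ∞`: choose `M_i ≥ 1` with `vol {y ∈ U | M_i < ‖g i y‖} ≤ ε/2^(i+2)` (`tendsto_measure_iInter...`). The functions `u_i = g i · 1_{‖g i‖ ≤ M_i} / ((i+1) M_i)` are bounded by `1/(i+1)`, so the family is totally bounded
(`s = {0, …, n}` with `1/(n+1) ≤ δ/2`; all later ones are within `δ` of `u_n`). `S_GNQ` with `min ε 1 /2`, `M = 1`, `p₀ = 2(d+1)/d + 1`, `η = 1` gives `Z₀`; `Z = Z₀ ∪ ⋃_i {y ∈ U | M_i < ‖g i y‖}`, and `h = (i+1) M_i h_i` works for `g i`.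
`Corr` is stable under sums and scalar multiples (`ex` is linear on integrable densities; `h` continuous with compact support is integrable; `dec ≥ 0`), so it holds on the span (`Submodule.span_induction`). -/
def S_SEQ : Prop :=
  ∀ (d : ℕ) (γ : E d → ℝ), 1 ≤ d → ContDiff ℝ ∞ γ → ∀ U : Set (E d), IsOpen U → Bornology.IsBounded U →
    volume {y | y ∈ U ∧ Flat γ y} = 0 → ∀ g : ℕ → E d → ℂ, (∀ i, Measurable (g i)) → ∀ ε : ℝ, 0 < ε →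
    ∃ Z : Set (E d), MeasurableSet Z ∧ volume Z ≤ ENNReal.ofReal ε ∧
      ∀ f ∈ Submodule.span ℂ (Set.range g), Corr γ U Z f

/-- GS-FLT (uses `S_NEC`): if the constant density can be corrected on sets of arbitrarily small measure, the Hessian is regular almost everywhere.
Proof. Let `h` be the function from `Corr γ U Z 1`; it is continuous and integrable, and for `x, t` there is `ξ` with `fx ξ = x`, `fl ξ = t` (`Fin.snoc`), `‖ξ‖ ≥ s := max ‖x‖ |t|`. `dec (d+1) ξ = √log(2+‖ξ‖) (1+‖ξ‖)^(-d/2) ≤ √log(2+(1+‖ξ‖)) (1+‖ξ‖)^(-d/2) ≤ √log(2+(1+s)) (1+s)^(-d/2)`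
(`Pool.Agent.H197.GS.STG.mono`, copy it from `Pool/Agent/H197/GS/STGa.lean`) `≤ 2 √log(2+s) (1+s)^(-d/2)` (`log(3+s) ≤ 4 log(2+s)`). So `S_NEC` applies: `h = 0` at the flat points; but `h = 1` on `U \ Z`, hence `{y ∈ U | Flat γ y} ⊆ Z`, of measure at most `ε` for every `ε`. -/
def S_FLT : Prop :=
  ∀ (d : ℕ) (γ : E d → ℝ), 1 ≤ d → ContDiff ℝ ∞ γ → ∀ U : Set (E d), IsOpen U → Bornology.IsBounded U →
    (∀ ε : ℝ, 0 < ε → ∃ Z : Set (E d), volume Z ≤ ENNReal.ofReal ε ∧ Corr γ U Z (fun _ => 1)) →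
    volume {y | y ∈ U ∧ Flat γ y} = 0

end Pool.Agent.H197.GS
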