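import Mathlib
import Pool.Agent.H197.GS.Stm2
set_option autoImplicit false

namespace Pool.Agent.H197.GS

open MeasureTheory Set Metric Complex Filter Topology
open Pool.Agent.H197.PD (E kap chi vec zet dec S_KAP S_RAND S_MEMLP)
open scoped ENNReal NNReal RealInnerProductSpace BigOperators ContDiff

namespace FLT

/-- monotonicity of the bound -/
theorem mono {s' s al : ℝ} (h1 : 1 ≤ s') (h2 : s' ≤ s) (hal : 1 / 2 ≤ al) :
    √(Real.log (2 + s)) * s ^ (-al) ≤ √(Real.log (2 + s')) * s' ^ (-al) := by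
  have hs' : 0 < s' := by linarith
  have hs : 0 < s := by linarith
  have he : Real.exp 1 ≤ 3 := by
    have := Real.exp_one_lt_d9
    linarith
  have h3 : Real.log (2 + s) / (2 + s) ≤ Real.log (2 + s') / (2 + s') :=
    Real.log_div_self_antitoneOn (show Real.exp 1 ≤ 2 + s' by linarith)
      (show Real.exp 1 ≤ 2 + s by linarith) (by linarith)
  have hl' : 0 < Real.log (2 + s') := Real.log_pos (by linarith)
  have h4 : Real.log (2 + s) ≤ (s / s') * Real.log (2 + s') := by
    rw [div_le_div_iff₀ (by linarith) (by linarith)] at h3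
    have h5 : Real.log (2 + s) ≤ Real.log (2 + s') * ((2 + s) / (2 + s')) := by
      rw [← mul_div_assoc, le_div_iff₀ (by linarith)]
      exact h3
    refine h5.trans ?_
    rw [mul_comm]
    refine mul_le_mul_of_nonneg_right ?_ hl'.le
    rw [div_le_div_iff₀ (by linarith) hs']
    nlinarith
  have hq : 1 ≤ s / s' := by rw [le_div_iff₀ hs']; linarith
  have h5 : √(Real.log (2 + s)) ≤ (s / s') ^ al * √(Real.log (2 + s')) := by
    calc √(Real.log (2 + s)) ≤ √((s / s') * Real.log (2 + s')) := Real.sqrt_le_sqrt h4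
      _ = √(s / s') * √(Real.log (2 + s')) := Real.sqrt_mul (by positivity) _
      _ ≤ _ := by
        refine mul_le_mul_of_nonneg_right ?_ (Real.sqrt_nonneg _)
        rw [Real.sqrt_eq_rpow]
        exact Real.rpow_le_rpow_of_exponent_le hq hal
  calc √(Real.log (2 + s)) * s ^ (-al)
      ≤ ((s / s') ^ al * √(Real.log (2 + s'))) * s ^ (-al) :=
        mul_le_mul_of_nonneg_right h5 (by positivity)
    _ = √(Real.log (2 + s')) * s' ^ (-al) := by
        rw [Real.div_rpow hs.le hs'.le, Real.rpow_neg hs.le, Real.rpow_neg hs'.le]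
        have h6 : s ^ al ≠ 0 := (Real.rpow_pos_of_pos hs _).ne'
        field_simp

/-- the frequency with given first coordinates and last coordinate -/
noncomputable def fr {d : ℕ} (x : E d) (t : ℝ) : E (d + 1) :=
  WithLp.toLp 2 (Fin.snoc (α := fun _ => ℝ) (fun i => x i) t)

theorem fx_fr {d : ℕ} (x : E d) (t : ℝ) : fx (fr x t) = x := by
  ext i
  simp [fx, fr]

theorem fl_fr {d : ℕ} (x : E d) (t : ℝ) : fl (fr x t) = t := by
  simp [fl, fr]

theorem norm_fr {d : ℕ} (x : E d) (t : ℝ) : ‖fr x t‖ ^ 2 = ‖x‖ ^ 2 + |t| ^ 2 := by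
  rw [EuclideanSpace.norm_sq_eq, EuclideanSpace.norm_sq_eq, Fin.sum_univ_castSucc]
  simp [fr]

theorem le_norm_fr {d : ℕ} (x : E d) (t : ℝ) : max ‖x‖ |t| ≤ ‖fr x t‖ := by
  have h := norm_fr x t
  have h1 : 0 ≤ ‖fr x t‖ := norm_nonneg _
  refine max_le ?_ ?_
  · refine le_of_sq_le_sq ?_ h1
    rw [h]
    nlinarith [sq_nonneg |t|]
  · refine le_of_sq_le_sq ?_ h1
    rw [h]
    nlinarith [sq_nonneg ‖x‖]

/-- comparison of the decay at a frequency with the bound in the maximum of the two parts -/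
theorem dec_le {d : ℕ} (hd : 1 ≤ d) (x : E d) (t : ℝ) :
    dec (d + 1) (fr x t) ≤
      2 * (√(Real.log (2 + max ‖x‖ |t|)) * (1 + max ‖x‖ |t|) ^ (-((d : ℝ) / 2))) := by
  obtain ⟨s, hs⟩ : ∃ s : ℝ, s = max ‖x‖ |t| := ⟨_, rfl⟩
  obtain ⟨r, hr⟩ : ∃ r : ℝ, r = ‖fr x t‖ := ⟨_, rfl⟩
  have hsr : s ≤ r := by rw [hs, hr]; exact le_norm_fr x t
  have hs0 : 0 ≤ s := by rw [hs]; exact le_max_of_le_left (norm_nonneg _)
  have hr0 : 0 ≤ r := hs0.trans hsr
  have hd1 : (1 : ℝ) ≤ d := by exact_mod_cast hd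
  have e : dec (d + 1) (fr x t) = √(Real.log (2 + r)) * (1 + r) ^ (-((d : ℝ) / 2)) := by
    unfold dec
    rw [← hr]
    push_cast
    rw [add_sub_cancel_right]
  rw [e, ← hs]
  have h1 : √(Real.log (2 + r)) ≤ √(Real.log (2 + (1 + r))) :=
    Real.sqrt_le_sqrt (Real.log_le_log (by linarith) (by linarith))
  have h2 := mono (s' := 1 + s) (s := 1 + r) (al := (d : ℝ) / 2) (by linarith) (by linarith)
    (by linarith)
  have h3 : √(Real.log (2 + (1 + s))) ≤ 2 * √(Real.log (2 + s)) := by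
    have h4 : Real.log (2 + (1 + s)) ≤ 4 * Real.log (2 + s) := by
      have h5 : Real.log (2 + (1 + s)) ≤ Real.log ((2 + s) ^ 2) :=
        Real.log_le_log (by linarith) (by nlinarith)
      rw [Real.log_pow] at h5
      have h6 : 0 ≤ Real.log (2 + s) := Real.log_nonneg (by linarith)
      push_cast at h5
      linarith
    calc √(Real.log (2 + (1 + s))) ≤ √(4 * Real.log (2 + s)) := Real.sqrt_le_sqrt h4
      _ = √4 * √(Real.log (2 + s)) := Real.sqrt_mul (by norm_num) _
      _ = 2 * √(Real.log (2 + s)) := by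
        rw [show (4 : ℝ) = 2 ^ 2 by norm_num, Real.sqrt_sq (by norm_num)]
  have hp : 0 ≤ (1 + s) ^ (-((d : ℝ) / 2)) := by positivity
  calc √(Real.log (2 + r)) * (1 + r) ^ (-((d : ℝ) / 2))
      ≤ √(Real.log (2 + (1 + r))) * (1 + r) ^ (-((d : ℝ) / 2)) :=
        mul_le_mul_of_nonneg_right h1 (by positivity)
    _ ≤ √(Real.log (2 + (1 + s))) * (1 + s) ^ (-((d : ℝ) / 2)) := h2
    _ ≤ (2 * √(Real.log (2 + s))) * (1 + s) ^ (-((d : ℝ) / 2)) :=
        mul_le_mul_of_nonneg_right h3 hp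
    _ = 2 * (√(Real.log (2 + s)) * (1 + s) ^ (-((d : ℝ) / 2))) := by ring

end FLT

/-- if the constant density can be corrected on sets of arbitrarily small measure, the Hessian is
regular almost everywhere -/
theorem t_FLT (hN : S_NEC) : S_FLT := by
  intro d γ hd hγ U hU hUb hcor
  have key : ∀ ε : ℝ, 0 < ε → volume {y | y ∈ U ∧ Flat γ y} ≤ ENNReal.ofReal ε := by
    intro ε hε
    obtain ⟨Z, hZ, h, hc, hcs, -, hone, ⟨A, hA⟩, -⟩ := hcor ε hε
    refine le_trans (measure_mono ?_) hZ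
    have hint : Integrable h := hc.integrable_of_hasCompactSupport hcs
    have hbd : ∀ (x : E d) (t : ℝ), ‖∫ y, h y * ek γ x t y‖ ≤
        (2 * |A|) * (√(Real.log (2 + max ‖x‖ |t|)) *
          (1 + max ‖x‖ |t|) ^ (-((d : ℝ) / 2))) := by
      intro x t
      have h1 := hA (FLT.fr x t)
      have h2 : ex γ h (FLT.fr x t) = ∫ y, h y * ek γ x t y := by
        unfold ex
        rw [FLT.fx_fr, FLT.fl_fr]
      rw [h2] at h1
      have h3 : 0 ≤ dec (d + 1) (FLT.fr x t) := by
        unfold dec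
        positivity
      calc ‖∫ y, h y * ek γ x t y‖ ≤ A * dec (d + 1) (FLT.fr x t) := h1
        _ ≤ |A| * dec (d + 1) (FLT.fr x t) := mul_le_mul_of_nonneg_right (le_abs_self A) h3
        _ ≤ |A| * (2 * (√(Real.log (2 + max ‖x‖ |t|)) *
              (1 + max ‖x‖ |t|) ^ (-((d : ℝ) / 2)))) :=
            mul_le_mul_of_nonneg_left (FLT.dec_le hd x t) (abs_nonneg A)
        _ = _ := by ring
    rintro y ⟨hyU, hyF⟩
    by_contra hyZ
    have h0 := hN d γ hd hγ h (2 * |A|) hc hint hbd y hyF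
    rw [hone y hyU hyZ] at h0
    exact one_ne_zero h0
  refine le_antisymm (ENNReal.le_of_forall_pos_le_add fun ε hε _ => ?_) zero_le
  rw [zero_add]
  have h := key (ε : ℝ) (by exact_mod_cast hε)
  rwa [ENNReal.ofReal_coe_nnreal] at h

end Pool.Agent.H197.GS
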