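import Mathlib
import Pool.Agent.H197.GS.Stm2
set_option autoImplicit false

/-! # GS-FNQ: the iteration of the one-step theorem, for totally bounded families -/

namespace Pool.Agent.H197.GS

open MeasureTheory Set Metric Complex Filter Topology
open Pool.Agent.H197.PD (E kap chi vec zet dec S_KAP S_RAND S_MEMLP)
open scoped ENNReal NNReal RealInnerProductSpace

namespace FNQ

theorem ek_norm {d : ℕ} (γ : E d → ℝ) (x : E d) (t : ℝ) (y : E d) : ‖ek γ x t y‖ = 1 := by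
  unfold ek
  rw [← Complex.ofReal_neg, Complex.norm_exp_ofReal_mul_I]

theorem ek_cont {d : ℕ} {γ : E d → ℝ} (hγ : Continuous γ) (x : E d) (t : ℝ) :
    Continuous (ek γ x t) := by
  unfold ek
  have : Continuous fun y : E d => ⟪x, y⟫ + t * γ y := by fun_prop
  fun_prop

theorem ker_int {d : ℕ} {γ : E d → ℝ} (hγ : Continuous γ) {g : E d → ℂ} (hg : Integrable g)
    (x : E d) (t : ℝ) : Integrable (fun y => g y * ek γ x t y) := by
  refine hg.mul_bdd (c := 1) (ek_cont hγ x t).aestronglyMeasurable ?_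
  exact Filter.Eventually.of_forall fun y => (ek_norm γ x t y).le

theorem int_norm_le {d : ℕ} {g : E d → ℂ} {R B : ℝ} (hgi : Integrable g)
    (h0 : ∀ y, y ∉ closedBall (0 : E d) R → g y = 0) (hB : ∀ y, ‖g y‖ ≤ B) :
    ∫ y, ‖g y‖ ≤ B * volume.real (closedBall (0 : E d) R) := by
  have hfin : volume (closedBall (0 : E d) R) ≠ ∞ := measure_closedBall_lt_top.ne
  have hms : MeasurableSet (closedBall (0 : E d) R) := isClosed_closedBall.measurableSet
  calc ∫ y, ‖g y‖ ≤ ∫ y, (closedBall (0 : E d) R).indicator (fun _ => B) y := by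
        refine integral_mono hgi.norm ?_ fun y => ?_
        · rw [integrable_indicator_iff hms]
          exact integrableOn_const hfin
        · by_cases hy : y ∈ closedBall (0 : E d) R
          · rw [indicator_of_mem hy]
            exact hB y
          · rw [indicator_of_notMem hy]
            show ‖g y‖ ≤ 0
            rw [h0 y hy, norm_zero]
    _ = B * volume.real (closedBall (0 : E d) R) := by
        rw [integral_indicator hms, setIntegral_const, smul_eq_mul, mul_comm]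

/-- one step for a totally bounded family -/
theorem step1 {d : ℕ} {ι : Type} {γ : E d → ℝ} {U : Set (E d)} (hU : IsOpen U)
    {C A ε ρ η : ℝ} (hρ : 0 < ρ)
    (hstep : ∀ (Q : ℕ) (φ : Fin Q → E d → ℂ), (∀ q, Measurable (φ q)) → (∀ q y, ‖φ q y‖ ≤ A) →
      ∃ h : Fin Q → E d → ℂ, (∀ q, Continuous (h q)) ∧ (∀ q y, y ∉ U → h q y = 0) ∧
      (∀ q y, ‖h q y‖ ≤ C * A / ε) ∧
      volume {y | y ∈ U ∧ ∃ q, ρ < ‖φ q y - h q y‖} ≤ ENNReal.ofReal ε ∧
      (∀ q ξ, ‖ex γ (h q) ξ‖ ≤ C * A / ε * dec (d + 1) ξ) ∧ ∀ q ξ, ‖ex γ (h q) ξ‖ ≤ η)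
    {ψ : ι → E d → ℂ} (hm : ∀ i, Measurable (ψ i)) (hb : ∀ i y, ‖ψ i y‖ ≤ A) (ht : TBd ψ U) :
    ∃ (H : ι → E d → ℂ) (Z : Set (E d)), (∀ i, Continuous (H i)) ∧ (∀ i y, y ∉ U → H i y = 0) ∧
      (∀ i y, ‖H i y‖ ≤ C * A / ε) ∧ MeasurableSet Z ∧ volume Z ≤ ENNReal.ofReal ε ∧
      (∀ i, ∀ y ∈ U, y ∉ Z → ‖ψ i y - H i y‖ ≤ 2 * ρ) ∧
      (∀ i ξ, ‖ex γ (H i) ξ‖ ≤ C * A / ε * dec (d + 1) ξ) ∧ (∀ i ξ, ‖ex γ (H i) ξ‖ ≤ η) ∧
      (Set.range H).Finite := by
  classical
  obtain ⟨s, hs⟩ := ht ρ hρ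
  choose q hq1 hq2 using hs
  obtain ⟨h, h1, h2, h3, h4, h5, h6⟩ := hstep s.card (fun a => ψ (s.equivFin.symm a : ι))
    (fun a => hm _) (fun a y => hb _ y)
  refine ⟨fun i => h (s.equivFin ⟨q i, hq1 i⟩),
    {y | y ∈ U ∧ ∃ a : Fin s.card, ρ < ‖ψ (s.equivFin.symm a : ι) y - h a y‖},
    fun i => h1 _, fun i y hy => h2 _ y hy, fun i y => h3 _ y, ?_, h4, ?_,
    fun i ξ => h5 _ ξ, fun i ξ => h6 _ ξ, ?_⟩
  · have e : {y | y ∈ U ∧ ∃ a : Fin s.card, ρ < ‖ψ (s.equivFin.symm a : ι) y - h a y‖} =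
        U ∩ ⋃ a : Fin s.card, {y | ρ < ‖ψ (s.equivFin.symm a : ι) y - h a y‖} := by
      ext y
      simp only [mem_inter_iff, mem_iUnion]
      rfl
    rw [e]
    refine hU.measurableSet.inter (MeasurableSet.iUnion fun a => ?_)
    exact measurableSet_lt measurable_const ((hm _).sub (h1 a).measurable).norm
  · intro i y hyU hyZ
    have h7 : ‖ψ (q i) y - h (s.equivFin ⟨q i, hq1 i⟩) y‖ ≤ ρ := by
      by_contra hc
      apply hyZ
      refine ⟨hyU, s.equivFin ⟨q i, hq1 i⟩, ?_⟩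
      rw [Equiv.symm_apply_apply]
      exact not_le.1 hc
    have h8 := hq2 i y hyU
    have e : ψ i y - h (s.equivFin ⟨q i, hq1 i⟩) y =
        (ψ i y - ψ (q i) y) + (ψ (q i) y - h (s.equivFin ⟨q i, hq1 i⟩) y) := by ring
    show ‖ψ i y - h (s.equivFin ⟨q i, hq1 i⟩) y‖ ≤ 2 * ρ
    rw [e]
    refine (norm_add_le _ _).trans ?_
    linarith
  · refine (Set.finite_range h).subset ?_
    rintro _ ⟨i, rfl⟩
    exact ⟨_, rfl⟩

/-- a function with a finite range has finitely many representatives of all values -/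
theorem exists_reps {ι β : Type} (F : ι → β) (hF : (Set.range F).Finite) :
    ∃ s : Finset ι, ∀ i, ∃ j ∈ s, F j = F i := by
  classical
  have h : ∀ b : Set.range F, ∃ i, F i = b.1 := fun b => b.2
  choose r hr using h
  have hfin : Finite (Set.range F) := hF
  have hft : Fintype (Set.range F) := Fintype.ofFinite _
  refine ⟨Finset.univ.image r, fun i => ⟨r ⟨F i, i, rfl⟩, ?_, hr _⟩⟩
  exact Finset.mem_image_of_mem _ (Finset.mem_univ _)

/-- the residual of a totally bounded family is totally bounded -/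
theorem tbd_step {d : ℕ} {ι : Type} {U V : Set (E d)} {ψ H : ι → E d → ℂ} (ht : TBd ψ U)
    (hH : (Set.range H).Finite) :
    TBd (fun i => V.indicator (fun y => ψ i y - H i y)) U := by
  classical
  intro δ hδ
  obtain ⟨s, hs⟩ := ht (δ / 2) (by positivity)
  choose a ha1 ha2 using hs
  obtain ⟨t, htt⟩ := exists_reps (fun i => (a i, H i)) (by
    refine ((s.finite_toSet.prod hH)).subset ?_
    rintro _ ⟨i, rfl⟩
    exact ⟨ha1 i, ⟨i, rfl⟩⟩)
  refine ⟨t, fun i => ?_⟩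
  obtain ⟨j, hj, he⟩ := htt i
  rw [Prod.mk.injEq] at he
  obtain ⟨e1, e2⟩ := he
  refine ⟨j, hj, fun y hy => ?_⟩
  show ‖V.indicator (fun y => ψ i y - H i y) y - V.indicator (fun y => ψ j y - H j y) y‖ ≤ δ
  by_cases hV : y ∈ V
  · rw [indicator_of_mem hV, indicator_of_mem hV, e2]
    have h1 := ha2 i y hy
    have h2 := ha2 j y hy
    rw [e1] at h2
    have e : ψ i y - H i y - (ψ j y - H i y) = (ψ i y - ψ (a i) y) - (ψ j y - ψ (a i) y) := by ring
    rw [e]
    refine (norm_sub_le _ _).trans ?_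
    linarith
  · rw [indicator_of_notMem hV, indicator_of_notMem hV, sub_zero, norm_zero]
    exact hδ.le

/-- the residual -/
noncomputable def resid {d : ℕ} {ι : Type} (U : Set (E d))
    (H : ℕ → (ι → E d → ℂ) → (ι → E d → ℂ)) (Z : ℕ → (ι → E d → ℂ) → Set (E d))
    (φ : ι → E d → ℂ) : ℕ → (ι → E d → ℂ)
  | 0 => φ
  | k + 1 => fun i => (U \ Z k (resid U H Z φ k)).indicator
      (fun y => resid U H Z φ k i y - H k (resid U H Z φ k) i y)

end FNQ

open FNQ in
theorem t_FNQ (_hE : S_EXB) : S_FNQ := by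
  intro hS d γ hd hγ R c hR hc
  obtain ⟨C, hC, hstep⟩ := hS d γ hd hγ R c hR hc
  refine ⟨4 * C, by positivity, ?_⟩
  intro U hU hUR hUc ι g hg M hM hgM hT ε hε hε1 η hη
  have hγc : Continuous γ := hγ.continuous
  -- the steps
  have hex : ∀ (k : ℕ) (ψ : ι → E d → ℂ), ∃ (H : ι → E d → ℂ) (Z : Set (E d)),
      (∀ i, Measurable (ψ i)) → (∀ i x, ‖ψ i x‖ ≤ M / 4 ^ k) → TBd ψ U →
      (∀ i, Continuous (H i)) ∧ (∀ i y, y ∉ U → H i y = 0) ∧
      (∀ i x, ‖H i x‖ ≤ C * (M / 4 ^ k) / (ε / 2 ^ (k + 1))) ∧ MeasurableSet Z ∧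
      volume Z ≤ ENNReal.ofReal (ε / 2 ^ (k + 1)) ∧
      (∀ i, ∀ y ∈ U, y ∉ Z → ‖ψ i y - H i y‖ ≤ M / 4 ^ (k + 1)) ∧
      (∀ i ξ, ‖ex γ (H i) ξ‖ ≤ C * (M / 4 ^ k) / (ε / 2 ^ (k + 1)) * dec (d + 1) ξ) ∧
      (∀ i ξ, ‖ex γ (H i) ξ‖ ≤ η / 2 ^ (k + 1)) ∧ (Set.range H).Finite := by
    intro k ψ
    by_cases hψ : (∀ i, Measurable (ψ i)) ∧ (∀ i x, ‖ψ i x‖ ≤ M / 4 ^ k) ∧ TBd ψ U
    · have hρ : 0 < M / 4 ^ (k + 1) / 2 := by positivity
      obtain ⟨H, Z, h1, h2, h3, h4, h5, h6, h7, h8, h9⟩ := step1 (γ := γ) hU hρ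
        (fun Q φ hφ1 hφ2 => hstep U hU hUR hUc (M / 4 ^ k)
          (by positivity) Q φ hφ1 hφ2 (ε / 2 ^ (k + 1)) (by positivity)
          ((div_le_self hε.le (one_le_pow₀ (by norm_num))).trans hε1) (M / 4 ^ (k + 1) / 2)
          hρ (η / 2 ^ (k + 1)) (by positivity)) hψ.1 hψ.2.1 hψ.2.2
      refine ⟨H, Z, fun _ _ _ => ⟨h1, h2, h3, h4, h5, fun i y hy hZ => ?_, h7, h8, h9⟩⟩
      have := h6 i y hy hZ
      linarith
    · exact ⟨fun _ => 0, ∅, fun a1 a2 a3 => absurd ⟨a1, a2, a3⟩ hψ⟩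
  choose H Z hH using hex
  obtain ⟨φ, hφ⟩ : ∃ φ : ι → E d → ℂ, φ = fun i => U.indicator (g i) := ⟨_, rfl⟩
  have hφm : ∀ i, Measurable (φ i) := by
    intro i
    rw [hφ]
    exact (hg i).indicator hU.measurableSet
  have hφb : ∀ i x, ‖φ i x‖ ≤ M := by
    intro i x
    rw [hφ]
    by_cases hx : x ∈ U
    · show ‖U.indicator (g i) x‖ ≤ M
      rw [indicator_of_mem hx]
      exact hgM i x hx
    · show ‖U.indicator (g i) x‖ ≤ M
      rw [indicator_of_notMem hx, norm_zero]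
      exact hM.le
  have hφt : TBd φ U := by
    intro δ hδ
    obtain ⟨s, hs⟩ := hT δ hδ
    refine ⟨s, fun i => ?_⟩
    obtain ⟨j, hj, hj2⟩ := hs i
    refine ⟨j, hj, fun y hy => ?_⟩
    rw [hφ]
    show ‖U.indicator (g i) y - U.indicator (g j) y‖ ≤ δ
    rw [indicator_of_mem hy, indicator_of_mem hy]
    exact hj2 y hy
  obtain ⟨ψ, hψ⟩ : ∃ ψ : ℕ → (ι → E d → ℂ), ψ = resid U H Z φ := ⟨_, rfl⟩
  have hψ0 : ψ 0 = φ := by rw [hψ]; rfl
  have hψs : ∀ k, ψ (k + 1) = fun i => (U \ Z k (ψ k)).indicator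
      (fun y => ψ k i y - H k (ψ k) i y) := by
    intro k
    rw [hψ]
    rfl
  have hinv : ∀ k, (∀ i, Measurable (ψ k i)) ∧ (∀ i x, ‖ψ k i x‖ ≤ M / 4 ^ k) ∧
      TBd (ψ k) U := by
    intro k
    induction k with
    | zero =>
      rw [hψ0]
      refine ⟨hφm, fun i x => ?_, hφt⟩
      rw [pow_zero, div_one]
      exact hφb i x
    | succ k ih =>
      obtain ⟨b1, b2, b3, b4, b5, b6, b7, b8, b9⟩ := hH k (ψ k) ih.1 ih.2.1 ih.2.2
      rw [hψs]
      refine ⟨fun i => ?_, fun i x => ?_, tbd_step ih.2.2 b9⟩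
      · exact ((ih.1 i).sub (b1 i).measurable).indicator (hU.measurableSet.diff b4)
      · show ‖(U \ Z k (ψ k)).indicator (fun y => ψ k i y - H k (ψ k) i y) x‖ ≤ _
        by_cases hx : x ∈ U \ Z k (ψ k)
        · rw [indicator_of_mem hx]
          exact b6 i x hx.1 hx.2
        · rw [indicator_of_notMem hx, norm_zero]
          positivity
  have hkp := fun k => hH k (ψ k) (hinv k).1 (hinv k).2.1 (hinv k).2.2
  have hcoef : ∀ k : ℕ, C * (M / 4 ^ k) / (ε / 2 ^ (k + 1)) = (4 * C * M / ε) / 2 / 2 ^ k := by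
    intro k
    have h4 : (4 : ℝ) ^ k = 2 ^ k * 2 ^ k := by rw [← mul_pow]; norm_num
    rw [h4, pow_succ]
    field_simp
    norm_num
  have hgeo : HasSum (fun k : ℕ => (4 * C * M / ε) / 2 / 2 ^ k) (4 * C * M / ε) :=
    hasSum_geometric_two' _
  refine ⟨⋃ k, Z k (ψ k), MeasurableSet.iUnion fun k => (hkp k).2.2.2.1, ?_, ?_⟩
  · refine (measure_iUnion_le _).trans ?_
    have h1 : ∀ k : ℕ, ε / 2 ^ (k + 1) = ε / 2 / 2 ^ k := by
      intro k; rw [pow_succ]; field_simp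
    calc ∑' k, volume (Z k (ψ k))
        ≤ ∑' k : ℕ, ENNReal.ofReal (ε / 2 / 2 ^ k) :=
          ENNReal.tsum_le_tsum fun k => by
            rw [← h1 k]; exact (hkp k).2.2.2.2.1
      _ = ENNReal.ofReal ε := by
          rw [← ENNReal.ofReal_tsum_of_nonneg (fun k => by positivity)
            (hasSum_geometric_two' ε).summable, (hasSum_geometric_two' ε).tsum_eq]
  intro i
  obtain ⟨hk, hhk⟩ : ∃ hk : ℕ → (E d → ℂ), hk = fun k => H k (ψ k) i := ⟨_, rfl⟩
  have hhk' : ∀ k, hk k = H k (ψ k) i := fun k => by rw [hhk]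
  have hkc : ∀ k, Continuous (hk k) := fun k => by rw [hhk']; exact (hkp k).1 i
  have hkz : ∀ k y, y ∉ U → hk k y = 0 := fun k y hy => by rw [hhk']; exact (hkp k).2.1 i y hy
  have hkzR : ∀ k y, y ∉ closedBall (0 : E d) R → hk k y = 0 := fun k y hy =>
    hkz k y fun h => hy (hUR h)
  have hkb : ∀ k x, ‖hk k x‖ ≤ (4 * C * M / ε) / 2 / 2 ^ k := by
    intro k x
    rw [hhk']
    exact ((hkp k).2.2.1 i x).trans (le_of_eq (hcoef k))
  have hsum : ∀ x, Summable fun k => hk k x := fun x =>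
    Summable.of_norm_bounded hgeo.summable fun k => hkb k x
  obtain ⟨h, hh⟩ : ∃ h : E d → ℂ, h = fun x => ∑' k, hk k x := ⟨_, rfl⟩
  have hhc : Continuous h := by
    rw [hh]
    exact continuous_tsum hkc hgeo.summable hkb
  have hhb : ∀ x, ‖h x‖ ≤ 4 * C * M / ε := by
    intro x
    rw [hh]
    exact tsum_of_norm_bounded hgeo fun k => hkb k x
  have hhz : ∀ y, y ∉ U → h y = 0 := by
    intro y hy
    rw [hh]
    show ∑' k, hk k y = 0
    rw [tsum_congr fun k => hkz k y hy, tsum_zero]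
  have hki : ∀ k, Integrable (hk k) := fun k =>
    (hkc k).integrable_of_hasCompactSupport
      (HasCompactSupport.intro (isCompact_closedBall (0 : E d) (R : ℝ)) fun y hy => hkzR k y hy)
  -- the transform
  have hsumft : ∀ ξ, HasSum (fun k => ex γ (hk k) ξ) (ex γ h ξ) := by
    intro ξ
    unfold ex
    have h2 := hasSum_integral_of_summable_integral_norm
      (μ := volume) (F := fun k y => hk k y * ek γ (fx ξ) (fl ξ) y)
      (fun k => ker_int hγc (hki k) _ _) ?_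
    · have h3 : (fun y : E d => h y * ek γ (fx ξ) (fl ξ) y) =
          fun y : E d => ∑' k, hk k y * ek γ (fx ξ) (fl ξ) y := by
        funext y
        rw [tsum_mul_right, hh]
      rw [h3]
      exact h2
    · refine Summable.of_nonneg_of_le (fun k => integral_nonneg fun x => norm_nonneg _)
        (fun k => ?_) (hgeo.summable.mul_right (volume.real (closedBall (0 : E d) R)))
      calc ∫ y, ‖hk k y * ek γ (fx ξ) (fl ξ) y‖
          = ∫ y, ‖hk k y‖ := by
            refine integral_congr_ae (Eventually.of_forall fun y => ?_)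
            simp only [norm_mul]
            rw [ek_norm, mul_one]
        _ ≤ _ := int_norm_le (hki k) (hkzR k) (hkb k)
  refine ⟨h, hhc, hhz, hhb, ?_, ?_, ?_⟩
  · -- equality off the exceptional set
    intro x hxU hxZ
    rw [mem_iUnion, not_exists] at hxZ
    have h3 : ∀ k, ψ (k + 1) i x = ψ k i x - hk k x := by
      intro k
      rw [hψs, hhk']
      show (U \ Z k (ψ k)).indicator (fun y => ψ k i y - H k (ψ k) i y) x = _
      rw [indicator_of_mem (show x ∈ U \ Z k (ψ k) from ⟨hxU, hxZ k⟩)]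
    have h4 : ∀ K, ∑ k ∈ Finset.range K, hk k x = φ i x - ψ K i x := by
      intro K
      induction K with
      | zero => rw [Finset.sum_range_zero, hψ0, sub_self]
      | succ K ih => rw [Finset.sum_range_succ, ih, h3 K]; ring
    have h5 : Tendsto (fun K => ψ K i x) atTop (𝓝 0) := by
      rw [tendsto_zero_iff_norm_tendsto_zero]
      refine squeeze_zero (fun K => norm_nonneg _) (fun K => (hinv K).2.1 i x) ?_
      have h6 : Tendsto (fun K : ℕ => M * (1 / 4 : ℝ) ^ K) atTop (𝓝 (M * 0)) :=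
        (tendsto_pow_atTop_nhds_zero_of_lt_one (by norm_num) (by norm_num)).const_mul M
      rw [mul_zero] at h6
      refine h6.congr fun K => ?_
      rw [one_div, inv_pow]; rfl
    have h7 : Tendsto (fun K => ∑ k ∈ Finset.range K, hk k x) atTop (𝓝 (φ i x - 0)) := by
      simp_rw [h4]
      exact tendsto_const_nhds.sub h5
    have h8 : h x = φ i x - 0 := by
      rw [hh]
      exact tendsto_nhds_unique (hsum x).hasSum.tendsto_sum_nat h7
    rw [h8, sub_zero, hφ]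
    show U.indicator (g i) x = g i x
    rw [indicator_of_mem hxU]
  · intro ξ
    rw [← (hsumft ξ).tsum_eq]
    refine tsum_of_norm_bounded (hgeo.mul_right (dec (d + 1) ξ)) fun k => ?_
    rw [← hcoef k, hhk']
    exact (hkp k).2.2.2.2.2.2.1 i ξ
  · intro ξ
    rw [← (hsumft ξ).tsum_eq]
    refine tsum_of_norm_bounded (hasSum_geometric_two' η) fun k => ?_
    have h1 : η / 2 ^ (k + 1) = η / 2 / 2 ^ k := by
      rw [pow_succ]; field_simp
    rw [← h1, hhk']
    exact (hkp k).2.2.2.2.2.2.2.1 i ξ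

end Pool.Agent.H197.GS
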