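import Mathlib
import Pool.Agent.H197.GS.Stm3
set_option autoImplicit false

/-! # SP-FNS: the iteration of the one-step theorem on the sphere, for totally bounded families -/

namespace Pool.Agent.H197.SP

open MeasureTheory Set Metric Complex Filter Topology
open Pool.Agent.H197.PD (E sigma ft dec)
open scoped ENNReal NNReal RealInnerProductSpace

namespace FNS

instance sig_fin (n : ℕ) : IsFiniteMeasure (sigma n) := by
  unfold sigma; infer_instance

theorem ker_norm {n : ℕ} (x ξ : E n) :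
    ‖Complex.exp (-(2 * Real.pi * ⟪x, ξ⟫ : ℝ) * I)‖ = 1 := by
  have h : (-(2 * Real.pi * ⟪x, ξ⟫ : ℝ) * I : ℂ) = ((-(2 * Real.pi * ⟪x, ξ⟫) : ℝ) : ℂ) * I := by
    push_cast; ring
  rw [h, Complex.norm_exp_ofReal_mul_I]

theorem ker_int {n : ℕ} {g : sphere (0 : E n) 1 → ℂ} (hg : Integrable g (sigma n)) (ξ : E n) :
    Integrable (fun x : sphere (0 : E n) 1 =>
      Complex.exp (-(2 * Real.pi * ⟪(x : E n), ξ⟫ : ℝ) * I) * g x) (sigma n) := by
  refine hg.bdd_mul (c := 1) ?_ ?_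
  · have : Continuous fun x : sphere (0 : E n) 1 =>
      Complex.exp (-(2 * Real.pi * ⟪(x : E n), ξ⟫ : ℝ) * I) := by fun_prop
    exact this.aestronglyMeasurable
  · exact Filter.Eventually.of_forall fun x => (ker_norm _ _).le

theorem int_of_bdd {n : ℕ} {g : sphere (0 : E n) 1 → ℂ} (hg : Measurable g) {M : ℝ}
    (hM : ∀ x, ‖g x‖ ≤ M) : Integrable g (sigma n) :=
  Integrable.of_bound hg.aestronglyMeasurable M (Filter.Eventually.of_forall hM)

theorem int_norm_le {n : ℕ} {g : sphere (0 : E n) 1 → ℂ} (hg : Measurable g) {M : ℝ}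
    (hM : ∀ x, ‖g x‖ ≤ M) : ∫ x, ‖g x‖ ∂(sigma n) ≤ M * (sigma n).real univ := by
  calc ∫ x, ‖g x‖ ∂(sigma n) ≤ ∫ _x, M ∂(sigma n) :=
        integral_mono (int_of_bdd hg hM).norm (integrable_const _) hM
    _ = _ := by rw [integral_const, smul_eq_mul, mul_comm]

/-- one step for a totally bounded family -/
theorem step1 {n : ℕ} {ι : Type} {C A ε ρ η : ℝ} (hρ : 0 < ρ)
    (hstep : ∀ (Q : ℕ) (φ : Fin Q → sphere (0 : E n) 1 → ℂ), (∀ q, Measurable (φ q)) →
      (∀ q y, ‖φ q y‖ ≤ A) →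
      ∃ h : Fin Q → sphere (0 : E n) 1 → ℂ, (∀ q, Continuous (h q)) ∧
      (∀ q y, ‖h q y‖ ≤ C * A / ε) ∧
      sigma n {y | ∃ q, ρ < ‖φ q y - h q y‖} ≤ ENNReal.ofReal ε ∧
      (∀ q ξ, ‖ft (h q) ξ‖ ≤ C * A / ε * dec n ξ) ∧ ∀ q ξ, ‖ft (h q) ξ‖ ≤ η)
    {ψ : ι → sphere (0 : E n) 1 → ℂ} (hm : ∀ i, Measurable (ψ i)) (hb : ∀ i y, ‖ψ i y‖ ≤ A)
    (ht : TBs ψ) :
    ∃ (H : ι → sphere (0 : E n) 1 → ℂ) (Z : Set (sphere (0 : E n) 1)), (∀ i, Continuous (H i)) ∧
      (∀ i y, ‖H i y‖ ≤ C * A / ε) ∧ MeasurableSet Z ∧ sigma n Z ≤ ENNReal.ofReal ε ∧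
      (∀ i, ∀ y, y ∉ Z → ‖ψ i y - H i y‖ ≤ 2 * ρ) ∧
      (∀ i ξ, ‖ft (H i) ξ‖ ≤ C * A / ε * dec n ξ) ∧ (∀ i ξ, ‖ft (H i) ξ‖ ≤ η) ∧
      (Set.range H).Finite := by
  classical
  obtain ⟨s, hs⟩ := ht ρ hρ
  choose q hq1 hq2 using hs
  obtain ⟨h, h1, h3, h4, h5, h6⟩ := hstep s.card (fun a => ψ (s.equivFin.symm a : ι))
    (fun a => hm _) (fun a y => hb _ y)
  refine ⟨fun i => h (s.equivFin ⟨q i, hq1 i⟩),
    {y | ∃ a : Fin s.card, ρ < ‖ψ (s.equivFin.symm a : ι) y - h a y‖},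
    fun i => h1 _, fun i y => h3 _ y, ?_, h4, ?_,
    fun i ξ => h5 _ ξ, fun i ξ => h6 _ ξ, ?_⟩
  · have e : {y | ∃ a : Fin s.card, ρ < ‖ψ (s.equivFin.symm a : ι) y - h a y‖} =
        ⋃ a : Fin s.card, {y | ρ < ‖ψ (s.equivFin.symm a : ι) y - h a y‖} := by
      ext y
      simp only [mem_iUnion]
      rfl
    rw [e]
    refine MeasurableSet.iUnion fun a => ?_
    exact measurableSet_lt measurable_const ((hm _).sub (h1 a).measurable).norm
  · intro i y hyZ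
    have h7 : ‖ψ (q i) y - h (s.equivFin ⟨q i, hq1 i⟩) y‖ ≤ ρ := by
      by_contra hc
      apply hyZ
      refine ⟨s.equivFin ⟨q i, hq1 i⟩, ?_⟩
      rw [Equiv.symm_apply_apply]
      exact not_le.1 hc
    have h8 := hq2 i y
    have e : ψ i y - h (s.equivFin ⟨q i, hq1 i⟩) y =
        (ψ i y - ψ (q i) y) + (ψ (q i) y - h (s.equivFin ⟨q i, hq1 i⟩) y) := by ring
    show ‖ψ i y - h (s.equivFin ⟨q i, hq1 i⟩) y‖ ≤ 2 * ρ
    rw [e]
    refine (norm_add_le _ _).trans ?_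
    linarith
  · refine (Set.finite_range h).subset ?_
    rintro _ ⟨i, rfl⟩
    exact ⟨_, rfl⟩

/-- a function with a finite range has finitely many representatives of all values -/
theorem exists_reps {ι β : Type} (F : ι → β) (hF : (Set.range F).Finite) :
    ∃ s : Finset ι, ∀ i, ∃ j ∈ s, F j = F i := by
  classical
  have h : ∀ b : Set.range F, ∃ i, F i = b.1 := fun b => b.2
  choose r hr using h
  have hfin : Finite (Set.range F) := hF
  have hft : Fintype (Set.range F) := Fintype.ofFinite _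
  refine ⟨Finset.univ.image r, fun i => ⟨r ⟨F i, i, rfl⟩, ?_, hr _⟩⟩
  exact Finset.mem_image_of_mem _ (Finset.mem_univ _)

/-- the residual of a totally bounded family is totally bounded -/
theorem tbd_step {n : ℕ} {ι : Type} {V : Set (sphere (0 : E n) 1)}
    {ψ H : ι → sphere (0 : E n) 1 → ℂ} (ht : TBs ψ) (hH : (Set.range H).Finite) :
    TBs (fun i => V.indicator (fun y => ψ i y - H i y)) := by
  classical
  intro δ hδ
  obtain ⟨s, hs⟩ := ht (δ / 2) (by positivity)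
  choose a ha1 ha2 using hs
  obtain ⟨t, htt⟩ := exists_reps (fun i => (a i, H i)) (by
    refine ((s.finite_toSet.prod hH)).subset ?_
    rintro _ ⟨i, rfl⟩
    exact ⟨ha1 i, ⟨i, rfl⟩⟩)
  refine ⟨t, fun i => ?_⟩
  obtain ⟨j, hj, he⟩ := htt i
  rw [Prod.mk.injEq] at he
  obtain ⟨e1, e2⟩ := he
  refine ⟨j, hj, fun y => ?_⟩
  show ‖V.indicator (fun y => ψ i y - H i y) y - V.indicator (fun y => ψ j y - H j y) y‖ ≤ δ
  by_cases hV : y ∈ V
  · rw [indicator_of_mem hV, indicator_of_mem hV, e2]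
    have h1 := ha2 i y
    have h2 := ha2 j y
    rw [e1] at h2
    have e : ψ i y - H i y - (ψ j y - H i y) = (ψ i y - ψ (a i) y) - (ψ j y - ψ (a i) y) := by ring
    rw [e]
    refine (norm_sub_le _ _).trans ?_
    linarith
  · rw [indicator_of_notMem hV, indicator_of_notMem hV, sub_zero, norm_zero]
    exact hδ.le

/-- the residual -/
noncomputable def resid {n : ℕ} {ι : Type}
    (H : ℕ → (ι → sphere (0 : E n) 1 → ℂ) → (ι → sphere (0 : E n) 1 → ℂ))
    (Z : ℕ → (ι → sphere (0 : E n) 1 → ℂ) → Set (sphere (0 : E n) 1))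
    (φ : ι → sphere (0 : E n) 1 → ℂ) : ℕ → (ι → sphere (0 : E n) 1 → ℂ)
  | 0 => φ
  | k + 1 => fun i => ((Z k (resid H Z φ k))ᶜ).indicator
      (fun y => resid H Z φ k i y - H k (resid H Z φ k) i y)

end FNS

open FNS in
theorem t_FNS : S_FNS := by
  intro hS n hn
  obtain ⟨C, hC, hstep⟩ := hS n hn
  refine ⟨4 * C, by positivity, ?_⟩
  intro ι g hg M hM hgM hT ε hε hε1 η hη
  -- the steps
  have hex : ∀ (k : ℕ) (ψ : ι → sphere (0 : E n) 1 → ℂ),
      ∃ (H : ι → sphere (0 : E n) 1 → ℂ) (Z : Set (sphere (0 : E n) 1)),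
      (∀ i, Measurable (ψ i)) → (∀ i x, ‖ψ i x‖ ≤ M / 4 ^ k) → TBs ψ →
      (∀ i, Continuous (H i)) ∧
      (∀ i x, ‖H i x‖ ≤ C * (M / 4 ^ k) / (ε / 2 ^ (k + 1))) ∧ MeasurableSet Z ∧
      sigma n Z ≤ ENNReal.ofReal (ε / 2 ^ (k + 1)) ∧
      (∀ i, ∀ y, y ∉ Z → ‖ψ i y - H i y‖ ≤ M / 4 ^ (k + 1)) ∧
      (∀ i ξ, ‖ft (H i) ξ‖ ≤ C * (M / 4 ^ k) / (ε / 2 ^ (k + 1)) * dec n ξ) ∧
      (∀ i ξ, ‖ft (H i) ξ‖ ≤ η / 2 ^ (k + 1)) ∧ (Set.range H).Finite := by
    intro k ψ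
    by_cases hψ : (∀ i, Measurable (ψ i)) ∧ (∀ i x, ‖ψ i x‖ ≤ M / 4 ^ k) ∧ TBs ψ
    · have hρ : 0 < M / 4 ^ (k + 1) / 2 := by positivity
      obtain ⟨H, Z, h1, h3, h4, h5, h6, h7, h8, h9⟩ := step1 hρ
        (fun Q φ hφ1 hφ2 => hstep (M / 4 ^ k)
          (by positivity) Q φ hφ1 hφ2 (ε / 2 ^ (k + 1)) (by positivity)
          ((div_le_self hε.le (one_le_pow₀ (by norm_num))).trans hε1) (M / 4 ^ (k + 1) / 2)
          hρ (η / 2 ^ (k + 1)) (by positivity)) hψ.1 hψ.2.1 hψ.2.2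
      refine ⟨H, Z, fun _ _ _ => ⟨h1, h3, h4, h5, fun i y hZ => ?_, h7, h8, h9⟩⟩
      have := h6 i y hZ
      linarith
    · exact ⟨fun _ => 0, ∅, fun a1 a2 a3 => absurd ⟨a1, a2, a3⟩ hψ⟩
  choose H Z hH using hex
  obtain ⟨ψ, hψ⟩ : ∃ ψ : ℕ → (ι → sphere (0 : E n) 1 → ℂ), ψ = resid H Z g := ⟨_, rfl⟩
  have hψ0 : ψ 0 = g := by rw [hψ]; rfl
  have hψs : ∀ k, ψ (k + 1) = fun i => ((Z k (ψ k))ᶜ).indicator
      (fun y => ψ k i y - H k (ψ k) i y) := by
    intro k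
    rw [hψ]
    rfl
  have hinv : ∀ k, (∀ i, Measurable (ψ k i)) ∧ (∀ i x, ‖ψ k i x‖ ≤ M / 4 ^ k) ∧
      TBs (ψ k) := by
    intro k
    induction k with
    | zero =>
      rw [hψ0]
      refine ⟨hg, fun i x => ?_, hT⟩
      rw [pow_zero, div_one]
      exact hgM i x
    | succ k ih =>
      obtain ⟨b1, b3, b4, b5, b6, b7, b8, b9⟩ := hH k (ψ k) ih.1 ih.2.1 ih.2.2
      rw [hψs]
      refine ⟨fun i => ?_, fun i x => ?_, tbd_step ih.2.2 b9⟩
      · exact ((ih.1 i).sub (b1 i).measurable).indicator b4.compl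
      · show ‖((Z k (ψ k))ᶜ).indicator (fun y => ψ k i y - H k (ψ k) i y) x‖ ≤ _
        by_cases hx : x ∈ (Z k (ψ k))ᶜ
        · rw [indicator_of_mem hx]
          exact b6 i x hx
        · rw [indicator_of_notMem hx, norm_zero]
          positivity
  have hkp := fun k => hH k (ψ k) (hinv k).1 (hinv k).2.1 (hinv k).2.2
  have hcoef : ∀ k : ℕ, C * (M / 4 ^ k) / (ε / 2 ^ (k + 1)) = (4 * C * M / ε) / 2 / 2 ^ k := by
    intro k
    have h4 : (4 : ℝ) ^ k = 2 ^ k * 2 ^ k := by rw [← mul_pow]; norm_num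
    rw [h4, pow_succ]
    field_simp
    norm_num
  have hgeo : HasSum (fun k : ℕ => (4 * C * M / ε) / 2 / 2 ^ k) (4 * C * M / ε) :=
    hasSum_geometric_two' _
  refine ⟨⋃ k, Z k (ψ k), MeasurableSet.iUnion fun k => (hkp k).2.2.1, ?_, ?_⟩
  · refine (measure_iUnion_le _).trans ?_
    have h1 : ∀ k : ℕ, ε / 2 ^ (k + 1) = ε / 2 / 2 ^ k := by
      intro k; rw [pow_succ]; field_simp
    calc ∑' k, sigma n (Z k (ψ k))
        ≤ ∑' k : ℕ, ENNReal.ofReal (ε / 2 / 2 ^ k) :=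
          ENNReal.tsum_le_tsum fun k => by
            rw [← h1 k]; exact (hkp k).2.2.2.1
      _ = ENNReal.ofReal ε := by
          rw [← ENNReal.ofReal_tsum_of_nonneg (fun k => by positivity)
            (hasSum_geometric_two' ε).summable, (hasSum_geometric_two' ε).tsum_eq]
  intro i
  obtain ⟨hk, hhk⟩ : ∃ hk : ℕ → (sphere (0 : E n) 1 → ℂ), hk = fun k => H k (ψ k) i := ⟨_, rfl⟩
  have hhk' : ∀ k, hk k = H k (ψ k) i := fun k => by rw [hhk]
  have hkc : ∀ k, Continuous (hk k) := fun k => by rw [hhk']; exact (hkp k).1 i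
  have hkm : ∀ k, Measurable (hk k) := fun k => (hkc k).measurable
  have hkb : ∀ k x, ‖hk k x‖ ≤ (4 * C * M / ε) / 2 / 2 ^ k := by
    intro k x
    rw [hhk']
    exact ((hkp k).2.1 i x).trans (le_of_eq (hcoef k))
  have hsum : ∀ x, Summable fun k => hk k x := fun x =>
    Summable.of_norm_bounded hgeo.summable fun k => hkb k x
  obtain ⟨h, hh⟩ : ∃ h : sphere (0 : E n) 1 → ℂ, h = fun x => ∑' k, hk k x := ⟨_, rfl⟩
  have hhc : Continuous h := by
    rw [hh]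
    exact continuous_tsum hkc hgeo.summable hkb
  have hhb : ∀ x, ‖h x‖ ≤ 4 * C * M / ε := by
    intro x
    rw [hh]
    exact tsum_of_norm_bounded hgeo fun k => hkb k x
  have hki : ∀ k, Integrable (hk k) (sigma n) := fun k => int_of_bdd (hkm k) (hkb k)
  -- the transform
  have hsumft : ∀ ξ, HasSum (fun k => ft (hk k) ξ) (ft h ξ) := by
    intro ξ
    unfold ft
    have h2 := hasSum_integral_of_summable_integral_norm
      (μ := sigma n) (F := fun k x => Complex.exp (-(2 * Real.pi * ⟪(x : E n), ξ⟫ : ℝ) * I) *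
        hk k x) (fun k => ker_int (hki k) ξ) ?_
    · have h3 : (fun x : sphere (0 : E n) 1 =>
          Complex.exp (-(2 * Real.pi * ⟪(x : E n), ξ⟫ : ℝ) * I) * h x) =
          fun x : sphere (0 : E n) 1 =>
            ∑' k, Complex.exp (-(2 * Real.pi * ⟪(x : E n), ξ⟫ : ℝ) * I) * hk k x := by
        funext x
        rw [hh, tsum_mul_left]
      rw [h3]
      exact h2
    · refine Summable.of_nonneg_of_le (fun k => integral_nonneg fun x => norm_nonneg _)
        (fun k => ?_) (hgeo.summable.mul_right ((sigma n).real univ))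
      calc ∫ x, ‖Complex.exp (-(2 * Real.pi * ⟪(x : E n), ξ⟫ : ℝ) * I) * hk k x‖ ∂(sigma n)
          = ∫ x, ‖hk k x‖ ∂(sigma n) := by
            refine integral_congr_ae (Eventually.of_forall fun x => ?_)
            simp only [norm_mul]
            rw [ker_norm, one_mul]
        _ ≤ _ := int_norm_le (hkm k) (hkb k)
  refine ⟨h, hhc, hhb, ?_, ?_, ?_⟩
  · -- equality off the exceptional set
    intro x hxZ
    rw [mem_iUnion, not_exists] at hxZ
    have h3 : ∀ k, ψ (k + 1) i x = ψ k i x - hk k x := by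
      intro k
      rw [hψs, hhk']
      show ((Z k (ψ k))ᶜ).indicator (fun y => ψ k i y - H k (ψ k) i y) x = _
      rw [indicator_of_mem (show x ∈ (Z k (ψ k))ᶜ from hxZ k)]
    have h4 : ∀ K, ∑ k ∈ Finset.range K, hk k x = g i x - ψ K i x := by
      intro K
      induction K with
      | zero => rw [Finset.sum_range_zero, hψ0, sub_self]
      | succ K ih => rw [Finset.sum_range_succ, ih, h3 K]; ring
    have h5 : Tendsto (fun K => ψ K i x) atTop (𝓝 0) := by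
      rw [tendsto_zero_iff_norm_tendsto_zero]
      refine squeeze_zero (fun K => norm_nonneg _) (fun K => (hinv K).2.1 i x) ?_
      have h6 : Tendsto (fun K : ℕ => M * (1 / 4 : ℝ) ^ K) atTop (𝓝 (M * 0)) :=
        (tendsto_pow_atTop_nhds_zero_of_lt_one (by norm_num) (by norm_num)).const_mul M
      rw [mul_zero] at h6
      refine h6.congr fun K => ?_
      rw [one_div, inv_pow]; rfl
    have h7 : Tendsto (fun K => ∑ k ∈ Finset.range K, hk k x) atTop (𝓝 (g i x - 0)) := by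
      simp_rw [h4]
      exact tendsto_const_nhds.sub h5
    have h8 : h x = g i x - 0 := by
      rw [hh]
      exact tendsto_nhds_unique (hsum x).hasSum.tendsto_sum_nat h7
    rw [h8, sub_zero]
  · intro ξ
    rw [← (hsumft ξ).tsum_eq]
    refine tsum_of_norm_bounded (hgeo.mul_right (dec n ξ)) fun k => ?_
    rw [← hcoef k, hhk']
    exact (hkp k).2.2.2.2.2.1 i ξ
  · intro ξ
    rw [← (hsumft ξ).tsum_eq]
    refine tsum_of_norm_bounded (hasSum_geometric_two' η) fun k => ?_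
    have h1 : η / 2 ^ (k + 1) = η / 2 / 2 ^ k := by
      rw [pow_succ]; field_simp
    rw [← h1, hhk']
    exact (hkp k).2.2.2.2.2.2.1 i ξ

end Pool.Agent.H197.SP
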