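import Mathlib
import Pool.Agent.H197.GS.Stm2
set_option autoImplicit false

/-! # GS-GNQ (helper684 for helper197): one exceptional set for totally bounded families, graphs whose
Hessian is regular almost everywhere -/

namespace Pool.Agent.H197.GS

open MeasureTheory Set Metric Complex Filter Topology
open Pool.Agent.H197.PD (E kap chi vec zet dec S_KAP S_RAND S_MEMLP)
open scoped ENNReal NNReal RealInnerProductSpace BigOperators ContDiff

namespace GNQ

theorem ek_cont {d : ℕ} (γ : E d → ℝ) (hγ : Continuous γ) (x : E d) (t : ℝ) :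
    Continuous (ek γ x t) := by
  unfold ek
  fun_prop

theorem int_mul {d : ℕ} (γ : E d → ℝ) (hγ : Continuous γ) (x : E d) (t : ℝ) (h : E d → ℂ)
    (hc : Continuous h) (hs : HasCompactSupport h) :
    Integrable (fun y => h y * ek γ x t y) := by
  refine Continuous.integrable_of_hasCompactSupport (hc.mul (ek_cont γ hγ x t)) ?_
  exact hs.mul_right

theorem ex_sum {d n : ℕ} (γ : E d → ℝ) (hγ : Continuous γ) (h : Fin n → E d → ℂ)
    (hc : ∀ i, Continuous (h i)) (hs : ∀ i, HasCompactSupport (h i)) :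
    ex γ (fun y => ∑ i, h i y) = ∑ i, ex γ (h i) := by
  funext ξ
  rw [Finset.sum_apply]
  unfold ex
  rw [← integral_finsetSum]
  · congr 1
    funext y
    rw [Finset.sum_mul]
  · intro i _
    exact int_mul γ hγ _ _ _ (hc i) (hs i)

theorem dec_nonneg (n : ℕ) (ξ : E n) : 0 ≤ dec n ξ := by
  unfold Pool.Agent.H197.PD.dec
  exact mul_nonneg (Real.sqrt_nonneg _) (Real.rpow_nonneg (by positivity) _)

end GNQ

open GNQ in
theorem t_GNQ (hU : S_UNQ) (hP : S_PIE) (_hE : S_EXB) : S_GNQ := by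
  intro d γ hd hγ U hUo hUb hfl ε hε hε1
  obtain ⟨n, V, c, hc, hVo, hVU, hVe, hVd, hvol⟩ :=
    hP d γ hd hγ U hUo hUb hfl (ε / 2) (by positivity)
  have hVb : ∀ i, Bornology.IsBounded (V i) := fun i => hUb.subset (hVU i)
  choose C hC0 hC using fun i => hU d γ hd hγ (V i) (hVo i) (hVb i) c hc (hVe i)
  have hn0 : (0 : ℝ) ≤ n := Nat.cast_nonneg n
  obtain ⟨m, hm⟩ : ∃ m : ℝ, m = (n : ℝ) + 1 := ⟨_, rfl⟩
  have hm0 : 0 < m := by rw [hm]; positivity
  have hS0 : 0 ≤ ∑ i, C i * (2 * m / ε) :=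
    Finset.sum_nonneg fun i _ => mul_nonneg (hC0 i).le (by positivity)
  refine ⟨∑ i, C i * (2 * m / ε) + 1, by linarith, ?_⟩
  intro ι g hg M hM hgM hTB p₀ hp₀ η hη
  have hε' : 0 < ε / (2 * m) := by positivity
  have hε'1 : ε / (2 * m) ≤ 1 := by
    rw [div_le_one (by positivity)]
    linarith
  have hη' : 0 < η / m := by positivity
  have hTBV : ∀ i, TBd g (V i) := by
    intro i δ hδ
    obtain ⟨s, hs⟩ := hTB δ hδ
    refine ⟨s, fun a => ?_⟩
    obtain ⟨j, hj, hjs⟩ := hs a
    exact ⟨j, hj, fun y hy => hjs y (hVU i hy)⟩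
  choose Z hZm hZv hZ using
    fun i => hC i ι g hg M hM (fun a y hy => hgM a y (hVU i hy)) (hTBV i) (ε / (2 * m)) hε' hε'1
      p₀ hp₀ (η / m) hη'
  have hhalf : (n : ℝ≥0∞) * ENNReal.ofReal (ε / (2 * m)) ≤ ENNReal.ofReal (ε / 2) := by
    rw [← ENNReal.ofReal_natCast, ← ENNReal.ofReal_mul hn0]
    refine ENNReal.ofReal_le_ofReal ?_
    have e3 : (n : ℝ) * (ε / (2 * m)) = (n / m) * (ε / 2) := by
      field_simp
    rw [e3]
    have e4 : (n : ℝ) / m ≤ 1 := by
      rw [div_le_one hm0]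
      linarith
    nlinarith
  refine ⟨(U \ ⋃ i, V i) ∪ ⋃ i, Z i, ?_, ?_, ?_⟩
  · exact (hUo.measurableSet.diff (MeasurableSet.iUnion fun i => (hVo i).measurableSet)).union
      (MeasurableSet.iUnion hZm)
  · calc volume ((U \ ⋃ i, V i) ∪ ⋃ i, Z i)
        ≤ volume (U \ ⋃ i, V i) + volume (⋃ i, Z i) := measure_union_le _ _
      _ ≤ ENNReal.ofReal (ε / 2) + ∑ i, volume (Z i) :=
          add_le_add hvol (measure_iUnion_fintype_le _ _)
      _ ≤ ENNReal.ofReal (ε / 2) + ∑ _i : Fin n, ENNReal.ofReal (ε / (2 * m)) := by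
          gcongr with i
          exact hZv i
      _ = ENNReal.ofReal (ε / 2) + (n : ℝ≥0∞) * ENNReal.ofReal (ε / (2 * m)) := by
          simp
      _ ≤ ENNReal.ofReal (ε / 2) + ENNReal.ofReal (ε / 2) := by
          gcongr
      _ = ENNReal.ofReal ε := by
          rw [← ENNReal.ofReal_add (by positivity) (by positivity), add_halves]
  intro a
  choose h hcont hcs hts hbd hvl hdec hmem hnorm using fun i => hZ i a
  have hK : IsCompact (⋃ i, tsupport (h i)) := isCompact_iUnion fun i => hcs i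
  have hzero : ∀ y, y ∉ (⋃ i, tsupport (h i)) → ∑ i, h i y = 0 := by
    intro y hy
    refine Finset.sum_eq_zero fun i _ => ?_
    have : y ∉ tsupport (h i) := fun hh => hy (mem_iUnion.2 ⟨i, hh⟩)
    exact image_eq_zero_of_notMem_tsupport this
  have hex : ex γ (fun y => ∑ i, h i y) = ∑ i, ex γ (h i) :=
    ex_sum γ hγ.continuous h hcont hcs
  have hCM : ∑ i, C i * M / (ε / (2 * m)) ≤ (∑ i, C i * (2 * m / ε) + 1) * M := by
    have e1 : ∑ i, C i * M / (ε / (2 * m)) = (∑ i, C i * (2 * m / ε)) * M := by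
      rw [Finset.sum_mul]
      refine Finset.sum_congr rfl fun i _ => ?_
      field_simp
    rw [e1, add_mul, one_mul]
    linarith
  have hd0 : (0 : ℝ) < d := by exact_mod_cast hd
  have hp1 : 1 ≤ p₀ := by
    have h2 : (1 : ℝ) ≤ 2 * ((d : ℝ) + 1) / d := by
      rw [le_div_iff₀ hd0]
      linarith
    linarith
  refine ⟨fun y => ∑ i, h i y, continuous_finsetSum _ fun i _ => hcont i,
    HasCompactSupport.intro hK hzero, ?_, ?_, ?_, ?_, ?_, ?_⟩
  · -- support
    have h1 : tsupport (fun y => ∑ i, h i y) ⊆ ⋃ i, tsupport (h i) := by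
      refine closure_minimal ?_ hK.isClosed
      intro y hy
      by_contra hh
      exact hy (hzero y hh)
    exact h1.trans (iUnion_subset fun i => (hts i).trans (hVU i))
  · -- sup bound
    intro y
    calc ‖∑ i, h i y‖ ≤ ∑ i, ‖h i y‖ := norm_sum_le _ _
      _ ≤ ∑ i, C i * M / (ε / (2 * m)) := Finset.sum_le_sum fun i _ => hbd i y
      _ ≤ _ := hCM
  · -- the values off the exceptional set
    intro y hyU hyZ
    have hyV : y ∈ ⋃ i, V i := by
      by_contra hh
      exact hyZ (Or.inl ⟨hyU, hh⟩)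
    obtain ⟨i, hi⟩ := mem_iUnion.1 hyV
    have e2 : ∑ j, h j y = h i y := by
      refine Finset.sum_eq_single i ?_ (fun hh => absurd (Finset.mem_univ i) hh)
      intro j _ hj
      have : y ∉ tsupport (h j) := fun hh =>
        (Set.disjoint_left.1 (hVd j i hj)) (hts j hh) hi
      exact image_eq_zero_of_notMem_tsupport this
    show ∑ j, h j y = g a y
    rw [e2]
    exact hvl i y hi fun hh => hyZ (Or.inr (mem_iUnion.2 ⟨i, hh⟩))
  · -- decay
    intro ξ
    have e5 : ex γ (fun y => ∑ i, h i y) ξ = ∑ i, ex γ (h i) ξ := by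
      rw [hex, Finset.sum_apply]
    calc ‖ex γ (fun y => ∑ i, h i y) ξ‖ = ‖∑ i, ex γ (h i) ξ‖ := by rw [e5]
      _ ≤ ∑ i, ‖ex γ (h i) ξ‖ := norm_sum_le _ _
      _ ≤ ∑ i, C i * M / (ε / (2 * m)) * dec (d + 1) ξ := Finset.sum_le_sum fun i _ => hdec i ξ
      _ = (∑ i, C i * M / (ε / (2 * m))) * dec (d + 1) ξ := by rw [Finset.sum_mul]
      _ ≤ _ := mul_le_mul_of_nonneg_right hCM (dec_nonneg _ _)
  · -- MemLp
    intro p hp
    rw [hex]
    exact memLp_finsetSum' _ fun i _ => hmem i p hp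
  · -- norms
    intro r hr
    have hr1 : 1 ≤ r := by
      refine le_trans ?_ hr
      rw [← ENNReal.ofReal_one]
      exact ENNReal.ofReal_le_ofReal hp1
    rw [hex]
    calc eLpNorm (∑ i, ex γ (h i)) r volume ≤ ∑ i, eLpNorm (ex γ (h i)) r volume :=
          eLpNorm_sum_le (fun i _ => (hmem i p₀ hp₀).1) hr1
      _ ≤ ∑ _i : Fin n, ENNReal.ofReal (η / m) := Finset.sum_le_sum fun i _ => hnorm i r hr
      _ = (n : ℝ≥0∞) * ENNReal.ofReal (η / m) := by simp
      _ ≤ ENNReal.ofReal η := by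
          rw [← ENNReal.ofReal_natCast, ← ENNReal.ofReal_mul hn0]
          refine ENNReal.ofReal_le_ofReal ?_
          have e6 : (n : ℝ) * (η / m) = (n / m) * η := by
            field_simp
          rw [e6]
          have e7 : (n : ℝ) / m ≤ 1 := by
            rw [div_le_one hm0]
            linarith
          nlinarith

end Pool.Agent.H197.GS
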