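import Mathlib
import Pool.Agent.H197.GS.Stm

set_option autoImplicit false
set_option linter.unusedSectionVars false

/-!
# GS-IBP: uniform Fourier decay of a smooth family of amplitudes
-/

namespace Pool.Agent.H197.GS

open MeasureTheory Set Metric Complex Filter Topology
open Pool.Agent.H197.PD (E)
open scoped ENNReal NNReal RealInnerProductSpace BigOperators ContDiff

namespace IBP

/-- the exponential `e^{-i⟨q,u⟩}` -/
noncomputable def ee {d : ℕ} (q u : E d) : ℂ := Complex.exp (-((⟪q, u⟫ : ℝ) : ℂ) * I)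

lemma ee_norm {d : ℕ} (q u : E d) : ‖ee q u‖ = 1 := by
  unfold ee
  have h : -((⟪q, u⟫ : ℝ) : ℂ) * I = ((-(⟪q, u⟫ : ℝ) : ℝ) : ℂ) * I := by push_cast; ring
  rw [h, Complex.norm_exp_ofReal_mul_I]

lemma ee_hasFDerivAt {d : ℕ} (q u : E d) :
    HasFDerivAt (ee q) ((ee q u) • (-I) • (Complex.ofRealCLM.comp (innerSL ℝ q))) u := by
  have h1 : HasFDerivAt (fun u : E d => ((innerSL ℝ q u : ℝ) : ℂ))
      (Complex.ofRealCLM.comp (innerSL ℝ q)) u :=
    (Complex.ofRealCLM.comp (innerSL ℝ q)).hasFDerivAt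
  have h2 := (h1.const_smul (-I)).cexp
  have h3 : (fun u : E d => Complex.exp ((-I) • ((innerSL ℝ q u : ℝ) : ℂ))) = ee q := by
    funext v
    unfold ee
    congr 1
    rw [smul_eq_mul, innerSL_apply_apply]
    ring
  have h4 : Complex.exp ((-I) • ((innerSL ℝ q u : ℝ) : ℂ)) = ee q u := congrFun h3 u
  rw [← h4, ← h3]
  exact h2

lemma ee_fderiv {d : ℕ} (q u v : E d) : fderiv ℝ (ee q) u v = -((⟪q, v⟫ : ℝ) : ℂ) * I * ee q u := by
  rw [(ee_hasFDerivAt q u).fderiv]
  simp only [_root_.smul_apply, ContinuousLinearMap.comp_apply, innerSL_apply_apply,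
    Complex.ofRealCLM_apply, smul_eq_mul]
  ring

lemma ee_diff {d : ℕ} (q : E d) : Differentiable ℝ (ee q) := fun u =>
  (ee_hasFDerivAt q u).differentiableAt

lemma ee_cont {d : ℕ} (q : E d) : Continuous (ee q) := (ee_diff q).continuous

section par
variable {d : ℕ} {W : Type} [NormedAddCommGroup W] [NormedSpace ℝ W]

/-- the partial derivative in `u` -/
noncomputable def Db (b : W × E d → ℂ) (i : Fin d) : W × E d → ℂ := fun z =>
  fderiv ℝ b z (0, EuclideanSpace.single i 1)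

lemma Db_smooth {b : W × E d → ℂ} (hb : ContDiff ℝ ∞ b) (i : Fin d) : ContDiff ℝ ∞ (Db b i) := by
  unfold Db
  exact (hb.fderiv_right (m := ∞) (by simp)).clm_apply contDiff_const

lemma Db_zero {b : W × E d → ℂ} {R : ℝ} (h0 : ∀ p u, R < ‖u‖ → b (p, u) = 0) (i : Fin d) :
    ∀ p u, R < ‖u‖ → Db b i (p, u) = 0 := by
  intro p u hu
  have h1 : b =ᶠ[𝓝 (p, u)] fun _ => (0 : ℂ) := by
    have h2 : IsOpen {z : W × E d | R < ‖z.2‖} :=
      isOpen_lt continuous_const continuous_snd.norm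
    filter_upwards [h2.mem_nhds (show (p, u) ∈ {z : W × E d | R < ‖z.2‖} from hu)] with z hz
    exact h0 z.1 z.2 hz
  unfold Db
  rw [h1.fderiv_eq]
  simp

lemma Db_eq {b : W × E d → ℂ} (hb : ContDiff ℝ ∞ b) (i : Fin d) (p : W) (u : E d) :
    fderiv ℝ (fun u => b (p, u)) u (EuclideanSpace.single i 1) = Db b i (p, u) := by
  have h1 : HasFDerivAt b (fderiv ℝ b (p, u)) (p, u) :=
    ((hb.differentiable (by simp)) (p, u)).hasFDerivAt
  have h2 : HasFDerivAt (fun u => b (p, u))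
      ((fderiv ℝ b (p, u)).comp (ContinuousLinearMap.inr ℝ W (E d))) u :=
    h1.comp u (hasFDerivAt_prodMk_right p u)
  rw [h2.fderiv]
  rfl

lemma slice_diff {b : W × E d → ℂ} (hb : ContDiff ℝ ∞ b) (p : W) :
    Differentiable ℝ (fun u => b (p, u)) := by
  have h : ContDiff ℝ ∞ (fun u : E d => b (p, u)) := hb.comp (contDiff_const.prodMk contDiff_id)
  exact h.differentiable (by simp)

lemma integ {b : W × E d → ℂ} (hb : Continuous b) {R : ℝ}
    (h0 : ∀ p u, R < ‖u‖ → b (p, u) = 0) (p : W) {g : E d → ℂ} (hg : Continuous g) :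
    Integrable (fun u => b (p, u) * g u) := by
  refine Continuous.integrable_of_hasCompactSupport ?_ ?_
  · exact (hb.comp (continuous_const.prodMk continuous_id)).mul hg
  · refine HasCompactSupport.intro (isCompact_closedBall (0 : E d) R) fun u hu => ?_
    rw [mem_closedBall, dist_zero_right, not_le] at hu
    rw [h0 p u hu, zero_mul]

lemma int_Db {b : W × E d → ℂ} (hb : ContDiff ℝ ∞ b) {R : ℝ}
    (h0 : ∀ p u, R < ‖u‖ → b (p, u) = 0) (i : Fin d) (p : W) (q : E d) :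
    ∫ u, Db b i (p, u) * ee q u = (((q i : ℝ) : ℂ) * I) * ∫ u, b (p, u) * ee q u := by
  have hin : ∀ q : E d, ⟪q, EuclideanSpace.single i (1 : ℝ)⟫ = q i := by
    intro q
    rw [real_inner_comm, EuclideanSpace.inner_single_left]
    simp
  have e1 : ∀ u, fderiv ℝ (ee q) u (EuclideanSpace.single i 1) =
      (-(((q i : ℝ) : ℂ) * I)) * ee q u := by
    intro u
    rw [ee_fderiv, hin]
    ring
  have e2 : ∀ u, fderiv ℝ (fun u => b (p, u)) u (EuclideanSpace.single i 1) = Db b i (p, u) :=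
    fun u => Db_eq hb i p u
  have h1 := integral_mul_fderiv_eq_neg_fderiv_mul_of_integrable (μ := (volume : Measure (E d)))
    (f := fun u => b (p, u)) (g := ee q) (v := EuclideanSpace.single i (1 : ℝ)) ?_ ?_ ?_
    (fun x _ => slice_diff hb p x) (fun x _ => ee_diff q x)
  · simp only [e1, e2] at h1
    have h2 : ∫ u, b (p, u) * (-(((q i : ℝ) : ℂ) * I) * ee q u) =
        (-(((q i : ℝ) : ℂ) * I)) * ∫ u, b (p, u) * ee q u := by
      rw [← integral_const_mul]
      congr 1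
      funext u
      ring
    rw [h2] at h1
    have h3 := neg_eq_iff_eq_neg.1 h1.symm
    rw [h3]
    ring
  · simp only [e2]
    exact integ (Db_smooth hb i).continuous (Db_zero h0 i) p (ee_cont q)
  · simp only [e1]
    exact integ hb.continuous h0 p ((continuous_const).mul (ee_cont q))
  · exact integ hb.continuous h0 p (ee_cont q)

/-- the next amplitude -/
noncomputable def nxt (b : W × E d → ℂ) : W × E d → ℂ := fun z => b z - ∑ i, Db (Db b i) i z

lemma nxt_smooth {b : W × E d → ℂ} (hb : ContDiff ℝ ∞ b) : ContDiff ℝ ∞ (nxt b) := by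
  unfold nxt
  exact hb.sub (ContDiff.sum fun i _ => Db_smooth (Db_smooth hb i) i)

lemma nxt_zero {b : W × E d → ℂ} {R : ℝ} (h0 : ∀ p u, R < ‖u‖ → b (p, u) = 0) :
    ∀ p u, R < ‖u‖ → nxt b (p, u) = 0 := by
  intro p u hu
  unfold nxt
  rw [h0 p u hu, Finset.sum_eq_zero fun i _ => Db_zero (Db_zero h0 i) i p u hu, sub_zero]

lemma int_nxt {b : W × E d → ℂ} (hb : ContDiff ℝ ∞ b) {R : ℝ}
    (h0 : ∀ p u, R < ‖u‖ → b (p, u) = 0) (p : W) (q : E d) :
    ∫ u, nxt b (p, u) * ee q u = ((1 + ‖q‖ ^ 2 : ℝ) : ℂ) * ∫ u, b (p, u) * ee q u := by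
  have h1 : ∀ u, nxt b (p, u) * ee q u =
      b (p, u) * ee q u - ∑ i, Db (Db b i) i (p, u) * ee q u := by
    intro u
    unfold nxt
    rw [sub_mul, Finset.sum_mul]
  simp only [h1]
  rw [integral_sub (integ hb.continuous h0 p (ee_cont q))
    (integrable_finsetSum _ fun i _ => integ (Db_smooth (Db_smooth hb i) i).continuous
      (Db_zero (Db_zero h0 i) i) p (ee_cont q)),
    integral_finsetSum _ fun i _ => integ (Db_smooth (Db_smooth hb i) i).continuous
      (Db_zero (Db_zero h0 i) i) p (ee_cont q)]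
  have h2 : ∀ i, ∫ u, Db (Db b i) i (p, u) * ee q u =
      (-((q i : ℝ) : ℂ) ^ 2) * ∫ u, b (p, u) * ee q u := by
    intro i
    rw [int_Db (Db_smooth hb i) (Db_zero h0 i) i p q, int_Db hb h0 i p q, ← mul_assoc]
    congr 1
    have : I * I = -1 := I_mul_I
    calc ((q i : ℝ) : ℂ) * I * (((q i : ℝ) : ℂ) * I) = ((q i : ℝ) : ℂ) ^ 2 * (I * I) := by ring
      _ = _ := by rw [this]; ring
  rw [Finset.sum_congr rfl fun i _ => h2 i, ← Finset.sum_mul]
  have h3 : ((1 + ‖q‖ ^ 2 : ℝ) : ℂ) = 1 - ∑ i, (-((q i : ℝ) : ℂ) ^ 2) := by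
    rw [EuclideanSpace.norm_sq_eq]
    push_cast
    rw [Finset.sum_neg_distrib, sub_neg_eq_add]
    congr 1
    refine Finset.sum_congr rfl fun i _ => ?_
    rw [← Complex.ofReal_pow, ← Complex.ofReal_pow, Real.norm_eq_abs, sq_abs]
  rw [h3]
  ring

theorem decay (R : ℝ) (S : Set W) (hS : IsCompact S) (K : ℕ) :
    ∀ b : W × E d → ℂ, ContDiff ℝ ∞ b → (∀ p u, R < ‖u‖ → b (p, u) = 0) →
    ∃ C : ℝ, 0 < C ∧ ∀ p ∈ S, ∀ q : E d,
      (1 + ‖q‖ ^ 2) ^ K * ‖∫ u, b (p, u) * ee q u‖ ≤ C := by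
  induction K with
  | zero =>
    intro b hb h0
    obtain ⟨M, hM⟩ := (hS.prod (isCompact_closedBall (0 : E d) R)).exists_bound_of_continuousOn
      hb.continuous.continuousOn
    refine ⟨|M| * (volume (closedBall (0 : E d) R)).toReal + 1, by positivity, fun p hp q => ?_⟩
    rw [pow_zero, one_mul]
    have h1 : ∫ u, b (p, u) * ee q u = ∫ u in closedBall (0 : E d) R, b (p, u) * ee q u := by
      rw [setIntegral_eq_integral_of_forall_compl_eq_zero]
      intro u hu
      rw [mem_closedBall, dist_zero_right, not_le] at hu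
      rw [h0 p u hu, zero_mul]
    rw [h1]
    have h2 := norm_setIntegral_le_of_norm_le_const (μ := (volume : Measure (E d)))
      (s := closedBall (0 : E d) R) (f := fun u => b (p, u) * ee q u) (C := |M|)
      (isCompact_closedBall (0 : E d) R).measure_lt_top (fun u hu => by
        rw [norm_mul, ee_norm, mul_one]
        exact (hM (p, u) ⟨hp, hu⟩).trans (le_abs_self M))
    refine h2.trans ?_
    rw [Measure.real]
    linarith
  | succ K ih =>
    intro b hb h0
    obtain ⟨C, hC, h⟩ := ih (nxt b) (nxt_smooth hb) (nxt_zero h0)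
    refine ⟨C, hC, fun p hp q => ?_⟩
    refine le_of_eq_of_le ?_ (h p hp q)
    rw [int_nxt hb h0, norm_mul, Complex.norm_real, Real.norm_of_nonneg (by positivity), pow_succ]
    ring

end par

end IBP

theorem t_IBP : S_IBP := by
  intro d W _ _ b R hb h0 S hS K
  obtain ⟨C, hC, h⟩ := IBP.decay R S hS K b hb (fun p u hu => h0 p u hu.le)
  refine ⟨2 ^ K * C, by positivity, fun p hp q => ?_⟩
  have h1 := h p hp q
  have h2 : ∫ u, b (p, u) * Complex.exp (-((⟪q, u⟫ : ℝ) : ℂ) * I) = ∫ u, b (p, u) * IBP.ee q u := rfl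
  rw [h2]
  obtain ⟨N, hN⟩ : ∃ N, N = ‖∫ u, b (p, u) * IBP.ee q u‖ := ⟨_, rfl⟩
  rw [← hN] at h1 ⊢
  have hN0 : 0 ≤ N := by rw [hN]; exact norm_nonneg _
  have hq : 0 ≤ ‖q‖ := norm_nonneg q
  have h3 : (1 + ‖q‖) ^ K ≤ 2 ^ K * (1 + ‖q‖ ^ 2) ^ K := by
    rw [← mul_pow]
    refine pow_le_pow_left₀ (by positivity) ?_ K
    nlinarith [sq_nonneg (‖q‖ - 1)]
  have h4 : (1 + ‖q‖) ^ K * N ≤ 2 ^ K * C := by
    calc (1 + ‖q‖) ^ K * N ≤ 2 ^ K * (1 + ‖q‖ ^ 2) ^ K * N := mul_le_mul_of_nonneg_right h3 hN0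
      _ = 2 ^ K * ((1 + ‖q‖ ^ 2) ^ K * N) := by ring
      _ ≤ 2 ^ K * C := mul_le_mul_of_nonneg_left h1 (by positivity)
  rw [Real.rpow_neg (by positivity), Real.rpow_natCast, ← div_eq_mul_inv, le_div_iff₀ (by positivity)]
  linarith

end Pool.Agent.H197.GS
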