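import Mathlib
import Pool.Agent.H197.GS.Stm
set_option autoImplicit false

/-!
# GS-L1B: uniform `L¹` bound of the Fourier transform of the anisotropic packets
-/

namespace Pool.Agent.H197.GS

open MeasureTheory Set Metric Complex Filter Topology
open Pool.Agent.H197.PD (E kap chi vec zet dec S_KAP S_RAND S_MEMLP)
open scoped ENNReal NNReal RealInnerProductSpace BigOperators ContDiff

namespace L1B

/-- the Fourier integral of the packet -/
noncomputable def FF {d : ℕ} (β : E d → ℂ) (P : ℝ × E d → ℝ) (r : ℝ) (q : E d) : ℝ :=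
  ‖∫ u, (β u * Complex.exp ((P (r, u) : ℂ) * I)) * Complex.exp (-((⟪-q, u⟫ : ℝ) : ℂ) * I)‖

/-- the substitution in the space variable -/
lemma subst {d : ℕ} (hd : 1 ≤ d) (hD : S_DIL) {γ : E d → ℝ} {y₀ e : E d} (he : ‖e‖ = 1)
    {P : ℝ × E d → ℝ}
    (hP : ∀ (r : ℝ) (u : E d),
      γ (y₀ + dil e r u) = γ y₀ + ⟪gradient γ y₀, dil e r u⟫ + r ^ 6 * P (r, u))
    {β a : E d → ℂ} {r T : ℝ} (hr : 0 < r) (hr1 : r ≤ 1) (hT : T * r ^ 6 = 1)
    (ha : ∀ u, a (y₀ + dil e r u) = β u) (x : E d) :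
    ‖∫ y, a y * (starRingEnd ℂ) (ek γ x T y)‖ =
      r ^ (3 * d - 1) * FF β P r (dil e r (x + T • gradient γ y₀)) := by
  obtain ⟨h1, h2, -, -⟩ := hD d e hd he r hr hr1
  have e1 : ∫ y, a y * (starRingEnd ℂ) (ek γ x T y) =
      ∫ z, a (y₀ + z) * (starRingEnd ℂ) (ek γ x T (y₀ + z)) :=
    (integral_add_left_eq_self (fun y => a y * (starRingEnd ℂ) (ek γ x T y)) y₀).symm
  rw [e1, h1 (fun z => a (y₀ + z) * (starRingEnd ℂ) (ek γ x T (y₀ + z)))]
  have e2 : ∀ u, a (y₀ + dil e r u) * (starRingEnd ℂ) (ek γ x T (y₀ + dil e r u)) =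
      Complex.exp (((⟪x, y₀⟫ + T * γ y₀ : ℝ) : ℂ) * I) *
        ((β u * Complex.exp ((P (r, u) : ℂ) * I)) *
          Complex.exp (-((⟪-(dil e r (x + T • gradient γ y₀)), u⟫ : ℝ) : ℂ) * I)) := by
    intro u
    rw [ha u]
    unfold ek
    rw [← Complex.exp_conj]
    have e3 : (starRingEnd ℂ) (-((⟪x, y₀ + dil e r u⟫ + T * γ (y₀ + dil e r u) : ℝ) : ℂ) * I) =
        ((⟪x, y₀ + dil e r u⟫ + T * γ (y₀ + dil e r u) : ℝ) : ℂ) * I := by
      rw [map_mul, map_neg, Complex.conj_ofReal, Complex.conj_I]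
      ring
    have e4 : ⟪x, y₀ + dil e r u⟫ + T * γ (y₀ + dil e r u) =
        (⟪x, y₀⟫ + T * γ y₀) + P (r, u) + ⟪dil e r (x + T • gradient γ y₀), u⟫ := by
      rw [← h2, inner_add_right, inner_add_left, real_inner_smul_left, hP]
      have : T * (r ^ 6 * P (r, u)) = P (r, u) := by
        rw [← mul_assoc, hT, one_mul]
      linarith
    rw [e3, e4]
    have e5 : (((⟪x, y₀⟫ + T * γ y₀) + P (r, u) + ⟪dil e r (x + T • gradient γ y₀), u⟫ : ℝ) : ℂ) * I =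
        ((⟪x, y₀⟫ + T * γ y₀ : ℝ) : ℂ) * I + (P (r, u) : ℂ) * I +
          -((⟪-(dil e r (x + T • gradient γ y₀)), u⟫ : ℝ) : ℂ) * I := by
      rw [inner_neg_left]
      push_cast
      ring
    rw [e5, Complex.exp_add, Complex.exp_add]
    ring
  simp only [e2]
  rw [integral_const_mul, norm_mul, norm_mul, Complex.norm_exp_ofReal_mul_I, one_mul,
    Complex.norm_real, Real.norm_of_nonneg (pow_nonneg hr.le _)]
  rfl

/-- the substitution in the frequency variable -/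
lemma subst2 {d : ℕ} (hd : 1 ≤ d) (hD : S_DIL) {e : E d} (he : ‖e‖ = 1) {r : ℝ} (hr : 0 < r)
    (hr1 : r ≤ 1) (F : E d → ℝ) (v : E d) :
    ∫ x, r ^ (3 * d - 1) * F (dil e r (x + v)) = ∫ q, F q := by
  obtain ⟨h1, -⟩ := hD d e hd he r hr hr1
  rw [integral_const_mul, integral_add_right_eq_self (fun x => F (dil e r x)) v]
  have h2 := h1 (fun q => ((F q : ℝ) : ℂ))
  rw [integral_complex_ofReal, integral_complex_ofReal] at h2
  exact_mod_cast h2.symm

end L1B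

theorem t_L1B (hP : S_PARI) (hI : S_IBP) (hA : S_ANI) (hD : S_DIL) : S_L1B := by
  intro d γ hd hγ y₀ e he hfl β hβ hβ0
  obtain ⟨P, hPs, hPe⟩ := hA hP d γ hγ y₀ e he hfl
  have hb : ContDiff ℝ ∞ (fun z : ℝ × E d => β z.2 * Complex.exp ((P z : ℂ) * I)) := by
    have h1 : ContDiff ℝ ∞ (fun z : ℝ × E d => β z.2) := hβ.comp contDiff_snd
    have h2 : ContDiff ℝ ∞ (fun z : ℝ × E d => ((P z : ℝ) : ℂ)) :=
      Complex.ofRealCLM.contDiff.comp hPs
    exact h1.mul ((h2.mul contDiff_const).cexp)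
  obtain ⟨C1, hC1, hC⟩ := hI d ℝ (fun z : ℝ × E d => β z.2 * Complex.exp ((P z : ℂ) * I)) 1 hb
    (fun p u hu => by simp [hβ0 u hu]) (Icc 0 1) isCompact_Icc (d + 1)
  have hint : Integrable (fun q : E d => C1 * (1 + ‖q‖) ^ (-((d + 1 : ℕ) : ℝ))) := by
    refine Integrable.const_mul (integrable_one_add_norm ?_) C1
    rw [finrank_euclideanSpace_fin]
    push_cast
    linarith
  have hnn : 0 ≤ ∫ q : E d, C1 * (1 + ‖q‖) ^ (-((d + 1 : ℕ) : ℝ)) :=
    integral_nonneg fun q => by positivity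
  refine ⟨(∫ q : E d, C1 * (1 + ‖q‖) ^ (-((d + 1 : ℕ) : ℝ))) + 1, by linarith, ?_⟩
  intro r hr hr1 T hT a ha
  have e1 : ∫ x, ‖∫ y, a y * (starRingEnd ℂ) (ek γ x T y)‖ = ∫ q, L1B.FF β P r q := by
    rw [← L1B.subst2 hd hD he hr hr1 (L1B.FF β P r) (T • gradient γ y₀)]
    refine integral_congr_ae (Filter.Eventually.of_forall fun x => ?_)
    exact L1B.subst hd hD he hPe hr hr1 hT ha x
  rw [e1]
  have e2 : ∫ q, L1B.FF β P r q ≤ ∫ q : E d, C1 * (1 + ‖q‖) ^ (-((d + 1 : ℕ) : ℝ)) := by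
    refine integral_mono_of_nonneg (Filter.Eventually.of_forall fun q => norm_nonneg _) hint
      (Filter.Eventually.of_forall fun q => ?_)
    have h1 := hC r ⟨hr.le, hr1⟩ (-q)
    rw [norm_neg] at h1
    exact h1
  linarith

end Pool.Agent.H197.GS
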