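import Mathlib
import Pool.Agent.H197.GS.Stm
set_option autoImplicit false

/-!
GS-LOC (project GS of helper197; proved by helper733): near a point where the Hessian is regular the gradient expands.
-/

namespace Pool.Agent.H197.GS

open MeasureTheory Set Metric Filter Topology
open Pool.Agent.H197.PD (E)
open scoped ENNReal NNReal RealInnerProductSpace BigOperators ContDiff

namespace LOC

/-- the gradient of a smooth function is smooth -/
theorem contDiff_gradient {d : ℕ} {γ : E d → ℝ} (hγ : ContDiff ℝ ∞ γ) :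
    ContDiff ℝ ∞ (gradient γ) := by
  have h1 : ContDiff ℝ ∞ (fderiv ℝ γ) := hγ.fderiv_right (by exact_mod_cast le_rfl)
  exact (InnerProductSpace.toDual ℝ (E d)).symm.toContinuousLinearEquiv.contDiff.comp h1

end LOC

theorem t_LOC : S_LOC := by
  intro d γ hγ y₀ hflat
  have hg : ContDiff ℝ ∞ (gradient γ) := LOC.contDiff_gradient hγ
  have hs : HasStrictFDerivAt (gradient γ) (fderiv ℝ (gradient γ) y₀) y₀ :=
    hg.contDiffAt.hasStrictFDerivAt (by simp)
  obtain ⟨A, hA⟩ : ∃ A, A = fderiv ℝ (gradient γ) y₀ := ⟨_, rfl⟩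
  rw [← hA] at hs
  have hinj : Function.Injective (A : E d →ₗ[ℝ] E d) := by
    rw [← LinearMap.ker_eq_bot, LinearMap.ker_eq_bot']
    intro e he
    by_contra hne
    exact hflat ⟨e, hne, by rw [← hA]; exact he⟩
  obtain ⟨K, hK0, hK⟩ := (LinearMap.injective_iff_antilipschitz (A : E d →ₗ[ℝ] E d)).1 hinj
  have hK0' : (0 : ℝ) < K := hK0
  have hle : ∀ e : E d, ‖e‖ ≤ K * ‖A e‖ := by
    intro e
    have h1 := hK.le_mul_dist e 0
    simpa [dist_zero_right] using h1
  have hc : (0 : ℝ) < (2 * K : ℝ)⁻¹ := by positivity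
  have hev := (hasStrictFDerivAt_iff_isLittleO.1 hs).def hc
  obtain ⟨δ, hδ, hδ'⟩ := Metric.eventually_nhds_iff_ball.1 hev
  refine ⟨(2 * K : ℝ)⁻¹, δ, hc, hδ, ?_⟩
  intro y hy y' hy'
  have hmem : (y, y') ∈ ball ((y₀, y₀) : E d × E d) δ := by
    rw [← ball_prod_same]
    exact ⟨hy, hy'⟩
  have h2 := hδ' (y, y') hmem
  simp only at h2
  have h3 : ‖A (y - y')‖ ≤ ‖gradient γ y - gradient γ y'‖ +
      ‖gradient γ y - gradient γ y' - A (y - y')‖ := by
    have h4 : A (y - y') = (gradient γ y - gradient γ y') -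
        (gradient γ y - gradient γ y' - A (y - y')) := by abel
    calc ‖A (y - y')‖ = ‖(gradient γ y - gradient γ y') -
        (gradient γ y - gradient γ y' - A (y - y'))‖ := by rw [← h4]
      _ ≤ _ := norm_sub_le _ _
  have h5 : 2 * ((2 * K : ℝ)⁻¹ * ‖y - y'‖) ≤ ‖A (y - y')‖ := by
    have h6 := hle (y - y')
    have h7 : 2 * ((2 * K : ℝ)⁻¹ * ‖y - y'‖) = (K : ℝ)⁻¹ * ‖y - y'‖ := by
      field_simp
    rw [h7, inv_mul_le_iff₀ hK0']
    exact h6
  linarith

end Pool.Agent.H197.GS
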