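import Mathlib
import Pool.Agent.H197.GS.Stm
set_option autoImplicit false

namespace Pool.Agent.H197.GS

open MeasureTheory Set Metric Complex Filter Topology
open Pool.Agent.H197.PD (E kap chi vec zet dec S_KAP S_RAND S_MEMLP)
open scoped ENNReal NNReal RealInnerProductSpace BigOperators ContDiff

namespace NEC

lemma sqrt_log_le (s : ℝ) (hs : 0 ≤ s) :
    √(Real.log (2 + s)) ≤ 4 * (1 + s) ^ (1 / 12 : ℝ) := by
  have h1 : Real.log (2 + s) ≤ (2 + s) ^ (1 / 6 : ℝ) / (1 / 6) :=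
    Real.log_le_rpow_div (by linarith) (by norm_num)
  have h2 : (2 + s) ^ (1 / 6 : ℝ) ≤ 2 * (1 + s) ^ (1 / 6 : ℝ) := by
    calc (2 + s) ^ (1 / 6 : ℝ) ≤ (2 * (1 + s)) ^ (1 / 6 : ℝ) :=
          Real.rpow_le_rpow (by linarith) (by linarith) (by norm_num)
      _ = 2 ^ (1 / 6 : ℝ) * (1 + s) ^ (1 / 6 : ℝ) := Real.mul_rpow (by norm_num) (by linarith)
      _ ≤ 2 * (1 + s) ^ (1 / 6 : ℝ) := by
        refine mul_le_mul_of_nonneg_right ?_ (Real.rpow_nonneg (by linarith) _)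
        calc (2 : ℝ) ^ (1 / 6 : ℝ) ≤ 2 ^ (1 : ℝ) :=
              Real.rpow_le_rpow_of_exponent_le (by norm_num) (by norm_num)
          _ = 2 := Real.rpow_one 2
  have h3 : ((1 + s) ^ (1 / 12 : ℝ)) ^ 2 = (1 + s) ^ (1 / 6 : ℝ) := by
    rw [← Real.rpow_natCast, ← Real.rpow_mul (by linarith)]
    norm_num
  refine Real.sqrt_le_iff.2 ⟨by positivity, ?_⟩
  rw [mul_pow, h3]
  have h4 : 0 ≤ (1 + s) ^ (1 / 6 : ℝ) := Real.rpow_nonneg (by linarith) _
  linarith

lemma decay (d : ℕ) (hd : 1 ≤ d) (r s : ℝ) (hr : 0 < r) (hs : (r ^ 6)⁻¹ ≤ s) :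
    √(Real.log (2 + s)) * (1 + s) ^ (-((d : ℝ) / 2)) ≤ 4 * r ^ (3 * (d : ℝ) - 1 / 2) := by
  have hT : 0 < (r ^ 6)⁻¹ := by positivity
  have hs0 : 0 < s := lt_of_lt_of_le hT hs
  calc √(Real.log (2 + s)) * (1 + s) ^ (-((d : ℝ) / 2))
      ≤ (4 * (1 + s) ^ (1 / 12 : ℝ)) * (1 + s) ^ (-((d : ℝ) / 2)) :=
        mul_le_mul_of_nonneg_right (sqrt_log_le s hs0.le) (Real.rpow_nonneg (by linarith) _)
    _ = 4 * (1 + s) ^ (1 / 12 - (d : ℝ) / 2) := by
        rw [mul_assoc, ← Real.rpow_add (by linarith)]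
        ring_nf
    _ ≤ 4 * ((r ^ 6)⁻¹) ^ (1 / 12 - (d : ℝ) / 2) := by
        refine mul_le_mul_of_nonneg_left
          (Real.rpow_le_rpow_of_nonpos hT (by linarith) ?_) (by norm_num)
        have : (1 : ℝ) ≤ d := by exact_mod_cast hd
        linarith
    _ = 4 * r ^ (3 * (d : ℝ) - 1 / 2) := by
        congr 1
        rw [← Real.rpow_natCast, ← Real.rpow_neg hr.le, ← Real.rpow_mul hr.le]
        congr 1
        push_cast
        ring

theorem main (hL : S_L1B) (hU : S_DUA) (hD : S_DIL) (d : ℕ) (γ : E d → ℝ) (hd : 1 ≤ d)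
    (hγ : ContDiff ℝ ∞ γ) (h : E d → ℂ) (A₀ : ℝ) (hc : Continuous h) (hi : Integrable h)
    (hdec : ∀ (x : E d) (t : ℝ), ‖∫ y, h y * ek γ x t y‖ ≤
      A₀ * (√(Real.log (2 + max ‖x‖ |t|)) * (1 + max ‖x‖ |t|) ^ (-((d : ℝ) / 2))))
    (y₀ e : E d) (he : ‖e‖ = 1) (hfe : fderiv ℝ (gradient γ) y₀ e = 0) : h y₀ = 0 := by
  classical
  let f : ContDiffBump (0 : E d) := ⟨1 / 4, 1 / 2, by norm_num, by norm_num⟩
  have hfz : ∀ u : E d, 1 ≤ ‖u‖ → f u = 0 := by
    intro u hu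
    refine f.zero_of_le_dist ?_
    show (1 / 2 : ℝ) ≤ dist u 0
    rw [dist_zero_right]
    linarith
  obtain ⟨β, hβ⟩ : ∃ β : E d → ℂ, β = fun u => ((f u : ℝ) : ℂ) := ⟨_, rfl⟩
  have hβs : ContDiff ℝ ∞ β := by
    rw [hβ]
    exact Complex.ofRealCLM.contDiff.comp f.contDiff
  have hβ0 : ∀ u, 1 ≤ ‖u‖ → β u = 0 := by
    intro u hu
    rw [hβ]
    simp only
    rw [hfz u hu]
    simp
  have hβn : ∀ u, ‖β u‖ = f u := by
    intro u
    rw [hβ]
    simp only
    rw [Complex.norm_real, Real.norm_of_nonneg f.nonneg]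
  have hβc : HasCompactSupport β := by
    refine HasCompactSupport.intro (isCompact_closedBall 0 1) fun y hy => ?_
    rw [mem_closedBall, dist_zero_right, not_le] at hy
    exact hβ0 y hy.le
  obtain ⟨C, hC, hC'⟩ := hL d γ hd hγ y₀ e he hfe β hβs hβ0
  have hI : 0 < ∫ u, f u := f.integral_pos
  have key : ∀ r : ℝ, 0 < r → r ≤ 1 →
      ‖∫ u, h (y₀ + dil e r u) * β u‖ ≤ C * |A₀| * 4 * r ^ (1 / 2 : ℝ) := by
    intro r hr hr1
    obtain ⟨hint, -, hnorm, inv, hinv1, hinv2, hinvs⟩ := hD d e hd he r hr hr1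
    obtain ⟨a, ha⟩ : ∃ a : E d → ℂ, a = fun y => β (inv (y - y₀)) := ⟨_, rfl⟩
    have haβ : ∀ u, a (y₀ + dil e r u) = β u := by
      intro u
      rw [ha]
      simp only [add_sub_cancel_left, hinv1]
    have has : ContDiff ℝ ∞ a := by
      rw [ha]
      exact hβs.comp (hinvs.comp (contDiff_id.sub contDiff_const))
    have hac : HasCompactSupport a := by
      refine HasCompactSupport.intro (isCompact_closedBall y₀ 1) fun y hy => ?_
      by_contra hne
      apply hy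
      have h1 : ‖inv (y - y₀)‖ < 1 := by
        by_contra h2
        apply hne
        rw [ha]
        exact hβ0 _ (not_lt.1 h2)
      rw [mem_closedBall, dist_eq_norm, ← hinv2 (y - y₀)]
      refine (hnorm _).trans ?_
      have h3 : r ^ 2 ≤ 1 := pow_le_one₀ hr.le hr1
      have h4 : 0 ≤ r ^ 2 := by positivity
      nlinarith [norm_nonneg (inv (y - y₀))]
    have hb : ∀ x : E d, ‖∫ y, h y * ek γ x ((r ^ 6)⁻¹) y‖ ≤
        |A₀| * (4 * r ^ (3 * (d : ℝ) - 1 / 2)) := by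
      intro x
      refine (hdec x _).trans ?_
      have h1 := decay d hd r (max ‖x‖ |(r ^ 6)⁻¹|) hr ((le_abs_self _).trans (le_max_right _ _))
      have h0 : 0 ≤ √(Real.log (2 + max ‖x‖ |(r ^ 6)⁻¹|)) *
          (1 + max ‖x‖ |(r ^ 6)⁻¹|) ^ (-((d : ℝ) / 2)) := by positivity
      exact mul_le_mul (le_abs_self _) h1 h0 (abs_nonneg _)
    have h1 := hU d γ hγ h a ((r ^ 6)⁻¹) _ hi has hac hb
    have h2 := hC' r hr hr1 ((r ^ 6)⁻¹) (inv_mul_cancel₀ (by positivity)) a haβ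
    have h3 : ∫ y, h y * a y =
        ((r ^ (3 * d - 1) : ℝ) : ℂ) * ∫ u, h (y₀ + dil e r u) * β u := by
      rw [← integral_add_left_eq_self (fun y => h y * a y) y₀, hint]
      congr 1
      refine integral_congr_ae (Eventually.of_forall fun u => ?_)
      show h (y₀ + dil e r u) * a (y₀ + dil e r u) = h (y₀ + dil e r u) * β u
      rw [haβ]
    have h4 : ‖((r ^ (3 * d - 1) : ℝ) : ℂ)‖ = r ^ (3 * d - 1) := by
      rw [Complex.norm_real, Real.norm_of_nonneg (by positivity)]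
    have h5 : r ^ (3 * (d : ℝ) - 1 / 2) = r ^ (3 * d - 1) * r ^ (1 / 2 : ℝ) := by
      rw [← Real.rpow_natCast r (3 * d - 1), ← Real.rpow_add hr, Nat.cast_sub (by omega)]
      congr 1
      push_cast
      ring
    have h6 : 0 < r ^ (3 * d - 1) := by positivity
    have h7 : r ^ (3 * d - 1) * ‖∫ u, h (y₀ + dil e r u) * β u‖ ≤
        r ^ (3 * d - 1) * (C * |A₀| * 4 * r ^ (1 / 2 : ℝ)) := by
      rw [h3, norm_mul, h4] at h1
      refine h1.trans ?_
      have hS : 0 ≤ |A₀| * (4 * r ^ (3 * (d : ℝ) - 1 / 2)) := by positivity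
      refine (mul_le_mul_of_nonneg_right h2 hS).trans (le_of_eq ?_)
      rw [h5]
      ring
    exact le_of_mul_le_mul_left h7 h6
  by_contra hne
  have hpos : 0 < ‖h y₀‖ := norm_pos_iff.2 hne
  obtain ⟨δ, hδ, hδ'⟩ := Metric.continuous_iff.1 hc y₀ (‖h y₀‖ / 2) (by positivity)
  have hev : ∀ᶠ r in 𝓝[>] (0 : ℝ),
      ‖h y₀‖ * (∫ u, f u) / 2 ≤ C * |A₀| * 4 * r ^ (1 / 2 : ℝ) := by
    have hmem : Ioo (0 : ℝ) (min 1 δ) ∈ 𝓝[>] (0 : ℝ) := Ioo_mem_nhdsGT (lt_min one_pos hδ)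
    filter_upwards [hmem] with r hr
    have hr0 : 0 < r := hr.1
    have hr1 : r < 1 := lt_of_lt_of_le hr.2 (min_le_left _ _)
    have hrδ : r < δ := lt_of_lt_of_le hr.2 (min_le_right _ _)
    refine le_trans ?_ (key r hr0 hr1.le)
    obtain ⟨-, -, hnorm, -⟩ := hD d e hd he r hr0 hr1.le
    have hdc : Continuous (dil e r) := by
      unfold dil
      fun_prop
    have hd1 : ‖∫ u, (h (y₀ + dil e r u) - h y₀) * β u‖ ≤ ∫ u, ‖h y₀‖ / 2 * f u := by
      refine norm_integral_le_of_norm_le (f.integrable.const_mul _)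
        (Eventually.of_forall fun u => ?_)
      rw [norm_mul, hβn]
      by_cases hu : 1 ≤ ‖u‖
      · rw [hfz u hu, mul_zero, mul_zero]
      · have h1 : dist (y₀ + dil e r u) y₀ < δ := by
          rw [dist_eq_norm, add_sub_cancel_left]
          refine lt_of_le_of_lt (hnorm u) ?_
          have h5 : ‖u‖ * r ^ 2 ≤ 1 * r ^ 2 :=
            mul_le_mul_of_nonneg_right (not_le.1 hu).le (by positivity)
          have h6 : r ^ 2 ≤ r := by nlinarith
          linarith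
        have h2 := hδ' _ h1
        rw [dist_eq_norm] at h2
        exact mul_le_mul_of_nonneg_right h2.le f.nonneg
    have hβi : Integrable β := hβs.continuous.integrable_of_hasCompactSupport hβc
    have hgi : Integrable fun u => (h (y₀ + dil e r u) - h y₀) * β u := by
      refine Continuous.integrable_of_hasCompactSupport ?_ (hβc.mul_left)
      exact ((hc.comp (continuous_const.add hdc)).sub continuous_const).mul hβs.continuous
    have hsplit : ∫ u, h (y₀ + dil e r u) * β u =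
        h y₀ * (∫ u, β u) + ∫ u, (h (y₀ + dil e r u) - h y₀) * β u := by
      rw [← integral_const_mul, ← integral_add (hβi.const_mul _) hgi]
      refine integral_congr_ae (Eventually.of_forall fun u => ?_)
      show h (y₀ + dil e r u) * β u = h y₀ * β u + (h (y₀ + dil e r u) - h y₀) * β u
      ring
    have hβI : ‖h y₀ * (∫ u, β u)‖ = ‖h y₀‖ * ∫ u, f u := by
      rw [norm_mul]
      congr 1
      have : ∫ u, β u = ((∫ u, f u : ℝ) : ℂ) := by
        rw [hβ]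
        exact integral_ofReal
      rw [this, Complex.norm_real, Real.norm_of_nonneg hI.le]
    rw [integral_const_mul] at hd1
    have h8 : ‖h y₀ * (∫ u, β u)‖ - ‖∫ u, (h (y₀ + dil e r u) - h y₀) * β u‖ ≤
        ‖h y₀ * (∫ u, β u) + ∫ u, (h (y₀ + dil e r u) - h y₀) * β u‖ := by
      have h9 := norm_sub_le (h y₀ * (∫ u, β u) + ∫ u, (h (y₀ + dil e r u) - h y₀) * β u)
        (∫ u, (h (y₀ + dil e r u) - h y₀) * β u)
      rw [add_sub_cancel_right] at h9
      linarith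
    rw [hsplit]
    rw [hβI] at h8
    linarith
  have hlim : Tendsto (fun r : ℝ => C * |A₀| * 4 * r ^ (1 / 2 : ℝ)) (𝓝[>] (0 : ℝ)) (𝓝 0) := by
    have h1 : ContinuousAt (fun r : ℝ => r ^ (1 / 2 : ℝ)) 0 :=
      Real.continuousAt_rpow_const 0 (1 / 2) (Or.inr (by norm_num))
    have h2 : Tendsto (fun r : ℝ => r ^ (1 / 2 : ℝ)) (𝓝[>] (0 : ℝ)) (𝓝 0) := by
      have h3 := h1.tendsto
      rw [Real.zero_rpow (by norm_num)] at h3
      exact h3.mono_left nhdsWithin_le_nhds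
    have h4 := h2.const_mul (C * |A₀| * 4)
    rw [mul_zero] at h4
    exact h4
  have hfin := ge_of_tendsto hlim hev
  have : 0 < ‖h y₀‖ * (∫ u, f u) / 2 := by positivity
  linarith

end NEC

theorem t_NEC (hL : S_L1B) (hU : S_DUA) (hD : S_DIL) : S_NEC := by
  intro d γ hd hγ h A₀ hc hi hdec y₀ hflat
  obtain ⟨e, he, hfe⟩ := hflat
  have hn : 0 < ‖e‖ := norm_pos_iff.2 he
  refine NEC.main hL hU hD d γ hd hγ h A₀ hc hi hdec y₀ (‖e‖⁻¹ • e) ?_ ?_
  · rw [norm_smul, norm_inv, norm_norm, inv_mul_cancel₀ hn.ne']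
  · rw [map_smul, hfe, smul_zero]

end Pool.Agent.H197.GS
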