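import Mathlib
import Pool.Agent.H197.GS.Stm
set_option autoImplicit false

/-!
# GS-PARI: smoothness of a parametric integral (helper640)
-/

namespace Pool.Agent.H197.GS

open MeasureTheory Set Metric Filter Topology
open scoped ContDiff

namespace PARI

universe u

/-- smoothness of order `n`, for all target spaces -/
theorem aux {W : Type} [NormedAddCommGroup W] [NormedSpace ℝ W] [FiniteDimensional ℝ W] (n : ℕ) :
    ∀ (V : Type) [NormedAddCommGroup V] [NormedSpace ℝ V] [CompleteSpace V] (F : W × ℝ → V),
      ContDiff ℝ n F → ContDiff ℝ n (fun p : W => ∫ τ in (0 : ℝ)..1, F (p, τ)) := by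
  induction n with
  | zero =>
    intro V _ _ _ F hF
    have hc : Continuous F := hF.continuous
    have h1 : Continuous (Function.uncurry fun (p : W) (τ : ℝ) => F (p, τ)) := hc
    have h2 : Continuous fun p : W => ∫ τ in (0 : ℝ)..1, F (p, τ) :=
      intervalIntegral.continuous_parametric_intervalIntegral_of_continuous' h1 0 1
    exact contDiff_zero.2 h2
  | succ n ih =>
    intro V _ _ _ F hF
    have hF' : ContDiff ℝ ((n : WithTop ℕ∞) + 1) F := by exact_mod_cast hF
    have hcF : Continuous F := hF'.continuous
    let G : W × ℝ → (W →L[ℝ] V) := fun z => (fderiv ℝ F z).comp (ContinuousLinearMap.inl ℝ W ℝ)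
    have hfd : ContDiff ℝ n (fderiv ℝ F) := hF'.fderiv_right le_rfl
    have hG : ContDiff ℝ n G := hfd.clm_comp contDiff_const
    have hGc : Continuous G := hG.continuous
    have hmain : ContDiff ℝ ((n : WithTop ℕ∞) + 1) (fun p : W => ∫ τ in (0 : ℝ)..1, F (p, τ)) := by
      rw [contDiff_succ_iff_hasFDerivAt]
      refine ⟨fun p => ∫ τ in (0 : ℝ)..1, G (p, τ), ih (W →L[ℝ] V) G hG, fun p => ?_⟩
      -- a bound near `p`
      have hK : IsCompact (closedBall p 1 ×ˢ Icc (0 : ℝ) 1) :=
        (isCompact_closedBall p 1).prod isCompact_Icc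
      obtain ⟨B, hB⟩ := hK.exists_bound_of_continuousOn hGc.continuousOn
      refine intervalIntegral.hasFDerivAt_integral_of_dominated_of_fderiv_le
        (F := fun p τ => F (p, τ)) (F' := fun p τ => G (p, τ)) (s := closedBall p 1)
        (bound := fun _ => B) (closedBall_mem_nhds p one_pos) ?_ ?_ ?_ ?_ ?_ ?_
      · refine Eventually.of_forall fun q => ?_
        exact (hcF.comp (Continuous.prodMk_right q)).aestronglyMeasurable
      · exact (hcF.comp (Continuous.prodMk_right p)).intervalIntegrable 0 1
      · exact (hGc.comp (Continuous.prodMk_right p)).aestronglyMeasurable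
      · refine Eventually.of_forall fun τ hτ q hq => hB (q, τ) ⟨hq, ?_⟩
        rw [uIoc_of_le zero_le_one] at hτ
        exact Ioc_subset_Icc_self hτ
      · exact intervalIntegrable_const
      · refine Eventually.of_forall fun τ _ q _ => ?_
        have h3 : HasFDerivAt F (fderiv ℝ F (q, τ)) (q, τ) :=
          (hF'.differentiable (by simp)).differentiableAt.hasFDerivAt
        have h4 : HasFDerivAt (fun q : W => (q, τ)) (ContinuousLinearMap.inl ℝ W ℝ) q :=
          hasFDerivAt_prodMk_left q τ
        exact h3.comp q h4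
    exact_mod_cast hmain

end PARI

theorem t_PARI : S_PARI := by
  intro W _ _ _ F hF
  rw [contDiff_infty]
  intro n
  exact PARI.aux n ℝ F (hF.of_le (by exact_mod_cast le_top))

end Pool.Agent.H197.GS
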