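import Mathlib
import Pool.Agent.H197.GS.Stm
set_option autoImplicit false

/-!
# GS-PIE: finitely many disjoint good open pieces
-/

namespace Pool.Agent.H197.GS

open MeasureTheory Set Metric Filter Topology
open Pool.Agent.H197.PD (E)
open scoped ENNReal NNReal RealInnerProductSpace BigOperators ContDiff

namespace PIE

theorem expands_mono {d : ℕ} {γ : E d → ℝ} {U V : Set (E d)} {c c' : ℝ} (h : Expands γ U c)
    (hVU : V ⊆ U) (hc : c' ≤ c) : Expands γ V c' := fun y hy y' hy' =>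
  (mul_le_mul_of_nonneg_right hc (norm_nonneg _)).trans (h y (hVU hy) y' (hVU hy'))

theorem exists_low {ι : Type} (f : ι → ℝ) (t : Finset ι) (h : ∀ i ∈ t, 0 < f i) :
    ∃ c : ℝ, 0 < c ∧ ∀ i ∈ t, c ≤ f i := by
  classical
  induction t using Finset.induction_on with
  | empty => exact ⟨1, one_pos, fun i hi => by simp at hi⟩
  | insert a s ha ih =>
    obtain ⟨c, hc, hcs⟩ := ih fun i hi => h i (Finset.mem_insert_of_mem hi)
    refine ⟨min c (f a), lt_min hc (h a (Finset.mem_insert_self _ _)), fun i hi => ?_⟩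
    rcases Finset.mem_insert.1 hi with rfl | hi
    · exact min_le_right _ _
    · exact (min_le_left _ _).trans (hcs i hi)

/-- the disjoint pieces of a finite family of balls -/
def pc {X : Type*} [PseudoMetricSpace X] {n : ℕ} (z : Fin n → X) (r : Fin n → ℝ) (i : Fin n) : Set X :=
  ball (z i) (r i) \ ⋃ l ∈ {l : Fin n | l < i}, closedBall (z l) (r l)

theorem pc_open {X : Type*} [PseudoMetricSpace X] {n : ℕ} (z : Fin n → X) (r : Fin n → ℝ)
    (i : Fin n) : IsOpen (pc z r i) :=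
  isOpen_ball.sdiff ((Set.toFinite _).isClosed_biUnion fun _ _ => isClosed_closedBall)

theorem pc_disj {X : Type*} [PseudoMetricSpace X] {n : ℕ} (z : Fin n → X) (r : Fin n → ℝ)
    (i i' : Fin n) (h : i < i') : Disjoint (pc z r i) (pc z r i') := by
  rw [Set.disjoint_left]
  intro y hy hy'
  exact hy'.2 (mem_biUnion (show i ∈ {l : Fin n | l < i'} from h) (ball_subset_closedBall hy.1))

theorem pc_cover {X : Type*} [PseudoMetricSpace X] {n : ℕ} (z : Fin n → X) (r : Fin n → ℝ) (y : X)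
    (hy : ∃ i, y ∈ ball (z i) (r i)) : (∃ i, y ∈ pc z r i) ∨ ∃ i, y ∈ sphere (z i) (r i) := by
  classical
  by_cases hs : ∃ i, y ∈ sphere (z i) (r i)
  · exact Or.inr hs
  left
  obtain ⟨i₀, hi₀⟩ := hy
  let A : Finset (Fin n) := Finset.univ.filter fun i : Fin n => y ∈ closedBall (z i) (r i)
  have hne : A.Nonempty :=
    ⟨i₀, Finset.mem_filter.2 ⟨Finset.mem_univ _, ball_subset_closedBall hi₀⟩⟩
  let i : Fin n := A.min' hne
  have hi1 : y ∈ closedBall (z i) (r i) := (Finset.mem_filter.1 (A.min'_mem hne)).2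
  refine ⟨i, ?_, ?_⟩
  · rw [mem_ball]
    refine lt_of_le_of_ne (mem_closedBall.1 hi1) fun h => hs ⟨i, h⟩
  · intro hmem
    obtain ⟨l, hl, hyl⟩ := mem_iUnion₂.1 hmem
    have h1 : i ≤ l := A.min'_le l (Finset.mem_filter.2 ⟨Finset.mem_univ _, hyl⟩)
    exact absurd h1 (not_le.2 hl)

end PIE

open PIE

theorem t_PIE (hL : S_LOC) : S_PIE := by
  classical
  intro d γ hd hγ U hU hUb hnull ε hε
  -- the good points
  let G : Set (E d) := {y | ∃ c δ : ℝ, 0 < c ∧ 0 < δ ∧ ball y δ ⊆ U ∧ Expands γ (ball y δ) c}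
  have hGU : G ⊆ U := by
    rintro y ⟨c, δ, -, hδ, h, -⟩
    exact h (mem_ball_self hδ)
  have hGo : IsOpen G := by
    rw [Metric.isOpen_iff]
    rintro y ⟨c, δ, hc, hδ, h, hE⟩
    refine ⟨δ / 2, half_pos hδ, fun x hx => ?_⟩
    have hsub : ball x (δ / 2) ⊆ ball y δ := by
      apply ball_subset_ball'
      have : dist x y < δ / 2 := hx
      linarith
    exact ⟨c, δ / 2, hc, half_pos hδ, hsub.trans h, expands_mono hE hsub le_rfl⟩
  have hUG : volume (U \ G) = 0 := by
    refine measure_mono_null ?_ hnull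
    rintro y ⟨hyU, hyG⟩
    refine ⟨hyU, ?_⟩
    by_contra hfl
    obtain ⟨c, δ, hc, hδ, hE⟩ := hL d γ hγ y hfl
    obtain ⟨δ', hδ', hb⟩ := Metric.isOpen_iff.1 hU y hyU
    exact hyG ⟨c, min δ δ', hc, lt_min hδ hδ', (ball_subset_ball (min_le_right _ _)).trans hb,
      expands_mono hE (ball_subset_ball (min_le_left _ _)) le_rfl⟩
  have hGfin : volume G ≠ (⊤ : ℝ≥0∞) := ((measure_mono hGU).trans_lt hUb.measure_lt_top).ne
  obtain ⟨K, hKG, hK, hKm⟩ := hGo.measurableSet.exists_isCompact_sdiff_lt hGfin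
    (ENNReal.ofReal_pos.2 hε).ne'
  have hch : ∀ y : E d, ∃ c δ : ℝ, 0 < c ∧ 0 < δ ∧ (y ∈ G → ball y δ ⊆ U ∧ Expands γ (ball y δ) c) := by
    intro y
    by_cases hy : y ∈ G
    · obtain ⟨c, δ, hc, hδ, h, hE⟩ := hy
      exact ⟨c, δ, hc, hδ, fun _ => ⟨h, hE⟩⟩
    · exact ⟨1, 1, one_pos, one_pos, fun h => absurd h hy⟩
  choose cc rr hcc hrr hgood using hch
  obtain ⟨t, htK, htc⟩ := hK.elim_nhds_subcover (fun y => ball y (rr y))
    fun y _ => ball_mem_nhds y (hrr y)
  obtain ⟨c, hc, hct⟩ := exists_low cc t fun y _ => hcc y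
  let z : Fin t.card → E d := fun i => (t.equivFin.symm i : E d)
  have hzt : ∀ i, z i ∈ t := fun i => (t.equivFin.symm i).2
  have hzG : ∀ i, z i ∈ G := fun i => hKG (htK _ (hzt i))
  let r : Fin t.card → ℝ := fun i => rr (z i)
  refine ⟨t.card, pc z r, c, hc, pc_open z r, fun i => ?_, fun i => ?_, fun i i' hii => ?_, ?_⟩
  · exact sdiff_subset.trans (hgood (z i) (hzG i)).1
  · exact expands_mono (hgood (z i) (hzG i)).2 sdiff_subset (hct _ (hzt i))
  · rcases lt_or_gt_of_ne hii with h | h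
    · exact pc_disj z r i i' h
    · exact (pc_disj z r i' i h).symm
  · have hsub : U \ ⋃ i, pc z r i ⊆ (U \ G) ∪ ((G \ K) ∪ ⋃ i, sphere (z i) (r i)) := by
      rintro y ⟨hyU, hyV⟩
      by_cases hyG : y ∈ G
      · right
        by_cases hyK : y ∈ K
        · right
          obtain ⟨x, hxt, hx⟩ := mem_iUnion₂.1 (htc hyK)
          have hex : ∃ i, y ∈ ball (z i) (r i) := by
            refine ⟨t.equivFin ⟨x, hxt⟩, ?_⟩
            have : z (t.equivFin ⟨x, hxt⟩) = x := by simp [z]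
            simp only [r, this]
            exact hx
          rcases pc_cover z r y hex with ⟨i, hi⟩ | ⟨i, hi⟩
          · exact absurd (mem_iUnion.2 ⟨i, hi⟩) hyV
          · exact mem_iUnion.2 ⟨i, hi⟩
        · left
          exact ⟨hyG, hyK⟩
      · left
        exact ⟨hyU, hyG⟩
    have hsph : volume (⋃ i, sphere (z i) (r i)) = 0 := by
      rw [measure_iUnion_null_iff]
      intro i
      exact Measure.addHaar_sphere_of_ne_zero volume (z i) (hrr (z i)).ne'
    calc volume (U \ ⋃ i, pc z r i) ≤ volume ((U \ G) ∪ ((G \ K) ∪ ⋃ i, sphere (z i) (r i))) :=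
          measure_mono hsub
      _ ≤ volume (U \ G) + (volume (G \ K) + volume (⋃ i, sphere (z i) (r i))) :=
          (measure_union_le _ _).trans (add_le_add le_rfl (measure_union_le _ _))
      _ = volume (G \ K) := by rw [hUG, hsph, zero_add, add_zero]
      _ ≤ ENNReal.ofReal ε := hKm.le

end Pool.Agent.H197.GS
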