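import Mathlib
import Pool.Agent.H197.GS.Stm2

set_option autoImplicit false

/-!
# GS-RNQ: choice of the random signs for finitely many systems at once (helper279; adapted from
`Pool/Agent/H197/PD/RAND.lean`, whose lemmas are copied here with the better weight)
-/

namespace Pool.Agent.H197.GS.RNQ

open MeasureTheory Set Metric Complex Filter Topology
open scoped ENNReal NNReal RealInnerProductSpace BigOperators ContDiff

open Pool.Agent.H197.PD

/-- selection of a good point -/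
theorem sel {Ω : Type} [Fintype Ω] [Nonempty Ω] (X Y : Ω → ℝ) (hX : ∀ z, 0 ≤ X z)
    (hY : ∀ z, 0 ≤ Y z) (x y : ℝ) (hx : 0 ≤ x) (hy : 0 < y)
    (hXs : ∑ z, X z ≤ (Fintype.card Ω : ℝ) * x) (hYs : ∑ z, Y z ≤ (Fintype.card Ω : ℝ) * y) :
    ∃ z, X z ≤ 2 * x ∧ Y z ≤ 2 * y := by
  by_contra hcon
  have h : ∀ z, X z ≤ 2 * x → 2 * y < Y z := by
    intro z hz
    by_contra h2
    exact hcon ⟨z, hz, not_lt.1 h2⟩
  have hc : (0 : ℝ) < (Fintype.card Ω : ℝ) := by exact_mod_cast Fintype.card_pos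
  rcases hx.eq_or_lt with hx0 | hx0
  · have h1 : ∑ z, X z = 0 := by
      refine le_antisymm ?_ (Finset.sum_nonneg fun z _ => hX z)
      rw [← hx0, mul_zero] at hXs
      exact hXs
    have h2 : ∀ z, X z = 0 := fun z =>
      (Finset.sum_eq_zero_iff_of_nonneg fun z _ => hX z).1 h1 z (Finset.mem_univ z)
    have h3 : ∑ _z : Ω, 2 * y < ∑ z, Y z :=
      Finset.sum_lt_sum_of_nonempty Finset.univ_nonempty fun z _ =>
        h z (by rw [h2 z, ← hx0, mul_zero])
    rw [Finset.sum_const, Finset.card_univ, nsmul_eq_mul] at h3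
    nlinarith [mul_pos hc hy]
  · have h1 : ∀ z, 1 < X z / (2 * x) + Y z / (2 * y) := by
      intro z
      by_cases hz : X z ≤ 2 * x
      · have h2 : 1 < Y z / (2 * y) := by
          rw [lt_div_iff₀ (by positivity), one_mul]
          exact h z hz
        have h3 : 0 ≤ X z / (2 * x) := div_nonneg (hX z) (by positivity)
        linarith
      · have h2 : 1 < X z / (2 * x) := by
          rw [lt_div_iff₀ (by positivity), one_mul]
          exact not_le.1 hz
        have h3 : 0 ≤ Y z / (2 * y) := div_nonneg (hY z) (by positivity)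
        linarith
    have h2 : ∑ _z : Ω, (1 : ℝ) < ∑ z, (X z / (2 * x) + Y z / (2 * y)) :=
      Finset.sum_lt_sum_of_nonempty Finset.univ_nonempty fun z _ => h1 z
    rw [Finset.sum_const, Finset.card_univ, nsmul_eq_mul, mul_one, Finset.sum_add_distrib,
      ← Finset.sum_div, ← Finset.sum_div] at h2
    have h3 : (∑ z, X z) / (2 * x) ≤ (Fintype.card Ω : ℝ) / 2 := by
      rw [div_le_div_iff₀ (by positivity) (by positivity)]
      nlinarith
    have h4 : (∑ z, Y z) / (2 * y) ≤ (Fintype.card Ω : ℝ) / 2 := by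
      rw [div_le_div_iff₀ (by positivity) (by positivity)]
      nlinarith
    linarith

/-- the number of the `z` with `z j = 0` -/
theorem count {J : Type} [Fintype J] [DecidableEq J] {m : ℕ} (hm : 1 ≤ m) (j : J) :
    (m : ℝ) * ∑ z : J → Fin m, (if ((z j : Fin m) : ℕ) = 0 then (1 : ℝ) else 0) =
      (Fintype.card (J → Fin m) : ℝ) := by
  have h1 := Finset.prod_univ_sum (fun _ : J => (Finset.univ : Finset (Fin m)))
    (fun (i : J) (w : Fin m) => if i = j then (if (w : ℕ) = 0 then (1 : ℝ) else 0) else 1)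
  rw [Fintype.piFinset_univ] at h1
  have h2 : ∀ z : J → Fin m, ∏ i, (if i = j then (if ((z i : Fin m) : ℕ) = 0 then (1 : ℝ) else 0)
      else 1) = if ((z j : Fin m) : ℕ) = 0 then (1 : ℝ) else 0 := by
    intro z
    rw [Finset.prod_eq_single j]
    · simp
    · intro i _ hi
      simp [hi]
    · intro hj
      exact absurd (Finset.mem_univ j) hj
  simp only [h2] at h1
  rw [← h1]
  have h3 : ∀ i : J, ∑ w : Fin m, (if i = j then (if (w : ℕ) = 0 then (1 : ℝ) else 0) else 1) =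
      if i = j then 1 else (m : ℝ) := by
    intro i
    by_cases hi : i = j
    · simp only [if_pos hi]
      rw [Fin.sum_univ_eq_sum_range (fun k => if k = 0 then (1 : ℝ) else 0) m,
        Finset.sum_ite_eq']
      rw [if_pos (Finset.mem_range.2 (by omega))]
    · simp only [if_neg hi]
      simp
  simp only [h3]
  rw [← Finset.mul_prod_erase Finset.univ _ (Finset.mem_univ j), if_pos rfl, one_mul]
  have h4 : ∏ i ∈ Finset.univ.erase j, (if i = j then 1 else (m : ℝ)) =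
      ∏ _i ∈ Finset.univ.erase j, (m : ℝ) := by
    refine Finset.prod_congr rfl fun i hi => ?_
    rw [if_neg (Finset.ne_of_mem_erase hi)]
  rw [h4, Finset.mul_prod_erase Finset.univ (fun _ : J => (m : ℝ)) (Finset.mem_univ j),
    Finset.prod_const, Fintype.card_fun, Fintype.card_fin, Finset.card_univ]
  push_cast
  rfl

theorem cosh_sum (h1 : S_MGF) {J : Type} [Fintype J] [DecidableEq J] {m : ℕ} (hm : 1 ≤ m)
    {n : ℕ} {al N V : ℝ} (hN : 1 ≤ N) (hV : 0 < V) (b : J → ℝ) (ξ : E n)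
    (hb : ∑ j, b j ^ 2 ≤ V ^ 2 * (N + ‖ξ‖) ^ (-(2 * al))) :
    ∑ z : J → Fin m, Real.cosh (lam al (m * V) N ξ * ∑ j, zet m (z j) * b j) ≤
      (Fintype.card (J → Fin m) : ℝ) * (2 + N + ‖ξ‖) ^ ((1 : ℝ) / 2) := by
  have hm0 : (0 : ℝ) < m := by exact_mod_cast hm
  have hξ := norm_nonneg ξ
  have hA : 0 < N + ‖ξ‖ := by linarith
  have hM : 0 < 2 + N + ‖ξ‖ := by linarith
  have hlog : 0 ≤ Real.log (2 + N + ‖ξ‖) := Real.log_nonneg (by linarith)
  have key : ∀ b' : J → ℝ, (∑ j, b' j ^ 2 = ∑ j, b j ^ 2) →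
      ∑ z : J → Fin m, Real.exp (∑ j, zet m (z j) * (lam al (m * V) N ξ * b' j)) ≤
        (Fintype.card (J → Fin m) : ℝ) * (2 + N + ‖ξ‖) ^ ((1 : ℝ) / 2) := by
    intro b' hb'
    refine (h1 J m hm (fun j => lam al (m * V) N ξ * b' j)).trans ?_
    refine mul_le_mul_of_nonneg_left ?_ (Nat.cast_nonneg _)
    rw [Real.rpow_def_of_pos hM]
    refine Real.exp_le_exp.2 ?_
    have h2 : ∑ j, (lam al (m * V) N ξ * b' j) ^ 2 = lam al (m * V) N ξ ^ 2 * ∑ j, b j ^ 2 := by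
      rw [← hb', Finset.mul_sum]
      exact Finset.sum_congr rfl fun j _ => mul_pow _ _ _
    rw [h2]
    have h3 : lam al (m * V) N ξ ^ 2 =
        Real.log (2 + N + ‖ξ‖) * (N + ‖ξ‖) ^ (2 * al) / (m * V) ^ 2 := by
      unfold lam
      rw [div_pow, mul_pow, Real.sq_sqrt hlog, ← Real.rpow_natCast, ← Real.rpow_mul hA.le]
      congr 3
      push_cast
      ring
    have h4 : lam al (m * V) N ξ ^ 2 * ∑ j, b j ^ 2 ≤
        lam al (m * V) N ξ ^ 2 * (V ^ 2 * (N + ‖ξ‖) ^ (-(2 * al))) :=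
      mul_le_mul_of_nonneg_left hb (sq_nonneg _)
    have h5 : (N + ‖ξ‖) ^ (2 * al) * (N + ‖ξ‖) ^ (-(2 * al)) = 1 := by
      rw [← Real.rpow_add hA, add_neg_cancel, Real.rpow_zero]
    have h6 : (m : ℝ) ^ 2 / 2 * (lam al (m * V) N ξ ^ 2 * (V ^ 2 * (N + ‖ξ‖) ^ (-(2 * al)))) =
        Real.log (2 + N + ‖ξ‖) * (1 / 2) := by
      rw [h3]
      have h7 : (m : ℝ) ^ 2 / 2 * (Real.log (2 + N + ‖ξ‖) * (N + ‖ξ‖) ^ (2 * al) / (m * V) ^ 2 *
          (V ^ 2 * (N + ‖ξ‖) ^ (-(2 * al)))) =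
          Real.log (2 + N + ‖ξ‖) * ((N + ‖ξ‖) ^ (2 * al) * (N + ‖ξ‖) ^ (-(2 * al))) / 2 := by
        field_simp
      rw [h7, h5]
      ring
    rw [← h6]
    exact mul_le_mul_of_nonneg_left h4 (by positivity)
  have h2 := key b rfl
  have h3 := key (fun j => - b j) (by simp)
  have h4 : ∀ z : J → Fin m, Real.cosh (lam al (m * V) N ξ * ∑ j, zet m (z j) * b j) =
      (Real.exp (∑ j, zet m (z j) * (lam al (m * V) N ξ * b j)) +
        Real.exp (∑ j, zet m (z j) * (lam al (m * V) N ξ * (- b j)))) / 2 := by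
    intro z
    rw [Real.cosh_eq]
    have e1 : lam al (m * V) N ξ * ∑ j, zet m (z j) * b j =
        ∑ j, zet m (z j) * (lam al (m * V) N ξ * b j) := by
      rw [Finset.mul_sum]
      exact Finset.sum_congr rfl fun j _ => by ring
    have e2 : - (∑ j, zet m (z j) * (lam al (m * V) N ξ * b j)) =
        ∑ j, zet m (z j) * (lam al (m * V) N ξ * (- b j)) := by
      rw [← Finset.sum_neg_distrib]
      exact Finset.sum_congr rfl fun j _ => by ring
    rw [e1, e2]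
  simp only [h4]
  rw [← Finset.sum_div, Finset.sum_add_distrib]
  linarith

theorem lam_cont {n : ℕ} (al D N : ℝ) (hN : 1 ≤ N) : Continuous (fun ξ : E n => lam al D N ξ) := by
  unfold lam
  have h1 : Continuous (fun ξ : E n => Real.log (2 + N + ‖ξ‖)) := by
    refine Continuous.log (by fun_prop) fun ξ => ?_
    have := norm_nonneg ξ
    linarith
  have h2 : Continuous (fun ξ : E n => (N + ‖ξ‖) ^ al) := by
    refine Continuous.rpow_const (by fun_prop) fun ξ => Or.inl ?_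
    have := norm_nonneg ξ
    linarith
  exact (h1.sqrt.mul h2).div_const _

theorem w_cont {n : ℕ} (N : ℝ) (hN : 1 ≤ N) :
    Continuous (fun ξ : E n => (2 + N + ‖ξ‖) ^ (-((n : ℝ) + 2))) := by
  refine Continuous.rpow_const (by fun_prop) fun ξ => Or.inl ?_
  have := norm_nonneg ξ
  linarith

theorem w_bound {n : ℕ} (N : ℝ) (hN : 1 ≤ N) (ξ : E n) :
    (2 + N + ‖ξ‖) ^ ((1 : ℝ) / 2) * (2 + N + ‖ξ‖) ^ (-((n : ℝ) + 2)) ≤
      N⁻¹ * (1 + ‖ξ‖) ^ (-((n : ℝ) + 1 / 2)) := by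
  have hξ := norm_nonneg ξ
  have hM : 0 < 2 + N + ‖ξ‖ := by linarith
  rw [← Real.rpow_add hM]
  have e1 : (1 : ℝ) / 2 + -((n : ℝ) + 2) = (-1) + -((n : ℝ) + 1 / 2) := by ring
  rw [e1, Real.rpow_add hM, Real.rpow_neg_one]
  refine mul_le_mul ?_ ?_ (Real.rpow_nonneg hM.le _) (by positivity)
  · exact inv_anti₀ (by linarith) (by linarith)
  · exact Real.rpow_le_rpow_of_nonpos (by linarith) (by linarith)
      (by have : (0 : ℝ) ≤ n := Nat.cast_nonneg n
          linarith)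

theorem int_base (n : ℕ) : Integrable (fun ξ : E n => (1 + ‖ξ‖) ^ (-((n : ℝ) + 1 / 2))) :=
  integrable_one_add_norm (by simp)

section fam

variable {J : Type} [Fintype J] [DecidableEq J] {m n : ℕ} {al N V : ℝ} {b : J → E n → ℝ}

/-- the integrand -/
noncomputable def ig (m : ℕ) (al N V : ℝ) (b : J → E n → ℝ) (z : J → Fin m) (ξ : E n) : ℝ :=
  Real.cosh (lam al (m * V) N ξ * ∑ j, zet m (z j) * b j ξ) * (2 + N + ‖ξ‖) ^ (-((n : ℝ) + 2))

omit [DecidableEq J] in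
theorem ig_nonneg (hN : 1 ≤ N) (z : J → Fin m) (ξ : E n) : 0 ≤ ig m al N V b z ξ := by
  have hξ := norm_nonneg ξ
  have hM : 0 < 2 + N + ‖ξ‖ := by linarith
  exact mul_nonneg (Real.cosh_pos _).le (Real.rpow_nonneg hM.le _)

theorem ig_sum (h1 : S_MGF) (hm : 1 ≤ m) (hN : 1 ≤ N) (hV : 0 < V)
    (hb : ∀ ξ, ∑ j, b j ξ ^ 2 ≤ V ^ 2 * (N + ‖ξ‖) ^ (-(2 * al))) (ξ : E n) :
    ∑ z : J → Fin m, ig m al N V b z ξ ≤
      (Fintype.card (J → Fin m) : ℝ) * (N⁻¹ * (1 + ‖ξ‖) ^ (-((n : ℝ) + 1 / 2))) := by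
  have hξ := norm_nonneg ξ
  have hM : 0 < 2 + N + ‖ξ‖ := by linarith
  unfold ig
  rw [← Finset.sum_mul]
  calc (∑ z : J → Fin m, Real.cosh (lam al (m * V) N ξ * ∑ j, zet m (z j) * b j ξ)) *
        (2 + N + ‖ξ‖) ^ (-((n : ℝ) + 2))
      ≤ ((Fintype.card (J → Fin m) : ℝ) * (2 + N + ‖ξ‖) ^ ((1 : ℝ) / 2)) *
        (2 + N + ‖ξ‖) ^ (-((n : ℝ) + 2)) :=
        mul_le_mul_of_nonneg_right (cosh_sum h1 hm hN hV (fun j => b j ξ) ξ (hb ξ))
          (Real.rpow_nonneg hM.le _)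
    _ = (Fintype.card (J → Fin m) : ℝ) * ((2 + N + ‖ξ‖) ^ ((1 : ℝ) / 2) *
        (2 + N + ‖ξ‖) ^ (-((n : ℝ) + 2))) := mul_assoc _ _ _
    _ ≤ (Fintype.card (J → Fin m) : ℝ) * (N⁻¹ * (1 + ‖ξ‖) ^ (-((n : ℝ) + 1 / 2))) :=
        mul_le_mul_of_nonneg_left (w_bound N hN ξ) (Nat.cast_nonneg _)

theorem ig_int (h1 : S_MGF) (hm : 1 ≤ m) (hN : 1 ≤ N) (hV : 0 < V) (hc : ∀ j, Continuous (b j))
    (hb : ∀ ξ, ∑ j, b j ξ ^ 2 ≤ V ^ 2 * (N + ‖ξ‖) ^ (-(2 * al))) (z : J → Fin m) :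
    Integrable (ig m al N V b z) := by
  refine (((int_base n).const_mul N⁻¹).const_mul (Fintype.card (J → Fin m) : ℝ)).mono' ?_ ?_
  · refine Continuous.aestronglyMeasurable ?_
    refine Continuous.mul (Real.continuous_cosh.comp ((lam_cont al _ N hN).mul ?_)) (w_cont N hN)
    exact continuous_finsetSum _ fun j _ => continuous_const.mul (hc j)
  · refine Eventually.of_forall fun ξ => ?_
    rw [Real.norm_eq_abs, abs_of_nonneg (ig_nonneg hN z ξ)]
    refine le_trans ?_ (ig_sum h1 hm hN hV hb ξ)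
    exact Finset.single_le_sum (f := fun z => ig m al N V b z ξ)
      (fun z _ => ig_nonneg hN z ξ) (Finset.mem_univ z)

theorem ig_mean (h1 : S_MGF) (hm : 1 ≤ m) (hN : 1 ≤ N) (hV : 0 < V) (hc : ∀ j, Continuous (b j))
    (hb : ∀ ξ, ∑ j, b j ξ ^ 2 ≤ V ^ 2 * (N + ‖ξ‖) ^ (-(2 * al))) :
    ∑ z : J → Fin m, ∫ ξ, ig m al N V b z ξ ≤
      (Fintype.card (J → Fin m) : ℝ) * (N⁻¹ * ∫ ξ : E n, (1 + ‖ξ‖) ^ (-((n : ℝ) + 1 / 2))) := by
  rw [← integral_finsetSum _ fun z _ => ig_int h1 hm hN hV hc hb z, ← integral_const_mul,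
    ← integral_const_mul]
  refine integral_mono (integrable_finsetSum _ fun z _ => ig_int h1 hm hN hV hc hb z)
    (((int_base n).const_mul _).const_mul _) fun ξ => ?_
  exact ig_sum h1 hm hN hV hb ξ

end fam

theorem re_sum_eq {J : Type} [Fintype J] {m n : ℕ} (z : J → Fin m) (a : J → E n → ℂ) (ξ : E n) :
    (∑ j, ((zet m (z j) : ℝ) : ℂ) * a j ξ).re = ∑ j, zet m (z j) * (a j ξ).re := by
  rw [Complex.re_sum]
  exact Finset.sum_congr rfl fun j _ => Complex.re_ofReal_mul _ _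

theorem im_sum_eq {J : Type} [Fintype J] {m n : ℕ} (z : J → Fin m) (a : J → E n → ℂ) (ξ : E n) :
    (∑ j, ((zet m (z j) : ℝ) : ℂ) * a j ξ).im = ∑ j, zet m (z j) * (a j ξ).im := by
  rw [Complex.im_sum]
  exact Finset.sum_congr rfl fun j _ => Complex.im_ofReal_mul _ _

end Pool.Agent.H197.GS.RNQ

namespace Pool.Agent.H197.GS

open MeasureTheory Set Metric Complex Filter Topology
open scoped ENNReal NNReal RealInnerProductSpace BigOperators ContDiff
open Pool.Agent.H197.PD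
open RNQ

theorem t_RNQ (h1 : S_MGF) (h2 : S_PT) : S_RNQ := by
  intro n al hn hal
  obtain ⟨K₀, hK₀⟩ : ∃ K₀ : ℝ, K₀ = 2 * (∫ ξ : E n, (1 + ‖ξ‖) ^ (-((n : ℝ) + 1 / 2))) + 1 :=
    ⟨_, rfl⟩
  have hI : 0 ≤ ∫ ξ : E n, (1 + ‖ξ‖) ^ (-((n : ℝ) + 1 / 2)) :=
    integral_nonneg fun ξ => Real.rpow_nonneg (by have := norm_nonneg ξ; linarith) _
  have hK₀pos : 0 < K₀ := by linarith
  obtain ⟨C, hC, hPT⟩ := h2 n al (2 * K₀) hn hal (by linarith)
  refine ⟨2 * C, by linarith, ?_⟩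
  intro J _ _ m hm N V hN hV Q hQ a s hs hac hsq hbd hlip
  have hm0 : (0 : ℝ) < m := by exact_mod_cast hm
  have hN0 : (0 : ℝ) < N := by linarith
  have : Nonempty (Fin m) := ⟨⟨0, hm⟩⟩
  have hre : ∀ q ξ, ∑ j, (a q j ξ).re ^ 2 ≤ V ^ 2 * (N + ‖ξ‖) ^ (-(2 * al)) := by
    intro q ξ
    refine le_trans (Finset.sum_le_sum fun j _ => ?_) (hsq q ξ)
    rw [← Complex.normSq_eq_norm_sq, Complex.normSq_apply]
    nlinarith [sq_nonneg (a q j ξ).im]
  have him : ∀ q ξ, ∑ j, (a q j ξ).im ^ 2 ≤ V ^ 2 * (N + ‖ξ‖) ^ (-(2 * al)) := by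
    intro q ξ
    refine le_trans (Finset.sum_le_sum fun j _ => ?_) (hsq q ξ)
    rw [← Complex.normSq_eq_norm_sq, Complex.normSq_apply]
    nlinarith [sq_nonneg (a q j ξ).re]
  have hcre : ∀ q j, Continuous (fun ξ => (a q j ξ).re) :=
    fun q j => Complex.continuous_re.comp (hac q j)
  have hcim : ∀ q j, Continuous (fun ξ => (a q j ξ).im) :=
    fun q j => Complex.continuous_im.comp (hac q j)
  have mre := fun q => ig_mean (b := fun j ξ => (a q j ξ).re) h1 hm hN hV (hcre q) (hre q)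
  have mim := fun q => ig_mean (b := fun j ξ => (a q j ξ).im) h1 hm hN hV (hcim q) (him q)
  have nre : ∀ q (z : J → Fin m), 0 ≤ ∫ ξ, ig m al N V (fun j ξ => (a q j ξ).re) z ξ := fun q z =>
    integral_nonneg fun ξ => ig_nonneg hN z ξ
  have nim : ∀ q (z : J → Fin m), 0 ≤ ∫ ξ, ig m al N V (fun j ξ => (a q j ξ).im) z ξ := fun q z =>
    integral_nonneg fun ξ => ig_nonneg hN z ξ
  have hXs : ∑ z : J → Fin m, (∑ j, if ((z j : Fin m) : ℕ) = 0 then s j else 0) ≤
      (Fintype.card (J → Fin m) : ℝ) * ((∑ j, s j) / m) := by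
    rw [Finset.sum_comm]
    have h3 : ∀ j, ∑ z : J → Fin m, (if ((z j : Fin m) : ℕ) = 0 then s j else 0) =
        s j * ((Fintype.card (J → Fin m) : ℝ) / m) := by
      intro j
      rw [← count hm j, mul_div_cancel_left₀ _ hm0.ne', Finset.mul_sum]
      refine Finset.sum_congr rfl fun z _ => ?_
      split_ifs
      · rw [mul_one]
      · rw [mul_zero]
    simp only [h3]
    rw [← Finset.sum_mul]
    apply le_of_eq
    ring
  have hYs : ∑ z : J → Fin m, (∑ q, ((∫ ξ, ig m al N V (fun j ξ => (a q j ξ).re) z ξ) +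
      ∫ ξ, ig m al N V (fun j ξ => (a q j ξ).im) z ξ)) ≤ (Fintype.card (J → Fin m) : ℝ) * K₀ := by
    rw [Finset.sum_comm]
    have h4 : (0 : ℝ) ≤ (Fintype.card (J → Fin m) : ℝ) := Nat.cast_nonneg _
    have h5 : ∀ q ∈ (Finset.univ : Finset (Fin Q)),
        ∑ z : J → Fin m, ((∫ ξ, ig m al N V (fun j ξ => (a q j ξ).re) z ξ) +
          ∫ ξ, ig m al N V (fun j ξ => (a q j ξ).im) z ξ) ≤
        (Fintype.card (J → Fin m) : ℝ) * (N⁻¹ * K₀) := by
      intro q _
      rw [Finset.sum_add_distrib, hK₀]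
      have h6 := mre q
      have h7 := mim q
      have h8 : 0 ≤ (Fintype.card (J → Fin m) : ℝ) * N⁻¹ := mul_nonneg h4 (inv_nonneg.2 hN0.le)
      nlinarith
    refine (Finset.sum_le_sum h5).trans ?_
    rw [Finset.sum_const, Finset.card_univ, Fintype.card_fin, nsmul_eq_mul]
    have h9 : (Q : ℝ) * N⁻¹ ≤ 1 := by
      rw [← div_eq_mul_inv, div_le_one hN0]
      exact hQ
    have h10 : (Q : ℝ) * ((Fintype.card (J → Fin m) : ℝ) * (N⁻¹ * K₀)) =
        ((Fintype.card (J → Fin m) : ℝ) * K₀) * ((Q : ℝ) * N⁻¹) := by ring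
    rw [h10]
    exact mul_le_of_le_one_right (mul_nonneg h4 hK₀pos.le) h9
  obtain ⟨z, hzX, hzY⟩ := sel (fun z : J → Fin m => ∑ j, if ((z j : Fin m) : ℕ) = 0 then s j else 0)
    (fun z => ∑ q, ((∫ ξ, ig m al N V (fun j ξ => (a q j ξ).re) z ξ) +
      ∫ ξ, ig m al N V (fun j ξ => (a q j ξ).im) z ξ))
    (fun z => Finset.sum_nonneg fun j _ => by
      split_ifs
      · exact hs j
      · exact le_rfl)
    (fun z => Finset.sum_nonneg fun q _ => add_nonneg (nre q z) (nim q z)) ((∑ j, s j) / m) K₀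
    (div_nonneg (Finset.sum_nonneg fun j _ => hs j) hm0.le) hK₀pos hXs hYs
  refine ⟨z, ?_, ?_⟩
  · refine hzX.trans (le_of_eq ?_)
    ring
  · intro q ξ
    have hD : 0 < (m : ℝ) * V := mul_pos hm0 hV
    have hq : (∫ ξ, ig m al N V (fun j ξ => (a q j ξ).re) z ξ) +
        (∫ ξ, ig m al N V (fun j ξ => (a q j ξ).im) z ξ) ≤ 2 * K₀ :=
      (Finset.single_le_sum (f := fun q => (∫ ξ, ig m al N V (fun j ξ => (a q j ξ).re) z ξ) +
        ∫ ξ, ig m al N V (fun j ξ => (a q j ξ).im) z ξ)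
        (fun q _ => add_nonneg (nre q z) (nim q z)) (Finset.mem_univ q)).trans hzY
    have e1 := hPT (fun ξ => (∑ j, ((zet m (z j) : ℝ) : ℂ) * a q j ξ).re) (m * V) N hD hN
      (fun ξ => (Complex.abs_re_le_norm _).trans (hbd q z ξ))
      (fun ξ ξ' => by
        rw [← Complex.sub_re]
        exact (Complex.abs_re_le_norm _).trans (hlip q z ξ ξ'))
      (by
        have h5 := ig_int (b := fun j ξ => (a q j ξ).re) h1 hm hN hV (hcre q) (hre q) z
        simp only [re_sum_eq]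
        exact h5)
      (by
        simp only [re_sum_eq]
        have h6 := nim q z
        have h7 : (∫ ξ, ig m al N V (fun j ξ => (a q j ξ).re) z ξ) ≤ 2 * K₀ := by
          linarith
        exact h7) ξ
    have e2 := hPT (fun ξ => (∑ j, ((zet m (z j) : ℝ) : ℂ) * a q j ξ).im) (m * V) N hD hN
      (fun ξ => (Complex.abs_im_le_norm _).trans (hbd q z ξ))
      (fun ξ ξ' => by
        rw [← Complex.sub_im]
        exact (Complex.abs_im_le_norm _).trans (hlip q z ξ ξ'))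
      (by
        have h5 := ig_int (b := fun j ξ => (a q j ξ).im) h1 hm hN hV (hcim q) (him q) z
        simp only [im_sum_eq]
        exact h5)
      (by
        simp only [im_sum_eq]
        have h6 := nre q z
        have h7 : (∫ ξ, ig m al N V (fun j ξ => (a q j ξ).im) z ξ) ≤ 2 * K₀ := by
          linarith
        exact h7) ξ
    refine (Complex.norm_le_abs_re_add_abs_im _).trans ?_
    have e3 := add_le_add e1 e2
    refine e3.trans (le_of_eq ?_)
    ring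

end Pool.Agent.H197.GS
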