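import Mathlib
import Pool.Agent.H197.GS.Stm
set_option autoImplicit false

/-!
# GS-SEP: sums over separated points by packing (written by helper553)
-/

namespace Pool.Agent.H197.GS

open MeasureTheory Set Metric
open Pool.Agent.H197.PD (E)

namespace SEP

theorem low {d : ℕ} (K : ℕ) (w z : E d) (s : ℝ) (hs1 : s ≤ 1) (hz : z ∈ ball w (s / 2)) :
    (3 / 2 : ℝ) ^ (-(K : ℝ)) * (1 + ‖w‖) ^ (-(K : ℝ)) ≤ (1 + ‖z‖) ^ (-(K : ℝ)) := by
  rw [mem_ball, dist_eq_norm] at hz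
  have h1 : ‖z‖ ≤ ‖w‖ + s / 2 := by
    have : ‖z‖ ≤ ‖z - w‖ + ‖w‖ := by
      calc ‖z‖ = ‖(z - w) + w‖ := by rw [sub_add_cancel]
        _ ≤ _ := norm_add_le _ _
    linarith
  have h2 : 1 + ‖z‖ ≤ (3 / 2) * (1 + ‖w‖) := by
    have := norm_nonneg w
    linarith
  have h3 : (0 : ℝ) < 1 + ‖z‖ := by
    have := norm_nonneg z
    linarith
  rw [← Real.mul_rpow (by norm_num) (by have := norm_nonneg w; linarith)]
  exact Real.rpow_le_rpow_of_nonpos h3 h2 (by simp)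

end SEP

open SEP in
theorem t_SEP : S_SEP := by
  intro d K hd hK
  obtain ⟨f, hf⟩ : ∃ f : E d → ℝ, f = fun z => (1 + ‖z‖) ^ (-(K : ℝ)) := ⟨_, rfl⟩
  have hfi : Integrable f volume := by
    rw [hf]
    refine integrable_one_add_norm ?_
    rw [finrank_euclideanSpace_fin]
    exact_mod_cast hK
  have hf0 : ∀ z, 0 ≤ f z := by
    intro z
    rw [hf]
    exact Real.rpow_nonneg (by have := norm_nonneg z; linarith) _
  obtain ⟨V, hV⟩ : ∃ V : ℝ, V = (volume : Measure (E d)).real (ball (0 : E d) 1) := ⟨_, rfl⟩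
  have hV0 : 0 < V := by
    rw [hV]
    exact ENNReal.toReal_pos (measure_ball_pos volume _ one_pos).ne' measure_ball_lt_top.ne
  obtain ⟨I, hI⟩ : ∃ I : ℝ, I = ∫ z, f z := ⟨_, rfl⟩
  have hI0 : 0 ≤ I := by
    rw [hI]
    exact integral_nonneg hf0
  refine ⟨(3 / 2 : ℝ) ^ (K : ℝ) * I * 2 ^ d / V + 1, by positivity, ?_⟩
  intro J A w s hs hs1 hsep
  have hvol : ∀ j, (volume : Measure (E d)).real (ball (w j) (s / 2)) = (s / 2) ^ d * V := by
    intro j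
    rw [hV, measureReal_def, measureReal_def, Measure.addHaar_ball_of_pos _ _ (by positivity),
      finrank_euclideanSpace_fin, ENNReal.toReal_mul, ENNReal.toReal_ofReal (by positivity)]
  have hdisj : Set.Pairwise (↑A) (Function.onFun Disjoint fun j => ball (w j) (s / 2)) := by
    intro j hj j' hj' hne
    refine ball_disjoint_ball ?_
    rw [dist_eq_norm]
    have := hsep j hj j' hj' hne
    linarith
  have h1 : ∫ z in ⋃ j ∈ A, ball (w j) (s / 2), f z = ∑ j ∈ A, ∫ z in ball (w j) (s / 2), f z :=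
    integral_biUnion_finset A (fun j _ => measurableSet_ball) hdisj fun j _ => hfi.integrableOn
  have h2 : ∫ z in ⋃ j ∈ A, ball (w j) (s / 2), f z ≤ I := by
    rw [hI]
    exact setIntegral_le_integral hfi (Filter.Eventually.of_forall hf0)
  have h3 : ∀ j ∈ A, (3 / 2 : ℝ) ^ (-(K : ℝ)) * f (w j) * ((s / 2) ^ d * V) ≤
      ∫ z in ball (w j) (s / 2), f z := by
    intro j _
    have h4 : ∫ _ in ball (w j) (s / 2), ((3 / 2 : ℝ) ^ (-(K : ℝ)) * f (w j)) =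
        (3 / 2 : ℝ) ^ (-(K : ℝ)) * f (w j) * ((s / 2) ^ d * V) := by
      rw [setIntegral_const, hvol j, smul_eq_mul]
      ring
    rw [← h4]
    refine setIntegral_mono_on ?_ hfi.integrableOn measurableSet_ball fun z hz => ?_
    · exact integrableOn_const measure_ball_lt_top.ne
    · rw [hf]
      exact low K (w j) z s hs1 hz
  have h5 : (3 / 2 : ℝ) ^ (-(K : ℝ)) * ((s / 2) ^ d * V) * ∑ j ∈ A, f (w j) ≤ I := by
    calc (3 / 2 : ℝ) ^ (-(K : ℝ)) * ((s / 2) ^ d * V) * ∑ j ∈ A, f (w j)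
        = ∑ j ∈ A, (3 / 2 : ℝ) ^ (-(K : ℝ)) * f (w j) * ((s / 2) ^ d * V) := by
          rw [Finset.mul_sum]
          exact Finset.sum_congr rfl fun j _ => by ring
      _ ≤ ∑ j ∈ A, ∫ z in ball (w j) (s / 2), f z := Finset.sum_le_sum h3
      _ = _ := h1.symm
      _ ≤ I := h2
  have hsd : s ^ (-(d : ℝ)) = (s ^ d)⁻¹ := by
    rw [Real.rpow_neg hs.le, Real.rpow_natCast]
  have hK2 : (3 / 2 : ℝ) ^ (-(K : ℝ)) = ((3 / 2 : ℝ) ^ (K : ℝ))⁻¹ := Real.rpow_neg (by norm_num) _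
  have hKp : (0 : ℝ) < (3 / 2 : ℝ) ^ (K : ℝ) := Real.rpow_pos_of_pos (by norm_num) _
  have h6 : ∑ j ∈ A, (1 + ‖w j‖) ^ (-(K : ℝ)) = ∑ j ∈ A, f (w j) := by rw [hf]
  rw [h6, hsd]
  rw [hK2, div_pow] at h5
  have hsd0 : 0 < s ^ d := by positivity
  have h7 : ∑ j ∈ A, f (w j) ≤ ((3 / 2 : ℝ) ^ (K : ℝ) * I * 2 ^ d / V) * (s ^ d)⁻¹ := by
    have h8 : ∑ j ∈ A, f (w j) = (((3 / 2 : ℝ) ^ (K : ℝ))⁻¹ * (s ^ d / 2 ^ d * V) *
        ∑ j ∈ A, f (w j)) * ((3 / 2 : ℝ) ^ (K : ℝ) * 2 ^ d / V * (s ^ d)⁻¹) := by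
      field_simp
    rw [h8]
    calc _ ≤ I * ((3 / 2 : ℝ) ^ (K : ℝ) * 2 ^ d / V * (s ^ d)⁻¹) :=
          mul_le_mul_of_nonneg_right h5 (by positivity)
      _ = _ := by ring
  calc ∑ j ∈ A, f (w j) ≤ ((3 / 2 : ℝ) ^ (K : ℝ) * I * 2 ^ d / V) * (s ^ d)⁻¹ := h7
    _ ≤ _ := mul_le_mul_of_nonneg_right (by linarith) (by positivity)

end Pool.Agent.H197.GS
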