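import Mathlib
import Pool.Agent.H197.GS.Stm2
set_option autoImplicit false

/-! # GS-SEQ (helper48 for helper197): one exceptional set for a sequence of densities and its linear span -/

namespace Pool.Agent.H197.GS

open MeasureTheory Set Metric Complex Filter Topology
open Pool.Agent.H197.PD (E kap chi vec zet dec S_KAP S_RAND S_MEMLP)
open scoped ENNReal NNReal RealInnerProductSpace BigOperators ContDiff

namespace SEQ

theorem ek_cont {d : ℕ} (γ : E d → ℝ) (hγ : Continuous γ) (x : E d) (t : ℝ) :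
    Continuous (ek γ x t) := by
  unfold ek
  fun_prop

theorem int_mul {d : ℕ} (γ : E d → ℝ) (hγ : Continuous γ) (x : E d) (t : ℝ) (h : E d → ℂ)
    (hc : Continuous h) (hs : HasCompactSupport h) :
    Integrable (fun y => h y * ek γ x t y) := by
  refine Continuous.integrable_of_hasCompactSupport (hc.mul (ek_cont γ hγ x t)) ?_
  exact hs.mul_right

theorem ex_zero {d : ℕ} (γ : E d → ℝ) : ex γ (0 : E d → ℂ) = 0 := by
  funext ξ
  unfold ex
  simp

theorem ex_add {d : ℕ} (γ : E d → ℝ) (hγ : Continuous γ) (h₁ h₂ : E d → ℂ)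
    (hc₁ : Continuous h₁) (hs₁ : HasCompactSupport h₁) (hc₂ : Continuous h₂)
    (hs₂ : HasCompactSupport h₂) : ex γ (h₁ + h₂) = ex γ h₁ + ex γ h₂ := by
  funext ξ
  rw [Pi.add_apply]
  unfold ex
  rw [← integral_add (int_mul γ hγ _ _ _ hc₁ hs₁) (int_mul γ hγ _ _ _ hc₂ hs₂)]
  congr 1
  funext y
  rw [Pi.add_apply, add_mul]

theorem ex_smul {d : ℕ} (γ : E d → ℝ) (a : ℂ) (h : E d → ℂ) :
    ex γ (a • h) = a • ex γ h := by
  funext ξ
  rw [Pi.smul_apply]
  unfold ex
  rw [← integral_smul]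
  congr 1
  funext y
  rw [Pi.smul_apply, smul_eq_mul, smul_eq_mul, mul_assoc]

theorem corr_zero {d : ℕ} (γ : E d → ℝ) (U Z : Set (E d)) : Corr γ U Z 0 := by
  refine ⟨0, continuous_zero, HasCompactSupport.zero, ?_, fun _ _ _ => rfl, ⟨0, ?_⟩, ?_⟩
  · rw [tsupport_eq_empty_iff.2 rfl]
    exact empty_subset _
  · intro ξ
    rw [ex_zero]
    simp
  · intro p _
    rw [ex_zero]
    exact MemLp.zero

theorem corr_add {d : ℕ} (γ : E d → ℝ) (hγ : Continuous γ) (U Z : Set (E d)) (f₁ f₂ : E d → ℂ)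
    (h₁ : Corr γ U Z f₁) (h₂ : Corr γ U Z f₂) : Corr γ U Z (f₁ + f₂) := by
  obtain ⟨a, ac, as, at', ae, ⟨A, aA⟩, am⟩ := h₁
  obtain ⟨b, bc, bs, bt, be, ⟨B, bB⟩, bm⟩ := h₂
  have hex := ex_add γ hγ a b ac as bc bs
  refine ⟨a + b, ac.add bc, as.add bs, (tsupport_add a b).trans (union_subset at' bt), ?_,
    ⟨A + B, ?_⟩, ?_⟩
  · intro y hy hz
    rw [Pi.add_apply, Pi.add_apply, ae y hy hz, be y hy hz]
  · intro ξ
    rw [hex, Pi.add_apply, add_mul]
    exact (norm_add_le _ _).trans (add_le_add (aA ξ) (bB ξ))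
  · intro p hp
    rw [hex]
    exact (am p hp).add (bm p hp)

theorem corr_smul {d : ℕ} (γ : E d → ℝ) (U Z : Set (E d)) (c : ℂ) (f : E d → ℂ)
    (h : Corr γ U Z f) : Corr γ U Z (c • f) := by
  obtain ⟨a, ac, as, at', ae, ⟨A, aA⟩, am⟩ := h
  have hsub : Function.support (c • a) ⊆ Function.support a :=
    Function.support_const_smul_subset c a
  refine ⟨c • a, ac.const_smul c, as.mono hsub, (closure_mono hsub).trans at', ?_,
    ⟨‖c‖ * A, ?_⟩, ?_⟩
  · intro y hy hz
    rw [Pi.smul_apply, Pi.smul_apply, ae y hy hz]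
  · intro ξ
    rw [ex_smul, Pi.smul_apply, norm_smul, mul_assoc]
    exact mul_le_mul_of_nonneg_left (aA ξ) (norm_nonneg c)
  · intro p hp
    rw [ex_smul]
    exact (am p hp).const_smul c

/-- truncation level -/
theorem level {d : ℕ} (U : Set (E d)) (hUo : IsOpen U) (hUb : Bornology.IsBounded U)
    (g : E d → ℂ) (hg : Measurable g) (e : ℝ) (he : 0 < e) :
    ∃ M : ℝ, 1 ≤ M ∧ volume {y | y ∈ U ∧ M < ‖g y‖} ≤ ENNReal.ofReal e := by
  let s : ℕ → Set (E d) := fun n => {y | y ∈ U ∧ (n : ℝ) < ‖g y‖}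
  have hm : ∀ n, MeasurableSet (s n) := fun n =>
    hUo.measurableSet.inter (measurableSet_lt measurable_const hg.norm)
  have hanti : Antitone s := by
    intro a b hab y hy
    refine ⟨hy.1, lt_of_le_of_lt ?_ hy.2⟩
    exact_mod_cast hab
  have hfin : ∃ i, volume (s i) ≠ (⊤ : ℝ≥0∞) := by
    have hsU : s 0 ⊆ U := fun y hy => hy.1
    exact ⟨0, ne_top_of_le_ne_top hUb.measure_lt_top.ne (measure_mono hsU)⟩
  have hlim := tendsto_measure_iInter_atTop (μ := volume) (s := s)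
    (fun n => (hm n).nullMeasurableSet) hanti hfin
  have hemp : ⋂ n, s n = ∅ := by
    refine eq_empty_iff_forall_notMem.2 fun y hy => ?_
    obtain ⟨n, hn⟩ := exists_nat_gt ‖g y‖
    have h1 := (mem_iInter.1 hy n).2
    linarith
  rw [hemp, measure_empty] at hlim
  have hpos : (0 : ℝ≥0∞) < ENNReal.ofReal e := ENNReal.ofReal_pos.2 he
  obtain ⟨n, hn⟩ := (hlim.eventually (gt_mem_nhds hpos)).exists
  refine ⟨(n : ℝ) + 1, by linarith [Nat.cast_nonneg (α := ℝ) n], ?_⟩
  refine le_trans (measure_mono ?_) hn.le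
  rintro y ⟨hy1, hy2⟩
  exact ⟨hy1, by linarith⟩

end SEQ

open SEQ in
theorem t_SEQ (hG : S_GNQ) (_hE : S_EXB) : S_SEQ := by
  intro d γ hd hγ U hUo hUb hfl g hg ε hε
  have hlev : ∀ i : ℕ, ∃ M : ℝ, 1 ≤ M ∧
      volume {y | y ∈ U ∧ M < ‖g i y‖} ≤ ENNReal.ofReal (ε / 2 / 2 / 2 ^ i) := fun i =>
    level U hUo hUb (g i) (hg i) _ (by positivity)
  choose M hM1 hMv using hlev
  have hM0 : ∀ i, 0 < M i := fun i => lt_of_lt_of_le one_pos (hM1 i)
  let c : ℕ → ℝ := fun i => (((i : ℝ) + 1) * M i)⁻¹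
  have hc0 : ∀ i, 0 < c i := fun i => by
    have h1 := hM0 i
    have h2 : (0 : ℝ) < (i : ℝ) + 1 := by positivity
    exact inv_pos.2 (mul_pos h2 h1)
  have hcM : ∀ i, c i * M i = 1 / ((i : ℝ) + 1) := fun i => by
    have h1 := (hM0 i).ne'
    have h2 : (i : ℝ) + 1 ≠ 0 := by positivity
    change (((i : ℝ) + 1) * M i)⁻¹ * M i = 1 / ((i : ℝ) + 1)
    field_simp
  classical
  let u : ℕ → E d → ℂ := fun i y => if ‖g i y‖ ≤ M i then ((c i : ℝ) : ℂ) * g i y else 0
  have hum : ∀ i, Measurable (u i) := fun i =>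
    Measurable.ite (measurableSet_le (hg i).norm measurable_const) ((hg i).const_mul _)
      measurable_const
  have hub : ∀ i y, ‖u i y‖ ≤ 1 / ((i : ℝ) + 1) := by
    intro i y
    change ‖(if ‖g i y‖ ≤ M i then ((c i : ℝ) : ℂ) * g i y else 0)‖ ≤ 1 / ((i : ℝ) + 1)
    split_ifs with h
    · rw [norm_mul, Complex.norm_real, Real.norm_of_nonneg (hc0 i).le, ← hcM i]
      exact mul_le_mul_of_nonneg_left h (hc0 i).le
    · rw [norm_zero]
      positivity
  have hub1 : ∀ i, ∀ y ∈ U, ‖u i y‖ ≤ 1 := by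
    intro i y _
    refine (hub i y).trans ?_
    rw [div_le_one (by positivity)]
    linarith [Nat.cast_nonneg (α := ℝ) i]
  have htb : TBd u U := by
    intro δ hδ
    obtain ⟨n, hn⟩ := exists_nat_one_div_lt (half_pos hδ)
    refine ⟨Finset.range (n + 1), fun i => ?_⟩
    by_cases hi : i ≤ n
    · refine ⟨i, Finset.mem_range.2 (by omega), fun y _ => ?_⟩
      rw [sub_self, norm_zero]
      exact hδ.le
    · refine ⟨n, Finset.mem_range.2 (by omega), fun y _ => ?_⟩
      have h1 : 1 / ((i : ℝ) + 1) ≤ 1 / ((n : ℝ) + 1) := by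
        refine one_div_le_one_div_of_le (by positivity) ?_
        have : (n : ℝ) ≤ i := by exact_mod_cast (not_le.1 hi).le
        linarith
      have h2 := hub i y
      have h3 := hub n y
      have h4 := norm_sub_le (u i y) (u n y)
      linarith
  have he0 : 0 < min ε 1 / 2 := half_pos (lt_min hε one_pos)
  have he1 : min ε 1 / 2 ≤ 1 := by
    have := min_le_right ε 1
    linarith
  obtain ⟨C, hC0, hC⟩ := hG d γ hd hγ U hUo hUb hfl (min ε 1 / 2) he0 he1
  obtain ⟨Z₀, hZm, hZv, hZ⟩ := hC ℕ u hum 1 one_pos hub1 htb (2 * ((d : ℝ) + 1) / d + 1)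
    (by linarith) 1 one_pos
  let B : ℕ → Set (E d) := fun i => {y | y ∈ U ∧ M i < ‖g i y‖}
  have hBm : ∀ i, MeasurableSet (B i) := fun i =>
    hUo.measurableSet.inter (measurableSet_lt measurable_const (hg i).norm)
  refine ⟨Z₀ ∪ ⋃ i, B i, hZm.union (MeasurableSet.iUnion hBm), ?_, ?_⟩
  · -- the measure of the exceptional set
    have h1 : volume (⋃ i, B i) ≤ ENNReal.ofReal (ε / 2) := by
      calc volume (⋃ i, B i) ≤ ∑' i, volume (B i) := measure_iUnion_le _
        _ ≤ ∑' i : ℕ, ENNReal.ofReal (ε / 2 / 2 / 2 ^ i) := ENNReal.tsum_le_tsum fun i => hMv i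
        _ = ENNReal.ofReal (∑' i : ℕ, ε / 2 / 2 / 2 ^ i) := by
            rw [ENNReal.ofReal_tsum_of_nonneg (fun i => by positivity)
              (summable_geometric_two' (ε / 2))]
        _ = ENNReal.ofReal (ε / 2) := by rw [tsum_geometric_two']
    calc volume (Z₀ ∪ ⋃ i, B i) ≤ volume Z₀ + volume (⋃ i, B i) := measure_union_le _ _
      _ ≤ ENNReal.ofReal (ε / 2) + ENNReal.ofReal (ε / 2) := by
          refine add_le_add (hZv.trans (ENNReal.ofReal_le_ofReal ?_)) h1
          have := min_le_left ε 1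
          linarith
      _ = ENNReal.ofReal ε := by
          rw [← ENNReal.ofReal_add (by positivity) (by positivity), add_halves]
  · intro f hf
    induction hf using Submodule.span_induction with
    | mem x hx =>
      obtain ⟨i, rfl⟩ := hx
      obtain ⟨h, hcont, hcs, hts, -, heq, hdec, hmem, -⟩ := hZ i
      have hcorr : Corr γ U (Z₀ ∪ ⋃ i, B i) (((c i : ℝ) : ℂ) • g i) := by
        refine ⟨h, hcont, hcs, hts, ?_, ⟨C * 1, hdec⟩, hmem⟩
        intro y hy hz
        have hz1 : y ∉ Z₀ := fun hh => hz (Or.inl hh)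
        have hz2 : ‖g i y‖ ≤ M i := by
          by_contra hh
          exact hz (Or.inr (mem_iUnion.2 ⟨i, hy, not_le.1 hh⟩))
        rw [heq y hy hz1]
        change (if ‖g i y‖ ≤ M i then ((c i : ℝ) : ℂ) * g i y else 0) = _
        rw [if_pos hz2, Pi.smul_apply, smul_eq_mul]
      have h2 := corr_smul γ U _ (((c i : ℝ) : ℂ)⁻¹) _ hcorr
      have hne : ((c i : ℝ) : ℂ) ≠ 0 := by exact_mod_cast (hc0 i).ne'
      rwa [smul_smul, inv_mul_cancel₀ hne, one_smul] at h2
    | zero => exact corr_zero γ U _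
    | add x y _ _ hx hy => exact corr_add γ hγ.continuous U _ x y hx hy
    | smul a x _ hx => exact corr_smul γ U _ a x hx

end Pool.Agent.H197.GS
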