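import Mathlib
import Pool.Agent.H197.GS.Stm
set_option autoImplicit false

/-!
# GS-SQA: the square function for `|t| ≤ N²` (by helper120)
-/

namespace Pool.Agent.H197.GS

open MeasureTheory Set Metric Complex Filter Topology
open Pool.Agent.H197.PD (E kap chi vec zet dec S_KAP S_RAND S_MEMLP)
open scoped ENNReal NNReal RealInnerProductSpace BigOperators ContDiff

namespace SQA

theorem kap_one : kap 1 = 1 := by
  unfold kap
  rw [Real.smoothTransition.one_of_one_le le_rfl, sub_self,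
    Real.smoothTransition.zero_of_nonpos le_rfl, sub_zero]

theorem chi_ones (d : ℕ) : chi d (WithLp.toLp 2 (fun _ => (1 : ℝ))) = 1 := by
  unfold chi
  refine Finset.prod_eq_one fun i _ => ?_
  change kap 1 = 1
  exact kap_one

/-- the gradient is bounded on balls -/
theorem grad_bound (d : ℕ) (γ : E d → ℝ) (hγ : ContDiff ℝ ∞ γ) (R : ℝ) :
    ∃ L : ℝ, 1 ≤ L ∧ ∀ y ∈ closedBall (0 : E d) R, ‖gradient γ y‖ ≤ L := by
  have h1 : Continuous (fderiv ℝ γ) := hγ.continuous_fderiv (by simp)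
  obtain ⟨C, hC⟩ := (isCompact_closedBall (0 : E d) R).exists_bound_of_continuousOn
    h1.continuousOn
  refine ⟨max 1 C, le_max_left _ _, fun y hy => ?_⟩
  unfold gradient
  rw [LinearIsometryEquiv.norm_map]
  exact (hC y hy).trans (le_max_right _ _)

/-- different lattice points have distance at least one -/
theorem vec_sep (d N : ℕ) (j j' : Fin d → Fin (2 * N + 4)) (h : j ≠ j') :
    1 ≤ ‖vec d N j - vec d N j'‖ := by
  obtain ⟨i, hi⟩ := Function.ne_iff.1 h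
  refine le_trans ?_ (PiLp.norm_apply_le (vec d N j - vec d N j') i)
  have h1 : (vec d N j - vec d N j').ofLp i = (((j i : ℕ) : ℝ)) - ((j' i : ℕ) : ℝ) := by
    change ((((j i : ℕ) : ℝ)) - ((N : ℝ) + 2)) - (((j' i : ℕ) : ℝ) - ((N : ℝ) + 2)) = _
    ring
  rw [h1, Real.norm_eq_abs]
  have h2 : ((j i : ℕ) : ℤ) - ((j' i : ℕ) : ℤ) ≠ 0 := by
    intro h3
    apply hi
    apply Fin.ext
    omega
  have h3 : (1 : ℤ) ≤ |((j i : ℕ) : ℤ) - ((j' i : ℕ) : ℤ)| := Int.one_le_abs h2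
  exact_mod_cast h3

theorem rp {a : ℝ} (ha : 0 ≤ a) (k : ℕ) : a ^ (-(k : ℝ)) = (a ^ k)⁻¹ := by
  rw [Real.rpow_neg ha, Real.rpow_natCast]

/-- the number of the cells -/
theorem card_le (d N R : ℕ) (hN : 1 ≤ N) (J : Finset (Fin d → Fin (2 * (N * R) + 4))) :
    (J.card : ℝ) ≤ (6 * (N : ℝ) * ((R : ℝ) + 1)) ^ d := by
  have h1 : J.card ≤ (2 * (N * R) + 4) ^ d := by
    have := Finset.card_le_univ J
    rwa [Fintype.card_fun, Fintype.card_fin, Fintype.card_fin] at this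
  have h2 : (J.card : ℝ) ≤ ((2 * (N * R) + 4 : ℕ) : ℝ) ^ d := by exact_mod_cast h1
  refine h2.trans (pow_le_pow_left₀ (by positivity) ?_ d)
  push_cast
  have hN' : (1 : ℝ) ≤ N := by exact_mod_cast hN
  have hR : (0 : ℝ) ≤ R := Nat.cast_nonneg R
  nlinarith [mul_nonneg (by linarith : (0 : ℝ) ≤ N) hR]

/-- the sum if all the terms have the same bound -/
theorem unif (d K N R : ℕ) (hK : d ≤ K) (hN : 1 ≤ N) (J : Finset (Fin d → Fin (2 * (N * R) + 4)))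
    (f : (Fin d → Fin (2 * (N * R) + 4)) → ℝ) (C₁ u Q B : ℝ) (hC₁ : 0 < C₁) (hu : 0 ≤ u)
    (hQ : 0 < Q) (hB : 0 < B) (hf0 : ∀ j ∈ J, 0 ≤ f j)
    (hf : ∀ j ∈ J, f j ≤ C₁ * ((N : ℝ)⁻¹) ^ d * ((1 + u) ^ K)⁻¹)
    (hQB : Q ≤ B * (N * (1 + u))) :
    ∑ j ∈ J, f j ^ 2 ≤ (6 * ((R : ℝ) + 1)) ^ d * C₁ ^ 2 * B ^ d * (Q ^ d)⁻¹ := by
  have hN' : (0 : ℝ) < N := by exact_mod_cast hN
  have hu1 : (1 : ℝ) ≤ 1 + u := by linarith
  have h1 : ∀ j ∈ J, f j ^ 2 ≤ C₁ ^ 2 * (((N : ℝ) ^ d)⁻¹ * ((N : ℝ) ^ d)⁻¹) * ((1 + u) ^ d)⁻¹ := by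
    intro j hj
    have h2 := pow_le_pow_left₀ (hf0 j hj) (hf j hj) 2
    refine h2.trans ?_
    have h3 : (C₁ * ((N : ℝ)⁻¹) ^ d * ((1 + u) ^ K)⁻¹) ^ 2 =
        C₁ ^ 2 * (((N : ℝ) ^ d)⁻¹ * ((N : ℝ) ^ d)⁻¹) * (((1 + u) ^ K)⁻¹ * ((1 + u) ^ K)⁻¹) := by
      rw [inv_pow]
      ring
    rw [h3]
    refine mul_le_mul_of_nonneg_left ?_ (by positivity)
    have h4 : ((1 + u) ^ K)⁻¹ ≤ ((1 + u) ^ d)⁻¹ :=
      inv_anti₀ (by positivity) (pow_le_pow_right₀ hu1 hK)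
    have h5 : ((1 + u) ^ K)⁻¹ ≤ 1 := inv_le_one_of_one_le₀ (one_le_pow₀ hu1)
    calc ((1 + u) ^ K)⁻¹ * ((1 + u) ^ K)⁻¹ ≤ 1 * ((1 + u) ^ d)⁻¹ :=
          mul_le_mul h5 h4 (by positivity) zero_le_one
      _ = ((1 + u) ^ d)⁻¹ := one_mul _
  have h2 := Finset.sum_le_sum h1
  rw [Finset.sum_const, nsmul_eq_mul] at h2
  refine h2.trans ?_
  have h3 := card_le d N R hN J
  calc (J.card : ℝ) * (C₁ ^ 2 * (((N : ℝ) ^ d)⁻¹ * ((N : ℝ) ^ d)⁻¹) * ((1 + u) ^ d)⁻¹)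
      ≤ (6 * (N : ℝ) * ((R : ℝ) + 1)) ^ d *
        (C₁ ^ 2 * (((N : ℝ) ^ d)⁻¹ * ((N : ℝ) ^ d)⁻¹) * ((1 + u) ^ d)⁻¹) :=
        mul_le_mul_of_nonneg_right h3 (by positivity)
    _ = (6 * ((R : ℝ) + 1)) ^ d * C₁ ^ 2 * (((N : ℝ) * (1 + u)) ^ d)⁻¹ := by
        rw [mul_pow, mul_pow, mul_pow, mul_pow]
        field_simp
    _ ≤ (6 * ((R : ℝ) + 1)) ^ d * C₁ ^ 2 * (B ^ d * (Q ^ d)⁻¹) := by
        refine mul_le_mul_of_nonneg_left ?_ (by positivity)
        rw [← div_eq_mul_inv, le_div_iff₀ (by positivity), inv_mul_le_iff₀ (by positivity),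
          ← mul_pow]
        refine pow_le_pow_left₀ hQ.le ?_ d
        linarith
    _ = (6 * ((R : ℝ) + 1)) ^ d * C₁ ^ 2 * B ^ d * (Q ^ d)⁻¹ := by ring

end SQA

open SQA

theorem t_SQA (hK : S_KAP) (hC : S_CAP) (hS : S_SEP) : S_SQA := by
  intro d γ hd hγ R c hc
  obtain ⟨C₁, hC₁, hcap⟩ := hC d γ hd hγ R (d + 1)
  obtain ⟨C₂, hC₂, hsep⟩ := hS d (d + 1) hd (Nat.lt_succ_self d)
  obtain ⟨L, hL1, hL⟩ := grad_bound d γ hγ R
  set c' : ℝ := min c 1 with hc'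
  have hc'0 : 0 < c' := lt_min hc one_pos
  have hc'1 : c' ≤ 1 := min_le_right _ _
  have hc'c : c' ≤ c := min_le_left _ _
  set B : ℝ := 2 + 2 * L with hB
  have hB0 : 0 < B := by linarith
  set A₁ : ℝ := (6 * ((R : ℝ) + 1)) ^ d * C₁ ^ 2 * B ^ d with hA₁
  set A₂ : ℝ := C₁ ^ 2 * C₂ * (c' ^ d)⁻¹ * B ^ d with hA₂
  have hR0 : (0 : ℝ) ≤ R := Nat.cast_nonneg R
  have hA₁0 : 0 < A₁ := by positivity
  have hA₂0 : 0 < A₂ := by positivity
  refine ⟨A₁ + A₂, by positivity, ?_⟩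
  intro U hU hexp N hN J hJ x t ht
  have hN' : (1 : ℝ) ≤ N := by exact_mod_cast hN
  have hN0 : (0 : ℝ) < N := by linarith
  set Q : ℝ := (N : ℝ) + ‖x‖ + |t| with hQ
  have hx0 := norm_nonneg x
  have ht0 := abs_nonneg t
  have hQ0 : 0 < Q := by linarith
  rw [rp hQ0.le]
  have hQi : 0 < (Q ^ d)⁻¹ := by positivity
  -- the centers
  have hy : ∀ j ∈ J, (N : ℝ)⁻¹ • vec d (N * R) j ∈ U := by
    intro j hj
    apply hJ j hj
    apply mem_closedBall_self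
    positivity
  have hyR : ∀ j ∈ J, ‖(N : ℝ)⁻¹ • vec d (N * R) j‖ ≤ R := by
    intro j hj
    have := hU (hy j hj)
    rwa [mem_closedBall_zero_iff] at this
  set g : (Fin d → Fin (2 * (N * R) + 4)) → E d := fun j =>
    gradient γ ((N : ℝ)⁻¹ • vec d (N * R) j) with hg
  have hgL : ∀ j ∈ J, ‖g j‖ ≤ L := fun j hj => hL _ (hU (hy j hj))
  have htN : |t| * ((N : ℝ)⁻¹) ^ 2 ≤ 1 := by
    rw [inv_pow, ← div_eq_mul_inv, div_le_one (by positivity)]
    exact ht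
  have hNi1 : (N : ℝ)⁻¹ ≤ 1 := inv_le_one_of_one_le₀ hN'
  have hcell : ∀ j ∈ J, ‖ca γ R N j x t‖ ≤
      C₁ * ((N : ℝ)⁻¹) ^ d * ((1 + (N : ℝ)⁻¹ * ‖x + t • g j‖) ^ (d + 1))⁻¹ := by
    intro j hj
    have h1 := hcap ((N : ℝ)⁻¹ • vec d (N * R) j) (hyR j hj) (N : ℝ)⁻¹ (by positivity) hNi1 x t
      htN 0 le_rfl zero_le_one (WithLp.toLp 2 (fun _ => (1 : ℝ)))
    rw [rp (by positivity)] at h1
    refine le_trans (le_of_eq ?_) h1
    unfold ca
    congr 1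
    refine integral_congr_ae (Filter.Eventually.of_forall fun y => ?_)
    dsimp only
    rw [inv_inv, smul_sub, smul_smul, mul_inv_cancel₀ hN0.ne', one_smul, zero_smul, zero_add,
      chi_ones, mul_one]
  by_cases hcase : 2 * L * |t| ≤ ‖x‖
  · -- `x` is large
    have h1 := unif d (d + 1) N R (Nat.le_succ d) hN J (fun j => ‖ca γ R N j x t‖) C₁
      ((N : ℝ)⁻¹ * (‖x‖ / 2)) Q B hC₁ (by positivity) hQ0 hB0 (fun j _ => norm_nonneg _) (by
        intro j hj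
        refine (hcell j hj).trans (mul_le_mul_of_nonneg_left ?_ (by positivity))
        refine inv_anti₀ (by positivity) (pow_le_pow_left₀ (by positivity) ?_ _)
        have h2 : ‖t • g j‖ ≤ |t| * L := by
          rw [norm_smul, Real.norm_eq_abs]
          exact mul_le_mul_of_nonneg_left (hgL j hj) ht0
        have h3 : ‖x‖ - ‖t • g j‖ ≤ ‖x + t • g j‖ := by
          have := norm_sub_norm_le x (-(t • g j))
          rwa [norm_neg, sub_neg_eq_add] at this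
        have h4 : ‖x‖ / 2 ≤ ‖x + t • g j‖ := by nlinarith
        have h5 := mul_le_mul_of_nonneg_left h4 (by positivity : 0 ≤ (N : ℝ)⁻¹)
        linarith) (by
        have h2 : (N : ℝ) * (1 + (N : ℝ)⁻¹ * (‖x‖ / 2)) = N + ‖x‖ / 2 := by
          field_simp
        rw [h2]
        have h3 : |t| ≤ ‖x‖ := by nlinarith
        have h4 : 4 * ((N : ℝ) + ‖x‖ / 2) ≤ B * (N + ‖x‖ / 2) :=
          mul_le_mul_of_nonneg_right (by linarith) (by positivity)
        linarith)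
    refine h1.trans ?_
    rw [← hA₁]
    exact mul_le_mul_of_nonneg_right (by linarith) hQi.le
  · push Not at hcase
    by_cases hcase2 : |t| ≤ N
    · -- `t` is small
      have h1 := unif d (d + 1) N R (Nat.le_succ d) hN J (fun j => ‖ca γ R N j x t‖) C₁
        0 Q B hC₁ le_rfl hQ0 hB0 (fun j _ => norm_nonneg _) (by
          intro j hj
          refine (hcell j hj).trans (mul_le_mul_of_nonneg_left ?_ (by positivity))
          refine inv_anti₀ (by positivity) (pow_le_pow_left₀ (by positivity) ?_ _)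
          have : 0 ≤ (N : ℝ)⁻¹ * ‖x + t • g j‖ := by positivity
          linarith) (by
          rw [add_zero, mul_one, hB]
          have h3 : 2 * L * |t| ≤ 2 * L * N :=
            mul_le_mul_of_nonneg_left hcase2 (by linarith)
          nlinarith)
      refine h1.trans ?_
      rw [← hA₁]
      exact mul_le_mul_of_nonneg_right (by linarith) hQi.le
    · push Not at hcase2
      -- separated points
      have htp : 0 < |t| := lt_trans hN0 hcase2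
      set s : ℝ := c' * (|t| * ((N : ℝ)⁻¹) ^ 2) with hs
      have hs0 : 0 < s := by positivity
      have hs1 : s ≤ 1 := by
        calc s ≤ 1 * 1 := mul_le_mul hc'1 htN (by positivity) zero_le_one
          _ = 1 := one_mul 1
      have h1 := hsep (Fin d → Fin (2 * (N * R) + 4)) J (fun j => (N : ℝ)⁻¹ • (x + t • g j)) s
        hs0 hs1 (by
          intro j hj j' hj' hne
          have e1 : (N : ℝ)⁻¹ • (x + t • g j) - (N : ℝ)⁻¹ • (x + t • g j') =
              ((N : ℝ)⁻¹ * t) • (g j - g j') := by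
            rw [← smul_sub, mul_smul]
            congr 1
            rw [smul_sub]
            abel
          rw [e1, norm_smul, norm_mul, Real.norm_eq_abs, Real.norm_eq_abs,
            abs_of_pos (by positivity : 0 < (N : ℝ)⁻¹)]
          have h2 := hexp _ (hy j hj) _ (hy j' hj')
          rw [← smul_sub, norm_smul, Real.norm_eq_abs,
            abs_of_pos (by positivity : 0 < (N : ℝ)⁻¹)] at h2
          have h3 := vec_sep d (N * R) j j' hne
          have h4 : c' * (N : ℝ)⁻¹ ≤ ‖g j - g j'‖ := by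
            refine le_trans ?_ h2
            calc c' * (N : ℝ)⁻¹ ≤ c * (N : ℝ)⁻¹ :=
                  mul_le_mul_of_nonneg_right hc'c (by positivity)
              _ = c * ((N : ℝ)⁻¹ * 1) := by ring
              _ ≤ c * ((N : ℝ)⁻¹ * ‖vec d (N * R) j - vec d (N * R) j'‖) :=
                  mul_le_mul_of_nonneg_left (mul_le_mul_of_nonneg_left h3 (by positivity)) hc.le
          calc s = (N : ℝ)⁻¹ * |t| * (c' * (N : ℝ)⁻¹) := by rw [hs]; ring
            _ ≤ (N : ℝ)⁻¹ * |t| * ‖g j - g j'‖ := mul_le_mul_of_nonneg_left h4 (by positivity))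
      have h2 : ∀ j ∈ J, ‖ca γ R N j x t‖ ^ 2 ≤ C₁ ^ 2 * (((N : ℝ) ^ d)⁻¹ * ((N : ℝ) ^ d)⁻¹) *
          (1 + ‖(N : ℝ)⁻¹ • (x + t • g j)‖) ^ (-((d + 1 : ℕ) : ℝ)) := by
        intro j hj
        rw [rp (by positivity), norm_smul, Real.norm_eq_abs,
          abs_of_pos (by positivity : 0 < (N : ℝ)⁻¹)]
        have h3 := pow_le_pow_left₀ (norm_nonneg _) (hcell j hj) 2
        refine h3.trans ?_
        set P : ℝ := ((1 + (N : ℝ)⁻¹ * ‖x + t • g j‖) ^ (d + 1))⁻¹ with hP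
        have hP0 : 0 < P := by positivity
        have hP1 : P ≤ 1 := by
          apply inv_le_one_of_one_le₀
          apply one_le_pow₀
          have : 0 ≤ (N : ℝ)⁻¹ * ‖x + t • g j‖ := by positivity
          linarith
        have h4 : (C₁ * ((N : ℝ)⁻¹) ^ d * P) ^ 2 =
            C₁ ^ 2 * (((N : ℝ) ^ d)⁻¹ * ((N : ℝ) ^ d)⁻¹) * (P * P) := by
          rw [inv_pow]
          ring
        rw [h4]
        refine mul_le_mul_of_nonneg_left ?_ (by positivity)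
        calc P * P ≤ 1 * P := mul_le_mul_of_nonneg_right hP1 hP0.le
          _ = P := one_mul P
      have h3 := Finset.sum_le_sum h2
      rw [← Finset.mul_sum] at h3
      refine h3.trans ?_
      have h4 : C₁ ^ 2 * (((N : ℝ) ^ d)⁻¹ * ((N : ℝ) ^ d)⁻¹) *
          ∑ j ∈ J, (1 + ‖(N : ℝ)⁻¹ • (x + t • g j)‖) ^ (-((d + 1 : ℕ) : ℝ)) ≤
          C₁ ^ 2 * (((N : ℝ) ^ d)⁻¹ * ((N : ℝ) ^ d)⁻¹) * (C₂ * (s ^ d)⁻¹) := by
        refine mul_le_mul_of_nonneg_left ?_ (by positivity)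
        rw [rp hs0.le] at h1
        exact h1
      refine h4.trans ?_
      have h5 : C₁ ^ 2 * (((N : ℝ) ^ d)⁻¹ * ((N : ℝ) ^ d)⁻¹) * (C₂ * (s ^ d)⁻¹) =
          C₁ ^ 2 * C₂ * (c' ^ d)⁻¹ * (|t| ^ d)⁻¹ := by
        rw [hs, mul_pow, mul_pow, inv_pow, inv_pow]
        field_simp
        ring
      rw [h5]
      have h6 : (|t| ^ d)⁻¹ ≤ B ^ d * (Q ^ d)⁻¹ := by
        rw [← div_eq_mul_inv, le_div_iff₀ (by positivity), inv_mul_le_iff₀ (by positivity),
          ← mul_pow]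
        refine pow_le_pow_left₀ hQ0.le ?_ d
        rw [hQ, hB]
        nlinarith
      calc C₁ ^ 2 * C₂ * (c' ^ d)⁻¹ * (|t| ^ d)⁻¹
          ≤ C₁ ^ 2 * C₂ * (c' ^ d)⁻¹ * (B ^ d * (Q ^ d)⁻¹) :=
            mul_le_mul_of_nonneg_left h6 (by positivity)
        _ = A₂ * (Q ^ d)⁻¹ := by rw [hA₂]; ring
        _ ≤ (A₁ + A₂) * (Q ^ d)⁻¹ := mul_le_mul_of_nonneg_right (by linarith) hQi.le

end Pool.Agent.H197.GS
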