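import Mathlib
import Pool.Agent.H197.GS.Stm
set_option autoImplicit false

/-!
# Project GS: the square function of the cells for `|t| > N²`
-/

namespace Pool.Agent.H197.GS.SQB

open MeasureTheory Set Metric Complex Filter Topology
open Pool.Agent.H197.PD (E kap chi vec zet dec S_KAP S_RAND S_MEMLP)
open scoped ENNReal NNReal RealInnerProductSpace BigOperators ContDiff

/-- the sum of the squares of sums with bounded overlap -/
theorem sumsq {ι κ : Type} [Finite ι] [Fintype κ] (J : Finset ι) (f : ι → κ → ℂ) (a : ι → ℂ)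
    (β : κ → ℝ) (T : Finset κ) (M : ℝ) (hβ : ∀ k, 0 ≤ β k) (ha : ∀ j ∈ J, a j = ∑ k, f j k)
    (hT : ∀ j ∈ J, ∀ k, f j k ≠ 0 → k ∈ T) (hf : ∀ j ∈ J, ∀ k, f j k ≠ 0 → ‖f j k‖ ≤ β k)
    (hM : ∀ k, ({j | f j k ≠ 0}.ncard : ℝ) ≤ M) :
    ∑ j ∈ J, ‖a j‖ ^ 2 ≤ M * (∑ k ∈ T, β k) ^ 2 := by
  classical
  have hle : ∀ j ∈ J, ∀ k, ‖f j k‖ ≤ β k := by
    intro j hj k
    by_cases h : f j k = 0
    · rw [h, norm_zero]
      exact hβ k
    · exact hf j hj k h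
  have h0 : ∀ j ∈ J, ‖a j‖ ≤ ∑ k ∈ T, ‖f j k‖ := by
    intro j hj
    rw [ha j hj]
    have h1 : ∑ k, f j k = ∑ k ∈ T, f j k :=
      (Finset.sum_subset (Finset.subset_univ T) fun k _ hk => by
        by_contra h
        exact hk (hT j hj k h)).symm
    rw [h1]
    exact norm_sum_le _ _
  have hS : 0 ≤ ∑ k ∈ T, β k := Finset.sum_nonneg fun k _ => hβ k
  have h1 : ∀ j ∈ J, ‖a j‖ ≤ ∑ k ∈ T, β k := fun j hj =>
    (h0 j hj).trans (Finset.sum_le_sum fun k _ => hle j hj k)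
  have h2 : ∀ k, ∑ j ∈ J, ‖f j k‖ ≤ M * β k := by
    intro k
    have e1 : ∑ j ∈ J.filter (fun j => f j k ≠ 0), ‖f j k‖ = ∑ j ∈ J, ‖f j k‖ :=
      Finset.sum_filter_of_ne fun j _ h => by
        intro h'
        rw [h', norm_zero] at h
        exact h rfl
    rw [← e1]
    have e2 : ((J.filter (fun j => f j k ≠ 0)).card : ℝ) ≤ M := by
      refine le_trans ?_ (hM k)
      rw [← Set.ncard_coe_finset]
      refine Nat.cast_le.2 (Set.ncard_le_ncard ?_ (Set.toFinite _))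
      intro j hj
      exact (Finset.mem_filter.1 (Finset.mem_coe.1 hj)).2
    calc ∑ j ∈ J.filter (fun j => f j k ≠ 0), ‖f j k‖
        ≤ ∑ j ∈ J.filter (fun j => f j k ≠ 0), β k :=
          Finset.sum_le_sum fun j hj => hle j (Finset.mem_filter.1 hj).1 k
      _ = ((J.filter (fun j => f j k ≠ 0)).card : ℝ) * β k := by
          rw [Finset.sum_const, nsmul_eq_mul]
      _ ≤ M * β k := mul_le_mul_of_nonneg_right e2 (hβ k)
  calc ∑ j ∈ J, ‖a j‖ ^ 2 ≤ ∑ j ∈ J, (∑ k ∈ T, β k) * ∑ k ∈ T, ‖f j k‖ := by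
        refine Finset.sum_le_sum fun j hj => ?_
        rw [sq]
        exact mul_le_mul (h1 j hj) (h0 j hj) (norm_nonneg _) hS
    _ = (∑ k ∈ T, β k) * ∑ k ∈ T, ∑ j ∈ J, ‖f j k‖ := by
        rw [← Finset.mul_sum, Finset.sum_comm]
    _ ≤ (∑ k ∈ T, β k) * ∑ k ∈ T, M * β k :=
        mul_le_mul_of_nonneg_left (Finset.sum_le_sum fun k _ => h2 k) hS
    _ = M * (∑ k ∈ T, β k) ^ 2 := by
        rw [← Finset.mul_sum]
        ring

/-- different lattice points have distance at least one -/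
theorem vec_sep (d N : ℕ) (k k' : Fin d → Fin (2 * N + 4)) (h : k ≠ k') :
    1 ≤ ‖vec d N k - vec d N k'‖ := by
  obtain ⟨i, hi⟩ := Function.ne_iff.1 h
  have h1 : ‖(vec d N k - vec d N k') i‖ ≤ ‖vec d N k - vec d N k'‖ := PiLp.norm_apply_le _ i
  refine le_trans ?_ h1
  have h2 : (vec d N k - vec d N k') i = (((k i : ℕ) : ℝ)) - ((k' i : ℕ) : ℝ) := by
    show (((k i : ℕ) : ℝ) - ((N : ℝ) + 2)) - (((k' i : ℕ) : ℝ) - ((N : ℝ) + 2)) = _
    ring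
  rw [h2, Real.norm_eq_abs]
  have h3 : ((k i : ℕ) : ℤ) - ((k' i : ℕ) : ℤ) ≠ 0 := by
    intro h4
    apply hi
    apply Fin.ext
    omega
  have h5 := Int.one_le_abs h3
  have h6 : ((1 : ℤ) : ℝ) ≤ ((|((k i : ℕ) : ℤ) - ((k' i : ℕ) : ℤ)| : ℤ) : ℝ) := by exact_mod_cast h5
  rw [Int.cast_abs] at h6
  push_cast at h6
  exact h6

/-- the gradient is bounded on balls -/
theorem grad_bdd {d : ℕ} {γ : E d → ℝ} (hγ : ContDiff ℝ ∞ γ) (R : ℝ) :
    ∃ L : ℝ, 1 ≤ L ∧ ∀ y ∈ closedBall (0 : E d) R, ‖gradient γ y‖ ≤ L := by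
  have hc : Continuous (gradient γ) := by
    have h1 : Continuous (fderiv ℝ γ) := hγ.continuous_fderiv (by simp)
    exact (InnerProductSpace.toDual ℝ (E d)).symm.continuous.comp h1
  obtain ⟨L, hL⟩ := (isCompact_closedBall (0 : E d) R).exists_bound_of_continuousOn hc.continuousOn
  exact ⟨max L 1, le_max_right _ _, fun y hy => (hL y hy).trans (le_max_left _ _)⟩

/-- the bound of the sub-cells -/
theorem cjk_le {d : ℕ} {γ : E d → ℝ} {R N N' K : ℕ} {r C t : ℝ} {x : E d}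
    (hC : ∀ y₀ : E d, ‖y₀‖ ≤ R → ∀ r : ℝ, 0 < r → r ≤ 1 → ∀ (x : E d) (t : ℝ), |t| * r ^ 2 ≤ 1 →
      ∀ lm : ℝ, 0 ≤ lm → lm ≤ 1 → ∀ w : E d,
      ‖∫ y, ((chi d (r⁻¹ • (y - y₀)) * chi d (lm • r⁻¹ • (y - y₀) + w) : ℝ) : ℂ) * ek γ x t y‖ ≤
        C * r ^ d * (1 + r * ‖x + t • gradient γ y₀‖) ^ (-(K : ℝ)))
    (hr : 0 < r) (hr1 : r ≤ 1) (hrN : r * N ≤ 1) (htr : |t| * r ^ 2 ≤ 1)
    (j : Fin d → Fin (2 * (N * R) + 4)) (k : Fin d → Fin (2 * N' + 4)) (hk : ‖r • vec d N' k‖ ≤ R) :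
    ‖cjk γ R N N' r j k x t‖ ≤
      C * r ^ d * (1 + ‖r • (x + t • gradient γ (r • vec d N' k))‖) ^ (-(K : ℝ)) := by
  have h := hC (r • vec d N' k) hk r hr hr1 x t htr (r * N) (by positivity) hrN
    ((r * N) • vec d N' k - vec d (N * R) j)
  rw [norm_smul, Real.norm_of_nonneg hr.le]
  refine le_trans (le_of_eq ?_) h
  unfold cjk
  congr 1
  refine integral_congr_ae (Filter.Eventually.of_forall fun y => ?_)
  have e1 : r⁻¹ • (y - r • vec d N' k) = r⁻¹ • y - vec d N' k := by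
    rw [smul_sub, smul_smul, inv_mul_cancel₀ hr.ne', one_smul]
  have e2 : (r * N) • (r⁻¹ • y - vec d N' k) + ((r * N) • vec d N' k - vec d (N * R) j) =
      (N : ℝ) • y - vec d (N * R) j := by
    rw [smul_sub, smul_smul, show r * (N : ℝ) * r⁻¹ = N by field_simp]
    abel
  show _ = _
  simp only [e1, e2]

/-- the sum over separated frequencies -/
theorem sig1 {d K N' : ℕ} {γ : E d → ℝ} {U : Set (E d)} {c r t C : ℝ} {x : E d}
    (hS : ∀ (J : Type) (A : Finset J) (w : J → E d) (s : ℝ), 0 < s → s ≤ 1 →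
      (∀ j ∈ A, ∀ j' ∈ A, j ≠ j' → s ≤ ‖w j - w j'‖) →
      ∑ j ∈ A, (1 + ‖w j‖) ^ (-(K : ℝ)) ≤ C * s ^ (-(d : ℝ)))
    (hexp : Expands γ U c) (hc : 0 < c) (hr : 0 < r) (htr : |t| * r ^ 2 = 1)
    (T : Finset (Fin d → Fin (2 * N' + 4))) (hT : ∀ k ∈ T, r • vec d N' k ∈ U) :
    ∑ k ∈ T, (1 + ‖r • (x + t • gradient γ (r • vec d N' k))‖) ^ (-(K : ℝ)) ≤
      C * (min c 1) ^ (-(d : ℝ)) := by
  refine hS _ T (fun k => r • (x + t • gradient γ (r • vec d N' k))) (min c 1)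
    (lt_min hc one_pos) (min_le_right _ _) fun k hk k' hk' hne => ?_
  refine (min_le_left _ _).trans ?_
  have h1 := hexp _ (hT k hk) _ (hT k' hk')
  rw [← smul_sub, norm_smul, Real.norm_of_nonneg hr.le] at h1
  have h2 : r • (x + t • gradient γ (r • vec d N' k)) - r • (x + t • gradient γ (r • vec d N' k')) =
      (r * t) • (gradient γ (r • vec d N' k) - gradient γ (r • vec d N' k')) := by
    rw [← smul_sub, add_sub_add_left_eq_sub, ← smul_sub, smul_smul]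
  show c ≤ ‖r • (x + t • gradient γ (r • vec d N' k)) - r • (x + t • gradient γ (r • vec d N' k'))‖
  rw [h2, norm_smul, Real.norm_eq_abs, abs_mul, abs_of_pos hr]
  have h3 := vec_sep d N' k k' hne
  calc c = (|t| * r ^ 2) * c := by rw [htr, one_mul]
    _ ≤ (|t| * r ^ 2) * c * ‖vec d N' k - vec d N' k'‖ := le_mul_of_one_le_right (by positivity) h3
    _ = r * |t| * (c * (r * ‖vec d N' k - vec d N' k'‖)) := by ring
    _ ≤ r * |t| * ‖gradient γ (r • vec d N' k) - gradient γ (r • vec d N' k')‖ :=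
        mul_le_mul_of_nonneg_left h1 (by positivity)

/-- the trivial bound of the sum when `x` is large -/
theorem sig2 {d K N' : ℕ} {γ : E d → ℝ} {r t L : ℝ} {x : E d} (hr : 0 < r)
    (hx : 2 * L * |t| ≤ ‖x‖)
    (T : Finset (Fin d → Fin (2 * N' + 4))) (hT : ∀ k ∈ T, ‖gradient γ (r • vec d N' k)‖ ≤ L) :
    ∑ k ∈ T, (1 + ‖r • (x + t • gradient γ (r • vec d N' k))‖) ^ (-(K : ℝ)) ≤
      ((2 * N' + 4 : ℕ) : ℝ) ^ d * (1 + r * ‖x‖ / 2) ^ (-(K : ℝ)) := by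
  have h1 : ∀ k ∈ T, (1 + ‖r • (x + t • gradient γ (r • vec d N' k))‖) ^ (-(K : ℝ)) ≤
      (1 + r * ‖x‖ / 2) ^ (-(K : ℝ)) := by
    intro k hk
    have h2 : ‖x‖ / 2 ≤ ‖x + t • gradient γ (r • vec d N' k)‖ := by
      have h3 : ‖t • gradient γ (r • vec d N' k)‖ ≤ ‖x‖ / 2 := by
        rw [norm_smul, Real.norm_eq_abs]
        have := mul_le_mul_of_nonneg_left (hT k hk) (abs_nonneg t)
        linarith
      have h4 := norm_sub_norm_le x (-(t • gradient γ (r • vec d N' k)))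
      rw [norm_neg, sub_neg_eq_add] at h4
      linarith
    refine Real.rpow_le_rpow_of_nonpos (by positivity) ?_ (by simp)
    rw [norm_smul, Real.norm_of_nonneg hr.le]
    have := mul_le_mul_of_nonneg_left h2 hr.le
    linarith
  have h0 : 0 ≤ (1 + r * ‖x‖ / 2) ^ (-(K : ℝ)) := Real.rpow_nonneg (by positivity) _
  calc _ ≤ ∑ k ∈ T, (1 + r * ‖x‖ / 2) ^ (-(K : ℝ)) := Finset.sum_le_sum h1
    _ = (T.card : ℝ) * (1 + r * ‖x‖ / 2) ^ (-(K : ℝ)) := by rw [Finset.sum_const, nsmul_eq_mul]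
    _ ≤ _ := by
        refine mul_le_mul_of_nonneg_right ?_ h0
        have h5 : T.card ≤ (2 * N' + 4) ^ d := by
          refine (Finset.card_le_univ T).trans (le_of_eq ?_)
          simp
        exact_mod_cast h5

end Pool.Agent.H197.GS.SQB

namespace Pool.Agent.H197.GS

open MeasureTheory Set Metric Complex Filter Topology
open Pool.Agent.H197.PD (E kap chi vec zet dec S_KAP S_RAND S_MEMLP)
open scoped ENNReal NNReal RealInnerProductSpace BigOperators ContDiff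

theorem t_SQB (hK : S_KAP) (hC : S_CAP) (hS : S_SEP) (hB : S_SUB) : S_SQB := by
  intro d γ hd hγ R c hc
  obtain ⟨C1, hC1, hcap⟩ := hC d γ hd hγ R (2 * d + 2)
  obtain ⟨C2, hC2, hsep⟩ := hS d (2 * d + 2) hd (by omega)
  obtain ⟨L, hL1, hL⟩ := SQB.grad_bdd hγ (R : ℝ)
  obtain ⟨A1, hA1⟩ : ∃ A1 : ℝ, A1 = C1 * (C2 * (min c 1) ^ (-(d : ℝ))) := ⟨_, rfl⟩
  obtain ⟨A2, hA2⟩ : ∃ A2 : ℝ, A2 = C1 * (2 * (R : ℝ) + 8) ^ d := ⟨_, rfl⟩
  have hA1p : 0 < A1 := by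
    rw [hA1]
    have : 0 < (min c 1) ^ (-(d : ℝ)) := Real.rpow_pos_of_pos (lt_min hc one_pos) _
    positivity
  have hA2p : 0 < A2 := by rw [hA2]; positivity
  refine ⟨4 ^ d * (A1 ^ 2 * (2 + 2 * L) ^ d + A2 ^ 2 * 12 ^ d), by positivity, ?_⟩
  intro U hU hexp N hN J hJ x t ht
  have hN1 : (1 : ℝ) ≤ N := by exact_mod_cast hN
  have ht0 : 0 < |t| := lt_of_le_of_lt (by positivity) ht
  obtain ⟨r, hr⟩ : ∃ r : ℝ, r = (√|t|)⁻¹ := ⟨_, rfl⟩
  have hst : 0 < √|t| := Real.sqrt_pos.2 ht0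
  have hr0 : 0 < r := by rw [hr]; positivity
  have htr : |t| * r ^ 2 = 1 := by
    rw [hr, inv_pow, Real.sq_sqrt ht0.le]
    exact mul_inv_cancel₀ ht0.ne'
  have hNs : (N : ℝ) < √|t| := by
    rw [← Real.sqrt_sq (show (0 : ℝ) ≤ N by positivity)]
    exact Real.sqrt_lt_sqrt (by positivity) ht
  have hrN : r * N ≤ 1 := by
    rw [hr, inv_mul_eq_div, div_le_one hst]
    exact hNs.le
  have hr1 : r ≤ 1 := by
    calc r = r * 1 := (mul_one r).symm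
      _ ≤ r * N := mul_le_mul_of_nonneg_left hN1 hr0.le
      _ ≤ 1 := hrN
  obtain ⟨N', hN'⟩ : ∃ N' : ℕ, N' = ⌈((R : ℝ) + 1) / r⌉₊ := ⟨_, rfl⟩
  have hN'1 : ((R : ℝ) + 1) / r ≤ N' := by rw [hN']; exact Nat.le_ceil _
  have hN'2 : (N' : ℝ) ≤ ((R : ℝ) + 1) / r + 1 := by
    rw [hN']
    exact (Nat.ceil_lt_add_one (by positivity)).le
  obtain ⟨b1, b2, b3⟩ := hB d R N N' r hd hN hr0 hrN hN'1 γ hγ.continuous x t
  classical
  obtain ⟨T, hTd⟩ : ∃ T : Finset (Fin d → Fin (2 * N' + 4)),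
      T = Finset.univ.filter (fun k => ∃ j ∈ J, cjk γ R N N' r j k x t ≠ 0) := ⟨_, rfl⟩
  have hTU : ∀ k ∈ T, r • vec d N' k ∈ U := by
    intro k hk
    rw [hTd, Finset.mem_filter] at hk
    obtain ⟨-, j, hj, hne⟩ := hk
    exact hJ j hj (b2 j k hne)
  have hTR : ∀ k ∈ T, r • vec d N' k ∈ closedBall (0 : E d) R := fun k hk => hU (hTU k hk)
  have hmain := SQB.sumsq J (fun j k => cjk γ R N N' r j k x t) (fun j => ca γ R N j x t)
    (fun k => C1 * r ^ d * (1 + ‖r • (x + t • gradient γ (r • vec d N' k))‖) ^ (-((2 * d + 2 : ℕ) : ℝ)))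
    T (4 ^ d) (fun k => by positivity) (fun j hj => b1 j ((hJ j hj).trans hU))
    (fun j hj k hne => by
      rw [hTd, Finset.mem_filter]
      exact ⟨Finset.mem_univ _, j, hj, hne⟩)
    (fun j hj k hne => by
      refine SQB.cjk_le hcap hr0 hr1 hrN htr.le j k ?_
      have := hU (hJ j hj (b2 j k hne))
      rwa [mem_closedBall_zero_iff] at this)
    (fun k => by exact_mod_cast b3 k)
  refine hmain.trans ?_
  rw [← Finset.mul_sum]
  -- the right side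
  obtain ⟨Z, hZ⟩ : ∃ Z : ℝ, Z = (N : ℝ) + ‖x‖ + |t| := ⟨_, rfl⟩
  have hZ0 : 0 < Z := by rw [hZ]; positivity
  rw [← hZ, Real.rpow_neg hZ0.le, Real.rpow_natCast]
  have hNt : (N : ℝ) ≤ |t| := by nlinarith
  have hZd : 0 < Z ^ d := by positivity
  have hB1 : 0 ≤ A1 ^ 2 * (2 + 2 * L) ^ d := by positivity
  have hB2 : 0 ≤ A2 ^ 2 * 12 ^ d := by positivity
  rw [mul_assoc ((4 : ℝ) ^ d)]
  refine mul_le_mul_of_nonneg_left ?_ (by positivity)
  rw [← div_eq_mul_inv, le_div_iff₀ hZd]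
  obtain ⟨G, hG⟩ : ∃ G : ℝ, G = C1 * r ^ d *
      ∑ k ∈ T, (1 + ‖r • (x + t • gradient γ (r • vec d N' k))‖) ^ (-((2 * d + 2 : ℕ) : ℝ)) := ⟨_, rfl⟩
  have hG0 : 0 ≤ G := by
    rw [hG]
    exact mul_nonneg (by positivity) (Finset.sum_nonneg fun k _ => by positivity)
  rw [← hG]
  rcases lt_or_ge ‖x‖ (2 * L * |t|) with hx | hx
  · have h1 := SQB.sig1 (x := x) hsep hexp hc hr0 htr T hTU
    have h2 : G ≤ A1 * r ^ d := by
      rw [hA1, hG]
      have := mul_le_mul_of_nonneg_left h1 (show 0 ≤ C1 * r ^ d by positivity)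
      linarith
    have h3 : r ^ 2 * Z ≤ 2 + 2 * L := by
      have : Z ≤ (2 + 2 * L) * |t| := by rw [hZ]; nlinarith
      calc r ^ 2 * Z ≤ r ^ 2 * ((2 + 2 * L) * |t|) := mul_le_mul_of_nonneg_left this (by positivity)
        _ = (2 + 2 * L) * (|t| * r ^ 2) := by ring
        _ = 2 + 2 * L := by rw [htr, mul_one]
    have h4 : (r ^ 2 * Z) ^ d ≤ (2 + 2 * L) ^ d := pow_le_pow_left₀ (by positivity) h3 d
    calc G ^ 2 * Z ^ d ≤ (A1 * r ^ d) ^ 2 * Z ^ d :=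
          mul_le_mul_of_nonneg_right (pow_le_pow_left₀ hG0 h2 2) hZd.le
      _ = A1 ^ 2 * (r ^ 2 * Z) ^ d := by ring
      _ ≤ A1 ^ 2 * (2 + 2 * L) ^ d := mul_le_mul_of_nonneg_left h4 (by positivity)
      _ ≤ _ := by linarith
  · have h1 := SQB.sig2 (K := 2 * d + 2) hr0 hx T fun k hk => hL _ (hTR k hk)
    obtain ⟨q, hq⟩ : ∃ q : ℝ, q = 1 + r * ‖x‖ / 2 := ⟨_, rfl⟩
    have hq1 : 1 ≤ q := by
      rw [hq]
      have : 0 ≤ r * ‖x‖ / 2 := by positivity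
      linarith
    rw [← hq, Real.rpow_neg (by linarith) ((2 * d + 2 : ℕ) : ℝ), Real.rpow_natCast] at h1
    have h5 : r * ((2 * N' + 4 : ℕ) : ℝ) ≤ 2 * R + 8 := by
      push_cast
      have h6 : r * (N' : ℝ) ≤ (R : ℝ) + 1 + r := by
        calc r * (N' : ℝ) ≤ r * (((R : ℝ) + 1) / r + 1) := mul_le_mul_of_nonneg_left hN'2 hr0.le
          _ = (R : ℝ) + 1 + r := by field_simp
      nlinarith
    have hq0 : 0 < q := by linarith
    have hrd : 0 ≤ C1 * r ^ d := by positivity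
    have h7 : G ≤ A2 * (q ^ (2 * d + 2))⁻¹ := by
      rw [hA2, hG]
      refine (mul_le_mul_of_nonneg_left h1 hrd).trans ?_
      calc C1 * r ^ d * (((2 * N' + 4 : ℕ) : ℝ) ^ d * (q ^ (2 * d + 2))⁻¹)
          = C1 * (r * ((2 * N' + 4 : ℕ) : ℝ)) ^ d * (q ^ (2 * d + 2))⁻¹ := by
            rw [mul_pow]
            ring
        _ ≤ C1 * (2 * (R : ℝ) + 8) ^ d * (q ^ (2 * d + 2))⁻¹ := by
            refine mul_le_mul_of_nonneg_right (mul_le_mul_of_nonneg_left ?_ hC1.le) (by positivity)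
            exact pow_le_pow_left₀ (by positivity) h5 d
    have htx : |t| ≤ ‖x‖ := by nlinarith
    have hrx : ‖x‖ ≤ (r * ‖x‖) ^ 2 := by
      have h8 : r ^ 2 * |t| ≤ r ^ 2 * ‖x‖ := mul_le_mul_of_nonneg_left htx (by positivity)
      have h9 : 1 ≤ r ^ 2 * ‖x‖ := by linarith
      calc ‖x‖ = 1 * ‖x‖ := (one_mul _).symm
        _ ≤ r ^ 2 * ‖x‖ * ‖x‖ := mul_le_mul_of_nonneg_right h9 (norm_nonneg _)
        _ = (r * ‖x‖) ^ 2 := by ring
    have hZq : Z ≤ 12 * q ^ 2 := by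
      have h10 : 0 ≤ r * ‖x‖ := by positivity
      have h11 : Z ≤ 3 * ‖x‖ := by rw [hZ]; linarith
      have h12 : (r * ‖x‖) ^ 2 ≤ 4 * q ^ 2 := by
        rw [hq]
        nlinarith
      linarith
    have h13 : Z ^ d ≤ 12 ^ d * q ^ (2 * d) := by
      calc Z ^ d ≤ (12 * q ^ 2) ^ d := pow_le_pow_left₀ hZ0.le hZq d
        _ = 12 ^ d * q ^ (2 * d) := by rw [mul_pow, ← pow_mul]
    have h14 : ((q ^ (2 * d + 2))⁻¹) ^ 2 * q ^ (2 * d) ≤ 1 := by
      rw [inv_pow, ← pow_mul, inv_mul_le_iff₀ (by positivity), mul_one]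
      exact pow_le_pow_right₀ hq1 (by omega)
    calc G ^ 2 * Z ^ d ≤ (A2 * (q ^ (2 * d + 2))⁻¹) ^ 2 * Z ^ d :=
          mul_le_mul_of_nonneg_right (pow_le_pow_left₀ hG0 h7 2) hZd.le
      _ ≤ (A2 * (q ^ (2 * d + 2))⁻¹) ^ 2 * (12 ^ d * q ^ (2 * d)) :=
          mul_le_mul_of_nonneg_left h13 (by positivity)
      _ = A2 ^ 2 * 12 ^ d * (((q ^ (2 * d + 2))⁻¹) ^ 2 * q ^ (2 * d)) := by ring
      _ ≤ A2 ^ 2 * 12 ^ d * 1 := mul_le_mul_of_nonneg_left h14 (by positivity)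
      _ ≤ _ := by linarith

end Pool.Agent.H197.GS
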