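import Mathlib
import Pool.Agent.H197.GS.Stm
set_option autoImplicit false

/-! # Project GS: auxiliary lemmas for the one-step theorem -/

namespace Pool.Agent.H197.GS

open MeasureTheory Set Metric Complex Filter Topology
open Pool.Agent.H197.PD (E kap chi vec zet dec S_KAP S_RAND S_MEMLP)
open scoped ENNReal NNReal RealInnerProductSpace BigOperators ContDiff

namespace STG

/-- monotonicity of the bound -/
theorem mono {s' s al : ℝ} (h1 : 1 ≤ s') (h2 : s' ≤ s) (hal : 1 / 2 ≤ al) :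
    √(Real.log (2 + s)) * s ^ (-al) ≤ √(Real.log (2 + s')) * s' ^ (-al) := by
  have hs' : 0 < s' := by linarith
  have hs : 0 < s := by linarith
  have he : Real.exp 1 ≤ 3 := by
    have := Real.exp_one_lt_d9
    linarith
  have h3 : Real.log (2 + s) / (2 + s) ≤ Real.log (2 + s') / (2 + s') :=
    Real.log_div_self_antitoneOn (show Real.exp 1 ≤ 2 + s' by linarith)
      (show Real.exp 1 ≤ 2 + s by linarith) (by linarith)
  have hl' : 0 < Real.log (2 + s') := Real.log_pos (by linarith)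
  have h4 : Real.log (2 + s) ≤ (s / s') * Real.log (2 + s') := by
    rw [div_le_div_iff₀ (by linarith) (by linarith)] at h3
    have h5 : Real.log (2 + s) ≤ Real.log (2 + s') * ((2 + s) / (2 + s')) := by
      rw [← mul_div_assoc, le_div_iff₀ (by linarith)]
      exact h3
    refine h5.trans ?_
    rw [mul_comm]
    refine mul_le_mul_of_nonneg_right ?_ hl'.le
    rw [div_le_div_iff₀ (by linarith) hs']
    nlinarith
  have hq : 1 ≤ s / s' := by rw [le_div_iff₀ hs']; linarith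
  have h5 : √(Real.log (2 + s)) ≤ (s / s') ^ al * √(Real.log (2 + s')) := by
    calc √(Real.log (2 + s)) ≤ √((s / s') * Real.log (2 + s')) := Real.sqrt_le_sqrt h4
      _ = √(s / s') * √(Real.log (2 + s')) := Real.sqrt_mul (by positivity) _
      _ ≤ _ := by
        refine mul_le_mul_of_nonneg_right ?_ (Real.sqrt_nonneg _)
        rw [Real.sqrt_eq_rpow]
        exact Real.rpow_le_rpow_of_exponent_le hq hal
  calc √(Real.log (2 + s)) * s ^ (-al)
      ≤ ((s / s') ^ al * √(Real.log (2 + s'))) * s ^ (-al) :=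
        mul_le_mul_of_nonneg_right h5 (by positivity)
    _ = √(Real.log (2 + s')) * s' ^ (-al) := by
        rw [Real.div_rpow hs.le hs'.le, Real.rpow_neg hs.le, Real.rpow_neg hs'.le]
        have h6 : s ^ al ≠ 0 := (Real.rpow_pos_of_pos hs _).ne'
        field_simp

theorem small (al δ : ℝ) (hal : 1 / 2 ≤ al) (hδ : 0 < δ) :
    ∃ N0 : ℕ, ∀ N : ℕ, N0 ≤ N → √(Real.log (2 + (N : ℝ))) * (N : ℝ) ^ (-al) ≤ δ := by
  have h1 : Tendsto (fun x : ℝ => Real.log x / x) atTop (𝓝 0) := by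
    have := Real.isLittleO_log_id_atTop.tendsto_div_nhds_zero
    simpa using this
  have h2 : ∀ᶠ x : ℝ in atTop, Real.log x / x ≤ δ ^ 2 / 3 :=
    (h1.eventually (gt_mem_nhds (show (0:ℝ) < δ ^ 2 / 3 by positivity))).mono fun x hx => hx.le
  obtain ⟨X, hX⟩ := eventually_atTop.1 h2
  refine ⟨max 1 ⌈X⌉₊, fun N hN => ?_⟩
  have hN1 : (1 : ℝ) ≤ N := by exact_mod_cast (le_max_left _ _).trans hN
  have hNX : X ≤ N := by
    have : (⌈X⌉₊ : ℝ) ≤ N := by exact_mod_cast (le_max_right _ _).trans hN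
    exact (Nat.le_ceil X).trans this
  have h3 := hX (2 + N) (by linarith)
  have hN0 : (0 : ℝ) < N := by linarith
  rw [div_le_iff₀ (by linarith)] at h3
  have h4 : Real.log (2 + (N : ℝ)) ≤ δ ^ 2 * N := by nlinarith [sq_nonneg δ]
  have h5 : √(Real.log (2 + (N : ℝ))) ≤ δ * √(N : ℝ) := by
    calc √(Real.log (2 + (N : ℝ))) ≤ √(δ ^ 2 * N) := Real.sqrt_le_sqrt h4
      _ = _ := by rw [Real.sqrt_mul (by positivity), Real.sqrt_sq hδ.le]
  calc √(Real.log (2 + (N : ℝ))) * (N : ℝ) ^ (-al) ≤ δ * √(N : ℝ) * (N : ℝ) ^ (-(1 / 2) : ℝ) := by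
        refine mul_le_mul h5 ?_ (by positivity) (by positivity)
        exact Real.rpow_le_rpow_of_exponent_le hN1 (by linarith)
    _ = δ := by
        rw [Real.sqrt_eq_rpow, mul_assoc, ← Real.rpow_add hN0]
        norm_num

theorem dec_le {d : ℕ} (hd : 1 ≤ d) (N : ℝ) (hN : 1 ≤ N) (ξ : E (d + 1)) :
    √(Real.log (2 + N + ‖ξ‖)) * (N + ‖ξ‖) ^ (-((d : ℝ) / 2)) ≤ 2 * dec (d + 1) ξ := by
  have hd2 : (1 : ℝ) ≤ d := by exact_mod_cast hd
  have h0 := norm_nonneg ξ
  have h1 := mono (s' := 1 + ‖ξ‖) (s := N + ‖ξ‖) (al := (d : ℝ) / 2) (by linarith)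
    (by linarith) (by linarith)
  rw [← add_assoc] at h1
  refine h1.trans ?_
  unfold dec
  have e1 : (((d + 1 : ℕ) : ℝ) - 1) / 2 = (d : ℝ) / 2 := by push_cast; ring
  rw [e1, ← mul_assoc]
  refine mul_le_mul_of_nonneg_right ?_ (by positivity)
  have h2 : Real.log (2 + (1 + ‖ξ‖)) ≤ 2 ^ 2 * Real.log (2 + ‖ξ‖) := by
    have h3 : Real.log (2 + (1 + ‖ξ‖)) ≤ Real.log ((2 + ‖ξ‖) ^ 4) := by
      refine Real.log_le_log (by linarith) ?_
      have h4 : (2 + ‖ξ‖) ^ 2 ≤ (2 + ‖ξ‖) ^ 4 :=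
        pow_le_pow_right₀ (by linarith) (by norm_num)
      nlinarith
    rw [Real.log_pow] at h3
    push_cast at h3
    linarith
  calc √(Real.log (2 + (1 + ‖ξ‖))) ≤ √(2 ^ 2 * Real.log (2 + ‖ξ‖)) := Real.sqrt_le_sqrt h2
    _ = _ := by rw [Real.sqrt_mul (by positivity), Real.sqrt_sq (by norm_num)]

theorem abs_zet (m : ℕ) (hm : 1 ≤ m) (w : Fin m) : |zet m w| ≤ m := by
  have hm1 : (1 : ℝ) ≤ m := by exact_mod_cast hm
  unfold zet
  split_ifs
  · rw [abs_le]; constructor <;> linarith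
  · rw [abs_one]; exact hm1

theorem chi_cont (hk : Continuous kap) (n : ℕ) : Continuous (chi n) := by
  unfold chi
  refine continuous_finsetProd _ fun i _ => hk.comp ?_
  fun_prop

theorem chi_nonneg (h0 : ∀ t, 0 ≤ kap t) (n : ℕ) (x : E n) : 0 ≤ chi n x :=
  Finset.prod_nonneg fun _ _ => h0 _

/-- the lattice point of the cell -/
noncomputable def pt {d : ℕ} (R N : ℕ) (j : Fin d → Fin (2 * (N * R) + 4)) : E d :=
  (N : ℝ)⁻¹ • vec d (N * R) j

theorem mem_ball (hs : ∀ t, kap t ≠ 0 → 0 < t ∧ t < 2) {d R N : ℕ} (hd : 1 ≤ d) (hN : 1 ≤ N)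
    (j : Fin d → Fin (2 * (N * R) + 4)) (y : E d)
    (hy : chi d ((N : ℝ) • y - vec d (N * R) j) ≠ 0) :
    y ∈ closedBall (pt R N j) (4 * (d : ℝ) / N) := by
  have hN0 : (0 : ℝ) < N := by exact_mod_cast hN
  have hd1 : (1 : ℝ) ≤ d := by exact_mod_cast hd
  have h1 : ∀ i, |((N : ℝ) • y - vec d (N * R) j) i| ≤ 2 := by
    intro i
    have h2 := hs _ (Finset.prod_ne_zero_iff.1 hy i (Finset.mem_univ _))
    rw [abs_le]; constructor <;> linarith [h2.1, h2.2]
  have h3 : ‖(N : ℝ) • y - vec d (N * R) j‖ ≤ 4 * d := by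
    rw [EuclideanSpace.norm_eq]
    have h4 : ∑ i, ‖((N : ℝ) • y - vec d (N * R) j) i‖ ^ 2 ≤ (4 * d) ^ 2 := by
      calc ∑ i, ‖((N : ℝ) • y - vec d (N * R) j) i‖ ^ 2 ≤ ∑ _i : Fin d, (2 : ℝ) ^ 2 := by
            refine Finset.sum_le_sum fun i _ => ?_
            exact pow_le_pow_left₀ (norm_nonneg _) (h1 i) 2
        _ ≤ _ := by
            rw [Finset.sum_const, Finset.card_univ, Fintype.card_fin, nsmul_eq_mul]
            nlinarith
    calc √(∑ i, ‖((N : ℝ) • y - vec d (N * R) j) i‖ ^ 2) ≤ √((4 * d) ^ 2) :=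
          Real.sqrt_le_sqrt h4
      _ = 4 * d := Real.sqrt_sq (by positivity)
  rw [mem_closedBall, dist_eq_norm]
  have h5 : y - pt R N j = (N : ℝ)⁻¹ • ((N : ℝ) • y - vec d (N * R) j) := by
    unfold pt
    rw [smul_sub, smul_smul, inv_mul_cancel₀ hN0.ne', one_smul]
  rw [h5, norm_smul, norm_inv, Real.norm_of_nonneg hN0.le, inv_mul_eq_div]
  exact div_le_div_of_nonneg_right h3 hN0.le

theorem resc {d R N : ℕ} (hR : 1 ≤ R) (y : E d) :
    ((N * R : ℕ) : ℝ) • ((R : ℝ)⁻¹ • y) = (N : ℝ) • y := by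
  have hR0 : (R : ℝ) ≠ 0 := by positivity
  rw [smul_smul]
  congr 1
  push_cast
  field_simp

theorem partn (hK : S_KAP) {d R N : ℕ} (hR : 1 ≤ R) (y : E d) (hy : ‖y‖ ≤ R) :
    ∑ j, chi d ((N : ℝ) • y - vec d (N * R) j) = 1 := by
  have hR0 : (0 : ℝ) < R := by exact_mod_cast hR
  have h1 := hK.2.1 d (N * R) ((R : ℝ)⁻¹ • y) (by
    rw [norm_smul, norm_inv, Real.norm_of_nonneg hR0.le, inv_mul_eq_div, div_le_one hR0]
    exact hy)
  rw [resc hR] at h1
  exact h1

theorem overl (hK : S_KAP) {d R N : ℕ} (hR : 1 ≤ R) (y : E d) :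
    {j : Fin d → Fin (2 * (N * R) + 4) | chi d ((N : ℝ) • y - vec d (N * R) j) ≠ 0}.ncard ≤ 2 ^ d := by
  have h1 := hK.2.2 d (N * R) ((R : ℝ)⁻¹ • y)
  rw [resc hR] at h1
  exact h1

/-- the supports of the cells -/
def supp {d : ℕ} (R N : ℕ) (j : Fin d → Fin (2 * (N * R) + 4)) : Set (E d) :=
  {y | chi d ((N : ℝ) • y - vec d (N * R) j) ≠ 0}

theorem cell_cont (hk : Continuous kap) {d : ℕ} (R N : ℕ) (j : Fin d → Fin (2 * (N * R) + 4)) :
    Continuous fun y : E d => chi d ((N : ℝ) • y - vec d (N * R) j) :=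
  (chi_cont hk d).comp (by fun_prop)

theorem supp_meas (hk : Continuous kap) {d : ℕ} (R N : ℕ) (j : Fin d → Fin (2 * (N * R) + 4)) :
    MeasurableSet (supp R N j) :=
  (isOpen_ne_fun (cell_cont hk R N j) continuous_const).measurableSet

/-- the measure on the big ball -/
noncomputable def mu (d R : ℕ) : Measure (E d) := volume.restrict (closedBall 0 (R : ℝ))

instance mu_fin (d R : ℕ) : IsFiniteMeasure (mu d R) := by
  unfold mu
  exact ⟨by rw [Measure.restrict_apply_univ]; exact measure_closedBall_lt_top⟩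

theorem supp_sum (hK : S_KAP) {d R N : ℕ} (hR : 1 ≤ R) :
    ∑ j : Fin d → Fin (2 * (N * R) + 4), (mu d R).real (supp R N j) ≤
      2 ^ d * (mu d R).real univ := by
  classical
  have hk : Continuous kap := hK.1.1.continuous
  have hm := supp_meas hk (d := d) R N
  have h1 : ∀ j : Fin d → Fin (2 * (N * R) + 4), (mu d R).real (supp R N j) =
      ∫ x, (supp R N j).indicator (fun _ => (1 : ℝ)) x ∂(mu d R) := by
    intro j
    rw [integral_indicator (hm j), integral_const, smul_eq_mul, mul_one,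
      measureReal_restrict_apply_univ]
  rw [Finset.sum_congr rfl fun j _ => h1 j, ← integral_finsetSum]
  · calc ∫ x, ∑ j : Fin d → Fin (2 * (N * R) + 4),
          (supp R N j).indicator (fun _ => (1 : ℝ)) x ∂(mu d R)
        ≤ ∫ _x, (2 : ℝ) ^ d ∂(mu d R) := by
          refine integral_mono (integrable_finsetSum _ fun j _ => ?_) (integrable_const _) fun x => ?_
          · exact (integrable_const (1 : ℝ)).indicator (hm j)
          · simp only [indicator_apply]
            rw [Finset.sum_ite, Finset.sum_const_zero, add_zero, Finset.sum_const, nsmul_eq_mul,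
              mul_one]
            have h2 := overl hK (N := N) hR x
            rw [Set.ncard_eq_toFinset_card'] at h2
            have h3 : (Finset.univ.filter fun j : Fin d → Fin (2 * (N * R) + 4) => x ∈ supp R N j) =
                ({j : Fin d → Fin (2 * (N * R) + 4) |
                  chi d ((N : ℝ) • x - vec d (N * R) j) ≠ 0}).toFinset := by
              ext j
              simp [supp]
            rw [h3]
            exact_mod_cast h2
      _ = _ := by rw [integral_const, smul_eq_mul, mul_comm]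
  · exact fun j _ => (integrable_const (1 : ℝ)).indicator (hm j)

theorem ek_norm {d : ℕ} (γ : E d → ℝ) (x : E d) (t : ℝ) (y : E d) : ‖ek γ x t y‖ = 1 := by
  unfold ek
  have h : (-((⟪x, y⟫ + t * γ y : ℝ) : ℂ) * I) = ((-(⟪x, y⟫ + t * γ y) : ℝ) : ℂ) * I := by
    push_cast; ring
  rw [h, Complex.norm_exp_ofReal_mul_I]

theorem ek_cont {d : ℕ} {γ : E d → ℝ} (hγ : Continuous γ) (x : E d) (t : ℝ) :
    Continuous (ek γ x t) := by
  unfold ek
  fun_prop

theorem ek_int {d : ℕ} {γ : E d → ℝ} (hγ : Continuous γ) {h : E d → ℂ} (hh : Integrable h)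
    (x : E d) (t : ℝ) : Integrable fun y => h y * ek γ x t y := by
  have h1 : Integrable fun y => ek γ x t y * h y := by
    refine hh.bdd_mul (c := 1) (ek_cont hγ x t).aestronglyMeasurable ?_
    exact Eventually.of_forall fun y => (ek_norm γ x t y).le
  refine h1.congr (Eventually.of_forall fun y => ?_)
  simp only
  ring

theorem norm_le_split {d : ℕ} (ξ : E (d + 1)) : ‖ξ‖ ≤ ‖fx ξ‖ + |fl ξ| := by
  have h1 : ‖ξ‖ ^ 2 = ‖fx ξ‖ ^ 2 + |fl ξ| ^ 2 := by
    rw [EuclideanSpace.norm_sq_eq, EuclideanSpace.norm_sq_eq, Fin.sum_univ_castSucc]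
    rfl
  have h2 := norm_nonneg (fx ξ)
  have h3 := abs_nonneg (fl ξ)
  have h4 := norm_nonneg ξ
  nlinarith

end STG

end Pool.Agent.H197.GS
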