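import Mathlib
import Pool.Agent.H197.GS.STGa
set_option autoImplicit false

/-! # Project GS: the one-step theorem from the lemmas -/

namespace Pool.Agent.H197.GS

open MeasureTheory Set Metric Complex Filter Topology
open Pool.Agent.H197.PD (E kap chi vec zet dec S_KAP S_RAND S_MEMLP)
open scoped ENNReal NNReal RealInnerProductSpace BigOperators ContDiff

namespace STG

/-- the pieces of the density -/
noncomputable def pc {d : ℕ} (F : E d → ℂ) (R N : ℕ) (j : Fin d → Fin (2 * (N * R) + 4)) (y : E d) : ℂ :=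
  F (pt R N j) * ((chi d ((N : ℝ) • y - vec d (N * R) j) : ℝ) : ℂ)

/-- the multiplied density -/
noncomputable def Hz {d : ℕ} (F : E d → ℂ) (R N m : ℕ)
    (z : (Fin d → Fin (2 * (N * R) + 4)) → Fin m) (y : E d) : ℂ :=
  ∑ j, ((zet m (z j) : ℝ) : ℂ) * pc F R N j y

theorem pc_cont (hk : Continuous kap) {d : ℕ} (F : E d → ℂ) (R N : ℕ)
    (j : Fin d → Fin (2 * (N * R) + 4)) : Continuous (pc F R N j) := by
  unfold pc
  exact continuous_const.mul (Complex.continuous_ofReal.comp (cell_cont hk R N j))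

theorem Hz_cont (hk : Continuous kap) {d : ℕ} (F : E d → ℂ) (R N m : ℕ)
    (z : (Fin d → Fin (2 * (N * R) + 4)) → Fin m) : Continuous (Hz F R N m z) := by
  unfold Hz
  exact continuous_finsetSum _ fun j _ => continuous_const.mul (pc_cont hk F R N j)

/-- the cells are well inside -/
def Ins {d : ℕ} (F : E d → ℂ) (U : Set (E d)) (R N : ℕ) : Prop :=
  ∀ j : Fin d → Fin (2 * (N * R) + 4), F (pt R N j) ≠ 0 →
    closedBall (pt R N j) (4 * (d : ℝ) / N) ⊆ U

theorem pc_zero (hK : S_KAP) {d : ℕ} (hd : 1 ≤ d) {F : E d → ℂ} {U : Set (E d)} {R N : ℕ}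
    (hN : 1 ≤ N) (hI : Ins F U R N) (j : Fin d → Fin (2 * (N * R) + 4)) (y : E d) (hy : y ∉ U) :
    pc F R N j y = 0 := by
  unfold pc
  by_cases h1 : F (pt R N j) = 0
  · rw [h1, zero_mul]
  · by_cases h2 : chi d ((N : ℝ) • y - vec d (N * R) j) = 0
    · rw [h2]; simp
    · exact absurd (hI j h1 (mem_ball hK.1.2.2.2 hd hN j y h2)) hy

theorem Hz_zero (hK : S_KAP) {d : ℕ} (hd : 1 ≤ d) {F : E d → ℂ} {U : Set (E d)} {R N : ℕ}
    (hN : 1 ≤ N) (hI : Ins F U R N) (m : ℕ) (z : (Fin d → Fin (2 * (N * R) + 4)) → Fin m)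
    (y : E d) (hy : y ∉ U) : Hz F R N m z y = 0 := by
  unfold Hz
  refine Finset.sum_eq_zero fun j _ => ?_
  rw [pc_zero hK hd hN hI j y hy, mul_zero]

theorem comp_int {d : ℕ} {f : E d → ℂ} (hf : Continuous f) (R : ℝ) (h0 : ∀ y, R < ‖y‖ → f y = 0) :
    Integrable f := by
  have hc : HasCompactSupport f := by
    refine HasCompactSupport.intro (isCompact_closedBall (0 : E d) R) fun y hy => ?_
    apply h0
    simpa using hy
  exact hf.integrable_of_hasCompactSupport hc

theorem Hz_le (hK : S_KAP) {d : ℕ} (hd : 1 ≤ d) {F : E d → ℂ} {U : Set (E d)} {R N : ℕ}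
    (hR : 1 ≤ R) (hN : 1 ≤ N) (hU : U ⊆ closedBall 0 R) (hI : Ins F U R N) (m : ℕ) (hm : 1 ≤ m)
    (z : (Fin d → Fin (2 * (N * R) + 4)) → Fin m) (B : ℝ) (hB : 0 ≤ B)
    (hb : ∀ y, ‖F y‖ ≤ B) (y : E d) : ‖Hz F R N m z y‖ ≤ m * B := by
  by_cases hy : y ∈ U
  · have hyR : ‖y‖ ≤ R := by simpa using hU hy
    obtain ⟨⟨kc, k0, k1, ks⟩, part, hov⟩ := id hK
    unfold Hz
    refine (norm_sum_le _ _).trans ?_
    calc ∑ j, ‖((zet m (z j) : ℝ) : ℂ) * pc F R N j y‖
        ≤ ∑ j, ((m : ℝ) * B) * chi d ((N : ℝ) • y - vec d (N * R) j) := by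
          refine Finset.sum_le_sum fun j _ => ?_
          unfold pc
          rw [norm_mul, norm_mul, Complex.norm_real, Complex.norm_real, Real.norm_eq_abs,
            Real.norm_of_nonneg (chi_nonneg k0 d _), ← mul_assoc]
          refine mul_le_mul_of_nonneg_right ?_ (chi_nonneg k0 d _)
          exact mul_le_mul (abs_zet m hm _) (hb _) (norm_nonneg _) (by positivity)
      _ = m * B := by rw [← Finset.mul_sum, partn hK hR y hyR, mul_one]
  · rw [Hz_zero hK hd hN hI m z y hy, norm_zero]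
    positivity

theorem Hz_ne {d : ℕ} (F : E d → ℂ) (R N m : ℕ)
    (z : (Fin d → Fin (2 * (N * R) + 4)) → Fin m) :
    {y : E d | Hz F R N m z y ≠ ∑ j, pc F R N j y} ⊆
      ⋃ j ∈ (Finset.univ.filter fun j => ((z j : Fin m) : ℕ) = 0), supp R N j := by
  intro y hy
  by_contra hc
  apply hy
  simp only [mem_iUnion, Finset.mem_filter, Finset.mem_univ, true_and, exists_prop, not_exists,
    not_and] at hc
  unfold Hz
  refine Finset.sum_congr rfl fun j _ => ?_
  by_cases h : ((z j : Fin m) : ℕ) = 0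
  · have h2 := hc j h
    simp only [supp, mem_ofPred_eq, ne_eq, not_not] at h2
    unfold pc
    rw [h2]; simp
  · unfold zet
    rw [if_neg h]; simp

theorem ex_pc {d : ℕ} (γ : E d → ℝ) (F : E d → ℂ) (R N : ℕ)
    (j : Fin d → Fin (2 * (N * R) + 4)) (ξ : E (d + 1)) :
    ex γ (pc F R N j) ξ = F (pt R N j) * ca γ R N j (fx ξ) (fl ξ) := by
  unfold ex ca pc
  rw [← integral_const_mul]
  refine integral_congr_ae (Eventually.of_forall fun y => ?_)
  simp only
  ring

end STG

open STG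

theorem t_STG (hK : S_KAP) (hA : S_SQA) (hB : S_SQB) (hN : S_RAND) (hX : S_APX) (hD : S_DISC)
    (hE : S_EXB) : S_STG := by
  classical
  intro d γ hd hγ R c hR hc
  obtain ⟨CA, hCA, hsa⟩ := hA d γ hd hγ R c hc
  obtain ⟨CB, hCB, hsb⟩ := hB d γ hd hγ R c hc
  obtain ⟨L, hL, hex⟩ := hE d γ hγ.continuous R
  have hk : Continuous kap := hK.1.1.continuous
  have hd1 : (1 : ℝ) ≤ d := by exact_mod_cast hd
  obtain ⟨Cr, hCr, hr⟩ := hN (d + 1) ((d : ℝ) / 2) (by omega) (by positivity)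
  obtain ⟨S, hS⟩ : ∃ S : ℝ, S = (mu d R).real univ := ⟨_, rfl⟩
  have hS0 : 0 ≤ S := hS ▸ measureReal_nonneg
  set K2 : ℝ := √(CA + CB) + (S + L * S) with hK2
  have hK20 : 0 < K2 := by
    have : 0 < √(CA + CB) := Real.sqrt_pos.2 (by linarith)
    positivity
  set Cm : ℝ := 2 ^ (d + 2) * S + 2 with hCm
  have hCm0 : 0 < Cm := by positivity
  refine ⟨2 * Cm + 4 * Cr * K2 * Cm, by positivity, ?_⟩
  intro U hUo hUR hUc M hM φ hφ hb ε hε hε1 ρ hρ η hη
  have hUb : Bornology.IsBounded U := isBounded_closedBall.subset hUR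
  obtain ⟨F, hFc, hFs, hFU, hFb, hFv⟩ := hX d U hUo hUb M hM φ hφ hb (ρ / 2) (by positivity)
    (ε / 2) (by positivity)
  obtain ⟨N0, hN01, hN0⟩ := hD d R hd hR U hUo hUR F hFc hFs hFU (ρ / 2) (by positivity)
  set m : ℕ := ⌈2 ^ (d + 2) * S / ε⌉₊ + 1 with hm
  have hm1 : 1 ≤ m := by omega
  have hmR : (1 : ℝ) ≤ m := by exact_mod_cast hm1
  have hm3 : 2 ^ (d + 2) * S / ε ≤ m := by
    rw [hm]; push_cast
    linarith [Nat.le_ceil (2 ^ (d + 2) * S / ε)]
  have hm4 : (m : ℝ) ≤ Cm / ε := by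
    rw [hm]; push_cast
    have h1 := (Nat.ceil_lt_add_one (show 0 ≤ 2 ^ (d + 2) * S / ε by positivity)).le
    have h2 : (2 : ℝ) ≤ 2 / ε := by
      rw [le_div_iff₀ hε]; linarith
    rw [hCm, add_div]
    linarith
  set B : ℝ := 2 * M with hBdef
  have hB0 : 0 < B := by positivity
  set V : ℝ := K2 * B with hV
  have hV0 : 0 < V := by positivity
  have hP : 0 < Cr * (m * V) := by positivity
  obtain ⟨N1, hN1⟩ := small ((d : ℝ) / 2) (η / (Cr * (m * V))) (by linarith) (by positivity)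
  obtain ⟨N, hNdef⟩ : ∃ N : ℕ, N = max N0 N1 := ⟨_, rfl⟩
  have hNN0 : N0 ≤ N := hNdef ▸ le_max_left _ _
  have hNN1 : N1 ≤ N := hNdef ▸ le_max_right _ _
  have hN1' : 1 ≤ N := hN01.trans hNN0
  have hNR : (1 : ℝ) ≤ N := by exact_mod_cast hN1'
  obtain ⟨hI0, hdisc⟩ := hN0 N hNN0
  have hI : Ins F U R N := hI0
  have hbd : ∀ (z : (Fin d → Fin (2 * (N * R) + 4)) → Fin m) y, ‖Hz F R N m z y‖ ≤ m * B :=
    fun z y => Hz_le hK hd hR hN1' hUR hI m hm1 z B hB0.le hFb y
  have hout : ∀ y : E d, (R : ℝ) < ‖y‖ → y ∉ U := by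
    intro y hy hyU
    have : ‖y‖ ≤ R := by simpa using hUR hyU
    linarith
  have hHint : ∀ (z : (Fin d → Fin (2 * (N * R) + 4)) → Fin m), Integrable (Hz F R N m z) :=
    fun z => comp_int (Hz_cont hk F R N m z) R fun y hy => Hz_zero hK hd hN1' hI m z y (hout y hy)
  have hpint : ∀ j, Integrable (pc F R N j) := fun j =>
    comp_int (pc_cont hk F R N j) R fun y hy => pc_zero hK hd hN1' hI j y (hout y hy)
  have hnorm : ∀ (z : (Fin d → Fin (2 * (N * R) + 4)) → Fin m),
      ∫ y, ‖Hz F R N m z y‖ ≤ m * B * S := by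
    intro z
    have h1 : ∫ y, ‖Hz F R N m z y‖ = ∫ y, ‖Hz F R N m z y‖ ∂(mu d R) := by
      unfold mu
      symm
      apply setIntegral_eq_integral_of_forall_compl_eq_zero
      intro y hy
      rw [Hz_zero hK hd hN1' hI m z y (hout y (by simpa using hy)), norm_zero]
    rw [h1]
    calc ∫ y, ‖Hz F R N m z y‖ ∂(mu d R) ≤ ∫ _y, (m : ℝ) * B ∂(mu d R) := by
          refine integral_mono ?_ (integrable_const _) (hbd z)
          unfold mu
          exact (hHint z).norm.integrableOn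
      _ = _ := by rw [integral_const, smul_eq_mul, ← hS, mul_comm]
  have hexH : ∀ (z : (Fin d → Fin (2 * (N * R) + 4)) → Fin m) (ξ : E (d + 1)),
      ex γ (Hz F R N m z) ξ = ∑ j, ((zet m (z j) : ℝ) : ℂ) * ex γ (pc F R N j) ξ := by
    intro z ξ
    unfold ex Hz
    have h1 : ∀ y, (∑ j, ((zet m (z j) : ℝ) : ℂ) * pc F R N j y) * ek γ (fx ξ) (fl ξ) y =
        ∑ j, ((zet m (z j) : ℝ) : ℂ) * (pc F R N j y * ek γ (fx ξ) (fl ξ) y) := by
      intro y
      rw [Finset.sum_mul]
      exact Finset.sum_congr rfl fun j _ => by ring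
    rw [integral_congr_ae (Eventually.of_forall h1), integral_finsetSum]
    · exact Finset.sum_congr rfl fun j _ => integral_const_mul _ _
    · exact fun j _ => (ek_int hγ.continuous (hpint j) _ _).const_mul _
  obtain ⟨z, hz1, hz2⟩ := hr (Fin d → Fin (2 * (N * R) + 4)) m hm1 N V hNR hV0
    (fun j => ex γ (pc F R N j)) (fun j => (mu d R).real (supp R N j))
    (fun j => measureReal_nonneg)
    (fun j => (hex _ (hpint j) fun y hy => pc_zero hK hd hN1' hI j y (hout y hy)).2.2)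
    (by
      intro ξ
      set J : Finset (Fin d → Fin (2 * (N * R) + 4)) :=
        Finset.univ.filter fun j => F (pt R N j) ≠ 0 with hJ
      have hins : Inside U R N J := by
        intro j hj
        exact hI j (Finset.mem_filter.1 hj).2
      have h1 : ∑ j ∈ J, ‖ca γ R N j (fx ξ) (fl ξ)‖ ^ 2 ≤
          (CA + CB) * ((N : ℝ) + ‖fx ξ‖ + |fl ξ|) ^ (-(d : ℝ)) := by
        have h0 : 0 ≤ ((N : ℝ) + ‖fx ξ‖ + |fl ξ|) ^ (-(d : ℝ)) := by positivity
        rcases le_or_gt |fl ξ| ((N : ℝ) ^ 2) with h | h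
        · refine (hsa U hUR hUc N hN1' J hins (fx ξ) (fl ξ) h).trans ?_
          exact mul_le_mul_of_nonneg_right (by linarith) h0
        · refine (hsb U hUR hUc N hN1' J hins (fx ξ) (fl ξ) h).trans ?_
          exact mul_le_mul_of_nonneg_right (by linarith) h0
      have h2 : ∑ j, ‖ex γ (pc F R N j) ξ‖ ^ 2 ≤
          ∑ j ∈ J, B ^ 2 * ‖ca γ R N j (fx ξ) (fl ξ)‖ ^ 2 := by
        rw [hJ, Finset.sum_filter]
        refine Finset.sum_le_sum fun j _ => ?_
        rw [ex_pc]
        split_ifs with h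
        · rw [norm_mul, mul_pow]
          exact mul_le_mul_of_nonneg_right (pow_le_pow_left₀ (norm_nonneg _) (hFb _) 2)
            (by positivity)
        · rw [not_not.1 h, zero_mul, norm_zero]; simp
      refine h2.trans ?_
      rw [← Finset.mul_sum]
      have e1 : -(2 * ((d : ℝ) / 2)) = -(d : ℝ) := by ring
      rw [e1]
      have h3 : ((N : ℝ) + ‖fx ξ‖ + |fl ξ|) ^ (-(d : ℝ)) ≤ ((N : ℝ) + ‖ξ‖) ^ (-(d : ℝ)) := by
        apply Real.rpow_le_rpow_of_nonpos
        · positivity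
        · linarith [norm_le_split ξ]
        · linarith
      calc B ^ 2 * ∑ j ∈ J, ‖ca γ R N j (fx ξ) (fl ξ)‖ ^ 2
          ≤ B ^ 2 * ((CA + CB) * ((N : ℝ) + ‖ξ‖) ^ (-(d : ℝ))) := by
            refine mul_le_mul_of_nonneg_left (h1.trans ?_) (by positivity)
            exact mul_le_mul_of_nonneg_left h3 (by linarith)
        _ = (√(CA + CB) * B) ^ 2 * ((N : ℝ) + ‖ξ‖) ^ (-(d : ℝ)) := by
            rw [mul_pow (√(CA + CB)) B, Real.sq_sqrt (by linarith)]; ring
        _ ≤ V ^ 2 * ((N : ℝ) + ‖ξ‖) ^ (-(d : ℝ)) := by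
            refine mul_le_mul_of_nonneg_right ?_ (by positivity)
            refine pow_le_pow_left₀ (by positivity) ?_ 2
            rw [hV]
            refine mul_le_mul_of_nonneg_right ?_ hB0.le
            rw [hK2]
            have : 0 ≤ S + L * S := by positivity
            linarith)
    (by
      intro z ξ
      have h1 := (hex _ (hHint z) fun y hy => Hz_zero hK hd hN1' hI m z y (hout y hy)).1 ξ
      rw [hexH] at h1
      refine h1.trans ((hnorm z).trans ?_)
      rw [hV, hK2, mul_assoc]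
      refine mul_le_mul_of_nonneg_left ?_ (by positivity)
      have h2 : 0 ≤ √(CA + CB) * B := by positivity
      have h3 : 0 ≤ L * S * B := by positivity
      nlinarith)
    (by
      intro z ξ ξ'
      have h1 := (hex _ (hHint z) fun y hy => Hz_zero hK hd hN1' hI m z y (hout y hy)).2.1 ξ ξ'
      rw [hexH, hexH] at h1
      refine h1.trans ?_
      refine mul_le_mul_of_nonneg_right ?_ (norm_nonneg _)
      calc L * ∫ y, ‖Hz F R N m z y‖ ≤ L * (m * B * S) :=
            mul_le_mul_of_nonneg_left (hnorm z) hL.le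
        _ = m * (L * S * B) := by ring
        _ ≤ m * V := by
            refine mul_le_mul_of_nonneg_left ?_ (by positivity)
            rw [hV]
            refine mul_le_mul_of_nonneg_right ?_ hB0.le
            rw [hK2]
            have : 0 ≤ √(CA + CB) := Real.sqrt_nonneg _
            linarith)
  have hdec : ∀ ξ, ‖ex γ (Hz F R N m z) ξ‖ ≤
      Cr * (m * V) * (√(Real.log (2 + (N : ℝ) + ‖ξ‖)) * ((N : ℝ) + ‖ξ‖) ^ (-((d : ℝ) / 2))) := by
    intro ξ
    have h1 := hz2 ξ
    rw [hexH]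
    refine h1.trans (le_of_eq ?_)
    ring
  refine ⟨Hz F R N m z, Hz_cont hk F R N m z, fun y hy => Hz_zero hK hd hN1' hI m z y hy,
    ?_, ?_, ?_, ?_⟩
  · intro y
    refine (hbd z y).trans ?_
    calc (m : ℝ) * B ≤ Cm / ε * B := mul_le_mul_of_nonneg_right hm4 hB0.le
      _ = 2 * Cm * M / ε := by rw [hBdef]; ring
      _ ≤ _ := by
        gcongr
        have : 0 < 4 * Cr * K2 * Cm := by positivity
        linarith
  · have hsub : {y | y ∈ U ∧ ρ < ‖φ y - Hz F R N m z y‖} ⊆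
        {y | y ∈ U ∧ ρ / 2 < ‖φ y - F y‖} ∪
        ({y : E d | Hz F R N m z y ≠ ∑ j, pc F R N j y} ∩ closedBall 0 (R : ℝ)) := by
      intro y hy
      rw [mem_union]
      have hyU : y ∈ U := hy.1
      by_cases h1 : Hz F R N m z y = ∑ j, pc F R N j y
      · left
        refine ⟨hyU, ?_⟩
        have hx' : ρ < ‖φ y - Hz F R N m z y‖ := hy.2
        have h2 : ‖∑ j, pc F R N j y - F y‖ ≤ ρ / 2 := hdisc y (hUR hyU)
        rw [h1] at hx'
        have h3 : ‖φ y - ∑ j, pc F R N j y‖ ≤ ‖φ y - F y‖ + ‖∑ j, pc F R N j y - F y‖ := by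
          have : φ y - ∑ j, pc F R N j y = (φ y - F y) - (∑ j, pc F R N j y - F y) := by ring
          rw [this]
          exact norm_sub_le _ _
        linarith
      · right; exact ⟨h1, hUR hyU⟩
    refine (measure_mono hsub).trans ((measure_union_le _ _).trans ?_)
    have h2 : volume ({y : E d | Hz F R N m z y ≠ ∑ j, pc F R N j y} ∩ closedBall 0 (R : ℝ)) ≤
        ENNReal.ofReal (ε / 2) := by
      have h3 : volume ({y : E d | Hz F R N m z y ≠ ∑ j, pc F R N j y} ∩ closedBall 0 (R : ℝ)) ≤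
          mu d R {y : E d | Hz F R N m z y ≠ ∑ j, pc F R N j y} := by
        unfold mu
        rw [Measure.restrict_apply' measurableSet_closedBall]
      refine h3.trans ?_
      rw [← ENNReal.ofReal_toReal (measure_ne_top (mu d R)
        {y : E d | Hz F R N m z y ≠ ∑ j, pc F R N j y})]
      apply ENNReal.ofReal_le_ofReal
      change (mu d R).real _ ≤ _
      refine (measureReal_mono (Hz_ne F R N m z) (measure_ne_top _ _)).trans ?_
      refine (measureReal_biUnion_finset_le _ _).trans ?_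
      rw [Finset.sum_filter]
      refine hz1.trans ?_
      rw [div_le_iff₀ (by linarith)]
      have h3 := supp_sum hK (d := d) (N := N) hR
      rw [div_le_iff₀ hε] at hm3
      rw [← hS] at h3
      have h4 : (2 : ℝ) ^ (d + 2) = 4 * 2 ^ d := by rw [pow_add]; ring
      rw [h4] at hm3
      linarith
    calc _ ≤ ENNReal.ofReal (ε / 2) + ENNReal.ofReal (ε / 2) := add_le_add hFv h2
      _ = ENNReal.ofReal ε := by
        rw [← ENNReal.ofReal_add (by positivity) (by positivity)]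
        congr 1; ring
  · intro ξ
    refine (hdec ξ).trans ?_
    have h1 := dec_le hd (N : ℝ) hNR ξ
    have h0 : 0 ≤ dec (d + 1) ξ := by unfold dec; positivity
    calc Cr * (m * V) * (√(Real.log (2 + (N : ℝ) + ‖ξ‖)) * ((N : ℝ) + ‖ξ‖) ^ (-((d : ℝ) / 2)))
        ≤ Cr * (m * V) * (2 * dec (d + 1) ξ) := mul_le_mul_of_nonneg_left h1 hP.le
      _ = (4 * Cr * K2 * M) * m * dec (d + 1) ξ := by rw [hV, hBdef]; ring
      _ ≤ (4 * Cr * K2 * M) * (Cm / ε) * dec (d + 1) ξ := by gcongr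
      _ = (4 * Cr * K2 * Cm) * M / ε * dec (d + 1) ξ := by ring
      _ ≤ _ := by
        refine mul_le_mul_of_nonneg_right ?_ h0
        gcongr
        linarith
  · intro ξ
    refine (hdec ξ).trans ?_
    have h1 := mono (s' := (N : ℝ)) (s := (N : ℝ) + ‖ξ‖) (al := (d : ℝ) / 2) hNR
      (by linarith [norm_nonneg ξ]) (by linarith)
    rw [← add_assoc] at h1
    have h2 := h1.trans (hN1 N hNN1)
    calc _ ≤ Cr * (m * V) * (η / (Cr * (m * V))) := mul_le_mul_of_nonneg_left h2 hP.le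
      _ = η := by field_simp

end Pool.Agent.H197.GS
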