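import Mathlib
import Pool.Agent.H197.GS.STG
import Pool.Agent.H197.GS.Stm2
set_option autoImplicit false

/-! # Project GS: the one-step theorem for finite families -/

namespace Pool.Agent.H197.GS

open MeasureTheory Set Metric Complex Filter Topology
open Pool.Agent.H197.PD (E kap chi vec zet dec S_KAP S_RAND S_MEMLP)
open scoped ENNReal NNReal RealInnerProductSpace BigOperators ContDiff

open STG

theorem t_STQ (hK : S_KAP) (hA : S_SQA) (hB : S_SQB) (hN : S_RNQ) (hX : S_APX) (hD : S_DISC)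
    (hE : S_EXB) : S_STQ := by
  classical
  intro d γ hd hγ R c hR hc
  obtain ⟨CA, hCA, hsa⟩ := hA d γ hd hγ R c hc
  obtain ⟨CB, hCB, hsb⟩ := hB d γ hd hγ R c hc
  obtain ⟨L, hL, hex⟩ := hE d γ hγ.continuous R
  have hk : Continuous kap := hK.1.1.continuous
  have hd1 : (1 : ℝ) ≤ d := by exact_mod_cast hd
  obtain ⟨Cr, hCr, hr⟩ := hN (d + 1) ((d : ℝ) / 2) (by omega) (by positivity)
  obtain ⟨S, hS⟩ : ∃ S : ℝ, S = (mu d R).real univ := ⟨_, rfl⟩
  have hS0 : 0 ≤ S := hS ▸ measureReal_nonneg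
  set K2 : ℝ := √(CA + CB) + (S + L * S) with hK2
  have hK20 : 0 < K2 := by
    have : 0 < √(CA + CB) := Real.sqrt_pos.2 (by linarith)
    positivity
  set Cm : ℝ := 2 ^ (d + 2) * S + 2 with hCm
  have hCm0 : 0 < Cm := by positivity
  refine ⟨2 * Cm + 4 * Cr * K2 * Cm, by positivity, ?_⟩
  intro U hUo hUR hUc M hM Q φ hφ hb ε hε hε1 ρ hρ η hη
  have hUb : Bornology.IsBounded U := isBounded_closedBall.subset hUR
  have hQ0 : (0 : ℝ) < (Q : ℝ) + 1 := by positivity
  choose F hFc hFs hFU hFb hFv using fun q => hX d U hUo hUb M hM (φ q) (hφ q) (hb q) (ρ / 2)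
    (by positivity) (ε / 2 / ((Q : ℝ) + 1)) (by positivity)
  choose N0 hN01 hN0 using fun q => hD d R hd hR U hUo hUR (F q) (hFc q) (hFs q) (hFU q) (ρ / 2)
    (by positivity)
  set m : ℕ := ⌈2 ^ (d + 2) * S / ε⌉₊ + 1 with hm
  have hm1 : 1 ≤ m := by omega
  have hmR : (1 : ℝ) ≤ m := by exact_mod_cast hm1
  have hm3 : 2 ^ (d + 2) * S / ε ≤ m := by
    rw [hm]; push_cast
    linarith [Nat.le_ceil (2 ^ (d + 2) * S / ε)]
  have hm4 : (m : ℝ) ≤ Cm / ε := by
    rw [hm]; push_cast
    have h1 := (Nat.ceil_lt_add_one (show 0 ≤ 2 ^ (d + 2) * S / ε by positivity)).le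
    have h2 : (2 : ℝ) ≤ 2 / ε := by
      rw [le_div_iff₀ hε]; linarith
    rw [hCm, add_div]
    linarith
  set B : ℝ := 2 * M with hBdef
  have hB0 : 0 < B := by positivity
  set V : ℝ := K2 * B with hV
  have hV0 : 0 < V := by positivity
  have hP : 0 < Cr * (m * V) := by positivity
  obtain ⟨N1, hN1⟩ := small ((d : ℝ) / 2) (η / (Cr * (m * V))) (by linarith) (by positivity)
  obtain ⟨N, hNdef⟩ : ∃ N : ℕ, N = max (max 1 Q) (max (Finset.univ.sup N0) N1) := ⟨_, rfl⟩
  have hNN0 : ∀ q, N0 q ≤ N := by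
    intro q
    rw [hNdef]
    exact (Finset.le_sup (Finset.mem_univ q)).trans ((le_max_left _ _).trans (le_max_right _ _))
  have hNN1 : N1 ≤ N := by
    rw [hNdef]
    exact (le_max_right _ _).trans (le_max_right _ _)
  have hN1' : 1 ≤ N := by
    rw [hNdef]
    exact (le_max_left _ _).trans (le_max_left _ _)
  have hNQ : Q ≤ N := by
    rw [hNdef]
    exact (le_max_right _ _).trans (le_max_left _ _)
  have hNR : (1 : ℝ) ≤ N := by exact_mod_cast hN1'
  have hI : ∀ q, Ins (F q) U R N := fun q => (hN0 q N (hNN0 q)).1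
  have hdisc := fun q => (hN0 q N (hNN0 q)).2
  have hbd : ∀ q (z : (Fin d → Fin (2 * (N * R) + 4)) → Fin m) y, ‖Hz (F q) R N m z y‖ ≤ m * B :=
    fun q z y => Hz_le hK hd hR hN1' hUR (hI q) m hm1 z B hB0.le (hFb q) y
  have hout : ∀ y : E d, (R : ℝ) < ‖y‖ → y ∉ U := by
    intro y hy hyU
    have : ‖y‖ ≤ R := by simpa using hUR hyU
    linarith
  have hHint : ∀ q (z : (Fin d → Fin (2 * (N * R) + 4)) → Fin m), Integrable (Hz (F q) R N m z) :=
    fun q z => comp_int (Hz_cont hk (F q) R N m z) R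
      fun y hy => Hz_zero hK hd hN1' (hI q) m z y (hout y hy)
  have hpint : ∀ q j, Integrable (pc (F q) R N j) := fun q j =>
    comp_int (pc_cont hk (F q) R N j) R fun y hy => pc_zero hK hd hN1' (hI q) j y (hout y hy)
  have hnorm : ∀ q (z : (Fin d → Fin (2 * (N * R) + 4)) → Fin m),
      ∫ y, ‖Hz (F q) R N m z y‖ ≤ m * B * S := by
    intro q z
    have h1 : ∫ y, ‖Hz (F q) R N m z y‖ = ∫ y, ‖Hz (F q) R N m z y‖ ∂(mu d R) := by
      unfold mu
      symm
      apply setIntegral_eq_integral_of_forall_compl_eq_zero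
      intro y hy
      rw [Hz_zero hK hd hN1' (hI q) m z y (hout y (by simpa using hy)), norm_zero]
    rw [h1]
    calc ∫ y, ‖Hz (F q) R N m z y‖ ∂(mu d R) ≤ ∫ _y, (m : ℝ) * B ∂(mu d R) := by
          refine integral_mono ?_ (integrable_const _) (hbd q z)
          unfold mu
          exact (hHint q z).norm.integrableOn
      _ = _ := by rw [integral_const, smul_eq_mul, ← hS, mul_comm]
  have hexH : ∀ q (z : (Fin d → Fin (2 * (N * R) + 4)) → Fin m) (ξ : E (d + 1)),
      ex γ (Hz (F q) R N m z) ξ = ∑ j, ((zet m (z j) : ℝ) : ℂ) * ex γ (pc (F q) R N j) ξ := by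
    intro q z ξ
    unfold ex Hz
    have h1 : ∀ y, (∑ j, ((zet m (z j) : ℝ) : ℂ) * pc (F q) R N j y) * ek γ (fx ξ) (fl ξ) y =
        ∑ j, ((zet m (z j) : ℝ) : ℂ) * (pc (F q) R N j y * ek γ (fx ξ) (fl ξ) y) := by
      intro y
      rw [Finset.sum_mul]
      exact Finset.sum_congr rfl fun j _ => by ring
    rw [integral_congr_ae (Eventually.of_forall h1), integral_finsetSum]
    · exact Finset.sum_congr rfl fun j _ => integral_const_mul _ _
    · exact fun j _ => (ek_int hγ.continuous (hpint q j) _ _).const_mul _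
  obtain ⟨z, hz1, hz2⟩ := hr (Fin d → Fin (2 * (N * R) + 4)) m hm1 N V hNR hV0 Q
    (by exact_mod_cast hNQ)
    (fun q j => ex γ (pc (F q) R N j)) (fun j => (mu d R).real (supp R N j))
    (fun j => measureReal_nonneg)
    (fun q j => (hex _ (hpint q j) fun y hy => pc_zero hK hd hN1' (hI q) j y (hout y hy)).2.2)
    (by
      intro q ξ
      set J : Finset (Fin d → Fin (2 * (N * R) + 4)) :=
        Finset.univ.filter fun j => F q (pt R N j) ≠ 0 with hJ
      have hins : Inside U R N J := by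
        intro j hj
        exact hI q j (Finset.mem_filter.1 hj).2
      have h1 : ∑ j ∈ J, ‖ca γ R N j (fx ξ) (fl ξ)‖ ^ 2 ≤
          (CA + CB) * ((N : ℝ) + ‖fx ξ‖ + |fl ξ|) ^ (-(d : ℝ)) := by
        have h0 : 0 ≤ ((N : ℝ) + ‖fx ξ‖ + |fl ξ|) ^ (-(d : ℝ)) := by positivity
        rcases le_or_gt |fl ξ| ((N : ℝ) ^ 2) with h | h
        · refine (hsa U hUR hUc N hN1' J hins (fx ξ) (fl ξ) h).trans ?_
          exact mul_le_mul_of_nonneg_right (by linarith) h0
        · refine (hsb U hUR hUc N hN1' J hins (fx ξ) (fl ξ) h).trans ?_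
          exact mul_le_mul_of_nonneg_right (by linarith) h0
      have h2 : ∑ j, ‖ex γ (pc (F q) R N j) ξ‖ ^ 2 ≤
          ∑ j ∈ J, B ^ 2 * ‖ca γ R N j (fx ξ) (fl ξ)‖ ^ 2 := by
        rw [hJ, Finset.sum_filter]
        refine Finset.sum_le_sum fun j _ => ?_
        rw [ex_pc]
        split_ifs with h
        · rw [norm_mul, mul_pow]
          exact mul_le_mul_of_nonneg_right (pow_le_pow_left₀ (norm_nonneg _) (hFb q _) 2)
            (by positivity)
        · rw [not_not.1 h, zero_mul, norm_zero]; simp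
      refine h2.trans ?_
      rw [← Finset.mul_sum]
      have e1 : -(2 * ((d : ℝ) / 2)) = -(d : ℝ) := by ring
      rw [e1]
      have h3 : ((N : ℝ) + ‖fx ξ‖ + |fl ξ|) ^ (-(d : ℝ)) ≤ ((N : ℝ) + ‖ξ‖) ^ (-(d : ℝ)) := by
        apply Real.rpow_le_rpow_of_nonpos
        · positivity
        · linarith [norm_le_split ξ]
        · linarith
      calc B ^ 2 * ∑ j ∈ J, ‖ca γ R N j (fx ξ) (fl ξ)‖ ^ 2
          ≤ B ^ 2 * ((CA + CB) * ((N : ℝ) + ‖ξ‖) ^ (-(d : ℝ))) := by
            refine mul_le_mul_of_nonneg_left (h1.trans ?_) (by positivity)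
            exact mul_le_mul_of_nonneg_left h3 (by linarith)
        _ = (√(CA + CB) * B) ^ 2 * ((N : ℝ) + ‖ξ‖) ^ (-(d : ℝ)) := by
            rw [mul_pow (√(CA + CB)) B, Real.sq_sqrt (by linarith)]; ring
        _ ≤ V ^ 2 * ((N : ℝ) + ‖ξ‖) ^ (-(d : ℝ)) := by
            refine mul_le_mul_of_nonneg_right ?_ (by positivity)
            refine pow_le_pow_left₀ (by positivity) ?_ 2
            rw [hV]
            refine mul_le_mul_of_nonneg_right ?_ hB0.le
            rw [hK2]
            have : 0 ≤ S + L * S := by positivity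
            linarith)
    (by
      intro q z ξ
      have h1 := (hex _ (hHint q z)
        fun y hy => Hz_zero hK hd hN1' (hI q) m z y (hout y hy)).1 ξ
      rw [hexH] at h1
      refine h1.trans ((hnorm q z).trans ?_)
      rw [hV, hK2, mul_assoc]
      refine mul_le_mul_of_nonneg_left ?_ (by positivity)
      have h2 : 0 ≤ √(CA + CB) * B := by positivity
      have h3 : 0 ≤ L * S * B := by positivity
      nlinarith)
    (by
      intro q z ξ ξ'
      have h1 := (hex _ (hHint q z)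
        fun y hy => Hz_zero hK hd hN1' (hI q) m z y (hout y hy)).2.1 ξ ξ'
      rw [hexH, hexH] at h1
      refine h1.trans ?_
      refine mul_le_mul_of_nonneg_right ?_ (norm_nonneg _)
      calc L * ∫ y, ‖Hz (F q) R N m z y‖ ≤ L * (m * B * S) :=
            mul_le_mul_of_nonneg_left (hnorm q z) hL.le
        _ = m * (L * S * B) := by ring
        _ ≤ m * V := by
            refine mul_le_mul_of_nonneg_left ?_ (by positivity)
            rw [hV]
            refine mul_le_mul_of_nonneg_right ?_ hB0.le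
            rw [hK2]
            have : 0 ≤ √(CA + CB) := Real.sqrt_nonneg _
            linarith)
  have hdec : ∀ q ξ, ‖ex γ (Hz (F q) R N m z) ξ‖ ≤
      Cr * (m * V) * (√(Real.log (2 + (N : ℝ) + ‖ξ‖)) * ((N : ℝ) + ‖ξ‖) ^ (-((d : ℝ) / 2))) := by
    intro q ξ
    have h1 := hz2 q ξ
    rw [hexH]
    refine h1.trans (le_of_eq ?_)
    ring
  refine ⟨fun q => Hz (F q) R N m z, fun q => Hz_cont hk (F q) R N m z,
    fun q y hy => Hz_zero hK hd hN1' (hI q) m z y hy, ?_, ?_, ?_, ?_⟩
  · intro q y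
    refine (hbd q z y).trans ?_
    calc (m : ℝ) * B ≤ Cm / ε * B := mul_le_mul_of_nonneg_right hm4 hB0.le
      _ = 2 * Cm * M / ε := by rw [hBdef]; ring
      _ ≤ _ := by
        gcongr
        have : 0 < 4 * Cr * K2 * Cm := by positivity
        linarith
  · set Z0 : Set (E d) := (⋃ j ∈ (Finset.univ.filter fun j => ((z j : Fin m) : ℕ) = 0), supp R N j)
      ∩ closedBall 0 (R : ℝ) with hZ0
    have hsub : {y | y ∈ U ∧ ∃ q, ρ < ‖φ q y - Hz (F q) R N m z y‖} ⊆
        (⋃ q, {y | y ∈ U ∧ ρ / 2 < ‖φ q y - F q y‖}) ∪ Z0 := by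
      intro y hy
      rw [mem_union]
      have hyU : y ∈ U := hy.1
      obtain ⟨q, hq⟩ := hy.2
      by_cases h1 : Hz (F q) R N m z y = ∑ j, pc (F q) R N j y
      · left
        rw [mem_iUnion]
        refine ⟨q, hyU, ?_⟩
        have hx' : ρ < ‖φ q y - Hz (F q) R N m z y‖ := hq
        have h2 : ‖∑ j, pc (F q) R N j y - F q y‖ ≤ ρ / 2 := hdisc q y (hUR hyU)
        rw [h1] at hx'
        have h3 : ‖φ q y - ∑ j, pc (F q) R N j y‖ ≤
            ‖φ q y - F q y‖ + ‖∑ j, pc (F q) R N j y - F q y‖ := by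
          have : φ q y - ∑ j, pc (F q) R N j y =
            (φ q y - F q y) - (∑ j, pc (F q) R N j y - F q y) := by ring
          rw [this]
          exact norm_sub_le _ _
        linarith
      · right; exact ⟨Hz_ne (F q) R N m z h1, hUR hyU⟩
    refine (measure_mono hsub).trans ((measure_union_le _ _).trans ?_)
    have h2 : volume Z0 ≤ ENNReal.ofReal (ε / 2) := by
      have h3 : volume Z0 ≤
          mu d R (⋃ j ∈ (Finset.univ.filter fun j => ((z j : Fin m) : ℕ) = 0), supp R N j) := by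
        unfold mu
        rw [Measure.restrict_apply' measurableSet_closedBall]
      refine h3.trans ?_
      rw [← ENNReal.ofReal_toReal (measure_ne_top (mu d R)
        (⋃ j ∈ (Finset.univ.filter fun j => ((z j : Fin m) : ℕ) = 0), supp R N j))]
      apply ENNReal.ofReal_le_ofReal
      change (mu d R).real _ ≤ _
      refine (measureReal_biUnion_finset_le _ _).trans ?_
      rw [Finset.sum_filter]
      refine hz1.trans ?_
      rw [div_le_iff₀ (by linarith)]
      have h3 := supp_sum hK (d := d) (N := N) hR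
      rw [div_le_iff₀ hε] at hm3
      rw [← hS] at h3
      have h4 : (2 : ℝ) ^ (d + 2) = 4 * 2 ^ d := by rw [pow_add]; ring
      rw [h4] at hm3
      linarith
    have h5 : volume (⋃ q, {y | y ∈ U ∧ ρ / 2 < ‖φ q y - F q y‖}) ≤ ENNReal.ofReal (ε / 2) := by
      refine (measure_iUnion_le _).trans ?_
      rw [tsum_fintype]
      calc ∑ q, volume {y | y ∈ U ∧ ρ / 2 < ‖φ q y - F q y‖}
          ≤ ∑ _q : Fin Q, ENNReal.ofReal (ε / 2 / ((Q : ℝ) + 1)) :=
            Finset.sum_le_sum fun q _ => hFv q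
        _ = ENNReal.ofReal ((Q : ℝ) * (ε / 2 / ((Q : ℝ) + 1))) := by
            rw [Finset.sum_const, Finset.card_univ, Fintype.card_fin, nsmul_eq_mul,
              ENNReal.ofReal_mul (by positivity), ENNReal.ofReal_natCast]
        _ ≤ ENNReal.ofReal (ε / 2) := by
            apply ENNReal.ofReal_le_ofReal
            rw [mul_div_assoc', div_le_iff₀ hQ0]
            nlinarith
    calc _ ≤ ENNReal.ofReal (ε / 2) + ENNReal.ofReal (ε / 2) := add_le_add h5 h2
      _ = ENNReal.ofReal ε := by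
        rw [← ENNReal.ofReal_add (by positivity) (by positivity)]
        congr 1; ring
  · intro q ξ
    refine (hdec q ξ).trans ?_
    have h1 := dec_le hd (N : ℝ) hNR ξ
    have h0 : 0 ≤ dec (d + 1) ξ := by unfold dec; positivity
    calc Cr * (m * V) * (√(Real.log (2 + (N : ℝ) + ‖ξ‖)) * ((N : ℝ) + ‖ξ‖) ^ (-((d : ℝ) / 2)))
        ≤ Cr * (m * V) * (2 * dec (d + 1) ξ) := mul_le_mul_of_nonneg_left h1 hP.le
      _ = (4 * Cr * K2 * M) * m * dec (d + 1) ξ := by rw [hV, hBdef]; ring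
      _ ≤ (4 * Cr * K2 * M) * (Cm / ε) * dec (d + 1) ξ := by gcongr
      _ = (4 * Cr * K2 * Cm) * M / ε * dec (d + 1) ξ := by ring
      _ ≤ _ := by
        refine mul_le_mul_of_nonneg_right ?_ h0
        gcongr
        linarith
  · intro q ξ
    refine (hdec q ξ).trans ?_
    have h1 := mono (s' := (N : ℝ)) (s := (N : ℝ) + ‖ξ‖) (al := (d : ℝ) / 2) hNR
      (by linarith [norm_nonneg ξ]) (by linarith)
    rw [← add_assoc] at h1
    have h2 := h1.trans (hN1 N hNN1)
    calc _ ≤ Cr * (m * V) * (η / (Cr * (m * V))) := mul_le_mul_of_nonneg_left h2 hP.le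
      _ = η := by field_simp

end Pool.Agent.H197.GS
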