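import Mathlib
import Pool.Agent.H197.GS.Stm
set_option autoImplicit false

/-!
# GS-SUB (helper764): subdivision of the lattice cells
-/

namespace Pool.Agent.H197.GS

open MeasureTheory Set Metric Complex Filter Topology
open Pool.Agent.H197.PD (E kap chi vec zet dec S_KAP S_RAND S_MEMLP)
open scoped ENNReal NNReal RealInnerProductSpace BigOperators ContDiff

namespace SUB

lemma norm_le_of_coord {d : ℕ} (z : E d) (a : ℝ) (ha : 0 ≤ a) (h : ∀ i, |z i| ≤ a) :
    ‖z‖ ≤ d * a := by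
  rw [EuclideanSpace.norm_eq]
  refine Real.sqrt_le_iff.2 ⟨by positivity, ?_⟩
  calc ∑ i, ‖z i‖ ^ 2 ≤ ∑ _i : Fin d, a ^ 2 := Finset.sum_le_sum fun i _ => by
        rw [Real.norm_eq_abs]; exact pow_le_pow_left₀ (abs_nonneg _) (h i) 2
    _ = d * a ^ 2 := by simp
    _ ≤ (d * a) ^ 2 := by
        have h1 : (d:ℝ) ≤ (d:ℝ)^2 := by exact_mod_cast Nat.le_self_pow two_ne_zero d
        rw [mul_pow]
        exact mul_le_mul_of_nonneg_right h1 (sq_nonneg a)

lemma chi_ne {d : ℕ} (hK : S_KAP) {z : E d} (h : chi d z ≠ 0) (i : Fin d) :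
    0 < z i ∧ z i < 2 := by
  apply hK.1.2.2.2
  intro h0
  exact h (Finset.prod_eq_zero (Finset.mem_univ i) h0)

lemma chi_cont (d : ℕ) (hK : S_KAP) : Continuous (chi d) := by
  unfold chi
  refine continuous_finsetProd _ fun i _ => ?_
  exact hK.1.1.continuous.comp (by fun_prop)

lemma ek_cont {d : ℕ} {γ : E d → ℝ} (hγ : Continuous γ) (x : E d) (t : ℝ) :
    Continuous (ek γ x t) := by
  unfold ek
  fun_prop

lemma supp {d N : ℕ} (hK : S_KAP) (hN : 1 ≤ N) (v : E d) {y : E d}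
    (h : chi d ((N : ℝ) • y - v) ≠ 0) : y ∈ closedBall ((N : ℝ)⁻¹ • v) (4 * (d : ℝ) / N) := by
  have hN0 : (0 : ℝ) < N := by exact_mod_cast hN
  rw [mem_closedBall, dist_eq_norm]
  have h1 : y - (N : ℝ)⁻¹ • v = (N : ℝ)⁻¹ • ((N : ℝ) • y - v) := by
    rw [smul_sub, inv_smul_smul₀ hN0.ne']
  rw [h1, norm_smul, norm_inv, Real.norm_of_nonneg hN0.le]
  have h2 : ‖(N : ℝ) • y - v‖ ≤ d * 2 := by
    refine norm_le_of_coord _ 2 zero_le_two fun i => ?_
    have h3 := chi_ne hK h i
    rw [abs_le]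
    constructor <;> linarith [h3.1, h3.2]
  rw [inv_mul_eq_div]
  apply div_le_div_of_nonneg_right _ hN0.le
  have : (0:ℝ) ≤ d := Nat.cast_nonneg d
  linarith

lemma coord {d N : ℕ} (hK : S_KAP) (hN : 1 ≤ N) {r : ℝ} (hr : 0 < r) (hrN : r * N ≤ 1)
    {u v y : E d} (h1 : chi d (r⁻¹ • y - u) ≠ 0) (h2 : chi d ((N : ℝ) • y - v) ≠ 0) (i : Fin d) :
    |(N : ℝ) * r * u i - v i| < 2 := by
  have hN0 : (0 : ℝ) < N := by exact_mod_cast hN
  have a1 := chi_ne hK h1 i
  have a2 := chi_ne hK h2 i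
  simp only [PiLp.sub_apply, PiLp.smul_apply, smul_eq_mul] at a1 a2
  have hl : 0 < (N : ℝ) * r := by positivity
  have e1 : (N : ℝ) * r * (r⁻¹ * y i - u i) = (N : ℝ) * y i - (N : ℝ) * r * u i := by
    field_simp
  have b1 : 0 < (N : ℝ) * y i - (N : ℝ) * r * u i := by
    rw [← e1]; exact mul_pos hl a1.1
  have b2 : (N : ℝ) * y i - (N : ℝ) * r * u i < 2 := by
    rw [← e1]
    calc (N : ℝ) * r * (r⁻¹ * y i - u i) ≤ 1 * (r⁻¹ * y i - u i) :=
          mul_le_mul_of_nonneg_right (by linarith) a1.1.le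
      _ < 2 := by linarith [a1.2]
  rw [abs_lt]
  constructor <;> linarith [a2.1, a2.2]

lemma exists_y {d R N N' : ℕ} {r : ℝ} {γ : E d → ℝ} {x : E d} {t : ℝ}
    {j : Fin d → Fin (2 * (N * R) + 4)} {k : Fin d → Fin (2 * N' + 4)}
    (h : cjk γ R N N' r j k x t ≠ 0) :
    ∃ y : E d, chi d (r⁻¹ • y - vec d N' k) ≠ 0 ∧ chi d ((N : ℝ) • y - vec d (N * R) j) ≠ 0 := by
  by_contra hcon
  push Not at hcon
  apply h
  unfold cjk
  have h0 : ∀ y : E d, ((chi d (r⁻¹ • y - vec d N' k) *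
      chi d ((N : ℝ) • y - vec d (N * R) j) : ℝ) : ℂ) * ek γ x t y = 0 := by
    intro y
    by_cases h1 : chi d (r⁻¹ • y - vec d N' k) = 0
    · rw [h1]; simp
    · rw [hcon y h1]; simp
  simp only [h0]
  simp

lemma card_near {M : ℕ} (c : ℝ) :
    (Finset.univ.filter (fun s : Fin M => |((s : ℕ) : ℝ) - c| < 2)).card ≤ 4 := by
  have h1 : (Finset.univ.filter (fun s : Fin M => |((s : ℕ) : ℝ) - c| < 2)).card ≤
      (Finset.Ioo (⌊c⌋ - 2) (⌈c⌉ + 2)).card := by
    apply Finset.card_le_card_of_injOn (fun s : Fin M => ((s : ℕ) : ℤ))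
    · intro s hs
      simp only [Finset.coe_filter, Finset.mem_univ, true_and, Set.mem_ofPred_eq] at hs
      rw [abs_lt] at hs
      simp only [Finset.coe_Ioo, mem_Ioo]
      constructor
      · have h2 : (⌊c⌋ : ℝ) ≤ c := Int.floor_le c
        have h3 : ((⌊c⌋ - 2 : ℤ) : ℝ) < (((s : ℕ) : ℤ) : ℝ) := by push_cast; linarith
        exact_mod_cast h3
      · have h2 : c ≤ (⌈c⌉ : ℝ) := Int.le_ceil c
        have h3 : (((s : ℕ) : ℤ) : ℝ) < ((⌈c⌉ + 2 : ℤ) : ℝ) := by push_cast; linarith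
        exact_mod_cast h3
    · intro s _ s' _ h
      apply Fin.ext
      have h' : ((s : ℕ) : ℤ) = ((s' : ℕ) : ℤ) := h
      exact_mod_cast h'
  refine h1.trans ?_
  rw [Int.card_Ioo]
  have h2 : ⌈c⌉ ≤ ⌊c⌋ + 1 := Int.ceil_le_floor_add_one c
  omega

end SUB

open SUB

theorem t_SUB (hK : S_KAP) : S_SUB := by
  intro d R N N' r hd hN hr hrN hN' γ hγ x t
  have hN0 : (0 : ℝ) < N := by exact_mod_cast hN
  have hN'0 : (0 : ℝ) < N' := lt_of_lt_of_le (by positivity) hN'
  refine ⟨fun j hj => ?_, fun j k h => ?_, fun k => ?_⟩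
  · have key : ∀ y : E d, chi d ((N : ℝ) • y - vec d (N * R) j) =
        ∑ k, chi d (r⁻¹ • y - vec d N' k) * chi d ((N : ℝ) • y - vec d (N * R) j) := by
      intro y
      by_cases h : chi d ((N : ℝ) • y - vec d (N * R) j) = 0
      · simp [h]
      · have h1 : ‖y‖ ≤ R := by
          have := hj (supp hK hN _ h)
          rwa [mem_closedBall, dist_zero_right] at this
        have h2 : ‖(N' : ℝ)⁻¹ • r⁻¹ • y‖ ≤ 1 := by
          rw [norm_smul, norm_smul, norm_inv, norm_inv, Real.norm_of_nonneg hN'0.le,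
            Real.norm_of_nonneg hr.le]
          have h3 : (R : ℝ) + 1 ≤ N' * r := (div_le_iff₀ hr).1 hN'
          rw [← mul_assoc, ← mul_inv, inv_mul_eq_div, div_le_one (by positivity)]
          linarith
        have h4 := hK.2.1 d N' ((N' : ℝ)⁻¹ • r⁻¹ • y) h2
        rw [smul_inv_smul₀ hN'0.ne'] at h4
        rw [← Finset.sum_mul, h4, one_mul]
    have hint : ∀ k ∈ (Finset.univ : Finset (Fin d → Fin (2 * N' + 4))),
        Integrable (fun y : E d => ((chi d (r⁻¹ • y - vec d N' k) *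
          chi d ((N : ℝ) • y - vec d (N * R) j) : ℝ) : ℂ) * ek γ x t y) := by
      intro k _
      apply Continuous.integrable_of_hasCompactSupport
      · have c1 : Continuous (fun y : E d => chi d (r⁻¹ • y - vec d N' k)) :=
          (chi_cont d hK).comp (by fun_prop)
        have c2 : Continuous (fun y : E d => chi d ((N : ℝ) • y - vec d (N * R) j)) :=
          (chi_cont d hK).comp (by fun_prop)
        exact (continuous_ofReal.comp (c1.mul c2)).mul (ek_cont hγ x t)
      · apply HasCompactSupport.intro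
          (isCompact_closedBall ((N : ℝ)⁻¹ • vec d (N * R) j) (4 * (d : ℝ) / N))
        intro y hy
        have h0 : chi d ((N : ℝ) • y - vec d (N * R) j) = 0 := by
          by_contra h
          exact hy (supp hK hN _ h)
        rw [h0]; simp
    unfold ca cjk
    rw [← integral_finsetSum _ hint]
    refine integral_congr_ae (Eventually.of_forall fun y => ?_)
    show ((chi d ((N : ℝ) • y - vec d (N * R) j) : ℝ) : ℂ) * ek γ x t y = _
    conv_lhs => rw [key y]
    rw [ofReal_sum, Finset.sum_mul]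
  · obtain ⟨y, h1, h2⟩ := exists_y h
    rw [mem_closedBall, dist_eq_norm]
    have h3 : ‖r • vec d N' k - (N : ℝ)⁻¹ • vec d (N * R) j‖ ≤ d * (2 / N) := by
      refine norm_le_of_coord _ _ (by positivity) fun i => ?_
      have h4 := coord hK hN hr hrN h1 h2 i
      simp only [PiLp.sub_apply, PiLp.smul_apply, smul_eq_mul]
      have e1 : r * (vec d N' k) i - (N : ℝ)⁻¹ * (vec d (N * R) j) i =
          ((N : ℝ) * r * (vec d N' k) i - (vec d (N * R) j) i) / N := by
        field_simp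
      rw [e1, abs_div, abs_of_pos hN0]
      exact div_le_div_of_nonneg_right h4.le hN0.le
    refine h3.trans ?_
    rw [mul_div_assoc']
    apply div_le_div_of_nonneg_right _ hN0.le
    have : (0:ℝ) ≤ d := Nat.cast_nonneg d
    linarith
  · classical
    set c : Fin d → ℝ := fun i => (N : ℝ) * r * (vec d N' k) i + (((N * R : ℕ) : ℝ) + 2) with hc
    have hsub : {j | cjk γ R N N' r j k x t ≠ 0} ⊆
        ((Fintype.piFinset fun i => Finset.univ.filter
          (fun s : Fin (2 * (N * R) + 4) => |((s : ℕ) : ℝ) - c i| < 2) :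
          Finset (Fin d → Fin (2 * (N * R) + 4))) : Set (Fin d → Fin (2 * (N * R) + 4))) := by
      intro j hj
      obtain ⟨y, h1, h2⟩ := exists_y hj
      rw [Finset.mem_coe, Fintype.mem_piFinset]
      intro i
      rw [Finset.mem_filter]
      refine ⟨Finset.mem_univ _, ?_⟩
      have h4 := coord hK hN hr hrN h1 h2 i
      have e1 : (vec d (N * R) j) i = ((j i : ℕ) : ℝ) - (((N * R : ℕ) : ℝ) + 2) := rfl
      rw [e1] at h4
      rw [abs_sub_comm]
      have e2 : c i - ((j i : ℕ) : ℝ) =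
          (N : ℝ) * r * (vec d N' k) i - (((j i : ℕ) : ℝ) - (((N * R : ℕ) : ℝ) + 2)) := by
        rw [hc]; ring
      rw [e2]
      exact h4
    refine (Set.ncard_le_ncard hsub (Finset.finite_toSet _)).trans ?_
    rw [Set.ncard_coe_finset, Fintype.card_piFinset]
    calc ∏ i : Fin d, (Finset.univ.filter
          (fun s : Fin (2 * (N * R) + 4) => |((s : ℕ) : ℝ) - c i| < 2)).card
        ≤ ∏ _i : Fin d, 4 := Finset.prod_le_prod' fun i _ => card_near (c i)
      _ = 4 ^ d := by simp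

end Pool.Agent.H197.GS
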