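import Mathlib
import Pool.Agent.H197.GS.Stm

/-! Project GS (helper197), part GS-TAY: scaled Taylor remainder of order two (helper539). -/

set_option autoImplicit false

namespace Pool.Agent.H197.GS

open MeasureTheory Set Metric Filter Topology
open Pool.Agent.H197.PD (E)
open scoped RealInnerProductSpace ContDiff

namespace TAY

/-- the second derivative -/
noncomputable def g2 {d : ℕ} (γ : E d → ℝ) : E d → (E d →L[ℝ] (E d →L[ℝ] ℝ)) :=
  fderiv ℝ (fderiv ℝ γ)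

theorem smooth_g1 {d : ℕ} {γ : E d → ℝ} (h : ContDiff ℝ ∞ γ) : ContDiff ℝ ∞ (fderiv ℝ γ) :=
  h.fderiv_right (by norm_num)

theorem smooth_g2 {d : ℕ} {γ : E d → ℝ} (h : ContDiff ℝ ∞ γ) : ContDiff ℝ ∞ (g2 γ) :=
  (smooth_g1 h).fderiv_right (by norm_num)

/-- the integrand -/
noncomputable def ig {d : ℕ} (γ : E d → ℝ) (p : ((E d × ℝ) × E d) × ℝ) : ℝ :=
  (1 - p.2) * g2 γ (p.1.1.1 + (p.2 * p.1.1.2) • p.1.2) p.1.2 p.1.2

theorem smooth_ig {d : ℕ} {γ : E d → ℝ} (h : ContDiff ℝ ∞ γ) : ContDiff ℝ ∞ (ig γ) := by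
  have h2 := smooth_g2 h
  have c1 : ContDiff ℝ ∞ (fun p : ((E d × ℝ) × E d) × ℝ => p.1.1.1 + (p.2 * p.1.1.2) • p.1.2) := by
    fun_prop
  have c2 : ContDiff ℝ ∞ (fun p : ((E d × ℝ) × E d) × ℝ => p.1.2) := by fun_prop
  have c3 : ContDiff ℝ ∞ (fun p : ((E d × ℝ) × E d) × ℝ => 1 - p.2) := by fun_prop
  exact c3.mul (((h2.comp c1).clm_apply c2).clm_apply c2)

theorem hasDeriv {d : ℕ} {γ : E d → ℝ} (h : ContDiff ℝ ∞ γ) (y : E d) (r : ℝ) (u : E d) (τ : ℝ) :
    HasDerivAt (fun τ : ℝ => (1 - τ) * (r * fderiv ℝ γ (y + (τ * r) • u) u) + γ (y + (τ * r) • u))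
      (r ^ 2 * ig γ (((y, r), u), τ)) τ := by
  have hc : HasDerivAt (fun τ : ℝ => y + (τ * r) • u) (r • u) τ := by
    have h1 : HasDerivAt (fun τ : ℝ => τ * r) r τ := by
      simpa using (hasDerivAt_id τ).mul_const r
    exact (h1.smul_const u).const_add y
  have e1 : HasFDerivAt γ (fderiv ℝ γ (y + (τ * r) • u)) (y + (τ * r) • u) :=
    ((h.differentiable (by norm_num)) _).hasFDerivAt
  have e2 : HasFDerivAt (fderiv ℝ γ) (g2 γ (y + (τ * r) • u)) (y + (τ * r) • u) :=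
    (((smooth_g1 h).differentiable (by norm_num)) _).hasFDerivAt
  have d1 : HasDerivAt (fun τ : ℝ => γ (y + (τ * r) • u))
      (fderiv ℝ γ (y + (τ * r) • u) (r • u)) τ := e1.comp_hasDerivAt τ hc
  have d2 : HasDerivAt (fun τ : ℝ => fderiv ℝ γ (y + (τ * r) • u))
      (g2 γ (y + (τ * r) • u) (r • u)) τ := e2.comp_hasDerivAt τ hc
  have d3 : HasDerivAt (fun τ : ℝ => fderiv ℝ γ (y + (τ * r) • u) u)
      (g2 γ (y + (τ * r) • u) (r • u) u) τ := by
    have h3 := d2.clm_apply (hasDerivAt_const τ u)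
    simpa using h3
  have d4 : HasDerivAt (fun τ : ℝ => 1 - τ) (-1) τ := by
    simpa using (hasDerivAt_id τ).const_sub 1
  refine ((d4.mul (d3.const_mul r)).add d1).congr_deriv ?_
  simp only [map_smul, ContinuousLinearMap.smul_apply, smul_eq_mul, ig]
  ring

end TAY

open TAY

/-- **GS-TAY.** -/
theorem t_TAY : S_TAY := by
  intro hpari d γ h
  refine ⟨fun p => ∫ τ in (0 : ℝ)..1, ig γ (p, τ), hpari _ _ (smooth_ig h), fun y r u => ?_⟩
  have hcont : Continuous fun τ : ℝ => ig γ (((y, r), u), τ) :=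
    (smooth_ig h).continuous.comp (by fun_prop)
  have h1 := intervalIntegral.integral_eq_sub_of_hasDerivAt (a := (0 : ℝ)) (b := 1)
    (fun τ _ => hasDeriv h y r u τ) ((hcont.const_mul (r ^ 2)).intervalIntegrable _ _)
  rw [intervalIntegral.integral_const_mul] at h1
  simp only [sub_self, zero_mul, zero_add, one_mul, zero_smul, add_zero, sub_zero] at h1
  have h2 : ⟪gradient γ y, u⟫ = fderiv ℝ γ y u := by
    rw [gradient, InnerProductSpace.toDual_symm_apply]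
  rw [h2, h1]
  ring

end Pool.Agent.H197.GS
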