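import Mathlib
import Pool.Agent.H197.GS.Stm2
import Pool.Agent.H197.PD.NORMS
set_option autoImplicit false

/-! # Project GS (helper197), task UNQ: compact support in `U` and the norms, for families (by helper539) -/

namespace Pool.Agent.H197.GS

open MeasureTheory Set Metric Complex Filter Topology
open Pool.Agent.H197.PD (E kap chi vec zet dec S_KAP S_RAND S_MEMLP)
open scoped ENNReal NNReal RealInnerProductSpace BigOperators ContDiff

theorem UNQ.tbd_mono {d : ℕ} {ι : Type} {g : ι → E d → ℂ} {U V : Set (E d)} (h : TBd g U) (hVU : V ⊆ U) :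
    TBd g V := by
  intro δ hδ
  obtain ⟨s, hs⟩ := h δ hδ
  refine ⟨s, fun i => ?_⟩
  obtain ⟨j, hj, hj2⟩ := hs i
  exact ⟨j, hj, fun y hy => hj2 y (hVU hy)⟩

theorem t_UNQ (hC : S_COQ) (hM : S_MEMLP) (hE : S_EXB) : S_UNQ := by
  intro d γ hd hγ U hU hUb c hc hexp
  obtain ⟨R, hR1, hUR⟩ : ∃ R : ℕ, 1 ≤ R ∧ U ⊆ closedBall 0 R := by
    obtain ⟨r, hr⟩ := hUb.subset_closedBall (0 : E d)
    refine ⟨max 1 ⌈r⌉₊, le_max_left _ _, hr.trans (closedBall_subset_closedBall ?_)⟩
    calc r ≤ (⌈r⌉₊ : ℝ) := Nat.le_ceil r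
      _ ≤ ((max 1 ⌈r⌉₊ : ℕ) : ℝ) := by exact_mod_cast le_max_right _ _
  obtain ⟨C₀, hC₀, hmain⟩ := hC d γ hd hγ R c hR1 hc
  refine ⟨2 * C₀, by positivity, ?_⟩
  intro ι g hg M hM0 hgM hT ε hε hε1 p₀ hp₀ η hη
  have hvU : volume U ≠ ⊤ := hUb.measure_lt_top.ne
  have hε2 : ENNReal.ofReal (ε / 2) ≠ 0 := by
    rw [ne_eq, ENNReal.ofReal_eq_zero, not_le]
    positivity
  obtain ⟨K, hKU, hK, hKv⟩ := hU.measurableSet.exists_isCompact_sdiff_lt hvU hε2
  obtain ⟨U', hU'o, hKU', hU'c, hU'k⟩ := exists_open_between_and_isCompact_closure hK hU hKU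
  have hU'U : U' ⊆ U := subset_closure.trans hU'c
  have hexp' : Expands γ U' c := fun y hy y' hy' => hexp y (hU'U hy) y' (hU'U hy')
  have hn : 2 ≤ d + 1 := by omega
  have hcast : 2 * (((d + 1 : ℕ) : ℝ)) / (((d + 1 : ℕ) : ℝ) - 1) = 2 * ((d : ℝ) + 1) / d := by
    push_cast
    rw [add_sub_cancel_right]
  obtain ⟨δ, hδ, hδη, hsm⟩ := Pool.Agent.H197.PD.NORMS.small_norms hM hn (2 * C₀ * M / ε)
    (by positivity) p₀ (by rw [hcast]; exact hp₀) η hη
  obtain ⟨Z', hZ'm, hZ'v, hZ'⟩ :=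
    hmain U' hU'o (hU'U.trans hUR) hexp' ι g hg M hM0 (fun i y hy => hgM i y (hU'U hy))
      (UNQ.tbd_mono hT hU'U) (ε / 2) (by positivity) (by linarith) δ hδ
  have eqC : C₀ * M / (ε / 2) = 2 * C₀ * M / ε := by field_simp
  obtain ⟨L, hL, hLL⟩ := hE d γ hγ.continuous R
  refine ⟨Z' ∪ (U \ U'), hZ'm.union (hU.measurableSet.diff hU'o.measurableSet), ?_, fun i => ?_⟩
  · calc volume (Z' ∪ (U \ U')) ≤ volume Z' + volume (U \ U') := measure_union_le _ _
      _ ≤ ENNReal.ofReal (ε / 2) + ENNReal.ofReal (ε / 2) :=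
          add_le_add hZ'v ((measure_mono (sdiff_subset_sdiff_right hKU')).trans hKv.le)
      _ = ENNReal.ofReal ε := by
          rw [← ENNReal.ofReal_add (by positivity) (by positivity), add_halves]
  · obtain ⟨h, hc1, hz, hb, heq, hdec, hsmall⟩ := hZ' i
    rw [eqC] at hb hdec
    have hsupp : tsupport h ⊆ closure U' :=
      closure_mono (fun y hy => by
        by_contra hy'
        exact hy (hz y hy'))
    have hcs : HasCompactSupport h := hU'k.of_isClosed_subset (isClosed_tsupport h) hsupp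
    have hint : Integrable h := hc1.integrable_of_hasCompactSupport hcs
    obtain ⟨-, -, e3⟩ := hLL h hint (fun y hy => hz y (fun hyU => by
      have h1 := hUR (hU'U hyU)
      rw [mem_closedBall, dist_zero_right] at h1
      linarith))
    refine ⟨h, hc1, hcs, hsupp.trans hU'c, hb, ?_, hdec, ?_, ?_⟩
    · intro y hyU hyZ
      have hyU' : y ∈ U' := by
        by_contra hy'
        exact hyZ (Or.inr ⟨hyU, hy'⟩)
      exact heq y hyU' (fun hy' => hyZ (Or.inl hy'))
    · intro p hp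
      exact hM (d + 1) hn (ex γ h) _ e3 hdec p (by rw [hcast]; exact hp)
    · intro r hr
      exact hsm (ex γ h) hdec hsmall r hr

end Pool.Agent.H197.GS
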