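import Mathlib
import Pool.Agent.H197.PD.KAP
import Pool.Agent.H197.PD.MGF
import Pool.Agent.H197.PD.PT
import Pool.Agent.H197.PD.MEMLP
import Pool.Agent.H197.GS.PARI
import Pool.Agent.H197.GS.IBP
import Pool.Agent.H197.GS.TAY
import Pool.Agent.H197.GS.CAP
import Pool.Agent.H197.GS.SEP
import Pool.Agent.H197.GS.SQA
import Pool.Agent.H197.GS.SUB
import Pool.Agent.H197.GS.SQB
import Pool.Agent.H197.GS.APX
import Pool.Agent.H197.GS.DISC
import Pool.Agent.H197.GS.EXB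
import Pool.Agent.H197.GS.RNQ
import Pool.Agent.H197.GS.STQ
import Pool.Agent.H197.GS.FNQ
import Pool.Agent.H197.GS.UNQ
import Pool.Agent.H197.GS.LOC
import Pool.Agent.H197.GS.PIE
import Pool.Agent.H197.GS.GNQ
import Pool.Agent.H197.GS.SEQ
import Pool.Agent.H197.GS.ANI
import Pool.Agent.H197.GS.DIL
import Pool.Agent.H197.GS.DUA
import Pool.Agent.H197.GS.L1B
import Pool.Agent.H197.GS.NEC
import Pool.Agent.H197.GS.FLT
set_option autoImplicit false

/-! # Project GS: assembly -/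

namespace Pool.Agent.H197.GS

open Pool.Agent.H197.PD (t_KAP t_MGF t_PT t_MEMLP)

theorem final_CAP : S_CAP := t_CAP t_KAP t_PARI t_IBP t_TAY

theorem final_STQ : S_STQ :=
  t_STQ t_KAP (t_SQA t_KAP final_CAP t_SEP) (t_SQB t_KAP final_CAP t_SEP (t_SUB t_KAP))
    (t_RNQ t_MGF t_PT) t_APX (t_DISC t_KAP) t_EXB

theorem final_UNQ : S_UNQ := t_UNQ (t_FNQ t_EXB final_STQ) t_MEMLP t_EXB

theorem final_GNQ : S_GNQ := t_GNQ final_UNQ (t_PIE t_LOC) t_EXB

theorem final_SEQ : S_SEQ := t_SEQ final_GNQ t_EXB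

theorem final_FLT : S_FLT := t_FLT (t_NEC (t_L1B t_PARI t_IBP t_ANI t_DIL) t_DUA t_DIL)

end Pool.Agent.H197.GS
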