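import Mathlib
import Pool.Agent.H197.PD.STEP2
import Pool.Agent.H197.GS.Stm2
import Pool.Agent.H197.GS.Stm3
set_option autoImplicit false

/-! # Project GS: the one-step theorem for finite families on the sphere -/

namespace Pool.Agent.H197.SP

open MeasureTheory Set Metric Complex Filter Topology
open Pool.Agent.H197.PD
open scoped ENNReal NNReal RealInnerProductSpace BigOperators ContDiff

open Pool.Agent.H197.PD.STEP

theorem t_STPQ (hK : S_KAP) (hH : S_HAT) (hO : S_ORTH) (hR : S_REP) (hI : S_INT)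
    (hN : Pool.Agent.H197.GS.S_RNQ) (hT : S_TRIG) : S_STPQ := by
  classical
  intro n hn
  obtain ⟨K1, hK1, hsq⟩ := square hH hO hR hI hT n hn
  have hk : Continuous kap := hK.1.1.continuous
  have hn2 : (2 : ℝ) ≤ n := by exact_mod_cast hn
  set al : ℝ := ((n : ℝ) - 1) / 2 with hal
  have hal1 : 1 / 2 ≤ al := by rw [hal]; linarith
  obtain ⟨Cr, hCr, hr⟩ := hN n al (by omega) (by linarith)
  set S : ℝ := (sigma n).real univ with hS
  have hS0 : 0 < S := sig_pos n (by omega)
  have hpi := Real.pi_pos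
  set K2 : ℝ := K1 + (2 * Real.pi * S + S) with hK2
  have hK20 : 0 < K2 := by positivity
  set Cm : ℝ := 2 ^ (n + 2) * S + 2 with hCm
  have hCm0 : 0 < Cm := by positivity
  refine ⟨2 * Cm + 4 * Cr * K2 * Cm, by positivity, ?_⟩
  intro M hM Q φ hφ hb ε hε hε1 ρ hρ η hη
  have hQ0 : (0 : ℝ) < (Q : ℝ) + 1 := by positivity
  choose K c et hc1 hc2 using fun q => approx (φ q) (hφ q) M hM (hb q) ρ hρ
    (ε / 2 / ((Q : ℝ) + 1)) (by positivity)
  set m : ℕ := ⌈2 ^ (n + 2) * S / ε⌉₊ + 1 with hm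
  have hm1 : 1 ≤ m := by omega
  have hmR : (1 : ℝ) ≤ m := by exact_mod_cast hm1
  have hm3 : 2 ^ (n + 2) * S / ε ≤ m := by
    rw [hm]; push_cast
    linarith [Nat.le_ceil (2 ^ (n + 2) * S / ε)]
  have hm4 : (m : ℝ) ≤ Cm / ε := by
    rw [hm]; push_cast
    have h1 := (Nat.ceil_lt_add_one (show 0 ≤ 2 ^ (n + 2) * S / ε by positivity)).le
    have h2 : (2 : ℝ) ≤ 2 / ε := by
      rw [le_div_iff₀ hε]; linarith
    rw [hCm, add_div]
    linarith
  set B : ℝ := 2 * M with hB
  have hB0 : 0 < B := by positivity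
  set V : ℝ := K2 * B with hV
  have hV0 : 0 < V := by positivity
  choose N0 hN01 hN0 using fun q => hsq (K q) (c q) (et q) B hB0 (hc1 q)
  have hP : 0 < Cr * (m * V) := by positivity
  obtain ⟨N1, hN1⟩ := small al (η / (Cr * (m * V))) hal1 (by positivity)
  obtain ⟨N, hNdef⟩ : ∃ N : ℕ, N = max (max 1 Q) (max (Finset.univ.sup N0) N1) := ⟨_, rfl⟩
  have hNN0 : ∀ q, N0 q ≤ N := by
    intro q
    rw [hNdef]
    exact (Finset.le_sup (Finset.mem_univ q)).trans ((le_max_left _ _).trans (le_max_right _ _))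
  have hNN1 : N1 ≤ N := by
    rw [hNdef]
    exact (le_max_right _ _).trans (le_max_right _ _)
  have hN1' : 1 ≤ N := by
    rw [hNdef]
    exact (le_max_left _ _).trans (le_max_left _ _)
  have hNQ : Q ≤ N := by
    rw [hNdef]
    exact (le_max_right _ _).trans (le_max_left _ _)
  have hNR : (1 : ℝ) ≤ N := by exact_mod_cast hN1'
  have hbd : ∀ q (z : (Fin n → Fin (2 * N + 4)) → Fin m) x, ‖Hz (c q) (et q) N m z x‖ ≤ m * B :=
    fun q z x => Hz_le hK (c q) (et q) N m hm1 z B hB0.le (hc1 q) x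
  have hnorm : ∀ q (z : (Fin n → Fin (2 * N + 4)) → Fin m),
      ∫ x, ‖Hz (c q) (et q) N m z x‖ ∂(sigma n) ≤ m * B * S := fun q z =>
    int_norm_le (Hz_cont hk (c q) (et q) N m z).measurable (hbd q z)
  obtain ⟨z, hz1, hz2⟩ := hr (Fin n → Fin (2 * N + 4)) m hm1 N V hNR hV0 Q (by exact_mod_cast hNQ)
    (fun q j => ft (pc (c q) (et q) N j)) (fun j => (sigma n).real (supp n N j))
    (fun j => measureReal_nonneg) (fun q j => ft_cont (cont_int (pc_cont hk (c q) (et q) N j)))
    (by
      intro q ξ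
      refine (hN0 q N (hNN0 q) ξ).trans ?_
      have e1 : -(2 * al) = -((n : ℝ) - 1) := by rw [hal]; ring
      rw [e1]
      refine mul_le_mul_of_nonneg_right ?_ (by positivity)
      refine pow_le_pow_left₀ (by positivity) ?_ 2
      rw [hV]
      refine mul_le_mul_of_nonneg_right ?_ hB0.le
      rw [hK2]
      nlinarith [mul_pos hpi hS0])
    (by
      intro q z ξ
      rw [← ft_Hz hk]
      refine (ft_norm_le _ ξ).trans ((hnorm q z).trans ?_)
      rw [hV, hK2, mul_assoc]
      refine mul_le_mul_of_nonneg_left ?_ (by positivity)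
      nlinarith [mul_pos hpi hS0, mul_pos (mul_pos hpi hS0) hB0, mul_pos hK1 hB0])
    (by
      intro q z ξ ξ'
      rw [← ft_Hz hk, ← ft_Hz hk]
      refine (ft_lip (cont_int (Hz_cont hk (c q) (et q) N m z)) ξ ξ').trans ?_
      refine mul_le_mul_of_nonneg_right ?_ (norm_nonneg _)
      calc 2 * Real.pi * ∫ x, ‖Hz (c q) (et q) N m z x‖ ∂(sigma n) ≤ 2 * Real.pi * (m * B * S) :=
            mul_le_mul_of_nonneg_left (hnorm q z) (by positivity)
        _ = m * (2 * Real.pi * S * B) := by ring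
        _ ≤ m * V := by
            refine mul_le_mul_of_nonneg_left ?_ (by positivity)
            rw [hV]
            refine mul_le_mul_of_nonneg_right ?_ hB0.le
            rw [hK2]
            linarith)
  have hdec : ∀ q ξ, ‖ft (Hz (c q) (et q) N m z) ξ‖ ≤
      Cr * (m * V) * (√(Real.log (2 + (N : ℝ) + ‖ξ‖)) * ((N : ℝ) + ‖ξ‖) ^ (-al)) := by
    intro q ξ
    have h1 := hz2 q ξ
    rw [ft_Hz hk]
    refine h1.trans (le_of_eq ?_)
    ring
  refine ⟨fun q => Hz (c q) (et q) N m z, fun q => Hz_cont hk (c q) (et q) N m z, ?_, ?_, ?_, ?_⟩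
  · intro q x
    refine (hbd q z x).trans ?_
    calc (m : ℝ) * B ≤ Cm / ε * B := mul_le_mul_of_nonneg_right hm4 hB0.le
      _ = 2 * Cm * M / ε := by rw [hB]; ring
      _ ≤ _ := by
        gcongr
        have : 0 < 4 * Cr * K2 * Cm := by positivity
        linarith
  · set Z0 : Set (sphere (0 : E n) 1) :=
      ⋃ j ∈ (Finset.univ.filter fun j => ((z j : Fin m) : ℕ) = 0), supp n N j with hZ0
    have hsub : {x | ∃ q, ρ < ‖φ q x - Hz (c q) (et q) N m z x‖} ⊆
        (⋃ q, {x | ρ < ‖φ q x - trig (c q) (et q) x‖}) ∪ Z0 := by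
      intro x hx
      rw [mem_union]
      obtain ⟨q, hq⟩ := hx
      by_cases h1 : Hz (c q) (et q) N m z x = trig (c q) (et q) x
      · left
        rw [mem_iUnion]
        refine ⟨q, ?_⟩
        have hx' : ρ < ‖φ q x - Hz (c q) (et q) N m z x‖ := hq
        rw [h1] at hx'
        exact hx'
      · right; exact Hz_ne hK (c q) (et q) N m z h1
    refine (measure_mono hsub).trans ((measure_union_le _ _).trans ?_)
    have h2 : sigma n Z0 ≤ ENNReal.ofReal (ε / 2) := by
      rw [← ENNReal.ofReal_toReal (measure_ne_top (sigma n) Z0)]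
      apply ENNReal.ofReal_le_ofReal
      change (sigma n).real _ ≤ _
      refine (measureReal_biUnion_finset_le _ _).trans ?_
      rw [Finset.sum_filter]
      refine hz1.trans ?_
      rw [div_le_iff₀ (by linarith)]
      have h3 := supp_sum hK n N
      rw [div_le_iff₀ hε] at hm3
      rw [← hS] at h3
      have h4 : (2 : ℝ) ^ (n + 2) = 4 * 2 ^ n := by rw [pow_add]; ring
      rw [h4] at hm3
      linarith
    have h5 : sigma n (⋃ q, {x | ρ < ‖φ q x - trig (c q) (et q) x‖}) ≤ ENNReal.ofReal (ε / 2) := by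
      refine (measure_iUnion_le _).trans ?_
      rw [tsum_fintype]
      calc ∑ q, sigma n {x | ρ < ‖φ q x - trig (c q) (et q) x‖}
          ≤ ∑ _q : Fin Q, ENNReal.ofReal (ε / 2 / ((Q : ℝ) + 1)) :=
            Finset.sum_le_sum fun q _ => hc2 q
        _ = ENNReal.ofReal ((Q : ℝ) * (ε / 2 / ((Q : ℝ) + 1))) := by
            rw [Finset.sum_const, Finset.card_univ, Fintype.card_fin, nsmul_eq_mul,
              ENNReal.ofReal_mul (by positivity), ENNReal.ofReal_natCast]
        _ ≤ ENNReal.ofReal (ε / 2) := by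
            apply ENNReal.ofReal_le_ofReal
            rw [mul_div_assoc', div_le_iff₀ hQ0]
            nlinarith
    calc _ ≤ ENNReal.ofReal (ε / 2) + ENNReal.ofReal (ε / 2) := add_le_add h5 h2
      _ = ENNReal.ofReal ε := by
        rw [← ENNReal.ofReal_add (by positivity) (by positivity)]
        congr 1; ring
  · intro q ξ
    refine (hdec q ξ).trans ?_
    have h1 := dec_le hn (N : ℝ) hNR ξ
    have h0 : 0 ≤ dec n ξ := by unfold dec; positivity
    calc Cr * (m * V) * (√(Real.log (2 + (N : ℝ) + ‖ξ‖)) * ((N : ℝ) + ‖ξ‖) ^ (-al))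
        ≤ Cr * (m * V) * (2 * dec n ξ) := mul_le_mul_of_nonneg_left h1 hP.le
      _ = (4 * Cr * K2 * M) * m * dec n ξ := by rw [hV, hB]; ring
      _ ≤ (4 * Cr * K2 * M) * (Cm / ε) * dec n ξ := by gcongr
      _ = (4 * Cr * K2 * Cm) * M / ε * dec n ξ := by ring
      _ ≤ _ := by
        refine mul_le_mul_of_nonneg_right ?_ h0
        gcongr
        linarith
  · intro q ξ
    refine (hdec q ξ).trans ?_
    have h1 := mono (s' := (N : ℝ)) (s := (N : ℝ) + ‖ξ‖) (al := al) hNR
      (by linarith [norm_nonneg ξ]) hal1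
    rw [← add_assoc] at h1
    have h2 := h1.trans (hN1 N hNN1)
    calc _ ≤ Cr * (m * V) * (η / (Cr * (m * V))) := mul_le_mul_of_nonneg_left h2 hP.le
      _ = η := by field_simp

end Pool.Agent.H197.SP
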