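import Mathlib
import Pool.Agent.H197.PD.KAP
import Pool.Agent.H197.PD.HAT
import Pool.Agent.H197.PD.ORTH
import Pool.Agent.H197.PD.REP
import Pool.Agent.H197.PD.INT
import Pool.Agent.H197.PD.MGF
import Pool.Agent.H197.PD.PT
import Pool.Agent.H197.PD.LASY
import Pool.Agent.H197.PD.TRIG
import Pool.Agent.H197.PD.NORMS
import Pool.Agent.H197.GS.RNQ
import Pool.Agent.H197.GS.STPQ
import Pool.Agent.H197.GS.FNS
set_option autoImplicit false

/-! # Project GS: assembly for the sphere -/

namespace Pool.Agent.H197.SP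

open Pool.Agent.H197.PD

theorem final_COS : S_COS :=
  t_FNS (t_STPQ t_KAP t_HAT t_ORTH t_REP t_INT (Pool.Agent.H197.GS.t_RNQ t_MGF t_PT) (t_TRIG t_LASY))

end Pool.Agent.H197.SP
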