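import Mathlib
import Pool.Agent.H197.GS.Stm
set_option autoImplicit false

/-! # GS-GEN (helper387 for helper197): the correction theorem for graphs whose Hessian is regular almost everywhere -/

namespace Pool.Agent.H197.GS

open MeasureTheory Set Metric Complex Filter Topology
open Pool.Agent.H197.PD (E kap chi vec zet dec S_KAP S_RAND S_MEMLP)
open scoped ENNReal NNReal RealInnerProductSpace BigOperators ContDiff

namespace GEN

theorem ek_cont {d : ℕ} (γ : E d → ℝ) (hγ : Continuous γ) (x : E d) (t : ℝ) :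
    Continuous (ek γ x t) := by
  unfold ek
  fun_prop

theorem int_mul {d : ℕ} (γ : E d → ℝ) (hγ : Continuous γ) (x : E d) (t : ℝ) (h : E d → ℂ)
    (hc : Continuous h) (hs : HasCompactSupport h) :
    Integrable (fun y => h y * ek γ x t y) := by
  refine Continuous.integrable_of_hasCompactSupport (hc.mul (ek_cont γ hγ x t)) ?_
  exact hs.mul_right

theorem ex_sum {d n : ℕ} (γ : E d → ℝ) (hγ : Continuous γ) (h : Fin n → E d → ℂ)
    (hc : ∀ i, Continuous (h i)) (hs : ∀ i, HasCompactSupport (h i)) :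
    ex γ (fun y => ∑ i, h i y) = ∑ i, ex γ (h i) := by
  funext ξ
  rw [Finset.sum_apply]
  unfold ex
  rw [← integral_finsetSum]
  · congr 1
    funext y
    rw [Finset.sum_mul]
  · intro i _
    exact int_mul γ hγ _ _ _ (hc i) (hs i)

theorem dec_nonneg (n : ℕ) (ξ : E n) : 0 ≤ dec n ξ := by
  unfold Pool.Agent.H197.PD.dec
  exact mul_nonneg (Real.sqrt_nonneg _) (Real.rpow_nonneg (by positivity) _)

end GEN

open GEN in
theorem t_GEN (hU : S_UNI) (hP : S_PIE) (_hE : S_EXB) : S_GEN := by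
  intro d γ hd hγ U hUo hUb hfl ε hε hε1
  obtain ⟨n, V, c, hc, hVo, hVU, hVe, hVd, hvol⟩ :=
    hP d γ hd hγ U hUo hUb hfl (ε / 2) (by positivity)
  have hVb : ∀ i, Bornology.IsBounded (V i) := fun i => hUb.subset (hVU i)
  choose C hC0 hC using fun i => hU d γ hd hγ (V i) (hVo i) (hVb i) c hc (hVe i)
  have hn0 : (0 : ℝ) ≤ n := Nat.cast_nonneg n
  obtain ⟨m, hm⟩ : ∃ m : ℝ, m = (n : ℝ) + 1 := ⟨_, rfl⟩
  have hm0 : 0 < m := by rw [hm]; positivity
  have hS0 : 0 ≤ ∑ i, C i * (2 * m / ε) :=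
    Finset.sum_nonneg fun i _ => mul_nonneg (hC0 i).le (by positivity)
  refine ⟨∑ i, C i * (2 * m / ε) + 1, by linarith, ?_⟩
  intro g hg M hM p₀ hp₀ η hη
  have hε' : 0 < ε / (2 * m) := by positivity
  have hε'1 : ε / (2 * m) ≤ 1 := by
    rw [div_le_one (by positivity)]
    linarith
  have hη' : 0 < η / m := by positivity
  choose h hcont hcs hts hbd hvl hdec hmem hnorm using
    fun i => hC i g hg M hM (ε / (2 * m)) hε' hε'1 p₀ hp₀ (η / m) hη'
  have hK : IsCompact (⋃ i, tsupport (h i)) := isCompact_iUnion fun i => hcs i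
  have hzero : ∀ y, y ∉ (⋃ i, tsupport (h i)) → ∑ i, h i y = 0 := by
    intro y hy
    refine Finset.sum_eq_zero fun i _ => ?_
    have : y ∉ tsupport (h i) := fun hh => hy (mem_iUnion.2 ⟨i, hh⟩)
    exact image_eq_zero_of_notMem_tsupport this
  have hex : ex γ (fun y => ∑ i, h i y) = ∑ i, ex γ (h i) :=
    ex_sum γ hγ.continuous h hcont hcs
  have hCM : ∑ i, C i * M / (ε / (2 * m)) ≤ (∑ i, C i * (2 * m / ε) + 1) * M := by
    have e1 : ∑ i, C i * M / (ε / (2 * m)) = (∑ i, C i * (2 * m / ε)) * M := by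
      rw [Finset.sum_mul]
      refine Finset.sum_congr rfl fun i _ => ?_
      field_simp
    rw [e1, add_mul, one_mul]
    linarith
  have hd0 : (0 : ℝ) < d := by exact_mod_cast hd
  have hp1 : 1 ≤ p₀ := by
    have h2 : (1 : ℝ) ≤ 2 * ((d : ℝ) + 1) / d := by
      rw [le_div_iff₀ hd0]
      linarith
    linarith
  refine ⟨fun y => ∑ i, h i y, continuous_finsetSum _ fun i _ => hcont i,
    HasCompactSupport.intro hK hzero, ?_, ?_, ?_, ?_, ?_, ?_⟩
  · -- support
    have h1 : tsupport (fun y => ∑ i, h i y) ⊆ ⋃ i, tsupport (h i) := by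
      refine closure_minimal ?_ hK.isClosed
      intro y hy
      by_contra hh
      exact hy (hzero y hh)
    exact h1.trans (iUnion_subset fun i => (hts i).trans (hVU i))
  · -- sup bound
    intro y
    calc ‖∑ i, h i y‖ ≤ ∑ i, ‖h i y‖ := norm_sum_le _ _
      _ ≤ ∑ i, C i * M / (ε / (2 * m)) := Finset.sum_le_sum fun i _ => hbd i y
      _ ≤ _ := hCM
  · -- exceptional set
    have hsub : {y | y ∈ U ∧ (∑ i, h i y) ≠ g y} ⊆
        (U \ ⋃ i, V i) ∪ ⋃ i, {y | y ∈ V i ∧ h i y ≠ g y} := by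
      rintro y ⟨hyU, hy⟩
      by_cases hyV : y ∈ ⋃ i, V i
      · right
        obtain ⟨i, hi⟩ := mem_iUnion.1 hyV
        refine mem_iUnion.2 ⟨i, hi, ?_⟩
        have e2 : ∑ j, h j y = h i y := by
          refine Finset.sum_eq_single i ?_ (fun hh => absurd (Finset.mem_univ i) hh)
          intro j _ hj
          have : y ∉ tsupport (h j) := fun hh =>
            (Set.disjoint_left.1 (hVd j i hj)) (hts j hh) hi
          exact image_eq_zero_of_notMem_tsupport this
        rwa [e2] at hy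
      · exact Or.inl ⟨hyU, hyV⟩
    have hmeas : ∀ i, MeasurableSet {y | y ∈ V i ∧ M < ‖g y‖} := fun i =>
      (hVo i).measurableSet.inter (measurableSet_lt measurable_const hg.norm)
    have hdis : Pairwise (Function.onFun Disjoint fun i => {y | y ∈ V i ∧ M < ‖g y‖}) := by
      intro i j hij
      refine Set.disjoint_left.2 ?_
      rintro y ⟨hy1, _⟩ ⟨hy2, _⟩
      exact (Set.disjoint_left.1 (hVd i j hij)) hy1 hy2
    have hsum : ∑ i, volume {y | y ∈ V i ∧ M < ‖g y‖} ≤ volume {y | y ∈ U ∧ M < ‖g y‖} := by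
      rw [← tsum_fintype (L := SummationFilter.unconditional _), ← measure_iUnion hdis hmeas]
      refine measure_mono (iUnion_subset fun i => ?_)
      rintro y ⟨hy1, hy2⟩
      exact ⟨hVU i hy1, hy2⟩
    have hhalf : (n : ℝ≥0∞) * ENNReal.ofReal (ε / (2 * m)) ≤ ENNReal.ofReal (ε / 2) := by
      rw [← ENNReal.ofReal_natCast, ← ENNReal.ofReal_mul hn0]
      refine ENNReal.ofReal_le_ofReal ?_
      have e3 : (n : ℝ) * (ε / (2 * m)) = (n / m) * (ε / 2) := by
        field_simp
      rw [e3]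
      have e4 : (n : ℝ) / m ≤ 1 := by
        rw [div_le_one hm0]
        linarith
      nlinarith
    calc volume {y | y ∈ U ∧ (∑ i, h i y) ≠ g y}
        ≤ volume ((U \ ⋃ i, V i) ∪ ⋃ i, {y | y ∈ V i ∧ h i y ≠ g y}) := measure_mono hsub
      _ ≤ volume (U \ ⋃ i, V i) + volume (⋃ i, {y | y ∈ V i ∧ h i y ≠ g y}) :=
          measure_union_le _ _
      _ ≤ ENNReal.ofReal (ε / 2) + ∑ i, volume {y | y ∈ V i ∧ h i y ≠ g y} :=
          add_le_add hvol (measure_iUnion_fintype_le _ _)
      _ ≤ ENNReal.ofReal (ε / 2) +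
            ∑ i, (ENNReal.ofReal (ε / (2 * m)) + volume {y | y ∈ V i ∧ M < ‖g y‖}) := by
          gcongr with i
          exact hvl i
      _ = ENNReal.ofReal (ε / 2) + ((n : ℝ≥0∞) * ENNReal.ofReal (ε / (2 * m)) +
            ∑ i, volume {y | y ∈ V i ∧ M < ‖g y‖}) := by
          rw [Finset.sum_add_distrib]
          simp
      _ ≤ ENNReal.ofReal (ε / 2) + (ENNReal.ofReal (ε / 2) +
            volume {y | y ∈ U ∧ M < ‖g y‖}) := by
          gcongr
      _ = ENNReal.ofReal ε + volume {y | y ∈ U ∧ M < ‖g y‖} := by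
          rw [← add_assoc, ← ENNReal.ofReal_add (by positivity) (by positivity), add_halves]
  · -- decay
    intro ξ
    have e5 : ex γ (fun y => ∑ i, h i y) ξ = ∑ i, ex γ (h i) ξ := by
      rw [hex, Finset.sum_apply]
    calc ‖ex γ (fun y => ∑ i, h i y) ξ‖ = ‖∑ i, ex γ (h i) ξ‖ := by rw [e5]
      _ ≤ ∑ i, ‖ex γ (h i) ξ‖ := norm_sum_le _ _
      _ ≤ ∑ i, C i * M / (ε / (2 * m)) * dec (d + 1) ξ := Finset.sum_le_sum fun i _ => hdec i ξ
      _ = (∑ i, C i * M / (ε / (2 * m))) * dec (d + 1) ξ := by rw [Finset.sum_mul]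
      _ ≤ _ := mul_le_mul_of_nonneg_right hCM (dec_nonneg _ _)
  · -- MemLp
    intro p hp
    rw [hex]
    exact memLp_finsetSum' _ fun i _ => hmem i p hp
  · -- norms
    intro r hr
    have hr1 : 1 ≤ r := by
      refine le_trans ?_ hr
      rw [← ENNReal.ofReal_one]
      exact ENNReal.ofReal_le_ofReal hp1
    rw [hex]
    calc eLpNorm (∑ i, ex γ (h i)) r volume ≤ ∑ i, eLpNorm (ex γ (h i)) r volume :=
          eLpNorm_sum_le (fun i _ => (hmem i p₀ hp₀).1) hr1
      _ ≤ ∑ _i : Fin n, ENNReal.ofReal (η / m) := Finset.sum_le_sum fun i _ => hnorm i r hr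
      _ = (n : ℝ≥0∞) * ENNReal.ofReal (η / m) := by simp
      _ ≤ ENNReal.ofReal η := by
          rw [← ENNReal.ofReal_natCast, ← ENNReal.ofReal_mul hn0]
          refine ENNReal.ofReal_le_ofReal ?_
          have e6 : (n : ℝ) * (η / m) = (n / m) * η := by
            field_simp
          rw [e6]
          have e7 : (n : ℝ) / m ≤ 1 := by
            rw [div_le_one hm0]
            linarith
          nlinarith

end Pool.Agent.H197.GS
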