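import Mathlib
import Pool.Agent.H197.GS.EACH
import Pool.Agent.H197.PD.STEP
set_option autoImplicit false

/-! Project GS: corrections which depend on the density and on the scale. -/

namespace Pool.Agent.H197.SP

open MeasureTheory Set Metric Complex Filter Topology
open Pool.Agent.H197.PD (E sigma ft dec)
open scoped ENNReal NNReal RealInnerProductSpace BigOperators

/-- every density can be corrected: the size of the correction and its set may depend on the density -/
def Cor (n : ℕ) (p c : ℝ) (μ : Measure (E n)) (A : ℝ) : Prop :=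
  ∀ g : sphere (0 : E n) 1 → ℂ, Measurable g → (∀ x, ‖g x‖ ≤ 1) →
    ∃ (h : sphere (0 : E n) 1 → ℂ) (K : ℝ) (Z : Set (sphere (0 : E n) 1)), Measurable h ∧ 0 ≤ K ∧ MeasurableSet Z ∧
      (1 + K) ^ p * (sigma n).real Z ≤ c * (sigma n).real univ ∧ (∀ x, x ∉ Z → h x = g x) ∧ (∀ x, x ∈ Z → ‖h x‖ ≤ K) ∧
      eLpNorm (ft h) (ENNReal.ofReal p) μ ≤ ENNReal.ofReal A

theorem nb_le' {n : ℕ} {p R A : ℝ} {h : sphere (0 : E n) 1 → ℂ} (hA : 0 ≤ A)
    (H : eLpNorm (ft h) (ENNReal.ofReal p) (volume.restrict (closedBall (0 : E n) R)) ≤ ENNReal.ofReal A) : nb p R h ≤ A := by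
  unfold nb
  exact ENNReal.toReal_le_of_le_ofReal hA H

theorem t_LOC (hN : S_NBA) (hR : S_REST) (hAV : ∀ n : ℕ, 2 ≤ n → ∀ q : ℝ, 2 ≤ q → ∀ R : ℝ, AV n q R) :
    ∀ p : ℝ, 2 ≤ p → ∃ c : ℝ, 0 < c ∧ ∀ n : ℕ, 2 ≤ n → ∀ R A : ℝ, 0 ≤ A →
      Cor n p c (volume.restrict (closedBall (0 : E n) R)) A →
      ∀ g : sphere (0 : E n) 1 → ℂ, Measurable g → (∀ x, ‖g x‖ ≤ 1) → nb p R g ≤ 2 * A := by
  intro p hp
  have hp0 : 0 < p := by linarith
  obtain ⟨C, hC, hres⟩ := hR p hp
  refine ⟨min 1 ((1 / (2 * C)) ^ p), by positivity, ?_⟩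
  intro n hn R A hA H
  have hS : 0 < (sigma n).real univ := by
    have h := Pool.Agent.H197.PD.STEP.sig_pos n (by omega)
    exact h
  have main : av n p R 1 ≤ 2 * A := by
    obtain ⟨h1, h2, ⟨D, hD0, hD⟩, h4, -⟩ := hAV n hn p hp R
    obtain ⟨n1, n2, -, -⟩ := hN n hn p (by linarith) R
    have hN0 : 0 ≤ av n p R 1 := h1 1 zero_le_one
    have hstep : ∀ g : sphere (0 : E n) 1 → ℂ, Measurable g → (∀ x, ‖g x‖ ≤ 1) →
        nb p R g ≤ A + 1 / 2 * av n p R 1 := by
      intro g hg hg1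
      obtain ⟨h, K, Z, hh, hK, hZ, hc, hhZ, hhK, hhA⟩ := H g hg hg1
      obtain ⟨ε, hε⟩ : ∃ ε : ℝ, ε = (sigma n).real Z / (sigma n).real univ := ⟨_, rfl⟩
      have hε0 : 0 ≤ ε := by rw [hε]; positivity
      have hZε : (sigma n).real Z ≤ ε * (sigma n).real univ := by
        rw [hε, div_mul_cancel₀ _ hS.ne']
      have hc' : (1 + K) ^ p * ε ≤ min 1 ((1 / (2 * C)) ^ p) := by
        rw [hε, ← mul_div_assoc, div_le_iff₀ hS]
        exact hc
      have hKpos : 0 < 1 + K := by linarith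
      have hhb : ∀ x, ‖h x‖ ≤ 1 + K := by
        intro x
        by_cases hx : x ∈ Z
        · exact (hhK x hx).trans (by linarith)
        · rw [hhZ x hx]
          exact (hg1 x).trans (by linarith)
      set u : sphere (0 : E n) 1 → ℂ := fun x => ((1 + K : ℝ) : ℂ)⁻¹ * (g x - h x) with hu
      have hum : Measurable u := (hg.sub hh).const_mul _
      have hnn : ‖((1 + K : ℝ) : ℂ)⁻¹‖ = (1 + K)⁻¹ := by
        rw [norm_inv, Complex.norm_real, Real.norm_eq_abs, abs_of_pos hKpos]
      have hu1 : ∀ x, ‖u x‖ ≤ 1 := by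
        intro x
        by_cases hx : x ∈ Z
        · simp only [hu]
          rw [norm_mul, hnn, inv_mul_le_iff₀ hKpos, mul_one]
          exact (norm_sub_le _ _).trans (add_le_add (hg1 x) (hhK x hx))
        · simp only [hu]
          rw [hhZ x hx, sub_self, mul_zero, norm_zero]
          exact zero_le_one
      have hu0 : ∀ x, x ∉ Z → u x = 0 := by
        intro x hx
        simp only [hu]
        rw [hhZ x hx, sub_self, mul_zero]
      have h5 : nb p R u ≤ av n p R ε := h4 ε hε0 u Z hum hZ hu1 hu0 hZε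
      have h6 : nb p R (fun x => g x - h x) ≤ (1 + K) * av n p R ε := by
        have h7 : nb p R u = (1 + K)⁻¹ * nb p R (fun x => g x - h x) := by
          simp only [hu]
          rw [n2, hnn]
        rw [h7, inv_mul_le_iff₀ hKpos] at h5
        exact h5
      have h9 : nb p R g ≤ nb p R h + nb p R (fun x => g x - h x) := by
        have h10 := n1 h (fun x => g x - h x) ⟨hh, 1 + K, hhb⟩
          ⟨hg.sub hh, 1 + (1 + K), fun x => (norm_sub_le _ _).trans (add_le_add (hg1 x) (hhb x))⟩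
        have h11 : (fun x => h x + (g x - h x)) = g := by
          funext x
          ring
        rw [h11] at h10
        exact h10
      have h12 : nb p R h ≤ A := nb_le' hA hhA
      have h13 : (1 + K) * av n p R ε ≤ 1 / 2 * av n p R 1 := by
        rcases hε0.eq_or_lt with h0 | hpos
        · have h14 := hD 0 le_rfl
          rw [mul_zero] at h14
          rw [← h0]
          have h15 : (1 + K) * av n p R 0 ≤ 0 := mul_nonpos_of_nonneg_of_nonpos hKpos.le h14
          linarith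
        · have hK1 : 1 ≤ (1 + K) ^ p := Real.one_le_rpow (by linarith) hp0.le
          have hε1 : ε ≤ 1 := by
            have h1 : ε ≤ (1 + K) ^ p * ε := le_mul_of_one_le_left hε0 hK1
            exact h1.trans (hc'.trans (min_le_left _ _))
          have hKε : (1 + K) * (C * ε ^ (1 / p)) ≤ 1 / 2 := by
            have h1 : ((1 + K) ^ p * ε) ^ (1 / p) ≤ ((1 / (2 * C)) ^ p) ^ (1 / p) :=
              Real.rpow_le_rpow (by positivity) (hc'.trans (min_le_right _ _)) (by positivity)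
            rw [Real.mul_rpow (by positivity) hε0, ← Real.rpow_mul (by positivity), ← Real.rpow_mul (by positivity),
              mul_one_div_cancel hp0.ne', Real.rpow_one, Real.rpow_one] at h1
            have h2 : C * ((1 + K) * ε ^ (1 / p)) ≤ C * (1 / (2 * C)) := by gcongr
            have h3 : C * (1 / (2 * C)) = 1 / 2 := by field_simp
            rw [h3] at h2
            calc (1 + K) * (C * ε ^ (1 / p)) = C * ((1 + K) * ε ^ (1 / p)) := by ring
              _ ≤ 1 / 2 := h2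
          have h8 := hres n hn R ε hpos hε1
          calc (1 + K) * av n p R ε ≤ (1 + K) * (C * ε ^ (1 / p) * av n p R 1) := by gcongr
            _ = (1 + K) * (C * ε ^ (1 / p)) * av n p R 1 := by ring
            _ ≤ 1 / 2 * av n p R 1 := by gcongr
      linarith
    have h14 : av n p R 1 ≤ A + 1 / 2 * av n p R 1 := by
      conv_lhs => unfold av
      refine csSup_le ⟨_, fun _ => 0, ∅, measurable_const, MeasurableSet.empty, fun _ => by simp,
        fun _ _ => rfl, by simp, rfl⟩ ?_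
      rintro y ⟨g, Z, hg, -, hg1, -, -, rfl⟩
      exact hstep g hg hg1
    linarith
  intro g hg hg1
  obtain ⟨-, -, -, h4, -⟩ := hAV n hn p hp R
  have h1 := h4 1 zero_le_one g univ hg MeasurableSet.univ hg1 (fun x hx => absurd (mem_univ x) hx)
    (by rw [one_mul])
  exact h1.trans main

/-- the final form: local and global -/
theorem t_CORE (hN : S_NBA) (hR : S_REST) (hAV : ∀ n : ℕ, 2 ≤ n → ∀ q : ℝ, 2 ≤ q → ∀ R : ℝ, AV n q R) :
    ∀ p : ℝ, 2 ≤ p → ∃ c : ℝ, 0 < c ∧ ∀ n : ℕ, 2 ≤ n → ∀ A : ℝ, 0 ≤ A →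
      (∀ R : ℝ, Cor n p c (volume.restrict (closedBall (0 : E n) R)) A →
        ∀ g : sphere (0 : E n) 1 → ℂ, Measurable g → (∀ x, ‖g x‖ ≤ 1) →
          eLpNorm (ft g) (ENNReal.ofReal p) (volume.restrict (closedBall (0 : E n) R)) ≤ ENNReal.ofReal (2 * A)) ∧
      (Cor n p c volume A →
        ∀ g : sphere (0 : E n) 1 → ℂ, Measurable g → (∀ x, ‖g x‖ ≤ 1) →
          eLpNorm (ft g) (ENNReal.ofReal p) volume ≤ ENNReal.ofReal (2 * A)) := by
  intro p hp
  obtain ⟨c, hc, H⟩ := t_LOC hN hR hAV p hp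
  refine ⟨c, hc, fun n hn A hA => ⟨fun R hX g hg hg1 => ?_, fun hX g hg hg1 => ?_⟩⟩
  · rw [ENNReal.le_ofReal_iff_toReal_le (EACH.nb_fin hg hg1) (by linarith)]
    exact H n hn R A hA hX g hg hg1
  · refine EACH.lim (by linarith) hg hg1 fun R => H n hn R A hA ?_ g hg hg1
    intro g hg hg1
    obtain ⟨h, K, Z, h1, h2, h3, h4, h5, h6, h7⟩ := hX g hg hg1
    exact ⟨h, K, Z, h1, h2, h3, h4, h5, h6, (eLpNorm_mono_measure _ Measure.restrict_le_self).trans h7⟩

end Pool.Agent.H197.SP
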