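import Mathlib
import Pool.Agent.H197.GS.Stm4
set_option autoImplicit false

/-! Project GS, task SP-NBA: the local norm of the transform is a rotation invariant seminorm. -/

namespace Pool.Agent.H197.SP

open MeasureTheory Set Metric Complex Filter Topology
open Pool.Agent.H197.PD (E sigma ft dec)
open scoped ENNReal NNReal RealInnerProductSpace BigOperators

namespace NBA

attribute [local instance] THR.sig_fin

instance ball_fin (n : ℕ) (R : ℝ) :
    IsFiniteMeasure ((volume : Measure (E n)).restrict (closedBall (0 : E n) R)) :=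
  ⟨by rw [Measure.restrict_apply_univ]; exact measure_closedBall_lt_top⟩

theorem bm_int {n : ℕ} {u : sphere (0 : E n) 1 → ℂ} (hu : BM u) : Integrable u (sigma n) := by
  obtain ⟨hm, M, hM⟩ := hu
  exact THR.int_of_bdd hm hM

theorem ft_add {n : ℕ} {u v : sphere (0 : E n) 1 → ℂ} (hu : BM u) (hv : BM v) :
    ft (fun x => u x + v x) = ft u + ft v := by
  funext ξ
  have h := integral_add (THR.ker_int (bm_int hu) ξ) (THR.ker_int (bm_int hv) ξ)
  show ft (fun x => u x + v x) ξ = ft u ξ + ft v ξ
  unfold ft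
  rw [← h]
  refine integral_congr_ae (Filter.Eventually.of_forall fun x => ?_)
  simp only
  ring

theorem ft_smul {n : ℕ} (c : ℂ) (u : sphere (0 : E n) 1 → ℂ) :
    ft (fun x => c * u x) = c • ft u := by
  funext ξ
  show ft (fun x => c * u x) ξ = c * ft u ξ
  unfold ft
  rw [← integral_const_mul]
  refine integral_congr_ae (Filter.Eventually.of_forall fun x => ?_)
  simp only
  ring

/-- the rotation as a homeomorphism of the sphere -/
noncomputable def rotH {n : ℕ} (ρ : E n ≃ₗᵢ[ℝ] E n) : sphere (0 : E n) 1 ≃ₜ sphere (0 : E n) 1 where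
  toFun := THR.rot ρ
  invFun := THR.rot ρ.symm
  left_inv x := Subtype.ext (ρ.symm_apply_apply _)
  right_inv x := Subtype.ext (ρ.apply_symm_apply _)
  continuous_toFun := THR.rot_cont ρ
  continuous_invFun := THR.rot_cont ρ.symm

theorem ft_rot {n : ℕ} (u : sphere (0 : E n) 1 → ℂ) (ρ : E n ≃ₗᵢ[ℝ] E n) :
    ft (fun x => u (THR.rot ρ x)) = ft u ∘ ρ := by
  funext ξ
  show ft (fun x => u (THR.rot ρ x)) ξ = ft u (ρ ξ)
  unfold ft
  rw [← (THR.rot_mp ρ).integral_comp (rotH ρ).measurableEmbedding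
    (fun x : sphere (0 : E n) 1 => Complex.exp (-(2 * Real.pi * ⟪(x : E n), ρ ξ⟫ : ℝ) * I) * u x)]
  refine integral_congr_ae (Filter.Eventually.of_forall fun x => ?_)
  show _ = Complex.exp (-(2 * Real.pi * ⟪ρ (x : E n), ρ ξ⟫ : ℝ) * I) * u (THR.rot ρ x)
  rw [LinearIsometryEquiv.inner_map_map]

theorem mem {n : ℕ} {u : sphere (0 : E n) 1 → ℂ} (hu : BM u) (q R : ℝ) :
    MemLp (ft u) (ENNReal.ofReal q)
      ((volume : Measure (E n)).restrict (closedBall (0 : E n) R)) :=
  MemLp.of_bound (THR.ft_cont (bm_int hu)).aestronglyMeasurable _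
    (Filter.Eventually.of_forall fun ξ => THR.ft_norm_le u ξ)

end NBA

open NBA

theorem t_NBA : S_NBA := by
  intro n hn q hq R
  refine ⟨?_, ?_, ?_, ?_⟩
  · intro u v hu hv
    unfold nb
    rw [ft_add hu hv, ← ENNReal.toReal_add (mem hu q R).eLpNorm_ne_top (mem hv q R).eLpNorm_ne_top]
    apply ENNReal.toReal_mono
    · exact ENNReal.add_ne_top.2 ⟨(mem hu q R).eLpNorm_ne_top, (mem hv q R).eLpNorm_ne_top⟩
    · apply eLpNorm_add_le (mem hu q R).1 (mem hv q R).1
      rw [← ENNReal.ofReal_one]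
      exact ENNReal.ofReal_le_ofReal hq
  · intro c u
    unfold nb
    rw [ft_smul, eLpNorm_const_smul, ENNReal.toReal_mul, toReal_enorm]
  · intro u ρ
    unfold nb
    rw [ft_rot]
    congr 1
    have hemb : MeasurableEmbedding (ρ : E n → E n) := ρ.toHomeomorph.measurableEmbedding
    have h1 := ρ.measurePreserving.restrict_preimage_emb hemb (closedBall (0 : E n) R)
    have h2 : (ρ : E n → E n) ⁻¹' closedBall (0 : E n) R = closedBall (0 : E n) R := by
      ext x
      simp [mem_closedBall_zero_iff]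
    rw [h2] at h1
    rw [← hemb.eLpNorm_map_measure, h1.map_eq]
  · refine ⟨(((volume : Measure (E n)).restrict (closedBall (0 : E n) R)) univ ^
      (ENNReal.ofReal q).toReal⁻¹).toReal, ENNReal.toReal_nonneg, ?_⟩
    intro u hu
    have h0 : 0 ≤ ∫ x, ‖u x‖ ∂(sigma n) := integral_nonneg fun _ => norm_nonneg _
    unfold nb
    have h1 := eLpNorm_le_of_ae_bound (p := ENNReal.ofReal q) (f := ft u)
      (μ := (volume : Measure (E n)).restrict (closedBall (0 : E n) R))
      (Filter.Eventually.of_forall fun ξ => THR.ft_norm_le u ξ)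
    have h2 : (((volume : Measure (E n)).restrict (closedBall (0 : E n) R)) univ ^
      (ENNReal.ofReal q).toReal⁻¹) ≠ ⊤ :=
      ENNReal.rpow_ne_top_of_nonneg (by positivity) (measure_ne_top _ _)
    have h3 := ENNReal.toReal_mono (ENNReal.mul_ne_top h2 ENNReal.ofReal_ne_top) h1
    rwa [ENNReal.toReal_mul, ENNReal.toReal_ofReal h0] at h3

end Pool.Agent.H197.SP
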