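import Mathlib
import Pool.Agent.H197.GS.Stm4
set_option autoImplicit false

/-! Project GS, task SP-NBC: Clarkson's inequality for the local norm of the transform. -/

namespace Pool.Agent.H197.SP

open MeasureTheory Set Metric Complex Filter Topology
open Pool.Agent.H197.PD (E sigma ft dec)
open scoped ENNReal NNReal RealInnerProductSpace BigOperators

namespace NBC

attribute [local instance] THR.sig_fin

theorem sq_rpow (x q : ℝ) (hx : 0 ≤ x) : x ^ q = (x ^ 2) ^ (q / 2) := by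
  rw [← Real.rpow_natCast x 2, ← Real.rpow_mul hx]
  congr 1
  push_cast
  ring

/-- the pointwise inequality -/
theorem pt (q : ℝ) (hq : 2 ≤ q) (a b : ℂ) :
    ‖a‖ ^ q + ‖b‖ ^ q ≤ (‖a + b‖ ^ q + ‖a - b‖ ^ q) / 2 := by
  rw [sq_rpow _ q (norm_nonneg a), sq_rpow _ q (norm_nonneg b), sq_rpow _ q (norm_nonneg (a + b)),
    sq_rpow _ q (norm_nonneg (a - b))]
  have hr : 1 ≤ q / 2 := by linarith
  have hA : 0 ≤ ‖a‖ ^ 2 := by positivity
  have hB : 0 ≤ ‖b‖ ^ 2 := by positivity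
  have hC : 0 ≤ ‖a + b‖ ^ 2 := by positivity
  have hD : 0 ≤ ‖a - b‖ ^ 2 := by positivity
  have hpar : ‖a + b‖ ^ 2 + ‖a - b‖ ^ 2 = 2 * (‖a‖ ^ 2 + ‖b‖ ^ 2) := by
    have h := parallelogram_law_with_norm ℝ a b
    nlinarith [h]
  have h1 := Real.add_rpow_le_rpow_add hA hB hr
  have h2 := (convexOn_rpow hr).2 (Set.mem_Ici.mpr hC) (Set.mem_Ici.mpr hD)
    (by norm_num : (0 : ℝ) ≤ 1 / 2) (by norm_num : (0 : ℝ) ≤ 1 / 2) (by norm_num)
  simp only [smul_eq_mul] at h2
  have e : 1 / 2 * ‖a + b‖ ^ 2 + 1 / 2 * ‖a - b‖ ^ 2 = ‖a‖ ^ 2 + ‖b‖ ^ 2 := by linarith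
  rw [e] at h2
  linarith

theorem ball_fin (n : ℕ) (R : ℝ) :
    IsFiniteMeasure ((volume : Measure (E n)).restrict (closedBall (0 : E n) R)) := by
  refine ⟨?_⟩
  rw [Measure.restrict_apply_univ]
  exact measure_closedBall_lt_top

theorem memLp {n : ℕ} (q R : ℝ) {u : sphere (0 : E n) 1 → ℂ} (hu : Integrable u (sigma n)) :
    MemLp (ft u) (ENNReal.ofReal q) ((volume : Measure (E n)).restrict (closedBall (0 : E n) R)) := by
  have := ball_fin n R
  exact MemLp.of_bound (THR.ft_cont hu).aestronglyMeasurable (∫ x, ‖u x‖ ∂(sigma n))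
    (Filter.Eventually.of_forall fun ξ => THR.ft_norm_le u ξ)

theorem nb_pow {n : ℕ} {q : ℝ} (hq : 2 ≤ q) (R : ℝ) {u : sphere (0 : E n) 1 → ℂ}
    (hu : Integrable u (sigma n)) :
    nb q R u ^ q = ∫ ξ in closedBall (0 : E n) R, ‖ft u ξ‖ ^ q := by
  have hq0 : 0 < q := by linarith
  have h0 : ENNReal.ofReal q ≠ 0 := (ENNReal.ofReal_pos.mpr hq0).ne'
  have hI : 0 ≤ ∫ ξ in closedBall (0 : E n) R, ‖ft u ξ‖ ^ q :=
    integral_nonneg fun ξ => Real.rpow_nonneg (norm_nonneg _) _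
  rw [nb, (memLp q R hu).eLpNorm_eq_integral_rpow_norm h0 ENNReal.ofReal_ne_top,
    ENNReal.toReal_ofReal hq0.le, ENNReal.toReal_ofReal (Real.rpow_nonneg hI _),
    ← Real.rpow_mul hI, inv_mul_cancel₀ hq0.ne', Real.rpow_one]

theorem int_pow {n : ℕ} {q : ℝ} (hq : 2 ≤ q) (R : ℝ) {u : sphere (0 : E n) 1 → ℂ}
    (hu : Integrable u (sigma n)) :
    Integrable (fun ξ => ‖ft u ξ‖ ^ q) ((volume : Measure (E n)).restrict (closedBall (0 : E n) R)) := by
  have hq0 : 0 < q := by linarith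
  have h0 : ENNReal.ofReal q ≠ 0 := (ENNReal.ofReal_pos.mpr hq0).ne'
  have h := (memLp q R hu).integrable_norm_rpow h0 ENNReal.ofReal_ne_top
  rw [ENNReal.toReal_ofReal hq0.le] at h
  exact h

theorem ft_add {n : ℕ} {u v : sphere (0 : E n) 1 → ℂ} (hu : Integrable u (sigma n))
    (hv : Integrable v (sigma n)) (ξ : E n) : ft (fun x => u x + v x) ξ = ft u ξ + ft v ξ := by
  unfold ft
  rw [← integral_add (THR.ker_int hu ξ) (THR.ker_int hv ξ)]
  refine integral_congr_ae (Filter.Eventually.of_forall fun x => ?_)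
  exact mul_add _ _ _

theorem ft_sub {n : ℕ} {u v : sphere (0 : E n) 1 → ℂ} (hu : Integrable u (sigma n))
    (hv : Integrable v (sigma n)) (ξ : E n) : ft (fun x => u x - v x) ξ = ft u ξ - ft v ξ := by
  unfold ft
  rw [← integral_sub (THR.ker_int hu ξ) (THR.ker_int hv ξ)]
  refine integral_congr_ae (Filter.Eventually.of_forall fun x => ?_)
  exact mul_sub _ _ _

end NBC

open NBC in
theorem t_NBC : S_NBC := by
  intro n _ q hq R u v hu hv
  obtain ⟨hum, M, hM⟩ := hu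
  obtain ⟨hvm, M', hM'⟩ := hv
  have hui : Integrable u (sigma n) := THR.int_of_bdd hum hM
  have hvi : Integrable v (sigma n) := THR.int_of_bdd hvm hM'
  have hai : Integrable (fun x => u x + v x) (sigma n) := hui.add hvi
  have hsi : Integrable (fun x => u x - v x) (sigma n) := hui.sub hvi
  rw [nb_pow hq R hui, nb_pow hq R hvi, nb_pow hq R hai, nb_pow hq R hsi,
    ← integral_add (int_pow hq R hui) (int_pow hq R hvi),
    ← integral_add (int_pow hq R hai) (int_pow hq R hsi), ← integral_div]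
  refine integral_mono ((int_pow hq R hui).add (int_pow hq R hvi))
    (((int_pow hq R hai).add (int_pow hq R hsi)).div_const 2) fun ξ => ?_
  show ‖ft u ξ‖ ^ q + ‖ft v ξ‖ ^ q ≤
    (‖ft (fun x => u x + v x) ξ‖ ^ q + ‖ft (fun x => u x - v x) ξ‖ ^ q) / 2
  rw [ft_add hui hvi, ft_sub hui hvi]
  exact pt q hq _ _

end Pool.Agent.H197.SP
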