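import Mathlib
import Pool.Agent.H197.GS.LOCE
import Pool.Agent.H222.SP.Qual
set_option autoImplicit false

/-! Project GS: Stein's conjecture (Q1) and the local estimates with losses, for densities on the sphere. -/

namespace Pool.Agent.H197.SP.QO

open MeasureTheory Set Metric Complex Filter Topology
open Pool.Agent.H197.PD (E sigma ft dec)
open Pool.Agent.H222.SP (TT NN BB Est GE GE_of_qual GE_of_eps Est_of_GE)
open Pool.Agent.H789R2.FR (sg sg_finite)
open scoped ENNReal NNReal RealInnerProductSpace BigOperators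

theorem emb (n : ℕ) : MeasurableEmbedding (Subtype.val : sphere (0 : E n) 1 → E n) :=
  MeasurableEmbedding.subtype_coe isClosed_sphere.measurableSet

theorem TT_sub {n : ℕ} (f : E n → ℂ) : TT (sg n) f = ft (fun x : sphere (0 : E n) 1 => f x) := by
  funext ξ
  have h : TT (sg n) f ξ =
      ∫ y, f y * Complex.exp ((-(2 * Real.pi * inner ℝ y ξ) : ℝ) * Complex.I) ∂((sigma n).map Subtype.val) := rfl
  rw [h, (emb n).integral_map]
  unfold ft
  refine integral_congr_ae (Eventually.of_forall fun x => ?_)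
  simp only
  rw [mul_comm, Complex.ofReal_neg]

/-- extension by zero -/
noncomputable def ext {n : ℕ} (g : sphere (0 : E n) 1 → ℂ) : E n → ℂ := Function.extend Subtype.val g (fun _ => 0)

theorem ext_meas {n : ℕ} {g : sphere (0 : E n) 1 → ℂ} (hg : Measurable g) : Measurable (ext g) :=
  (emb n).measurable_extend hg measurable_const

theorem ext_apply {n : ℕ} (g : sphere (0 : E n) 1 → ℂ) (x : sphere (0 : E n) 1) : ext g x = g x :=
  Subtype.val_injective.extend_apply _ _ _

theorem ext_le {n : ℕ} {g : sphere (0 : E n) 1 → ℂ} (hg1 : ∀ x, ‖g x‖ ≤ 1) (y : E n) : ‖ext g y‖ ≤ 1 := by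
  by_cases hy : ∃ x : sphere (0 : E n) 1, (x : E n) = y
  · obtain ⟨x, rfl⟩ := hy
    rw [ext_apply]
    exact hg1 x
  · unfold ext
    rw [Function.extend_apply' _ _ _ hy, norm_zero]
    exact zero_le_one

theorem TT_ext {n : ℕ} (g : sphere (0 : E n) 1 → ℂ) : TT (sg n) (ext g) = ft g := by
  rw [TT_sub]
  congr 1
  funext x
  exact ext_apply g x

theorem norm_eq {n : ℕ} {p : ℝ} (hp : 0 < p) (F : E n → ℂ) (μ : Measure (E n)) :
    eLpNorm F (ENNReal.ofReal p) μ = (∫⁻ ξ, ‖F ξ‖ₑ ^ p ∂μ) ^ (1 / p) := by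
  rw [eLpNorm_eq_lintegral_rpow_enorm_toReal (by simpa using hp) ENNReal.ofReal_ne_top, ENNReal.toReal_ofReal hp.le]

/-- the local estimate with the loss `R^τ` -/
def LE (n : ℕ) (p τ : ℝ) : Prop :=
  ∃ C : ℝ, 0 ≤ C ∧ ∀ g : sphere (0 : E n) 1 → ℂ, Measurable g → (∀ x, ‖g x‖ ≤ 1) → ∀ R : ℝ, 1 ≤ R →
    eLpNorm (ft g) (ENNReal.ofReal p) (volume.restrict (closedBall (0 : E n) R)) ≤ ENNReal.ofReal (C * R ^ τ)

theorem LE_iff {n : ℕ} {p τ : ℝ} (hp : 0 < p) : LE n p τ ↔ Est (sg n) p (p * τ) := by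
  constructor
  · rintro ⟨C, hC, H⟩
    refine ⟨(C ^ p).toNNReal, fun f hf hf1 R hR => ?_⟩
    have h1 := H (fun x => f x) (hf.comp measurable_subtype_coe) (fun x => hf1 x) R hR
    rw [norm_eq hp] at h1
    have h2 := ENNReal.rpow_le_rpow h1 hp.le
    rw [← ENNReal.rpow_mul, one_div_mul_cancel hp.ne', ENNReal.rpow_one] at h2
    unfold NN
    rw [TT_sub]
    refine h2.trans (le_of_eq ?_)
    rw [ENNReal.ofReal_rpow_of_nonneg (by positivity) hp.le, Real.mul_rpow hC (by positivity),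
      ← Real.rpow_mul (by positivity), ENNReal.ofReal_mul (by positivity), mul_comm τ p]
    rfl
  · rintro ⟨C, H⟩
    refine ⟨(C : ℝ) ^ (1 / p), by positivity, fun g hg hg1 R hR => ?_⟩
    have h1 := H (ext g) (ext_meas hg) (ext_le hg1) R hR
    unfold NN at h1
    rw [TT_ext] at h1
    rw [norm_eq hp]
    refine (ENNReal.rpow_le_rpow h1 (by positivity)).trans (le_of_eq ?_)
    have h3 : (C : ℝ≥0∞) * ENNReal.ofReal (R ^ (p * τ)) = ENNReal.ofReal ((C : ℝ) * R ^ (p * τ)) := by
      rw [ENNReal.ofReal_mul C.coe_nonneg, ENNReal.ofReal_coe_nnreal]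
    rw [h3, ENNReal.ofReal_rpow_of_nonneg (by positivity) (by positivity), Real.mul_rpow (by positivity) (by positivity),
      ← Real.rpow_mul (by positivity)]
    congr 3
    field_simp

/-- the assertion of Q1 for one dimension and one exponent -/
def St (n : ℕ) (q : ℝ) : Prop :=
  ∀ g : sphere (0 : E n) 1 → ℂ, Measurable g → (∃ M : ℝ, ∀ x, ‖g x‖ ≤ M) → MemLp (ft g) (ENNReal.ofReal q) volume

theorem St_iff {n : ℕ} {q : ℝ} (hq : 1 ≤ q) : St n q ↔ GE (sg n) q := by
  have hfin := sg_finite n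
  have hsf := THR.sig_fin n
  have hq0 : 0 < q := by linarith
  constructor
  · intro h
    refine GE_of_qual hq fun f hf hf1 => ?_
    have h1 := h (fun x => f x) (hf.comp measurable_subtype_coe) ⟨1, fun x => hf1 x⟩
    have h2 := h1.eLpNorm_lt_top
    rw [norm_eq hq0] at h2
    rw [TT_sub]
    exact (ENNReal.rpow_lt_top_iff_of_pos (by positivity)).1 h2
  · rintro ⟨C, hC⟩ g hg ⟨M, hM⟩
    obtain ⟨K, hK⟩ : ∃ K : ℝ, K = |M| + 1 := ⟨_, rfl⟩
    have hK0 : 0 < K := by rw [hK]; positivity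
    have hg1 : ∀ x, ‖(K : ℂ)⁻¹ * g x‖ ≤ 1 := fun x => by
      rw [norm_mul, norm_inv, Complex.norm_real, Real.norm_of_nonneg hK0.le,
        inv_mul_le_iff₀ hK0, mul_one, hK]
      have := (hM x).trans (le_abs_self M)
      linarith
    have h1 := hC (ext fun x => (K : ℂ)⁻¹ * g x) (ext_meas (hg.const_mul _)) (ext_le hg1)
    rw [TT_ext] at h1
    have h2 : ft g = fun ξ => (K : ℂ) * ft (fun x => (K : ℂ)⁻¹ * g x) ξ := by
      funext ξ
      unfold ft
      rw [← integral_const_mul]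
      refine integral_congr_ae (Eventually.of_forall fun x => ?_)
      simp only
      have : (K : ℂ) ≠ 0 := by exact_mod_cast hK0.ne'
      field_simp
    have h3 : MemLp (ft fun x => (K : ℂ)⁻¹ * g x) (ENNReal.ofReal q) volume := by
      refine ⟨(THR.ft_cont (THR.int_of_bdd (hg.const_mul _) hg1)).aestronglyMeasurable, ?_⟩
      rw [norm_eq hq0]
      exact ENNReal.rpow_lt_top_of_nonneg (by positivity) (h1.trans_lt ENNReal.coe_lt_top).ne
    rw [h2]
    exact h3.const_mul _

/-- the exponents above `p` and the local estimates at `p` -/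
theorem St_LE {n : ℕ} (hn : 2 ≤ n) {p : ℝ} (hp : 2 ≤ p) :
    (∀ q : ℝ, p < q → St n q) ↔ ∀ τ : ℝ, 0 < τ → LE n p τ := by
  have hfin := sg_finite n
  have hp0 : 0 < p := by linarith
  constructor
  · intro h τ hτ
    rw [LE_iff hp0]
    exact Est_of_GE hp0 (fun s hs => (St_iff (by linarith)).1 (h s hs)) (by positivity)
  · intro h q hq
    rw [St_iff (by linarith)]
    refine GE_of_eps n hn hp (fun ε hε => ?_) hq
    have h1 := (LE_iff hp0).1 (h (ε / p) (by positivity))
    rwa [mul_div_cancel₀ _ hp0.ne'] at h1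

end Pool.Agent.H197.SP.QO
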