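import Mathlib
import Pool.Agent.H197.GS.Stm4

set_option autoImplicit false

/-! Project GS, task SP-ROTZ: a rotation which moves most of a small set off itself (helper585). -/

namespace Pool.Agent.H197.SP

open MeasureTheory Set Metric Complex Filter Topology
open Pool.Agent.H197.PD (E sigma ft dec)
open scoped ENNReal NNReal RealInnerProductSpace BigOperators ContDiff

namespace ROTZ

attribute [local instance] THR.sig_fin

/-- a continuous function between the indicator functions of a compact set and of an open set of the sphere -/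
theorem ury {n : ℕ} {K U : Set (sphere (0 : E n) 1)} (hK : IsCompact K) (hU : IsOpen U) (hKU : K ⊆ U) :
    ∃ G : E n → ℝ, Continuous G ∧ (∀ x, 0 ≤ G x) ∧ (∀ x, G x ≤ 1) ∧
      (∀ x : sphere (0 : E n) 1, x ∈ K → G x = 1) ∧ (∀ x : sphere (0 : E n) 1, x ∉ U → G x = 0) := by
  have hcl1 : IsClosed ((fun x : sphere (0 : E n) 1 => (x : E n)) '' Uᶜ) :=
    (hU.isClosed_compl.isCompact.image continuous_subtype_val).isClosed
  have hcl2 : IsClosed ((fun x : sphere (0 : E n) 1 => (x : E n)) '' K) :=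
    (hK.image continuous_subtype_val).isClosed
  have hdis : Disjoint ((fun x : sphere (0 : E n) 1 => (x : E n)) '' Uᶜ)
      ((fun x : sphere (0 : E n) 1 => (x : E n)) '' K) := by
    rw [Set.disjoint_left]
    rintro _ ⟨x, hx, rfl⟩ ⟨z, hz, hxz⟩
    have h1 : z = x := Subtype.ext hxz
    rw [h1] at hz
    exact hx (hKU hz)
  obtain ⟨f, h1, h2, h3⟩ := exists_continuous_zero_one_of_isClosed hcl1 hcl2 hdis
  refine ⟨f, f.continuous, fun x => (h3 x).1, fun x => (h3 x).2, fun x hx => ?_, fun x hx => ?_⟩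
  · exact h2 ⟨x, hx, rfl⟩
  · exact h1 ⟨x, hx, rfl⟩

theorem real_lt {n : ℕ} {A : Set (sphere (0 : E n) 1)} {ε : ℝ} (hε : 0 < ε)
    (h : (sigma n) A < ENNReal.ofReal ε) : (sigma n).real A ≤ ε := by
  rw [measureReal_def]
  exact ENNReal.toReal_le_of_le_ofReal hε.le h.le

end ROTZ

attribute [local instance] THR.sig_fin

open ROTZ in
/-- SP-ROTZ -/
theorem t_ROTZ : S_ROTZ := by
  intro n hn Z hZ t ht hZt
  obtain ⟨s, hs⟩ : ∃ s : ℝ, s = (sigma n).real univ := ⟨_, rfl⟩
  have hs0 : 0 ≤ s := by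
    rw [hs]
    exact measureReal_nonneg
  rcases hs0.eq_or_lt with h0 | h0
  · refine ⟨LinearIsometryEquiv.refl ℝ (E n), ?_⟩
    rw [← hs, ← h0, mul_zero]
    have h1 : (sigma n).real (Z ∩ THR.rot (LinearIsometryEquiv.refl ℝ (E n)) ⁻¹' Z) ≤
        (sigma n).real univ := measureReal_mono (subset_univ _)
    rwa [← hs, ← h0] at h1
  rw [← hs] at hZt
  obtain ⟨ε, hεd⟩ : ∃ ε : ℝ, ε = t ^ 2 * s / (1 + t) := ⟨_, rfl⟩
  have hε : 0 < ε := by
    rw [hεd]
    positivity
  have hεt : (1 + t) * ε = t ^ 2 * s := by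
    rw [hεd]
    field_simp
  have hε' : ENNReal.ofReal ε ≠ 0 := (ENNReal.ofReal_pos.2 hε).ne'
  obtain ⟨K, hKZ, hK, hKε⟩ := hZ.exists_isCompact_sdiff_lt (measure_ne_top (sigma n) Z) hε'
  obtain ⟨U, hKU, hU, -, hUε⟩ := hK.measurableSet.exists_isOpen_sdiff_lt (measure_ne_top (sigma n) K) hε'
  obtain ⟨G, hG, hG0, hG1, hGK, hGU⟩ := ury hK hU hKU
  obtain ⟨ρ, hρ⟩ := t_AVG n hn G hG hG0 Z hZ
  refine ⟨ρ, ?_⟩
  have hKm := hK.measurableSet
  have hUm := hU.measurableSet
  have hrm := (THR.rot_cont ρ).measurable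
  -- integrability
  have hGi : Integrable (fun x : sphere (0 : E n) 1 => G (x : E n)) (sigma n) :=
    Integrable.of_bound (hG.comp continuous_subtype_val).aestronglyMeasurable 1
      (Eventually.of_forall fun x => by
        rw [Real.norm_of_nonneg (hG0 _)]
        exact hG1 _)
  have hGρi : Integrable (fun x : sphere (0 : E n) 1 => G (ρ (x : E n))) (sigma n) :=
    Integrable.of_bound (hG.comp (ρ.continuous.comp continuous_subtype_val)).aestronglyMeasurable 1
      (Eventually.of_forall fun x => by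
        rw [Real.norm_of_nonneg (hG0 _)]
        exact hG1 _)
  -- the integral of `G`
  have b1 : ∫ x, G (x : E n) ∂(sigma n) ≤ (sigma n).real U := by
    rw [← integral_indicator_one hUm]
    refine integral_mono hGi ((integrable_const (1 : ℝ)).indicator hUm) fun x => ?_
    by_cases hx : x ∈ U
    · rw [Set.indicator_of_mem hx]
      exact hG1 _
    · rw [Set.indicator_of_notMem hx]
      exact (hGU x hx).le
  have b2 : (sigma n).real U ≤ (sigma n).real Z + ε := by
    have h1 : U ⊆ K ∪ (U \ K) := fun x hx => by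
      by_cases h : x ∈ K
      · exact Or.inl h
      · exact Or.inr ⟨hx, h⟩
    calc (sigma n).real U ≤ (sigma n).real (K ∪ (U \ K)) := measureReal_mono h1
      _ ≤ (sigma n).real K + (sigma n).real (U \ K) := measureReal_union_le _ _
      _ ≤ (sigma n).real Z + ε := add_le_add (measureReal_mono hKZ) (real_lt hε hUε)
  -- the intersection
  have b3 : (sigma n).real (Z ∩ THR.rot ρ ⁻¹' K) ≤ ∫ x in Z, G (ρ (x : E n)) ∂(sigma n) := by
    have hm : MeasurableSet (Z ∩ THR.rot ρ ⁻¹' K) := hZ.inter (hrm hKm)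
    rw [← integral_indicator_one hm, ← integral_indicator hZ]
    refine integral_mono ((integrable_const (1 : ℝ)).indicator hm) (hGρi.indicator hZ) fun x => ?_
    by_cases hx : x ∈ Z ∩ THR.rot ρ ⁻¹' K
    · rw [Set.indicator_of_mem hx, Set.indicator_of_mem hx.1]
      have h1 : G ((THR.rot ρ x : sphere (0 : E n) 1) : E n) = 1 := hGK _ hx.2
      exact h1.symm.le
    · rw [Set.indicator_of_notMem hx]
      exact Set.indicator_nonneg (fun x _ => hG0 _) x
  have b4 : (sigma n).real (Z ∩ THR.rot ρ ⁻¹' Z) ≤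
      (sigma n).real (Z ∩ THR.rot ρ ⁻¹' K) + (sigma n).real (THR.rot ρ ⁻¹' (Z \ K)) := by
    refine le_trans (measureReal_mono ?_) (measureReal_union_le _ _)
    rintro x ⟨h1, h2⟩
    by_cases h : THR.rot ρ x ∈ K
    · exact Or.inl ⟨h1, h⟩
    · exact Or.inr ⟨h2, h⟩
  have b5 : (sigma n).real (THR.rot ρ ⁻¹' (Z \ K)) ≤ ε := by
    refine real_lt hε ?_
    rw [(THR.rot_mp ρ).measure_preimage (hZ.diff hKm).nullMeasurableSet]
    exact hKε
  have hU0 : 0 ≤ (sigma n).real U := measureReal_nonneg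
  have b6 : (sigma n).real Z / (sigma n).real univ * ∫ x, G (x : E n) ∂(sigma n) ≤
      t * ((sigma n).real Z + ε) := by
    rw [← hs]
    have h1 : (sigma n).real Z / s ≤ t := by
      rw [div_le_iff₀ h0]
      exact hZt
    exact mul_le_mul h1 (b1.trans b2) (integral_nonneg fun x => hG0 _) ht.le
  have b7 : t * ((sigma n).real Z + ε) ≤ t * (t * s + ε) :=
    mul_le_mul_of_nonneg_left (by linarith) ht.le
  rw [← hs]
  have b8 : t * (t * s + ε) + ε = 2 * t ^ 2 * s := by
    have : t * (t * s + ε) + ε = t ^ 2 * s + (1 + t) * ε := by ring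
    rw [this, hεt]
    ring
  linarith

end Pool.Agent.H197.SP
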