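import Mathlib
import Pool.Agent.H197.GS.Stm4
set_option autoImplicit false

/-! Project GS, task SP-SQ1: the sequence lemma, step 1. -/

namespace Pool.Agent.H197.SP

open Filter Topology

theorem t_SQ1 : S_SQ1 := by
  intro q hq
  have hq0 : 0 < q := by linarith
  obtain ⟨s, hs⟩ : ∃ s : ℝ, s = 3 / (4 * q) := ⟨_, rfl⟩
  have hs0 : 0 < s := by rw [hs]; positivity
  have hs1 : s < 1 := by
    rw [hs, div_lt_one (by positivity)]
    linarith
  have hsq : s * q = 3 / 4 := by rw [hs]; field_simp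
  have h0 : Tendsto (fun m : ℕ => (2 : ℝ) ^ (-(s * (m : ℝ)))) atTop (𝓝 0) := by
    have h := tendsto_pow_atTop_nhds_zero_of_lt_one (r := (2 : ℝ) ^ (-s)) (by positivity)
      (Real.rpow_lt_one_of_one_lt_of_neg (by norm_num) (by linarith))
    refine h.congr fun m => ?_
    rw [← Real.rpow_natCast, ← Real.rpow_mul (by norm_num)]
    congr 1
    ring
  have h1 : Tendsto (fun m : ℕ => (1 - (2 : ℝ) ^ (-(s * (m : ℝ)))) ^ q) atTop (𝓝 1) := by
    have h := (h0.const_sub 1).rpow_const (p := q) (Or.inr hq0.le)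
    simpa using h
  have h2 : (2 : ℝ) ^ (3 / 4 : ℝ) - 1 < 1 := by
    have h : (2 : ℝ) ^ (3 / 4 : ℝ) < 2 ^ (1 : ℝ) :=
      Real.rpow_lt_rpow_of_exponent_lt (by norm_num) (by norm_num)
    rw [Real.rpow_one] at h
    linarith
  obtain ⟨m0, hm0⟩ := eventually_atTop.1 (h1.eventually (lt_mem_nhds h2))
  refine ⟨(2 : ℝ) ^ (s * ((m0 : ℝ) + 1)), by positivity, ?_⟩
  intro a ha hanti ⟨D, hD⟩ hrec k
  rw [← hs]
  rcases (ha 0).eq_or_lt with h00 | h00
  · have h3 : a k ≤ a 0 := hanti (Nat.zero_le k)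
    rw [← h00] at h3 ⊢
    simpa using h3
  have hDnn : 0 ≤ D := by
    have := hD 0
    simp at this
    linarith
  set f : ℕ → ℝ := fun k => a k * (2 : ℝ) ^ (s * (k : ℝ)) with hf
  have hfl : Tendsto f atTop (𝓝 0) := by
    have h := tendsto_pow_atTop_nhds_zero_of_lt_one (r := (2 : ℝ) ^ (-(1 - s))) (by positivity)
      (Real.rpow_lt_one_of_one_lt_of_neg (by norm_num) (by linarith))
    have h' := h.const_mul D
    rw [mul_zero] at h'
    refine squeeze_zero (fun k => mul_nonneg (ha k) (by positivity)) (fun k => ?_) h'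
    have h4 : ((2 : ℝ) ^ (-(1 - s))) ^ k = (2 : ℝ) ^ (-(k : ℝ)) * (2 : ℝ) ^ (s * (k : ℝ)) := by
      rw [← Real.rpow_natCast, ← Real.rpow_mul (by norm_num), ← Real.rpow_add (by norm_num)]
      congr 1
      ring
    rw [h4, ← mul_assoc]
    exact mul_le_mul_of_nonneg_right (hD k) (by positivity)
  have hf0 : f 0 = a 0 := by simp [hf]
  obtain ⟨N, hN⟩ := eventually_atTop.1 (hfl.eventually (gt_mem_nhds h00))
  obtain ⟨k₁, hk₁m, hk₁⟩ := Finset.exists_max_image (Finset.range (N + 1)) f ⟨0, by simp⟩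
  have hmax : ∀ k, f k ≤ f k₁ := by
    intro k
    rcases lt_or_ge k (N + 1) with h | h
    · exact hk₁ k (Finset.mem_range.2 h)
    · have h5 := hN k (by omega)
      have h6 := hk₁ 0 (by simp)
      rw [hf0] at h6
      linarith
  have ha1 : 0 < a k₁ := by
    have h6 := hmax 0
    rw [hf0] at h6
    by_contra hcon
    have h7 : a k₁ = 0 := le_antisymm (not_lt.1 hcon) (ha _)
    simp only [hf, h7, zero_mul] at h6
    linarith
  have hk₁le : k₁ ≤ m0 + 1 := by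
    by_contra hcon
    obtain ⟨m, rfl⟩ : ∃ m, k₁ = m + 1 := ⟨k₁ - 1, by omega⟩
    have hm : m0 ≤ m := by omega
    have e1 : 2 * (m + 1) - 1 = 2 * m + 1 := by omega
    have e2 : m + 1 - 1 = m := by omega
    have h8 := hrec (m + 1) (by omega)
    rw [e1, e2] at h8
    have h9 := hmax (2 * m + 1)
    have h10 := hmax m
    simp only [hf] at h9 h10
    have h11 : a (2 * m + 1) ≤ a (m + 1) * (2 : ℝ) ^ (-(s * (m : ℝ))) := by
      have h12 : (2 : ℝ) ^ (s * ((m + 1 : ℕ) : ℝ)) =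
          (2 : ℝ) ^ (-(s * (m : ℝ))) * (2 : ℝ) ^ (s * ((2 * m + 1 : ℕ) : ℝ)) := by
        rw [← Real.rpow_add (by norm_num)]
        congr 1
        push_cast
        ring
      rw [h12, ← mul_assoc] at h9
      exact le_of_mul_le_mul_right h9 (by positivity)
    have h13 : a m ≤ a (m + 1) * (2 : ℝ) ^ s := by
      have h14 : (2 : ℝ) ^ (s * ((m + 1 : ℕ) : ℝ)) = (2 : ℝ) ^ s * (2 : ℝ) ^ (s * (m : ℝ)) := by
        rw [← Real.rpow_add (by norm_num)]
        congr 1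
        push_cast
        ring
      rw [h14, ← mul_assoc] at h10
      exact le_of_mul_le_mul_right h10 (by positivity)
    have h15 : (2 : ℝ) ^ (-(s * (m : ℝ))) ≤ 1 :=
      Real.rpow_le_one_of_one_le_of_nonpos (by norm_num) (by
        have : 0 ≤ s * (m : ℝ) := by positivity
        linarith)
    have h16 : (a (m + 1) * (1 - (2 : ℝ) ^ (-(s * (m : ℝ))))) ^ q ≤ (a (m + 1) - a (2 * m + 1)) ^ q := by
      refine Real.rpow_le_rpow (mul_nonneg ha1.le (by linarith)) ?_ hq0.le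
      linarith
    have h17 : a m ^ q ≤ (a (m + 1) * (2 : ℝ) ^ s) ^ q := Real.rpow_le_rpow (ha m) h13 hq0.le
    rw [Real.mul_rpow ha1.le (by linarith)] at h16
    rw [Real.mul_rpow ha1.le (by positivity), ← Real.rpow_mul (by norm_num), hsq] at h17
    have h18 := hm0 m hm
    have h19 : 0 < a (m + 1) ^ q := Real.rpow_pos_of_pos ha1 _
    have h20 : a (m + 1) ^ q * (1 + (1 - (2 : ℝ) ^ (-(s * (m : ℝ)))) ^ q) ≤
        a (m + 1) ^ q * (2 : ℝ) ^ (3 / 4 : ℝ) := by
      calc a (m + 1) ^ q * (1 + (1 - (2 : ℝ) ^ (-(s * (m : ℝ)))) ^ q)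
          = a (m + 1) ^ q + a (m + 1) ^ q * (1 - (2 : ℝ) ^ (-(s * (m : ℝ)))) ^ q := by ring
        _ ≤ a (m + 1) ^ q + (a (m + 1) - a (2 * m + 1)) ^ q := by linarith
        _ ≤ a m ^ q := h8
        _ ≤ _ := h17
    have h21 := le_of_mul_le_mul_left h20 h19
    linarith
  have h22 : f k ≤ a 0 * (2 : ℝ) ^ (s * ((m0 : ℝ) + 1)) := by
    refine (hmax k).trans ?_
    simp only [hf]
    refine mul_le_mul (hanti (Nat.zero_le _)) ?_ (by positivity) (ha 0)
    refine Real.rpow_le_rpow_of_exponent_le (by norm_num) ?_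
    refine mul_le_mul_of_nonneg_left ?_ hs0.le
    exact_mod_cast hk₁le
  have h23 : a k = f k * (2 : ℝ) ^ (-s * (k : ℝ)) := by
    simp only [hf]
    rw [mul_assoc, ← Real.rpow_add (by norm_num)]
    have : s * (k : ℝ) + -s * (k : ℝ) = 0 := by ring
    rw [this, Real.rpow_zero, mul_one]
  rw [h23]
  calc f k * (2 : ℝ) ^ (-s * (k : ℝ)) ≤ a 0 * (2 : ℝ) ^ (s * ((m0 : ℝ) + 1)) * (2 : ℝ) ^ (-s * (k : ℝ)) := by
        gcongr
    _ = (2 : ℝ) ^ (s * ((m0 : ℝ) + 1)) * (2 : ℝ) ^ (-s * (k : ℝ)) * a 0 := by ring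

end Pool.Agent.H197.SP
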