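import Mathlib
import Pool.Agent.H197.GS.Stm4

set_option autoImplicit false

/-!
# Project GS (helper197), task SQ2 (helper686): the sequence lemma, step 2
-/

namespace Pool.Agent.H197.SP

namespace SQ2

theorem exp_half {x : ℝ} (h0 : 0 ≤ x) (h1 : x ≤ 1 / 2) : 1 ≤ (1 - x) * Real.exp (2 * x) := by
  have h2 := Real.add_one_le_exp (2 * x)
  have h3 : (1 - x) * (2 * x + 1) ≤ (1 - x) * Real.exp (2 * x) :=
    mul_le_mul_of_nonneg_left h2 (by linarith)
  nlinarith

theorem bern {q r r' τ : ℝ} (hq : 2 ≤ q) (hr : 0 < r) (hr' : 0 ≤ r') (hle : r' ≤ r)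
    (hτ : r' ≤ τ * r) : r ^ q * (1 - q * τ) ≤ (r - r') ^ q := by
  have h1 : r - r' = r * (1 - r' / r) := by
    field_simp
  have h2 : r' / r ≤ 1 := (div_le_one hr).2 hle
  have h3 : r' / r ≤ τ := (div_le_iff₀ hr).2 hτ
  have h4 : 1 + q * (-(r' / r)) ≤ (1 + -(r' / r)) ^ q :=
    one_add_mul_self_le_rpow_one_add (by linarith) (by linarith)
  rw [h1, Real.mul_rpow hr.le (by linarith)]
  apply mul_le_mul_of_nonneg_left _ (Real.rpow_nonneg hr.le _)
  have h5 : 1 - r' / r = 1 + -(r' / r) := by ring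
  rw [h5]
  refine le_trans ?_ h4
  nlinarith

/-- the normalised sequence -/
theorem norm_seq {q C₁ : ℝ} (hq : 2 ≤ q) (hC₁ : 0 < C₁) {r : ℕ → ℝ} (h0 : ∀ k, 0 ≤ r k)
    (hr0 : r 0 = 1) (hanti : Antitone r)
    (hrec : ∀ k : ℕ, 1 ≤ k → r k ^ q + (r k - r (2 * k - 1)) ^ q ≤ r (k - 1) ^ q)
    (hC : ∀ k : ℕ, r k ≤ C₁ * (2 : ℝ) ^ (-(3 / (4 * q)) * (k : ℝ))) (k : ℕ) :
    r k ^ q * 2 ^ k ≤ Real.exp (q * C₁ * (2 : ℝ) ^ (3 / (4 * q)) *
      ∑ j ∈ Finset.range k, ((2 : ℝ) ^ (-(1 / (2 * q)))) ^ (j + 1)) := by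
  have hq0 : 0 < q := by linarith
  suffices h : max (r k ^ q * 2 ^ k) 1 ≤ Real.exp (q * C₁ * (2 : ℝ) ^ (3 / (4 * q)) *
      ∑ j ∈ Finset.range k, ((2 : ℝ) ^ (-(1 / (2 * q)))) ^ (j + 1)) from
    (le_max_left _ _).trans h
  induction k with
  | zero =>
    rw [hr0]
    simp
  | succ k ih =>
    rw [Finset.sum_range_succ, mul_add, Real.exp_add]
    obtain ⟨T, hT⟩ : ∃ T : ℝ, T = C₁ * (2 : ℝ) ^ (3 / (4 * q)) *
      ((2 : ℝ) ^ (-(1 / (2 * q)))) ^ (k + 1) := ⟨_, rfl⟩
    have hT0 : 0 < T := by rw [hT]; positivity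
    have hTq : q * C₁ * (2 : ℝ) ^ (3 / (4 * q)) * ((2 : ℝ) ^ (-(1 / (2 * q)))) ^ (k + 1) =
        q * T := by rw [hT]; ring
    rw [hTq]
    have hqT : 0 < q * T := by positivity
    refine le_trans ?_ (mul_le_mul_of_nonneg_right ih (Real.exp_pos _).le)
    have hE1 : 1 ≤ Real.exp (q * T) := Real.one_le_exp hqT.le
    have hm1 : (1 : ℝ) ≤ max (r k ^ q * 2 ^ k) 1 := le_max_right _ _
    have hone : (1 : ℝ) ≤ max (r k ^ q * 2 ^ k) 1 * Real.exp (q * T) := by nlinarith
    refine max_le ?_ hone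
    rcases le_or_gt (r (k + 1) ^ q * 2 ^ (k + 1)) 1 with hy | hy
    · exact hy.trans hone
    · have hmono : r (k + 1) ≤ r k := hanti (Nat.le_succ k)
      refine le_trans ?_ (mul_le_mul_of_nonneg_right (le_max_left _ _) (Real.exp_pos _).le)
      have hyk : 0 ≤ r k ^ q * 2 ^ k := mul_nonneg (Real.rpow_nonneg (h0 k) _) (by positivity)
      rcases le_or_gt 1 (q * T) with hc | hc
      · -- the trivial bound
        have h1 : r (k + 1) ^ q ≤ r k ^ q := Real.rpow_le_rpow (h0 _) hmono hq0.le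
        have h2 : (2 : ℝ) ≤ Real.exp (q * T) := by
          have := Real.add_one_le_exp (q * T)
          linarith
        calc r (k + 1) ^ q * 2 ^ (k + 1) ≤ r k ^ q * 2 ^ (k + 1) :=
              mul_le_mul_of_nonneg_right h1 (by positivity)
          _ = (r k ^ q * 2 ^ k) * 2 := by ring
          _ ≤ (r k ^ q * 2 ^ k) * Real.exp (q * T) := mul_le_mul_of_nonneg_left h2 hyk
      · -- the recursion
        have hpos : 0 < r (k + 1) := by
          refine lt_of_le_of_ne (h0 _) fun h => ?_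
          rw [← h, Real.zero_rpow hq0.ne', zero_mul] at hy
          linarith
        have hlow : (2 : ℝ) ^ (-((k + 1 : ℕ) : ℝ) / q) ≤ r (k + 1) := by
          have h1 : (2 : ℝ) ^ (-((k + 1 : ℕ) : ℝ)) ≤ r (k + 1) ^ q := by
            rw [Real.rpow_neg (by norm_num), Real.rpow_natCast, ← one_div,
              div_le_iff₀ (by positivity)]
            exact hy.le
          have h2 := Real.rpow_le_rpow (by positivity) h1 (by positivity : (0 : ℝ) ≤ 1 / q)
          rw [← Real.rpow_mul (by norm_num), ← Real.rpow_mul (h0 _), mul_one_div_cancel hq0.ne',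
            Real.rpow_one] at h2
          refine le_trans (le_of_eq ?_) h2
          congr 1
          ring
        have hτ : r (2 * (k + 1) - 1) ≤ T * r (k + 1) := by
          have h1 := hC (2 * (k + 1) - 1)
          have h2 : C₁ * (2 : ℝ) ^ (-(3 / (4 * q)) * ((2 * (k + 1) - 1 : ℕ) : ℝ)) =
              T * (2 : ℝ) ^ (-((k + 1 : ℕ) : ℝ) / q) := by
            rw [hT, mul_assoc, mul_assoc]
            congr 1
            rw [← Real.rpow_natCast ((2 : ℝ) ^ (-(1 / (2 * q)))), ← Real.rpow_mul (by norm_num),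
              ← Real.rpow_add (by norm_num), ← Real.rpow_add (by norm_num)]
            congr 1
            have h3 : ((2 * (k + 1) - 1 : ℕ) : ℝ) = 2 * k + 1 := by
              rw [show 2 * (k + 1) - 1 = 2 * k + 1 by omega]
              push_cast
              ring
            rw [h3]
            push_cast
            field_simp
            ring
          rw [h2] at h1
          exact h1.trans (mul_le_mul_of_nonneg_left hlow hT0.le)
        have hle : r (2 * (k + 1) - 1) ≤ r (k + 1) := hanti (by omega)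
        have h1 := bern hq hpos (h0 _) hle hτ
        have h2 := hrec (k + 1) (by omega)
        rw [Nat.add_sub_cancel] at h2
        have hx := exp_half (x := q * T / 2) (by positivity) (by linarith)
        have hx2 : 2 * (q * T / 2) = q * T := by ring
        rw [hx2] at hx
        have hP : 0 ≤ r (k + 1) ^ q * 2 ^ (k + 1) := by linarith
        have h3 : r (k + 1) ^ q * 2 ^ (k + 1) * (1 - q * T / 2) ≤ r k ^ q * 2 ^ k := by
          have h4 : r (k + 1) ^ q * (2 - q * T) ≤ r k ^ q := by linarith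
          have h5 := mul_le_mul_of_nonneg_right h4 (by positivity : (0 : ℝ) ≤ 2 ^ k)
          calc r (k + 1) ^ q * 2 ^ (k + 1) * (1 - q * T / 2) =
                r (k + 1) ^ q * (2 - q * T) * 2 ^ k := by ring
            _ ≤ _ := h5
        calc r (k + 1) ^ q * 2 ^ (k + 1) ≤
              r (k + 1) ^ q * 2 ^ (k + 1) * ((1 - q * T / 2) * Real.exp (q * T)) :=
              le_mul_of_one_le_right hP hx
          _ = r (k + 1) ^ q * 2 ^ (k + 1) * (1 - q * T / 2) * Real.exp (q * T) := by ring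
          _ ≤ r k ^ q * 2 ^ k * Real.exp (q * T) :=
              mul_le_mul_of_nonneg_right h3 (Real.exp_pos _).le

end SQ2

theorem t_SQ2 : S_SQ2 := by
  intro hSQ1 q hq
  obtain ⟨C₁, hC₁, H⟩ := hSQ1 q hq
  have hq0 : 0 < q := by linarith
  obtain ⟨ρ, hρ⟩ : ∃ ρ : ℝ, ρ = (2 : ℝ) ^ (-(1 / (2 * q))) := ⟨_, rfl⟩
  have hρ0 : 0 < ρ := by rw [hρ]; positivity
  have hρ1 : ρ < 1 := by
    rw [hρ]
    apply Real.rpow_lt_one_of_one_lt_of_neg (by norm_num)
    have : 0 < 1 / (2 * q) := by positivity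
    linarith
  obtain ⟨B, hB⟩ : ∃ B : ℝ, B = q * C₁ * (2 : ℝ) ^ (3 / (4 * q)) := ⟨_, rfl⟩
  have hB0 : 0 < B := by rw [hB]; positivity
  refine ⟨Real.exp (B * (1 - ρ)⁻¹ / q), Real.exp_pos _, ?_⟩
  intro a h0 hanti hD hrec k
  rcases eq_or_lt_of_le (h0 0) with ha | ha
  · have h1 := hanti (Nat.zero_le k)
    rw [← ha] at h1 ⊢
    simpa using h1
  · have Hk := H a h0 hanti hD hrec
    have hr0 : ∀ k, 0 ≤ a k / a 0 := fun k => div_nonneg (h0 k) ha.le
    have key := SQ2.norm_seq (r := fun k => a k / a 0) hq hC₁ hr0 (div_self ha.ne')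
      (fun i j hij => div_le_div_of_nonneg_right (hanti hij) ha.le) (by
        intro k hk
        have h1 := hrec k hk
        have h2 : a (2 * k - 1) ≤ a k := hanti (by omega)
        have h3 : a k / a 0 - a (2 * k - 1) / a 0 = (a k - a (2 * k - 1)) / a 0 := by ring
        show (a k / a 0) ^ q + (a k / a 0 - a (2 * k - 1) / a 0) ^ q ≤ (a (k - 1) / a 0) ^ q
        rw [h3, Real.div_rpow (h0 k) ha.le, Real.div_rpow (by linarith) ha.le,
          Real.div_rpow (h0 _) ha.le, ← add_div]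
        exact div_le_div_of_nonneg_right h1 (Real.rpow_nonneg ha.le _)) (by
        intro k
        show a k / a 0 ≤ _
        rw [div_le_iff₀ ha]
        exact Hk k) k
    rw [← hB, ← hρ] at key
    have hsum : ∑ j ∈ Finset.range k, ρ ^ (j + 1) ≤ (1 - ρ)⁻¹ := by
      have h1 : ∑ j ∈ Finset.range k, ρ ^ (j + 1) ≤ ∑ j ∈ Finset.range k, ρ ^ j := by
        apply Finset.sum_le_sum
        intro j _
        exact pow_le_pow_of_le_one hρ0.le hρ1.le (Nat.le_succ j)
      refine h1.trans ?_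
      rw [← tsum_geometric_of_lt_one hρ0.le hρ1]
      exact (summable_geometric_of_lt_one hρ0.le hρ1).sum_le_tsum _ (fun j _ => by positivity)
    have key2 : (a k / a 0) ^ q * 2 ^ k ≤ Real.exp (B * (1 - ρ)⁻¹) :=
      key.trans (Real.exp_le_exp.2 (mul_le_mul_of_nonneg_left hsum hB0.le))
    have key3 : (a k / a 0) ^ q ≤ Real.exp (B * (1 - ρ)⁻¹) * (2 : ℝ) ^ (-(k : ℝ)) := by
      rw [Real.rpow_neg (by norm_num), Real.rpow_natCast, ← div_eq_mul_inv,
        le_div_iff₀ (by positivity)]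
      exact key2
    have key4 := Real.rpow_le_rpow (Real.rpow_nonneg (hr0 k) _) key3
      (by positivity : (0 : ℝ) ≤ 1 / q)
    rw [← Real.rpow_mul (hr0 k), mul_one_div_cancel hq0.ne', Real.rpow_one,
      Real.mul_rpow (Real.exp_pos _).le (by positivity), ← Real.exp_mul,
      ← Real.rpow_mul (by norm_num), div_le_iff₀ ha] at key4
    refine key4.trans (le_of_eq ?_)
    have e1 : B * (1 - ρ)⁻¹ * (1 / q) = B * (1 - ρ)⁻¹ / q := by ring
    have e2 : -(k : ℝ) * (1 / q) = -(k : ℝ) / q := by ring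
    rw [e1, e2]

end Pool.Agent.H197.SP
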