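import Mathlib
import Pool.Agent.H197.GS.Stm
import Pool.Agent.H197.PD.NORMS
set_option autoImplicit false

/-! # Project GS (helper197), task UNI: compact support in `U` and the norms (by helper612) -/

namespace Pool.Agent.H197.GS

open MeasureTheory Set Metric Complex Filter Topology
open Pool.Agent.H197.PD (E kap chi vec zet dec S_KAP S_RAND S_MEMLP)
open scoped ENNReal NNReal RealInnerProductSpace BigOperators ContDiff

theorem t_UNI (hC : S_COG) (hM : S_MEMLP) (hE : S_EXB) : S_UNI := by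
  intro d γ hd hγ U hU hUb c hc hexp
  obtain ⟨R, hR1, hUR⟩ : ∃ R : ℕ, 1 ≤ R ∧ U ⊆ closedBall 0 R := by
    obtain ⟨r, hr⟩ := hUb.subset_closedBall (0 : E d)
    refine ⟨max 1 ⌈r⌉₊, le_max_left _ _, hr.trans (closedBall_subset_closedBall ?_)⟩
    calc r ≤ (⌈r⌉₊ : ℝ) := Nat.le_ceil r
      _ ≤ ((max 1 ⌈r⌉₊ : ℕ) : ℝ) := by exact_mod_cast le_max_right _ _
  obtain ⟨C₀, hC₀, hmain⟩ := hC d γ hd hγ R c hR1 hc
  refine ⟨2 * C₀, by positivity, ?_⟩
  intro g hg M hM0 ε hε hε1 p₀ hp₀ η hη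
  have hvU : volume U ≠ ⊤ := hUb.measure_lt_top.ne
  have hε2 : ENNReal.ofReal (ε / 2) ≠ 0 := by
    rw [ne_eq, ENNReal.ofReal_eq_zero, not_le]
    positivity
  obtain ⟨K, hKU, hK, hKv⟩ := hU.measurableSet.exists_isCompact_sdiff_lt hvU hε2
  obtain ⟨U', hU'o, hKU', hU'c, hU'k⟩ := exists_open_between_and_isCompact_closure hK hU hKU
  have hU'U : U' ⊆ U := subset_closure.trans hU'c
  have hexp' : Expands γ U' c := fun y hy y' hy' => hexp y (hU'U hy) y' (hU'U hy')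
  have hn : 2 ≤ d + 1 := by omega
  have hcast : 2 * (((d + 1 : ℕ) : ℝ)) / (((d + 1 : ℕ) : ℝ) - 1) = 2 * ((d : ℝ) + 1) / d := by
    push_cast
    rw [add_sub_cancel_right]
  obtain ⟨δ, hδ, hδη, hsm⟩ := Pool.Agent.H197.PD.NORMS.small_norms hM hn (2 * C₀ * M / ε)
    (by positivity) p₀ (by rw [hcast]; exact hp₀) η hη
  obtain ⟨h, hc1, hz, hb, hvol, hdec, hsmall⟩ :=
    hmain U' hU'o (hU'U.trans hUR) hexp' g hg M hM0 (ε / 2) (by positivity) (by linarith) δ hδ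
  have eqC : C₀ * M / (ε / 2) = 2 * C₀ * M / ε := by field_simp
  rw [eqC] at hb hdec
  have hsupp : tsupport h ⊆ closure U' :=
    closure_mono (fun y hy => by
      by_contra hy'
      exact hy (hz y hy'))
  have hcs : HasCompactSupport h := hU'k.of_isClosed_subset (isClosed_tsupport h) hsupp
  have hint : Integrable h := hc1.integrable_of_hasCompactSupport hcs
  obtain ⟨L, hL, hLL⟩ := hE d γ hγ.continuous R
  obtain ⟨-, -, e3⟩ := hLL h hint (fun y hy => hz y (fun hyU => by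
    have h1 := hUR (hU'U hyU)
    rw [mem_closedBall, dist_zero_right] at h1
    linarith))
  refine ⟨h, hc1, hcs, hsupp.trans hU'c, hb, ?_, hdec, ?_, ?_⟩
  · have hs1 : {y | y ∈ U ∧ h y ≠ g y} ⊆ (U \ K) ∪ {y | y ∈ U' ∧ h y ≠ g y} := by
      rintro y ⟨hy1, hy2⟩
      by_cases hyK : y ∈ K
      · exact Or.inr ⟨hKU' hyK, hy2⟩
      · exact Or.inl ⟨hy1, hyK⟩
    have hs2 : {y | y ∈ U' ∧ M < ‖g y‖} ⊆ {y | y ∈ U ∧ M < ‖g y‖} :=
      fun y hy => ⟨hU'U hy.1, hy.2⟩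
    calc volume {y | y ∈ U ∧ h y ≠ g y}
        ≤ volume ((U \ K) ∪ {y | y ∈ U' ∧ h y ≠ g y}) := measure_mono hs1
      _ ≤ volume (U \ K) + volume {y | y ∈ U' ∧ h y ≠ g y} := measure_union_le _ _
      _ ≤ ENNReal.ofReal (ε / 2) +
          (ENNReal.ofReal (ε / 2) + volume {y | y ∈ U' ∧ M < ‖g y‖}) := add_le_add hKv.le hvol
      _ ≤ ENNReal.ofReal (ε / 2) +
          (ENNReal.ofReal (ε / 2) + volume {y | y ∈ U ∧ M < ‖g y‖}) :=
          add_le_add le_rfl (add_le_add le_rfl (measure_mono hs2))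
      _ = ENNReal.ofReal ε + volume {y | y ∈ U ∧ M < ‖g y‖} := by
          rw [← add_assoc, ← ENNReal.ofReal_add (by positivity) (by positivity), add_halves]
  · intro p hp
    exact hM (d + 1) hn (ex γ h) _ e3 hdec p (by rw [hcast]; exact hp)
  · intro r hr
    exact hsm (ex γ h) hdec hsmall r hr

end Pool.Agent.H197.GS
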